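import Pool.Agent.Lib.MP_226de1_co.K.GeoEqui

/-! Weighted area in polar coordinates. -/

set_option autoImplicit false

namespace EQK

open Complex Set Filter Topology MeasureTheory EQ2

variable {K : Set ℂ}

private theorem gw_mem {c : ℂ} (hc : Convex ℝ K) (hK : IsCompact K) (hi : c ∈ interior K) (w : ℂ) :
    w + c ∈ K ↔ gK K c w ≤ 1 := by
  unfold gK
  have h1 : Convex ℝ {z : ℂ | z + c ∈ K} := hc.translate_preimage_left c
  have h2 : {z : ℂ | z + c ∈ K} ∈ 𝓝 (0 : ℂ) := by
    have h3 : Continuous (fun z : ℂ => z + c) := by fun_prop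
    apply h3.continuousAt.preimage_mem_nhds
    simpa using mem_interior_iff_mem_nhds.mp hi
  have h3 : IsClosed {z : ℂ | z + c ∈ K} := hK.isClosed.preimage (by fun_prop)
  rw [gauge_le_one_iff_mem_closure h1 h2, h3.closure_eq]
  rfl

private theorem gw_inner {k : ℝ} (hk : 1 < k) (s ρ : ℝ) (hρ : 0 ≤ ρ) :
    ∫⁻ r in Ioi (0 : ℝ), (Iic ρ).indicator
      (fun r => ENNReal.ofReal r * ENNReal.ofReal (|r * s| ^ (k - 2))) r =
      ENNReal.ofReal (|s| ^ (k - 2) * (ρ ^ k / k)) := by
  rw [lintegral_indicator measurableSet_Iic, Measure.restrict_restrict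
    measurableSet_Iic, inter_comm, Ioi_inter_Iic]
  have h1 : ∫⁻ r in Ioc 0 ρ, ENNReal.ofReal r * ENNReal.ofReal (|r * s| ^ (k - 2)) =
      ∫⁻ r in Ioc 0 ρ, ENNReal.ofReal (|s| ^ (k - 2)) * ENNReal.ofReal (r ^ (k - 1)) := by
    refine setLIntegral_congr_fun measurableSet_Ioc fun r hr => ?_
    have hr0 : 0 < r := hr.1
    rw [← ENNReal.ofReal_mul hr0.le, ← ENNReal.ofReal_mul (by positivity)]
    congr 1
    rw [abs_mul, abs_of_pos hr0, Real.mul_rpow hr0.le (abs_nonneg _)]
    have h2 : r ^ (k - 1) = r * r ^ (k - 2) := by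
      rw [show k - 1 = 1 + (k - 2) by ring, Real.rpow_add hr0, Real.rpow_one]
    rw [h2]
    ring
  rw [h1, lintegral_const_mul _ (by fun_prop), ENNReal.ofReal_mul (by positivity)]
  congr 1
  rw [← ofReal_integral_eq_lintegral_ofReal]
  · rw [← intervalIntegral.integral_of_le hρ, integral_rpow (Or.inl (by linarith))]
    congr 1
    rw [sub_add_cancel, Real.zero_rpow (by linarith), sub_zero]
  · have : IntervalIntegrable (fun r : ℝ => r ^ (k - 1)) volume 0 ρ :=
      intervalIntegral.intervalIntegrable_rpow' (by linarith)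
    exact (intervalIntegrable_iff_integrableOn_Ioc_of_le hρ).mp this
  · filter_upwards [ae_restrict_mem measurableSet_Ioc] with r hr
    exact Real.rpow_nonneg hr.1.le _

/-- polar coordinates about the real point `x` (compare `EQ2.area_polar`):
`z = x + ρ e^{iθ}`, `|Im z|^(k-2) ρ dρ dθ`, `∫_0^ρ₀ ρ^(k-1) dρ = ρ₀^k / k`, `ρ₀ = 1/gK K x (e^{iθ})` -/
theorem wlint_polar {k : ℝ} (hk : 1 < k) (hc : Convex ℝ K) (hK : IsCompact K) {x : ℝ}
    (hi : (x : ℂ) ∈ interior K) :
    ∫⁻ z in K, ENNReal.ofReal (|z.im| ^ (k - 2)) =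
      ∫⁻ θ in Ioo (-Real.pi) Real.pi, ENNReal.ofReal (|Real.sin θ| ^ (k - 2) *
        ((1 / gK K (x : ℂ) (Complex.exp (θ * Complex.I))) ^ k / k)) := by
  have hgc := gK_continuous hc hi
  have hexp : ∀ θ : ℝ, Complex.exp (θ * Complex.I) ≠ 0 := fun θ => Complex.exp_ne_zero _
  have hpos : ∀ θ : ℝ, 0 < gK K (x : ℂ) (Complex.exp (θ * Complex.I)) :=
    fun θ => gK_pos hK hi (hexp θ)
  have hs : MeasurableSet {z : ℂ | z + (x : ℂ) ∈ K} :=
    (hK.isClosed.preimage (by fun_prop : Continuous fun z : ℂ => z + (x : ℂ))).measurableSet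
  have hF : Measurable (fun z : ℂ => ENNReal.ofReal (|z.im| ^ (k - 2))) :=
    ENNReal.measurable_ofReal.comp
      ((continuous_abs.measurable.comp Complex.measurable_im).pow_const _)
  set f : ℂ → ENNReal := ({z : ℂ | z + (x : ℂ) ∈ K}).indicator
    (fun z => ENNReal.ofReal (|z.im| ^ (k - 2))) with hf
  have hfm : Measurable f := hF.indicator hs
  have hlin : ∫⁻ z in K, ENNReal.ofReal (|z.im| ^ (k - 2)) = ∫⁻ z, f z := by
    rw [← lintegral_indicator hK.measurableSet, ← lintegral_add_right_eq_self _ (x : ℂ)]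
    refine lintegral_congr fun z => ?_
    by_cases h : z + (x : ℂ) ∈ K
    · rw [indicator_of_mem h, hf, indicator_of_mem (show z ∈ {z : ℂ | z + (x : ℂ) ∈ K} from h)]
      rw [Complex.add_im, Complex.ofReal_im, add_zero]
    · rw [indicator_of_notMem h, hf,
        indicator_of_notMem (show z ∉ {z : ℂ | z + (x : ℂ) ∈ K} from h)]
  have hmeas : Measurable (fun p : ℝ × ℝ => ENNReal.ofReal p.1 •
      f (Complex.polarCoord.symm p)) := by
    apply Measurable.fun_smul
    · exact ENNReal.measurable_ofReal.comp measurable_fst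
    · apply hfm.comp
      have : Continuous (fun p : ℝ × ℝ => Complex.polarCoord.symm p) := by
        simp only [Complex.polarCoord_symm_apply]
        fun_prop
      exact this.measurable
  rw [hlin, ← Complex.lintegral_comp_polarCoord_symm]
  have htar : polarCoord.target = Ioi (0 : ℝ) ×ˢ Ioo (-Real.pi) Real.pi := rfl
  rw [htar, Measure.volume_eq_prod, ← Measure.prod_restrict,
    lintegral_prod_symm _ hmeas.aemeasurable]
  refine lintegral_congr fun θ => ?_
  rw [← gw_inner hk (Real.sin θ) _ (by have := hpos θ; positivity)]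
  refine setLIntegral_congr_fun measurableSet_Ioi fun r hr => ?_
  have hr' : (0 : ℝ) < r := hr
  simp only [smul_eq_mul]
  have h2 : Complex.polarCoord.symm (r, θ) = (r : ℂ) * Complex.exp (θ * Complex.I) := by
    rw [Complex.polarCoord_symm_apply, Complex.exp_mul_I]
    push_cast
    rfl
  have h3 : Complex.polarCoord.symm (r, θ) ∈ {z : ℂ | z + (x : ℂ) ∈ K} ↔
      r ∈ Iic (1 / gK K (x : ℂ) (Complex.exp (θ * Complex.I))) := by
    rw [mem_ofPred_eq, gw_mem hc hK hi, h2, gK_smul r hr'.le, mem_Iic, le_div_iff₀ (hpos θ)]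
  have h4 : (Complex.polarCoord.symm (r, θ)).im = r * Real.sin θ := by
    rw [h2, Complex.im_ofReal_mul, Complex.exp_ofReal_mul_I_im]
  by_cases h : r ∈ Iic (1 / gK K (x : ℂ) (Complex.exp (θ * Complex.I)))
  · rw [hf, indicator_of_mem h, indicator_of_mem (h3.mpr h), h4]
  · rw [hf, indicator_of_notMem h, indicator_of_notMem (fun h' => h (h3.mp h')), mul_zero]

end EQK
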