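import Mathlib

/-! Isometric embedding of the plane (copied from the `k = 2` files). -/

set_option autoImplicit false

namespace EQK

open Set

/-- isometric affine embedding `φ : ℂ → E`, `φ (-a) = p`, `φ a = q`, `a = dist p q / 2`:
`φ z = (p+q)/2 + z.re • e₁ + z.im • e₂`, `e₁ = (q-p)/‖q-p‖`, `e₂` a unit vector orthogonal to
`e₁` (exists as `2 ≤ d`). -/
theorem exists_embedding {d : ℕ} (hd : 2 ≤ d) {p q : EuclideanSpace ℝ (Fin d)} (hpq : p ≠ q) :
    ∃ φ : ℂ →ᵃ[ℝ] EuclideanSpace ℝ (Fin d), Isometry φ ∧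
      φ ((-(dist p q / 2) : ℝ) : ℂ) = p ∧ φ ((dist p q / 2 : ℝ) : ℂ) = q := by
  have hn : 0 < ‖q - p‖ := norm_pos_iff.mpr (sub_ne_zero.mpr hpq.symm)
  have hd' : dist p q = ‖q - p‖ := by rw [dist_comm, dist_eq_norm]
  obtain ⟨e₁, he₁⟩ : ∃ e₁ : EuclideanSpace ℝ (Fin d), e₁ = ‖q - p‖⁻¹ • (q - p) := ⟨_, rfl⟩
  have h1 : ‖e₁‖ = 1 := by
    rw [he₁, norm_smul, norm_inv, norm_norm, inv_mul_cancel₀ hn.ne']
  obtain ⟨e₂, h2, h12⟩ : ∃ e₂ : EuclideanSpace ℝ (Fin d), ‖e₂‖ = 1 ∧ inner ℝ e₁ e₂ = 0 := by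
    have hbot : (Submodule.span ℝ {e₁})ᗮ ≠ ⊥ := by
      intro hb
      have h3 := Submodule.finrank_add_finrank_orthogonal (Submodule.span ℝ {e₁})
      rw [hb, finrank_bot, add_zero, finrank_euclideanSpace_fin] at h3
      have h4 : Module.finrank ℝ (Submodule.span ℝ {e₁}) ≤ 1 :=
        (finrank_span_le_card ({e₁} : Set (EuclideanSpace ℝ (Fin d)))).trans (by simp)
      omega
    obtain ⟨w, hw, hw0⟩ := Submodule.exists_mem_ne_zero_of_ne_bot hbot
    have hwn : 0 < ‖w‖ := norm_pos_iff.mpr hw0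
    refine ⟨‖w‖⁻¹ • w, ?_, ?_⟩
    · rw [norm_smul, norm_inv, norm_norm, inv_mul_cancel₀ hwn.ne']
    · have h5 : inner ℝ e₁ w = 0 :=
        (Submodule.mem_orthogonal _ w).1 hw e₁ (Submodule.mem_span_singleton_self e₁)
      rw [inner_smul_right, h5, mul_zero]
  have hLn : ∀ z : ℂ, ‖z.re • e₁ + z.im • e₂‖ = ‖z‖ := by
    intro z
    have h6 : ‖z.re • e₁ + z.im • e₂‖ ^ 2 = ‖z‖ ^ 2 := by
      rw [norm_add_sq_real, norm_smul, norm_smul, h1, h2, inner_smul_left, inner_smul_right, h12,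
        ← Complex.normSq_eq_norm_sq, Complex.normSq_apply]
      simp only [mul_one, mul_zero, add_zero, Real.norm_eq_abs, sq_abs]
      ring
    exact (pow_left_inj₀ (norm_nonneg _) (norm_nonneg _) two_ne_zero).1 h6
  let L : ℂ →ₗ[ℝ] EuclideanSpace ℝ (Fin d) :=
    { toFun := fun z => z.re • e₁ + z.im • e₂
      map_add' := by
        intro x y
        simp only [Complex.add_re, Complex.add_im, add_smul]
        abel
      map_smul' := by
        intro r x
        simp only [Complex.smul_re, Complex.smul_im, smul_eq_mul, RingHom.id_apply, smul_add,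
          mul_smul] }
  let φ : ℂ →ᵃ[ℝ] EuclideanSpace ℝ (Fin d) :=
    { toFun := fun z => L z + (1 / 2 : ℝ) • (p + q)
      linear := L
      map_vadd' := by
        intro x v
        simp only [vadd_eq_add, map_add]
        abel }
  have hφ : ∀ z, φ z = z.re • e₁ + z.im • e₂ + (1 / 2 : ℝ) • (p + q) := fun z => rfl
  have hae : ∀ r : ℝ, (r * (dist p q / 2)) • e₁ = (r / 2) • (q - p) := by
    intro r
    rw [he₁, hd', smul_smul]
    congr 1
    field_simp
  refine ⟨φ, Isometry.of_dist_eq fun x y => ?_, ?_, ?_⟩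
  · have h7 : φ x - φ y = (x - y).re • e₁ + (x - y).im • e₂ := by
      rw [hφ, hφ, Complex.sub_re, Complex.sub_im, sub_smul, sub_smul]
      abel
    rw [dist_eq_norm, h7, hLn, dist_eq_norm]
  · rw [hφ]
    simp only [Complex.ofReal_re, Complex.ofReal_im, zero_smul, add_zero]
    have h8 := hae (-1)
    rw [neg_one_mul] at h8
    rw [h8]
    module
  · rw [hφ]
    simp only [Complex.ofReal_re, Complex.ofReal_im, zero_smul, add_zero]
    have h8 := hae 1
    rw [one_mul] at h8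
    rw [h8]
    module

end EQK
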