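import Pool.Agent.Lib.MP_226de1_co.K.Shadow1

/-! The step near the saddle `(1,0)` for `k > 1`. -/

set_option autoImplicit false

namespace EQK

open Set Filter Topology

private theorem nsr_Dm_one {k μ : ℝ} (hμ : 1 < μ) : Dm k μ 1 := by
  refine ⟨one_pos, ?_⟩
  rw [Real.one_rpow]
  unfold cc
  have : 0 < μ ^ k := Real.rpow_pos_of_pos (by linarith) k
  linarith

private theorem nsr_lam_one {k μ : ℝ} (hk : 1 < k) (hμ : 1 < μ) : lam k μ 1 = μ := by
  unfold lam cc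
  rw [Real.one_rpow, mul_one, add_sub_cancel_left, ← Real.rpow_mul (by linarith),
    mul_one_div_cancel (by linarith), Real.rpow_one]

/-- local data in the variable `R` -/
private theorem nsr_local {k μ : ℝ} (hk : 1 < k) (hμ : 1 < μ) {τ : ℝ} (hτ : 0 < τ) :
    ∃ η > 0, ∀ R, |R - 1| ≤ η → Dm k μ R ∧ |lam k μ R - μ| ≤ τ ∧
      |(-(lam k μ R / (2 * R)) * (1 + lam k μ R ^ (-k))) - (-(μ / 2) * (1 + μ ^ (-k)))| ≤ τ := by
  have hk0 : 0 < k := by linarith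
  have hd1 := nsr_Dm_one (k := k) hμ
  have hl1 := nsr_lam_one hk hμ
  have hc : ContinuousAt (lam k μ) 1 := lam_continuousAt hk0 hd1
  have hcD : ContinuousAt (fun R => -(lam k μ R / (2 * R)) * (1 + lam k μ R ^ (-k))) 1 := by
    refine ContinuousAt.mul ?_ ?_
    · refine ContinuousAt.neg (ContinuousAt.div hc (by fun_prop) (by norm_num))
    · refine ContinuousAt.add continuousAt_const ?_
      refine ContinuousAt.rpow_const hc (Or.inl ?_)
      rw [hl1]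
      linarith
  have hDm : ∀ᶠ R in 𝓝 (1 : ℝ), Dm k μ R := by
    have h1 : ∀ᶠ R in 𝓝 (1 : ℝ), 0 < R := lt_mem_nhds one_pos
    have h2 : ContinuousAt (fun R : ℝ => R ^ (k / 2)) 1 :=
      Real.continuousAt_rpow_const 1 (k / 2) (Or.inl one_ne_zero)
    have h3 : ∀ᶠ R in 𝓝 (1 : ℝ), R ^ (k / 2) < cc k μ := h2.eventually (gt_mem_nhds hd1.2)
    filter_upwards [h1, h3] with R hR1 hR2
    exact ⟨hR1, hR2⟩
  have e1 : ∀ᶠ R in 𝓝 (1 : ℝ), |lam k μ R - μ| ≤ τ := by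
    have := hc.eventually (Metric.closedBall_mem_nhds _ hτ)
    filter_upwards [this] with R hR
    rw [hl1, Real.dist_eq] at hR
    exact hR
  have e2 : ∀ᶠ R in 𝓝 (1 : ℝ),
      |(-(lam k μ R / (2 * R)) * (1 + lam k μ R ^ (-k))) - (-(μ / 2) * (1 + μ ^ (-k)))| ≤ τ := by
    have := hcD.eventually (Metric.closedBall_mem_nhds _ hτ)
    filter_upwards [this] with R hR
    rw [Real.dist_eq, hl1, mul_one] at hR
    exact hR
  obtain ⟨η, hη, h⟩ := Metric.eventually_nhds_iff.1 (hDm.and (e1.and e2))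
  refine ⟨η / 2, by positivity, fun R hR => ?_⟩
  exact h (by rw [Real.dist_eq]; linarith)

/-- For `k > 1` the step is a map of type `NS`: with `lam' = d lam/dR` (`lam_hasDerivAt`, continuous),
`d/dX (lam X) = lam + 2X² lam' → μ - (μ + μ^(1-k)) = -μ^(1-k)` at `(1,0)` (here `lam = μ`), of modulus
`< 1`; take `κ` between `μ^(1-k)` and `1`, change first `X` at fixed `Y` (mean value inequality), then
`Y` (`lam` is Lipschitz in `R`, `|Y₁² - Y₂²| = (|Y₁|+|Y₂|)|Y₁-Y₂|`).  `θ` between `1` and `μ`. -/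
theorem NS_TT {k μ : ℝ} (hk : 1 < k) (hμ : 1 < μ) : ∃ ε κ L θ : ℝ,
    NS (TT k μ) (fun V => lam k μ (RR V)) ε κ L θ ∧ ∀ V, Bx ε V → Dm k μ (RR V) := by
  have hk0 : 0 < k := by linarith
  have hμ0 : 0 < μ := by linarith
  obtain ⟨D1, hD1⟩ : ∃ D1 : ℝ, D1 = -(μ / 2) * (1 + μ ^ (-k)) := ⟨_, rfl⟩
  obtain ⟨D, hD⟩ : ∃ D : ℝ → ℝ, D = fun R => -(lam k μ R / (2 * R)) * (1 + lam k μ R ^ (-k)) := ⟨_, rfl⟩
  -- the value of the derivative at the saddle
  obtain ⟨q, hq⟩ : ∃ q : ℝ, q = μ ^ (1 - k) := ⟨_, rfl⟩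
  have hq0 : 0 < q := by rw [hq]; exact Real.rpow_pos_of_pos hμ0 _
  have hq1 : q < 1 := by
    rw [hq]
    exact Real.rpow_lt_one_of_one_lt_of_neg hμ (by linarith)
  have hG : μ + 2 * D1 = -q := by
    have : μ * μ ^ (-k) = μ ^ (1 - k) := by
      rw [sub_eq_add_neg, Real.rpow_add hμ0, Real.rpow_one]
    rw [hD1, hq, ← this]
    ring
  -- the size of the error
  obtain ⟨B, hB⟩ : ∃ B : ℝ, B = |D1| + 1 := ⟨_, rfl⟩
  have hB1 : 1 ≤ B := by rw [hB]; linarith [abs_nonneg D1]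
  obtain ⟨τ, hτ⟩ : ∃ τ : ℝ, τ = min ((1 - q) / 8) (min ((μ - 1) / 2) 1) := ⟨_, rfl⟩
  have hτ0 : 0 < τ := by
    rw [hτ]
    exact lt_min (by linarith) (lt_min (by linarith) one_pos)
  have hτ1 : τ ≤ (1 - q) / 8 := by rw [hτ]; exact min_le_left _ _
  have hτ2 : τ ≤ (μ - 1) / 2 := by rw [hτ]; exact (min_le_right _ _).trans (min_le_left _ _)
  have hτ3 : τ ≤ 1 := by rw [hτ]; exact (min_le_right _ _).trans (min_le_right _ _)
  obtain ⟨η, hη0, hη⟩ := nsr_local hk hμ hτ0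
  obtain ⟨ε, hε⟩ : ∃ ε : ℝ, ε = min (η / 4) (min ((1 - q) / (48 * B)) (1 / 2)) := ⟨_, rfl⟩
  have hε0 : 0 < ε := by
    rw [hε]
    refine lt_min (by positivity) (lt_min ?_ (by norm_num))
    exact div_pos (by linarith) (by positivity)
  have hε1 : ε ≤ η / 4 := by rw [hε]; exact min_le_left _ _
  have hε2 : ε ≤ (1 - q) / (48 * B) := by rw [hε]; exact (min_le_right _ _).trans (min_le_left _ _)
  have hε3 : ε ≤ 1 / 2 := by rw [hε]; exact (min_le_right _ _).trans (min_le_right _ _)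
  have hεB : 6 * B * ε ≤ (1 - q) / 8 := by
    rw [le_div_iff₀ (by positivity)] at hε2
    linarith
  -- points of the box
  have hRR : ∀ x y : ℝ, |x - 1| ≤ ε → |y| ≤ ε → |x ^ 2 + y ^ 2 - 1| ≤ η := by
    intro x y hx hy
    rw [abs_le] at hx hy ⊢
    constructor <;> nlinarith
  have hDer : ∀ R, |R - 1| ≤ η → HasDerivAt (lam k μ) (D R) R := by
    intro R hR
    rw [hD]
    exact lam_hasDerivAt hk0 (hη R hR).1
  have hDb : ∀ R, |R - 1| ≤ η → |D R - D1| ≤ τ := by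
    intro R hR
    rw [hD, hD1]
    exact (hη R hR).2.2
  have hDB : ∀ R, |R - 1| ≤ η → |D R| ≤ B := by
    intro R hR
    have h1 := hDb R hR
    have h2 : |D R| ≤ |D R - D1| + |D1| := by
      have := abs_add_le (D R - D1) D1
      rwa [sub_add_cancel] at this
    rw [hB]
    linarith
  have hconv : Convex ℝ {R : ℝ | |R - 1| ≤ η} := by
    have : {R : ℝ | |R - 1| ≤ η} = Metric.closedBall 1 η := by
      ext R
      rw [Metric.mem_closedBall, Real.dist_eq]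
      rfl
    rw [this]
    exact convex_closedBall _ _
  have hLip : ∀ R R' : ℝ, |R - 1| ≤ η → |R' - 1| ≤ η → |lam k μ R - lam k μ R'| ≤ B * |R - R'| := by
    intro R R' hR hR'
    have := hconv.norm_image_sub_le_of_norm_hasDerivWithin_le (f := lam k μ) (f' := D) (C := B)
      (fun x hx => (hDer x hx).hasDerivWithinAt) (fun x hx => by
        rw [Real.norm_eq_abs]; exact hDB x hx) (show R' ∈ _ from hR') (show R ∈ _ from hR)
    rwa [Real.norm_eq_abs, Real.norm_eq_abs] at this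
  have hconvX : Convex ℝ {x : ℝ | |x - 1| ≤ ε} := by
    have : {x : ℝ | |x - 1| ≤ ε} = Metric.closedBall 1 ε := by
      ext R
      rw [Metric.mem_closedBall, Real.dist_eq]
      rfl
    rw [this]
    exact convex_closedBall _ _
  obtain ⟨κ, hκ⟩ : ∃ κ : ℝ, κ = (1 + q) / 2 := ⟨_, rfl⟩
  have hX : ∀ x x' y : ℝ, |x - 1| ≤ ε → |x' - 1| ≤ ε → |y| ≤ ε →
      |lam k μ (x ^ 2 + y ^ 2) * x - lam k μ (x' ^ 2 + y ^ 2) * x'| ≤ κ * |x - x'| := by
    intro x x' y hx hx' hy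
    have hd : ∀ t ∈ {t : ℝ | |t - 1| ≤ ε}, HasDerivWithinAt (fun t => lam k μ (t ^ 2 + y ^ 2) * t)
        (D (t ^ 2 + y ^ 2) * (2 * t) * t + lam k μ (t ^ 2 + y ^ 2)) {t : ℝ | |t - 1| ≤ ε} t := by
      intro t ht
      have h1 : HasDerivAt (fun t : ℝ => t ^ 2 + y ^ 2) (2 * t) t := by
        have := (hasDerivAt_pow 2 t).add_const (y ^ 2)
        simpa using this
      have h2 := (hDer _ (hRR t y ht hy)).comp t h1
      have h3 := h2.mul (hasDerivAt_id t)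
      have h4 : HasDerivAt (fun t => lam k μ (t ^ 2 + y ^ 2) * t)
          (D (t ^ 2 + y ^ 2) * (2 * t) * t + lam k μ (t ^ 2 + y ^ 2) * 1) t := h3
      rw [mul_one] at h4
      exact h4.hasDerivWithinAt
    have hb : ∀ t ∈ {t : ℝ | |t - 1| ≤ ε}, ‖D (t ^ 2 + y ^ 2) * (2 * t) * t + lam k μ (t ^ 2 + y ^ 2)‖ ≤ κ := by
      intro t ht
      have hR := hRR t y ht hy
      have h1 := (hη _ hR).2.1
      have h2 := hDb _ hR
      have h3 := hDB _ hR
      have ht' : |t - 1| ≤ ε := ht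
      rw [Real.norm_eq_abs]
      have e : D (t ^ 2 + y ^ 2) * (2 * t) * t + lam k μ (t ^ 2 + y ^ 2) =
          (μ + 2 * D1) + ((lam k μ (t ^ 2 + y ^ 2) - μ) + 2 * (D (t ^ 2 + y ^ 2) - D1) +
            2 * D (t ^ 2 + y ^ 2) * ((t - 1) * (t + 1))) := by ring
      rw [e, hG]
      have h4 : |(t - 1) * (t + 1)| ≤ 3 * ε := by
        rw [abs_mul]
        have : |t + 1| ≤ 3 := by
          rw [abs_le] at ht' ⊢
          constructor <;> linarith
        nlinarith [abs_nonneg (t - 1), abs_nonneg (t + 1)]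
      have h5 : |2 * D (t ^ 2 + y ^ 2) * ((t - 1) * (t + 1))| ≤ 6 * B * ε := by
        rw [abs_mul, abs_mul, abs_two]
        have := mul_le_mul h3 h4 (abs_nonneg _) (by linarith)
        nlinarith
      have h6 : |2 * (D (t ^ 2 + y ^ 2) - D1)| ≤ 2 * τ := by
        rw [abs_mul, abs_two]
        linarith
      have h7 := abs_add_le (-q) ((lam k μ (t ^ 2 + y ^ 2) - μ) + 2 * (D (t ^ 2 + y ^ 2) - D1) +
            2 * D (t ^ 2 + y ^ 2) * ((t - 1) * (t + 1)))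
      have h8 := abs_add_le ((lam k μ (t ^ 2 + y ^ 2) - μ) + 2 * (D (t ^ 2 + y ^ 2) - D1))
        (2 * D (t ^ 2 + y ^ 2) * ((t - 1) * (t + 1)))
      have h9 := abs_add_le (lam k μ (t ^ 2 + y ^ 2) - μ) (2 * (D (t ^ 2 + y ^ 2) - D1))
      have h10 : |(-q)| = q := by rw [abs_neg, abs_of_pos hq0]
      rw [hκ]
      linarith
    have := hconvX.norm_image_sub_le_of_norm_hasDerivWithin_le hd hb (show x' ∈ _ from hx') (show x ∈ _ from hx)
    rw [Real.norm_eq_abs, Real.norm_eq_abs] at this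
    exact this
  refine ⟨ε, κ, 4 * B, (1 + μ) / 2, ⟨hε0, ?_, ?_, by linarith, by linarith, ?_, ?_, ?_, ?_⟩, ?_⟩
  · rw [hκ]; linarith
  · rw [hκ]; linarith
  · -- T1
    rintro ⟨x, y⟩ ⟨x', y'⟩ ⟨hx, hy⟩ ⟨hx', hy'⟩
    show |(lam k μ (x ^ 2 + y ^ 2) * x - (μ - 1)) - (lam k μ (x' ^ 2 + y' ^ 2) * x' - (μ - 1))| ≤
      κ * |x - x'| + 4 * B * ((|y| + |y'|) * |y - y'|)
    simp only at hx hy hx' hy'
    have h1 := hX x x' y hx hx' hy
    have h2 := hLip (x' ^ 2 + y ^ 2) (x' ^ 2 + y' ^ 2) (hRR x' y hx' hy) (hRR x' y' hx' hy')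
    have h3 : x' ^ 2 + y ^ 2 - (x' ^ 2 + y' ^ 2) = (y + y') * (y - y') := by ring
    rw [h3, abs_mul] at h2
    have h4 : |y + y'| ≤ |y| + |y'| := abs_add_le _ _
    have h5 : |x'| ≤ 2 := by
      rw [abs_le] at hx' ⊢
      constructor <;> linarith
    have h6 : |lam k μ (x' ^ 2 + y ^ 2) * x' - lam k μ (x' ^ 2 + y' ^ 2) * x'| ≤
        4 * B * ((|y| + |y'|) * |y - y'|) := by
      rw [← sub_mul, abs_mul]
      have h7 : |y + y'| * |y - y'| ≤ (|y| + |y'|) * |y - y'| :=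
        mul_le_mul_of_nonneg_right h4 (abs_nonneg _)
      have h8 : |lam k μ (x' ^ 2 + y ^ 2) - lam k μ (x' ^ 2 + y' ^ 2)| ≤ B * ((|y| + |y'|) * |y - y'|) :=
        h2.trans (mul_le_mul_of_nonneg_left h7 (by linarith))
      have h9 : 0 ≤ B * ((|y| + |y'|) * |y - y'|) := by positivity
      have h10 := mul_le_mul h8 h5 (abs_nonneg _) h9
      nlinarith
    have e : (lam k μ (x ^ 2 + y ^ 2) * x - (μ - 1)) - (lam k μ (x' ^ 2 + y' ^ 2) * x' - (μ - 1)) =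
        (lam k μ (x ^ 2 + y ^ 2) * x - lam k μ (x' ^ 2 + y ^ 2) * x') +
        (lam k μ (x' ^ 2 + y ^ 2) * x' - lam k μ (x' ^ 2 + y' ^ 2) * x') := by ring
    rw [e]
    exact (abs_add_le _ _).trans (add_le_add h1 h6)
  · intro V _
    rfl
  · rintro ⟨x, y⟩ ⟨hx, hy⟩
    have h1 := (hη _ (hRR x y hx hy)).2.1
    show (1 + μ) / 2 ≤ lam k μ (x ^ 2 + y ^ 2)
    rw [abs_le] at h1
    linarith
  · rintro ⟨x, y⟩ ⟨x', y'⟩ ⟨hx, hy⟩ ⟨hx', hy'⟩
    show |lam k μ (x ^ 2 + y ^ 2) - lam k μ (x' ^ 2 + y' ^ 2)| ≤ 4 * B * (|x - x'| + |y - y'|)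
    simp only at hx hy hx' hy'
    have h2 := hLip (x ^ 2 + y ^ 2) (x' ^ 2 + y' ^ 2) (hRR x y hx hy) (hRR x' y' hx' hy')
    have h3 : x ^ 2 + y ^ 2 - (x' ^ 2 + y' ^ 2) = (x + x') * (x - x') + (y + y') * (y - y') := by ring
    rw [h3] at h2
    have h4 : |x + x'| ≤ 4 := by
      rw [abs_le] at hx hx' ⊢
      constructor <;> linarith
    have h5 : |y + y'| ≤ 4 := by
      rw [abs_le] at hy hy' ⊢
      constructor <;> linarith
    have h6 : |(x + x') * (x - x') + (y + y') * (y - y')| ≤ 4 * |x - x'| + 4 * |y - y'| := by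
      refine (abs_add_le _ _).trans ?_
      rw [abs_mul, abs_mul]
      exact add_le_add (mul_le_mul_of_nonneg_right h4 (abs_nonneg _))
        (mul_le_mul_of_nonneg_right h5 (abs_nonneg _))
    have h7 := mul_le_mul_of_nonneg_left h6 (show (0:ℝ) ≤ B by linarith)
    linarith
  · rintro ⟨x, y⟩ ⟨hx, hy⟩
    exact (hη _ (hRR x y hx hy)).1

end EQK
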