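import Pool.Agent.Lib.MP_226de1_co.K.GeoSys

/-! Limits, and the `LineSys` of a body (compare `EQ2.GeoSys2`). -/

set_option autoImplicit false

namespace EQK

open Complex Set Filter Topology EQ2

variable {k : ℝ} {K : Set ℂ} {a c₁ c₂ : ℝ}

private theorem kgs2_den : Tendsto (fun q : ℝ => 1 / (1 + q ^ 2)) atTop (𝓝 0) := by
  simp only [one_div]
  apply Tendsto.inv_tendsto_atTop
  exact tendsto_atTop_add_const_left _ _ (tendsto_pow_atTop two_ne_zero)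

private theorem kgs2_top1 : Tendsto (fun q : ℝ => 1 / Real.sqrt (1 + q ^ 2)) atTop (𝓝 0) := by
  have h := (Real.continuous_sqrt.tendsto 0).comp kgs2_den
  rw [Real.sqrt_zero] at h
  refine h.congr fun q => ?_
  simp [Function.comp]

private theorem kgs2_top2 : Tendsto (fun q : ℝ => q / Real.sqrt (1 + q ^ 2)) atTop (𝓝 1) := by
  have h0 : Tendsto (fun q : ℝ => 1 - 1 / (1 + q ^ 2)) atTop (𝓝 1) := by
    simpa using (tendsto_const_nhds (x := (1 : ℝ))).sub kgs2_den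
  have h := (Real.continuous_sqrt.tendsto 1).comp h0
  rw [Real.sqrt_one] at h
  refine h.congr' ?_
  filter_upwards [eventually_gt_atTop (0 : ℝ)] with q hq
  simp only [Function.comp]
  have hpos : (0 : ℝ) < 1 + q ^ 2 := by positivity
  have e : 1 - 1 / (1 + q ^ 2) = q ^ 2 / (1 + q ^ 2) := by
    field_simp
    ring
  rw [e, Real.sqrt_div (by positivity), Real.sqrt_sq hq.le]

private theorem kgs2_bot1 : Tendsto (fun q : ℝ => 1 / Real.sqrt (1 + q ^ 2)) atBot (𝓝 0) := by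
  have h := kgs2_top1.comp tendsto_neg_atBot_atTop
  refine h.congr fun q => ?_
  simp [Function.comp]

private theorem kgs2_bot2 : Tendsto (fun q : ℝ => q / Real.sqrt (1 + q ^ 2)) atBot (𝓝 (-1)) := by
  have h := (kgs2_top2.comp tendsto_neg_atBot_atTop).neg
  refine h.congr fun q => ?_
  simp only [Function.comp, neg_sq]
  ring

private theorem kgs2_dir {l : Filter ℝ} {e : ℝ}
    (h1 : Tendsto (fun q : ℝ => 1 / Real.sqrt (1 + q ^ 2)) l (𝓝 0))
    (h2 : Tendsto (fun q : ℝ => q / Real.sqrt (1 + q ^ 2)) l (𝓝 e)) :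
    Tendsto (fun q : ℝ => ((q / Real.sqrt (1 + q ^ 2) : ℝ) : ℂ)
      + ((1 / Real.sqrt (1 + q ^ 2) : ℝ) : ℂ) * I) l (𝓝 (e : ℂ)) := by
  have h3 := (Complex.continuous_ofReal.tendsto e).comp h2
  have h4 := ((Complex.continuous_ofReal.tendsto 0).comp h1).mul_const I
  have h5 := h3.add h4
  simpa [Function.comp] using h5

private theorem kgs2_vec (q : ℝ) : (⟨q, 1⟩ : ℂ) = ((Real.sqrt (1 + q ^ 2) : ℝ) : ℂ) *
    (((q / Real.sqrt (1 + q ^ 2) : ℝ) : ℂ) + ((1 / Real.sqrt (1 + q ^ 2) : ℝ) : ℂ) * I) := by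
  have hpos : Real.sqrt (1 + q ^ 2) ≠ 0 := (Real.sqrt_pos.2 (by positivity)).ne'
  apply Complex.ext
  · simp
    field_simp
  · simp
    field_simp

/-- the general limit -/
private theorem kgs2_lim {K : Set ℂ} {c : ℂ} (hc : Convex ℝ K) (hi : c ∈ interior K)
    {l : Filter ℝ} {a r e σ : ℝ} (ha : 0 < a) (hr : 0 < r)
    (h1 : Tendsto (fun q : ℝ => 1 / Real.sqrt (1 + q ^ 2)) l (𝓝 0))
    (h2 : Tendsto (fun q : ℝ => q / Real.sqrt (1 + q ^ 2)) l (𝓝 e))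
    (hg : gK K c ((σ : ℂ) * (e : ℂ)) = 1 / r) :
    Tendsto (fun q : ℝ => Real.sqrt (1 + q ^ 2) / (2 * a * gK K c ((σ : ℂ) * ⟨q, 1⟩))) l
      (𝓝 (r / (2 * a))) := by
  have h3 := (kgs2_dir h1 h2).const_mul (σ : ℂ)
  have h4 := ((gK_continuous hc hi).tendsto ((σ : ℂ) * (e : ℂ))).comp h3
  rw [hg] at h4
  have h5 : Tendsto (fun q : ℝ => 1 / (2 * a *
      (gK K c ((σ : ℂ) * (((q / Real.sqrt (1 + q ^ 2) : ℝ) : ℂ)
        + ((1 / Real.sqrt (1 + q ^ 2) : ℝ) : ℂ) * I))))) l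
      (𝓝 (1 / (2 * a * (1 / r)))) := by
    apply Tendsto.div tendsto_const_nhds
    · exact h4.const_mul _
    · positivity
  have e1 : 1 / (2 * a * (1 / r)) = r / (2 * a) := by
    field_simp
  rw [e1] at h5
  refine h5.congr fun q => ?_
  have hpos : (0 : ℝ) < Real.sqrt (1 + q ^ 2) := Real.sqrt_pos.2 (by positivity)
  have e2 : gK K c ((σ : ℂ) * ⟨q, 1⟩) = Real.sqrt (1 + q ^ 2) *
      gK K c ((σ : ℂ) * (((q / Real.sqrt (1 + q ^ 2) : ℝ) : ℂ)
        + ((1 / Real.sqrt (1 + q ^ 2) : ℝ) : ℂ) * I)) := by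
    rw [kgs2_vec q, ← gK_smul _ (Real.sqrt_nonneg _)]
    congr 1
    ring
  rw [e2]
  set g := gK K c ((σ : ℂ) * (((q / Real.sqrt (1 + q ^ 2) : ℝ) : ℂ)
        + ((1 / Real.sqrt (1 + q ^ 2) : ℝ) : ℂ) * I)) with hgdef
  have e3 : 2 * a * (Real.sqrt (1 + q ^ 2) * g) = Real.sqrt (1 + q ^ 2) * (2 * a * g) := by
    ring
  rw [e3]
  have e4 := mul_div_mul_left 1 (2 * a * g) hpos.ne'
  rw [mul_one] at e4
  exact e4.symm

private theorem kgs2_gL (h : TwoEqui k K a c₁ c₂) :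
    gK K ((-a : ℝ) : ℂ) (-1) = 1 / rL K a := by
  unfold rL
  rw [one_div_one_div]

private theorem kgs2_gR (h : TwoEqui k K a c₁ c₂) :
    gK K (a : ℂ) 1 = 1 / rL K a := by
  rw [h.r_eq.2.1]
  unfold rR
  rw [one_div_one_div]

theorem TwoEqui.lim_top (h : TwoEqui k K a c₁ c₂) (s : Bool) :
    Tendsto (fun q : ℝ => Real.sqrt (1 + q ^ 2) / dpK K a s q) atTop
      (𝓝 (rL K a / (2 * a))) := by
  cases s with
  | true =>
    have h1 := kgs2_lim (σ := -1) (e := 1) h.hc h.hi₁ h.ha h.r_eq.1 kgs2_top1 kgs2_top2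
      (by
        have e : (((-1 : ℝ) : ℂ)) * ((1 : ℝ) : ℂ) = -1 := by push_cast; ring
        rw [e]
        exact kgs2_gL h)
    refine h1.congr fun q => ?_
    have e : ((-1 : ℝ) : ℂ) * ⟨q, 1⟩ = -⟨q, 1⟩ := by push_cast; ring
    rw [e]
    simp [dpK]
  | false =>
    have h1 := kgs2_lim (σ := 1) (e := 1) h.hc h.hi₂ h.ha h.r_eq.1 kgs2_top1 kgs2_top2
      (by
        have e : (((1 : ℝ) : ℂ)) * ((1 : ℝ) : ℂ) = 1 := by push_cast; ring
        rw [e]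
        exact kgs2_gR h)
    refine h1.congr fun q => ?_
    have e : ((1 : ℝ) : ℂ) * ⟨q, 1⟩ = ⟨q, 1⟩ := by push_cast; ring
    rw [e]
    simp [dpK]

theorem TwoEqui.lim_bot (h : TwoEqui k K a c₁ c₂) (s : Bool) :
    Tendsto (fun q : ℝ => Real.sqrt (1 + q ^ 2) / dnK K a s q) atBot
      (𝓝 (rL K a / (2 * a))) := by
  cases s with
  | true =>
    have h1 := kgs2_lim (σ := 1) (e := -1) h.hc h.hi₁ h.ha h.r_eq.1 kgs2_bot1 kgs2_bot2
      (by
        have e : (((1 : ℝ) : ℂ)) * ((-1 : ℝ) : ℂ) = -1 := by push_cast; ring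
        rw [e]
        exact kgs2_gL h)
    refine h1.congr fun q => ?_
    have e : ((1 : ℝ) : ℂ) * ⟨q, 1⟩ = ⟨q, 1⟩ := by push_cast; ring
    rw [e]
    simp [dnK]
  | false =>
    have h1 := kgs2_lim (σ := -1) (e := -1) h.hc h.hi₂ h.ha h.r_eq.1 kgs2_bot1 kgs2_bot2
      (by
        have e : (((-1 : ℝ) : ℂ)) * ((-1 : ℝ) : ℂ) = 1 := by push_cast; ring
        rw [e]
        exact kgs2_gR h)
    refine h1.congr fun q => ?_
    have e : ((-1 : ℝ) : ℂ) * ⟨q, 1⟩ = -⟨q, 1⟩ := by push_cast; ring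
    rw [e]
    simp [dnK]

private theorem kgs2_norm (q : ℝ) : ‖(⟨q, 1⟩ : ℂ)‖ = Real.sqrt (1 + q ^ 2) := by
  rw [← Real.sqrt_sq (norm_nonneg (⟨q, 1⟩ : ℂ)), ← Complex.normSq_eq_norm_sq, Complex.normSq_mk]
  congr 1
  ring

private theorem kgs2_norm_ge (q : ℝ) : 1 ≤ ‖(⟨q, 1⟩ : ℂ)‖ := by
  rw [kgs2_norm]
  refine Real.one_le_sqrt.2 ?_
  nlinarith [sq_nonneg q]

private theorem kgs2_ne (q : ℝ) : (⟨q, 1⟩ : ℂ) ≠ 0 := by
  intro h
  have := kgs2_norm_ge q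
  rw [h, norm_zero] at this
  linarith

private theorem kgs2_rel {c : ℂ} {c₀ r : ℝ} (h : TwoEqui k K a c₁ c₂) (hi : c ∈ interior K)
    (hr : 0 < r)
    (he : ∀ x ∈ frontier K, ∀ y ∈ frontier K, x ≠ y → c ∈ segment ℝ x y →
      dist c x ^ k + dist c y ^ k = c₀) (q : ℝ) :
    (2 * a / r * Real.sqrt (1 + q ^ 2) / (2 * a * gK K c ⟨q, 1⟩)) ^ k +
      (2 * a / r * Real.sqrt (1 + q ^ 2) / (2 * a * gK K c (-⟨q, 1⟩))) ^ k = c₀ / r ^ k := by
  have ha := h.ha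
  have h1 := gK_equi_k h.hc h.hK hi he (kgs2_ne q)
  rw [kgs2_norm] at h1
  have e : ∀ x : ℝ, 0 < x → (2 * a / r * Real.sqrt (1 + q ^ 2) / (2 * a * x)) ^ k =
      (Real.sqrt (1 + q ^ 2) / x) ^ k / r ^ k := by
    intro x hx
    rw [← Real.div_rpow (by positivity) hr.le]
    congr 1
    field_simp
  rw [e _ (gK_pos h.hK hi (kgs2_ne q)), e _ (gK_pos h.hK hi (neg_ne_zero.2 (kgs2_ne q))), ← h1]
  ring

/-- `μ = (2a + r)/r`, `μ - 1 = 2a/r` -/
theorem TwoEqui.lineSys (h : TwoEqui k K a c₁ c₂) :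
    LineSys k ((2 * a + rL K a) / rL K a) (dnK K a) (dpK K a) := by
  have ha := h.ha
  obtain ⟨hr, hrr, hc1, hc2⟩ := h.r_eq
  have hμ1 : (2 * a + rL K a) / rL K a - 1 = 2 * a / rL K a := by
    field_simp
    ring
  have hC : 1 + ((2 * a + rL K a) / rL K a) ^ k = c₁ / rL K a ^ k := by
    have hrk : 0 < rL K a ^ k := Real.rpow_pos_of_pos hr k
    rw [Real.div_rpow (by positivity) hr.le, hc1]
    field_simp
  have hlim : ∀ (d : ℝ → ℝ) (l : Filter ℝ),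
      Tendsto (fun q : ℝ => Real.sqrt (1 + q ^ 2) / d q) l (𝓝 (rL K a / (2 * a))) →
      Tendsto (fun q : ℝ => 2 * a / rL K a * Real.sqrt (1 + q ^ 2) / d q) l (𝓝 1) := by
    intro d l hd
    have h1 := hd.const_mul (2 * a / rL K a)
    have e : 2 * a / rL K a * (rL K a / (2 * a)) = 1 := by field_simp
    rw [e] at h1
    refine h1.congr fun q => ?_
    exact (mul_div_assoc _ _ _).symm
  refine ⟨h.hk, ?_, ?_, ?_, h.nxt, h.prv, ?_, ?_⟩
  · rw [lt_div_iff₀ hr]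
    linarith
  · obtain ⟨δ₁, hδ₁, hl₁⟩ := gK_lower h.hK h.hi₁
    obtain ⟨δ₂, hδ₂, hl₂⟩ := gK_lower h.hK h.hi₂
    refine ⟨2 * a * min δ₁ δ₂, by positivity, ?_⟩
    have key : ∀ (c : ℂ) (δ : ℝ), 0 < δ → min δ₁ δ₂ ≤ δ → (∀ w : ℂ, δ * ‖w‖ ≤ gK K c w) →
        ∀ q : ℝ, 2 * a * min δ₁ δ₂ ≤ 2 * a * gK K c ⟨q, 1⟩ ∧
          2 * a * min δ₁ δ₂ ≤ 2 * a * gK K c (-⟨q, 1⟩) := by
      intro c δ hδ hm hl q
      have hn := kgs2_norm_ge q
      have e1 := hl ⟨q, 1⟩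
      have e2 := hl (-⟨q, 1⟩)
      rw [norm_neg] at e2
      have e3 : δ ≤ δ * ‖(⟨q, 1⟩ : ℂ)‖ := le_mul_of_one_le_right hδ.le hn
      exact ⟨mul_le_mul_of_nonneg_left (by linarith) (by positivity),
        mul_le_mul_of_nonneg_left (by linarith) (by positivity)⟩
    intro s q
    cases s with
    | true =>
      have := key _ δ₁ hδ₁ (min_le_left _ _) hl₁ q
      simp only [dnK, dpK, if_true]
      exact this
    | false =>
      have := key _ δ₂ hδ₂ (min_le_right _ _) hl₂ q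
      simp only [dnK, dpK, Bool.false_eq_true, if_false]
      exact ⟨this.2, this.1⟩
  · intro s q
    rw [hμ1, hC]
    cases s with
    | true =>
      simp only [dnK, dpK, if_true]
      exact kgs2_rel h h.hi₁ hr h.he₁ q
    | false =>
      simp only [dnK, dpK, Bool.false_eq_true, if_false]
      rw [add_comm, hc2]
      exact kgs2_rel h h.hi₂ hr h.he₂ q
  · intro s
    rw [hμ1]
    exact hlim _ _ (h.lim_top s)
  · intro s
    rw [hμ1]
    exact hlim _ _ (h.lim_bot s)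

end EQK
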