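import Pool.Agent.Lib.MP_226de1_co.K.Shadow2

/-! The shadowing theorem. -/

set_option autoImplicit false

namespace EQK

open Set Filter Topology

variable {T : ℝ × ℝ → ℝ × ℝ} {lf : ℝ × ℝ → ℝ} {ε κ L θ : ℝ}

/-- The shadowing theorem.  `W` is a curve with `W(μt) = T (W t)`, continuous, tending to `(1,0)` at
`0+`, in the box, with positive second coordinate.  Choose `ε'` also `≤ min_{[r/μ, r]} (W t).2 / 4`
and `t_n` with `(W t_n).2 = (B n).2` (IVT; `(B n).2 → 0`); then `T^[j] (W t_n) = W (μ^j t_n)` as long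
as `μ^(j-1) t_n < r/μ`, true since the second coordinates are `≤ 3ε'`.  So `dist (W (μ^n t_n)) (B 0) → 0`
with `μ^n t_n ≤ r`, and the set `{W t | 0 < t ≤ r} ∪ {(1,0)}` is compact. -/
theorem NS.shadow (h : NS T lf ε κ L θ) {μ r : ℝ} (hμ : 1 < μ) (hr : 0 < r) {W : ℝ → ℝ × ℝ}
    (hW : ContinuousOn W (Ioc 0 r)) (hW0 : Tendsto W (𝓝[>] 0) (𝓝 (1, 0)))
    (hWb : ∀ t, 0 < t → t ≤ r → Bx ε (W t) ∧ 0 < (W t).2)
    (hWs : ∀ t, 0 < t → μ * t ≤ r → W (μ * t) = T (W t)) :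
    ∃ ε' : ℝ, 0 < ε' ∧ ∀ B : ℕ → ℝ × ℝ, (∀ j, T (B (j + 1)) = B j) →
      (∀ j, Bx ε' (B j) ∧ 0 < (B j).2) → Tendsto B atTop (𝓝 (1, 0)) →
      ∃ t, 0 < t ∧ t ≤ r ∧ W t = B 0 := by
  obtain ⟨ε₀, C, hε₀, hε₀ε, hC, hcmp⟩ := h.compare
  have hμ0 : 0 < μ := by linarith
  have hW2 : ContinuousOn (fun t => (W t).2) (Ioc 0 r) := continuous_snd.comp_continuousOn hW
  -- lower bounds of the second coordinate away from zero
  have hlow : ∀ δ, 0 < δ → δ ≤ r → ∃ m, 0 < m ∧ ∀ t, δ ≤ t → t ≤ r → m ≤ (W t).2 := by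
    intro δ hδ hδr
    have hsub : Icc δ r ⊆ Ioc 0 r := fun t ht => ⟨hδ.trans_le ht.1, ht.2⟩
    obtain ⟨t₀, ht₀, hmin⟩ := isCompact_Icc.exists_isMinOn ⟨δ, ⟨le_rfl, hδr⟩⟩ (hW2.mono hsub)
    exact ⟨(W t₀).2, (hWb t₀ (hsub ht₀).1 (hsub ht₀).2).2, fun t h1 h2 => hmin ⟨h1, h2⟩⟩
  have hrμ : r / μ ≤ r := div_le_self hr.le hμ.le
  obtain ⟨m, hm, hmW⟩ := hlow (r / μ) (by positivity) hrμ
  refine ⟨min ε₀ (m / 4), lt_min hε₀ (by positivity), ?_⟩
  intro B hTB hB hBlim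
  have hBb : ∀ j, Bx ε₀ (B j) ∧ 0 < (B j).2 := fun j =>
    ⟨⟨(hB j).1.1.trans (min_le_left _ _), (hB j).1.2.trans (min_le_left _ _)⟩, (hB j).2⟩
  have hBm : ∀ j, (B j).2 ≤ m / 4 := fun j =>
    (le_abs_self _).trans ((hB j).1.2.trans (min_le_right _ _))
  -- the parameters
  have hex : ∀ n, ∃ t, 0 < t ∧ t ≤ r ∧ (W t).2 = (B n).2 := by
    intro n
    have h1 : Tendsto (fun t => (W t).2) (𝓝[>] 0) (𝓝 0) := by
      have := (continuous_snd.tendsto ((1 : ℝ), (0 : ℝ))).comp hW0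
      exact this
    have h2 : ∀ᶠ t in 𝓝[>] (0 : ℝ), (W t).2 < (B n).2 := h1.eventually_lt_const (hB n).2
    have h3 : ∀ᶠ t in 𝓝[>] (0 : ℝ), t ∈ Ioo 0 r := Ioo_mem_nhdsGT hr
    obtain ⟨t₁, ht₁, ht₁'⟩ := (h2.and h3).exists
    have hsub : Icc t₁ r ⊆ Ioc 0 r := fun t ht => ⟨ht₁'.1.trans_le ht.1, ht.2⟩
    have h4 := intermediate_value_Icc ht₁'.2.le (hW2.mono hsub)
    have h5 : (B n).2 ≤ (W r).2 := by
      have := hmW r hrμ le_rfl
      linarith [hBm n]
    obtain ⟨t, ht, hteq⟩ := h4 ⟨ht₁.le, h5⟩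
    exact ⟨t, (hsub ht).1, (hsub ht).2, hteq⟩
  choose t ht0 htr htB using hex
  have hB2 : Tendsto (fun n => (B n).2) atTop (𝓝 0) := by
    have := (continuous_snd.tendsto ((1 : ℝ), (0 : ℝ))).comp hBlim
    exact this
  have htlim : Tendsto t atTop (𝓝[>] 0) := by
    rw [tendsto_nhdsWithin_iff]
    refine ⟨?_, Eventually.of_forall fun n => ht0 n⟩
    rw [Metric.tendsto_atTop]
    intro δ hδ
    obtain ⟨m', hm', hm'W⟩ := hlow (min δ r) (lt_min hδ hr) (min_le_right _ _)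
    have h1 : ∀ᶠ n in atTop, (B n).2 < m' := hB2.eventually_lt_const hm'
    obtain ⟨N, hN⟩ := eventually_atTop.mp h1
    refine ⟨N, fun n hn => ?_⟩
    rw [Real.dist_eq, sub_zero, abs_of_pos (ht0 n)]
    by_contra hcon
    push Not at hcon
    have h2 := hm'W (t n) ((min_le_left _ _).trans hcon) (htr n)
    rw [htB n] at h2
    exact absurd (hN n hn) (not_lt.mpr h2)
  have hd : Tendsto (fun n => C * |(W (t n)).1 - (B n).1|) atTop (𝓝 0) := by
    have h1 : Tendsto (fun n => (W (t n)).1) atTop (𝓝 1) := by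
      have := (continuous_fst.tendsto ((1 : ℝ), (0 : ℝ))).comp (hW0.comp htlim)
      exact this
    have h2 : Tendsto (fun n => (B n).1) atTop (𝓝 1) := by
      have := (continuous_fst.tendsto ((1 : ℝ), (0 : ℝ))).comp hBlim
      exact this
    have h3 := ((h1.sub h2).abs).const_mul C
    simpa using h3
  have hεm : 0 < min ε₀ (m / 4) := lt_min hε₀ (by positivity)
  have hev : ∀ᶠ n in atTop, C * |(W (t n)).1 - (B n).1| ≤ min ε₀ (m / 4) :=
    (hd.eventually_lt_const hεm).mono fun n hn => hn.le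
  -- the end points
  have hkey : ∀ n, C * |(W (t n)).1 - (B n).1| ≤ min ε₀ (m / 4) → μ ^ n * t n ≤ r ∧
      dist (W (μ ^ n * t n)) (B 0) ≤ C * |(W (t n)).1 - (B n).1| := by
    intro n hn
    have hcj : ∀ j ≤ n, |(T^[j] (W (t n))).1 - (B (n - j)).1| ≤ C * |(W (t n)).1 - (B n).1| ∧
        |(T^[j] (W (t n))).2 - (B (n - j)).2| ≤ C * |(W (t n)).1 - (B n).1| := by
      intro j hj
      have e : n - j + j = n := by omega
      obtain ⟨-, h2, h3⟩ := hcmp j (fun i => B (n - j + i)) (W (t n))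
        (fun i _ => hTB (n - j + i)) (fun i _ => hBb _) (hWb (t n) (ht0 n) (htr n)).1
        (by simp only [e]; exact htB n) (by simp only [e]; exact hn.trans (min_le_left _ _))
      simp only [e, add_zero] at h2 h3
      exact ⟨h2, h3⟩
    have hind : ∀ j ≤ n, μ ^ j * t n ≤ r ∧ T^[j] (W (t n)) = W (μ ^ j * t n) := by
      intro j
      induction j with
      | zero => intro _; simp [htr n]
      | succ j ih =>
        intro hj
        obtain ⟨h4, h5⟩ := ih (by omega)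
        have hpos : 0 < μ ^ j * t n := mul_pos (pow_pos hμ0 j) (ht0 n)
        have h6 : μ * (μ ^ j * t n) ≤ r := by
          by_contra hcon
          push Not at hcon
          have h7 : r / μ ≤ μ ^ j * t n := by
            rw [div_le_iff₀ hμ0]
            linarith
          have h8 := hmW _ h7 h4
          have h9 := (hcj j (by omega)).2
          rw [h5] at h9
          have h10 := hBm (n - j)
          have h11 := (le_abs_self _).trans (h9.trans (hn.trans (min_le_right _ _)))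
          linarith
        refine ⟨by rw [pow_succ']; linarith [mul_assoc μ (μ ^ j) (t n)], ?_⟩
        rw [Function.iterate_succ_apply', h5, ← hWs _ hpos h6, pow_succ', mul_assoc]
    obtain ⟨h4, h5⟩ := hind n le_rfl
    refine ⟨h4, ?_⟩
    obtain ⟨h2, h3⟩ := hcj n le_rfl
    rw [Nat.sub_self] at h2 h3
    rw [← h5, Prod.dist_eq, Real.dist_eq, Real.dist_eq]
    exact max_le h2 h3
  -- compactness
  obtain ⟨N, hN⟩ := eventually_atTop.mp hev
  have hs : ∀ n, μ ^ (n + N) * t (n + N) ∈ Icc 0 r := fun n =>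
    ⟨(mul_pos (pow_pos hμ0 _) (ht0 _)).le, (hkey _ (hN _ (by omega))).1⟩
  obtain ⟨s, hsI, φ, hφ, hlim⟩ := isCompact_Icc.tendsto_subseq hs
  have hdist : Tendsto (fun k => W (μ ^ (φ k + N) * t (φ k + N))) atTop (𝓝 (B 0)) := by
    rw [tendsto_iff_dist_tendsto_zero]
    refine squeeze_zero (fun k => dist_nonneg) (fun k => (hkey _ (hN _ (by omega))).2) ?_
    have h1 : Tendsto (fun k => φ k + N) atTop atTop :=
      tendsto_atTop_mono (fun k => Nat.le_add_right _ _) hφ.tendsto_atTop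
    exact hd.comp h1
  rcases hsI.1.eq_or_lt with hs0 | hs0
  · exfalso
    have h1 : Tendsto (fun k => μ ^ (φ k + N) * t (φ k + N)) atTop (𝓝[>] 0) := by
      rw [tendsto_nhdsWithin_iff]
      refine ⟨?_, Eventually.of_forall fun k => mul_pos (pow_pos hμ0 _) (ht0 _)⟩
      rw [hs0]
      exact hlim
    have h2 := tendsto_nhds_unique (hW0.comp h1) hdist
    have h3 := (hB 0).2
    rw [← h2] at h3
    exact lt_irrefl _ h3
  · refine ⟨s, hs0, hsI.2, ?_⟩
    have h1 : Tendsto (fun k => μ ^ (φ k + N) * t (φ k + N)) atTop (𝓝[Ioc 0 r] s) := by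
      rw [tendsto_nhdsWithin_iff]
      exact ⟨hlim, Eventually.of_forall fun k =>
        ⟨mul_pos (pow_pos hμ0 _) (ht0 _), (hkey _ (hN _ (by omega))).1⟩⟩
    exact tendsto_nhds_unique ((hW s ⟨hs0, hsI.2⟩).tendsto.comp h1) hdist

end EQK
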