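import Mathlib

/-!
# MP_226de1_co, all exponents `k` (theorem B): basic definitions

`μ > 1` is the ratio of the far and the near distance on the axis, near distance `1`, `2a = μ - 1`,
`c = 1 + μ^k`.  A vertex is a pair `V = (X, Y)` (coordinates relative to the near centre).  The chord
through the centre and `V` has parts `r = sqrt (RR V)` and `s = lam * r`, `r^k + s^k = c`; its other end,
seen from the other centre (rotated by `π`), is `TT V = (lam X - 2a, lam Y)`.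
`P` is a velocity at `V`, `DT V P` the velocity of the image.
-/

set_option autoImplicit false

namespace EQK

open Set Filter Topology

noncomputable section

/-- the constant `c = 1 + μ^k` -/
def cc (k μ : ℝ) : ℝ := 1 + μ ^ k

/-- squared distance -/
def RR (V : ℝ × ℝ) : ℝ := V.1 ^ 2 + V.2 ^ 2

/-- domain of the step: `0 < R`, `R^(k/2) < c` -/
def Dm (k μ R : ℝ) : Prop := 0 < R ∧ R ^ (k / 2) < cc k μ

/-- `lam = s / r` as a function of `R = r^2`: `lam^k = c R^(-k/2) - 1` -/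
def lam (k μ R : ℝ) : ℝ := (cc k μ * R ^ (-(k / 2)) - 1) ^ (1 / k)

/-- the step -/
def TT (k μ : ℝ) (V : ℝ × ℝ) : ℝ × ℝ :=
  (lam k μ (RR V) * V.1 - (μ - 1), lam k μ (RR V) * V.2)

/-- half the derivative of `RR` -/
def rho (V P : ℝ × ℝ) : ℝ := V.1 * P.1 + V.2 * P.2

/-- `RR` times the derivative of the angle -/
def omg (V P : ℝ × ℝ) : ℝ := V.1 * P.2 - V.2 * P.1

/-- image of the velocity `P` under the step -/
def DT (k μ : ℝ) (V P : ℝ × ℝ) : ℝ × ℝ :=
  (lam k μ (RR V) * (P.1 - rho V P / RR V * (1 + lam k μ (RR V) ^ (-k)) * V.1),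
   lam k μ (RR V) * (P.2 - rho V P / RR V * (1 + lam k μ (RR V) ^ (-k)) * V.2))

/-- the invariant cone -/
def Cone (μ : ℝ) (V P : ℝ × ℝ) : Prop :=
  0 ≤ rho V P ∧ 0 < omg V P ∧
    rho V P * (RR V + (μ - 1) * V.1) ≤ (μ - 1) * V.2 * omg V P

variable {k μ : ℝ} {R : ℝ}

/-- `c R^(-k/2) - 1 > 0` on the domain (multiply `R^(k/2) < c` by `R^(-k/2) > 0`) -/
theorem bas_pos (hd : Dm k μ R) : 0 < cc k μ * R ^ (-(k / 2)) - 1 := by
  obtain ⟨hR, hc⟩ := hd
  have h1 : 0 < R ^ (-(k / 2)) := Real.rpow_pos_of_pos hR _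
  have h2 : R ^ (k / 2) * R ^ (-(k / 2)) = 1 := by
    rw [← Real.rpow_add hR]
    simp
  have h3 := mul_lt_mul_of_pos_right hc h1
  rw [h2] at h3
  linarith

theorem lam_pos (hd : Dm k μ R) : 0 < lam k μ R := by
  unfold lam
  exact Real.rpow_pos_of_pos (bas_pos hd) _

/-- `lam^k = c R^(-k/2) - 1` -/
theorem lam_rpow (hk : 0 < k) (hd : Dm k μ R) :
    lam k μ R ^ k = cc k μ * R ^ (-(k / 2)) - 1 := by
  unfold lam
  rw [← Real.rpow_mul (bas_pos hd).le]
  rw [one_div, inv_mul_cancel₀ hk.ne', Real.rpow_one]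

/-- `(lam^2 R)^(k/2) = c - R^(k/2)` -/
theorem lam_sq_rpow (hk : 0 < k) (hd : Dm k μ R) :
    (lam k μ R ^ 2 * R) ^ (k / 2) = cc k μ - R ^ (k / 2) := by
  have hR := hd.1
  have hl := lam_pos hd
  rw [Real.mul_rpow (by positivity) hR.le]
  have h1 : (lam k μ R ^ 2) ^ (k / 2) = lam k μ R ^ k := by
    rw [← Real.rpow_natCast, ← Real.rpow_mul hl.le]
    congr 1
    push_cast
    ring
  rw [h1, lam_rpow hk hd]
  have h2 : R ^ (-(k / 2)) * R ^ (k / 2) = 1 := by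
    rw [← Real.rpow_add hR]
    simp
  calc (cc k μ * R ^ (-(k / 2)) - 1) * R ^ (k / 2)
      = cc k μ * (R ^ (-(k / 2)) * R ^ (k / 2)) - R ^ (k / 2) := by ring
    _ = cc k μ - R ^ (k / 2) := by rw [h2]; ring

/-- `lam ≤ 1 ∨ ...`: if `R ≤ lam^2 R` then `1 ≤ lam`; strict version -/
theorem one_le_lam (hd : Dm k μ R) (h : R ≤ lam k μ R ^ 2 * R) : 1 ≤ lam k μ R := by
  have hR := hd.1
  have hl := lam_pos hd
  by_contra hc
  have hc' : lam k μ R < 1 := not_le.mp hc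
  have h1 : lam k μ R ^ 2 < 1 := by nlinarith
  nlinarith

theorem one_lt_lam (hd : Dm k μ R) (h : R < lam k μ R ^ 2 * R) : 1 < lam k μ R := by
  have hR := hd.1
  have hl := lam_pos hd
  by_contra hc
  have hc' : lam k μ R ≤ 1 := not_lt.mp hc
  have h1 : lam k μ R ^ 2 ≤ 1 := by nlinarith
  nlinarith

/-- `lam` is continuous at points of the domain -/
theorem lam_continuousAt (hk : 0 < k) (hd : Dm k μ R) : ContinuousAt (lam k μ) R := by
  have hR := hd.1
  have hb := bas_pos hd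
  have h1 : ContinuousAt (fun R : ℝ => cc k μ * R ^ (-(k / 2)) - 1) R :=
    (continuousAt_const.mul (Real.continuousAt_rpow_const R (-(k / 2)) (Or.inl hR.ne'))).sub
      continuousAt_const
  exact h1.rpow_const (Or.inl hb.ne')

/-- `d lam / dR = -(lam/(2R)) (1 + lam^(-k))` -/
theorem lam_hasDerivAt (hk : 0 < k) (hd : Dm k μ R) :
    HasDerivAt (lam k μ) (-(lam k μ R / (2 * R)) * (1 + lam k μ R ^ (-k))) R := by
  have hR := hd.1
  have hb := bas_pos hd
  have hl := lam_pos hd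
  have h1 : HasDerivAt (fun R : ℝ => cc k μ * R ^ (-(k / 2)) - 1)
      (cc k μ * (-(k / 2) * R ^ (-(k / 2) - 1))) R := by
    have := ((Real.hasDerivAt_rpow_const (x := R) (p := -(k / 2)) (Or.inl hR.ne')).const_mul
      (cc k μ)).sub_const 1
    exact this
  have h2 := h1.rpow_const (p := 1 / k) (Or.inl hb.ne')
  have hfun : (fun y : ℝ => (cc k μ * y ^ (-(k / 2)) - 1) ^ (1 / k)) = lam k μ := by
    funext y
    rfl
  rw [hfun] at h2
  refine h2.congr_deriv ?_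
  have hL : lam k μ R ^ k = cc k μ * R ^ (-(k / 2)) - 1 := lam_rpow hk hd
  have e1 : (cc k μ * R ^ (-(k / 2)) - 1) ^ (1 / k - 1) = lam k μ R * (lam k μ R ^ k)⁻¹ := by
    rw [hL, Real.rpow_sub hb, Real.rpow_one, div_eq_mul_inv]
    rfl
  have e2 : R ^ (-(k / 2) - 1) = R ^ (-(k / 2)) * R⁻¹ := by
    rw [Real.rpow_sub hR, Real.rpow_one, div_eq_mul_inv]
  have e3 : lam k μ R ^ (-k) = (lam k μ R ^ k)⁻¹ := Real.rpow_neg hl.le k
  rw [e1, e2, e3]
  have hA : cc k μ * R ^ (-(k / 2)) = lam k μ R ^ k + 1 := by rw [hL]; ring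
  have hLpos : 0 < lam k μ R ^ k := Real.rpow_pos_of_pos hl k
  set A := lam k μ R ^ k with hAdef
  have : cc k μ * (-(k / 2) * (R ^ (-(k / 2)) * R⁻¹)) * (1 / k) * (lam k μ R * A⁻¹)
      = -(1 / 2) * (cc k μ * R ^ (-(k / 2))) * R⁻¹ * (lam k μ R * A⁻¹) := by
    field_simp
  rw [this, hA]
  field_simp

/-- law of cosines for the step -/
theorem RR_TT (k μ : ℝ) (V : ℝ × ℝ) :
    RR (TT k μ V) + 2 * (μ - 1) * (TT k μ V).1 + (μ - 1) ^ 2 = lam k μ (RR V) ^ 2 * RR V := by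
  unfold TT RR
  ring

/-- if the image has `X ≥ 0` then it is in the domain again -/
theorem Dm_TT (hk : 0 < k) (hμ : 1 < μ) {V : ℝ × ℝ} (hd : Dm k μ (RR V)) (hY : 0 < V.2)
    (hX : 0 ≤ (TT k μ V).1) : Dm k μ (RR (TT k μ V)) := by
  have hR := hd.1
  have hl := lam_pos hd
  have hY2 : 0 < (TT k μ V).2 := by
    unfold TT
    exact mul_pos hl hY
  have hpos : 0 < RR (TT k μ V) := by
    unfold RR
    nlinarith [sq_nonneg (TT k μ V).1, mul_pos hY2 hY2]
  refine ⟨hpos, ?_⟩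
  have h1 := RR_TT k μ V
  have h2 : RR (TT k μ V) ≤ lam k μ (RR V) ^ 2 * RR V := by
    have h3 : 0 ≤ 2 * (μ - 1) * (TT k μ V).1 := mul_nonneg (by linarith) hX
    nlinarith [sq_nonneg (μ - 1)]
  have h3 := lam_sq_rpow hk hd
  have h4 : RR (TT k μ V) ^ (k / 2) ≤ (lam k μ (RR V) ^ 2 * RR V) ^ (k / 2) :=
    Real.rpow_le_rpow hpos.le h2 (by linarith)
  have h5 : 0 < RR V ^ (k / 2) := Real.rpow_pos_of_pos hR _
  linarith

end

end EQK
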