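import Pool.Agent.Lib.MP_226de1_co.K.Basic

/-! The cone field: one step.  With `lam = λ`, `φ = λ^(-k)`, `Λ = λ - 2aX/R`:
`rho₁ = λ (2aYω/R - φ ρ Λ)`, `ω₁ = λ (ω Λ + 2aφρY/R)`, `R₁ + 2aX₁ = λ R Λ`, `Y₁ = λ Y`, hence
`rho₁ (R₁+2aX₁) - 2aY₁ω₁ = -λ²φρ(RΛ² + 4a²Y²/R) ≤ 0`. -/

set_option autoImplicit false

namespace EQK

open Set Filter Topology

variable {k μ : ℝ} {V P : ℝ × ℝ}

/-- `ρ₁` -/
theorem rho_DT (hR : RR V ≠ 0) : rho (TT k μ V) (DT k μ V P) =
    lam k μ (RR V) * ((μ - 1) * V.2 * omg V P / RR V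
      - lam k μ (RR V) ^ (-k) * rho V P * (lam k μ (RR V) - (μ - 1) * V.1 / RR V)) := by
  obtain ⟨X, Y⟩ := V
  obtain ⟨P1, P2⟩ := P
  unfold DT TT
  generalize lam k μ (RR (X, Y)) ^ (-k) = φ
  generalize lam k μ (RR (X, Y)) = l
  unfold rho omg
  have hRR : RR (X, Y) = X ^ 2 + Y ^ 2 := rfl
  rw [hRR] at hR ⊢
  dsimp only
  field_simp
  ring

/-- `ω₁` -/
theorem omg_DT (hR : RR V ≠ 0) : omg (TT k μ V) (DT k μ V P) =
    lam k μ (RR V) * (omg V P * (lam k μ (RR V) - (μ - 1) * V.1 / RR V)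
      + (μ - 1) * lam k μ (RR V) ^ (-k) * rho V P * V.2 / RR V) := by
  obtain ⟨X, Y⟩ := V
  obtain ⟨P1, P2⟩ := P
  unfold DT TT
  generalize lam k μ (RR (X, Y)) ^ (-k) = φ
  generalize lam k μ (RR (X, Y)) = l
  unfold rho omg
  have hRR : RR (X, Y) = X ^ 2 + Y ^ 2 := rfl
  rw [hRR] at hR ⊢
  dsimp only
  field_simp
  ring

/-- `R₁ + 2aX₁ = λ (λ R - 2 a X)` -/
theorem RR_TT_add (hR : RR V ≠ 0) : RR (TT k μ V) + (μ - 1) * (TT k μ V).1 =
    lam k μ (RR V) * (lam k μ (RR V) * RR V - (μ - 1) * V.1) := by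
  unfold TT
  generalize lam k μ (RR V) = l
  unfold RR
  dsimp only
  ring

/-- `λ R - 2aX > 0` as long as the image has `X ≥ 0` -/
private theorem Lam_pos (hμ : 1 < μ) (hY : 0 < V.2) (hd : Dm k μ (RR V))
    (hX : 0 ≤ (TT k μ V).1) :
    0 < V.1 ∧ 0 < lam k μ (RR V) * RR V - (μ - 1) * V.1 := by
  have hl : 0 < lam k μ (RR V) := lam_pos hd
  have hX' : 0 ≤ lam k μ (RR V) * V.1 - (μ - 1) := hX
  have hRR : RR V = V.1 ^ 2 + V.2 ^ 2 := rfl
  generalize lam k μ (RR V) = l at *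
  have hV1 : 0 < V.1 := by
    by_contra h
    push Not at h
    nlinarith [mul_nonneg hl.le (neg_nonneg.mpr h)]
  refine ⟨hV1, ?_⟩
  rw [hRR]
  nlinarith [mul_nonneg hX' hV1.le, mul_pos hl (pow_pos hY 2)]

/-- the angular velocity stays positive as long as the image has `X ≥ 0` -/
theorem omg_step (hμ : 1 < μ) (hY : 0 < V.2) (hd : Dm k μ (RR V)) (hρ : 0 ≤ rho V P)
    (hω : 0 < omg V P) (hX : 0 ≤ (TT k μ V).1) : 0 < omg (TT k μ V) (DT k μ V P) := by
  have hR : 0 < RR V := hd.1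
  have hl : 0 < lam k μ (RR V) := lam_pos hd
  rw [omg_DT hR.ne']
  obtain ⟨hV1, hL⟩ := Lam_pos hμ hY hd hX
  have hφ : 0 < lam k μ (RR V) ^ (-k) := Real.rpow_pos_of_pos hl _
  have h1 : 0 < lam k μ (RR V) - (μ - 1) * V.1 / RR V := by
    have : lam k μ (RR V) - (μ - 1) * V.1 / RR V
        = (lam k μ (RR V) * RR V - (μ - 1) * V.1) / RR V := by
      field_simp
    rw [this]
    exact div_pos hL hR
  have h2 : 0 ≤ (μ - 1) * lam k μ (RR V) ^ (-k) * rho V P * V.2 / RR V := by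
    have : 0 < μ - 1 := by linarith
    positivity
  have h3 : 0 < omg V P * (lam k μ (RR V) - (μ - 1) * V.1 / RR V) := mul_pos hω h1
  exact mul_pos hl (by linarith)

/-- one step of the cone: `φ (λ R - 2aX) ≤ λ^(1-k) R ≤ R ≤ R + 2aX` (`λ ≥ 1`, `k ≥ 1`, `X > 0`),
strictly because of `X > 0`; so `φ ρ Λ < 2aYω/R` (if `ρ = 0` because `Y ω > 0`). -/
theorem cone_step (hk : 1 ≤ k) (hμ : 1 < μ) (hX0 : 0 < V.1) (hY : 0 < V.2)
    (hd : Dm k μ (RR V)) (hl : 1 ≤ lam k μ (RR V)) (hX : 0 ≤ (TT k μ V).1) (hc : Cone μ V P) :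
    0 < rho (TT k μ V) (DT k μ V P) ∧ Cone μ (TT k μ V) (DT k μ V P) := by
  obtain ⟨hρ, hω, hcone⟩ := hc
  have hR : 0 < RR V := hd.1
  have hl0 : 0 < lam k μ (RR V) := lam_pos hd
  obtain ⟨-, hL⟩ := Lam_pos hμ hY hd hX
  have hφ : 0 < lam k μ (RR V) ^ (-k) := Real.rpow_pos_of_pos hl0 _
  have hm : 0 < μ - 1 := by linarith
  have hφl : lam k μ (RR V) ^ (-k) * lam k μ (RR V) ≤ 1 := by
    have h1 : lam k μ (RR V) ^ (-k) * lam k μ (RR V) = lam k μ (RR V) ^ (1 - k) := by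
      rw [show (1 - k : ℝ) = -k + 1 by ring, Real.rpow_add hl0, Real.rpow_one]
    rw [h1]
    exact Real.rpow_le_one_of_one_le_of_nonpos hl (by linarith)
  have hω1 := omg_step hμ hY hd hρ hω hX
  have hρ1 : 0 < rho (TT k μ V) (DT k μ V P) := by
    rw [rho_DT hR.ne']
    apply mul_pos hl0
    have h2 : (μ - 1) * V.2 * omg V P / RR V
        - lam k μ (RR V) ^ (-k) * rho V P * (lam k μ (RR V) - (μ - 1) * V.1 / RR V)
        = ((μ - 1) * V.2 * omg V P - rho V P *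
          (lam k μ (RR V) ^ (-k) * (lam k μ (RR V) * RR V - (μ - 1) * V.1))) / RR V := by
      field_simp
    rw [h2]
    apply div_pos _ hR
    have h3 : lam k μ (RR V) ^ (-k) * (lam k μ (RR V) * RR V - (μ - 1) * V.1)
        ≤ RR V := by
      have e : lam k μ (RR V) ^ (-k) * (lam k μ (RR V) * RR V - (μ - 1) * V.1)
        = (lam k μ (RR V) ^ (-k) * lam k μ (RR V)) * RR V
          - lam k μ (RR V) ^ (-k) * ((μ - 1) * V.1) := by ring
      rw [e]
      have e1 : 0 ≤ lam k μ (RR V) ^ (-k) * ((μ - 1) * V.1) := by positivity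
      have e2 : (lam k μ (RR V) ^ (-k) * lam k μ (RR V)) * RR V ≤ 1 * RR V :=
        mul_le_mul_of_nonneg_right hφl hR.le
      linarith
    have h4 : 0 < (μ - 1) * V.2 * omg V P := by positivity
    rcases hρ.eq_or_lt with h0 | h0
    · rw [← h0]
      linarith
    · have h5 : rho V P * (lam k μ (RR V) ^ (-k) * (lam k μ (RR V) * RR V - (μ - 1) * V.1))
          ≤ rho V P * RR V := mul_le_mul_of_nonneg_left h3 hρ
      have h6 : 0 < rho V P * ((μ - 1) * V.1) := by positivity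
      have h7 : rho V P * (RR V + (μ - 1) * V.1)
          = rho V P * RR V + rho V P * ((μ - 1) * V.1) := by ring
      linarith
  refine ⟨hρ1, hρ1.le, hω1, ?_⟩
  rw [RR_TT_add hR.ne', rho_DT hR.ne', omg_DT hR.ne']
  have hY1 : (TT k μ V).2 = lam k μ (RR V) * V.2 := rfl
  rw [hY1]
  have key : lam k μ (RR V) * ((μ - 1) * V.2 * omg V P / RR V
      - lam k μ (RR V) ^ (-k) * rho V P * (lam k μ (RR V) - (μ - 1) * V.1 / RR V))
      * (lam k μ (RR V) * (lam k μ (RR V) * RR V - (μ - 1) * V.1))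
      - (μ - 1) * (lam k μ (RR V) * V.2) * (lam k μ (RR V) *
        (omg V P * (lam k μ (RR V) - (μ - 1) * V.1 / RR V)
      + (μ - 1) * lam k μ (RR V) ^ (-k) * rho V P * V.2 / RR V))
      = - (lam k μ (RR V) ^ 2 * lam k μ (RR V) ^ (-k) * rho V P *
        ((lam k μ (RR V) * RR V - (μ - 1) * V.1) ^ 2 + (μ - 1) ^ 2 * V.2 ^ 2) / RR V) := by
    generalize lam k μ (RR V) ^ (-k) = φ
    generalize lam k μ (RR V) = l
    generalize rho V P = ρ
    generalize omg V P = ω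
    field_simp
    ring
  have h8 : 0 ≤ lam k μ (RR V) ^ 2 * lam k μ (RR V) ^ (-k) * rho V P *
        ((lam k μ (RR V) * RR V - (μ - 1) * V.1) ^ 2 + (μ - 1) ^ 2 * V.2 ^ 2) / RR V := by
    positivity
  linarith

/-- positive rescaling of the velocity -/
theorem Cone.smul {c : ℝ} (hc : 0 < c) (h : Cone μ V P) : Cone μ V (P.1 / c, P.2 / c) := by
  obtain ⟨h1, h2, h3⟩ := h
  have e1 : rho V (P.1 / c, P.2 / c) = rho V P / c := by
    unfold rho
    ring
  have e2 : omg V (P.1 / c, P.2 / c) = omg V P / c := by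
    unfold omg
    ring
  refine ⟨?_, ?_, ?_⟩
  · rw [e1]
    positivity
  · rw [e2]
    positivity
  · rw [e1, e2]
    have : rho V P * (RR V + (μ - 1) * V.1) / c ≤ (μ - 1) * V.2 * omg V P / c :=
      div_le_div_of_nonneg_right h3 hc.le
    calc rho V P / c * (RR V + (μ - 1) * V.1) = rho V P * (RR V + (μ - 1) * V.1) / c := by ring
      _ ≤ (μ - 1) * V.2 * omg V P / c := this
      _ = (μ - 1) * V.2 * (omg V P / c) := by ring

theorem rho_div (c : ℝ) : rho V (P.1 / c, P.2 / c) = rho V P / c := by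
  unfold rho
  ring

theorem omg_div (c : ℝ) : omg V (P.1 / c, P.2 / c) = omg V P / c := by
  unfold omg
  ring

/-- chain rule -/
theorem hasDerivAt_TT (hk : 0 < k) {W : ℝ → ℝ × ℝ} {t : ℝ}
    (hd : Dm k μ (RR (W t))) (h1 : HasDerivAt (fun s => (W s).1) P.1 t)
    (h2 : HasDerivAt (fun s => (W s).2) P.2 t) :
    HasDerivAt (fun s => (TT k μ (W s)).1) (DT k μ (W t) P).1 t ∧
    HasDerivAt (fun s => (TT k μ (W s)).2) (DT k μ (W t) P).2 t := by
  have hR : 0 < RR (W t) := hd.1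
  have hRR : HasDerivAt (fun s => RR (W s)) (2 * rho (W t) P) t := by
    have h := (h1.pow 2).add (h2.pow 2)
    have e : (fun s => RR (W s)) = (fun s => (W s).1) ^ 2 + (fun s => (W s).2) ^ 2 := by
      funext s
      simp [RR]
    rw [e]
    refine h.congr_deriv ?_
    simp only [rho]
    push_cast
    ring
  have hl : HasDerivAt (fun s => lam k μ (RR (W s)))
      (-(lam k μ (RR (W t)) / (2 * RR (W t))) * (1 + lam k μ (RR (W t)) ^ (-k))
        * (2 * rho (W t) P)) t :=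
    HasDerivAt.comp t (lam_hasDerivAt hk hd) hRR
  constructor
  · have h := (hl.mul h1).sub_const (μ - 1)
    have e : (fun s => (TT k μ (W s)).1) = fun s => lam k μ (RR (W s)) * (W s).1 - (μ - 1) := rfl
    rw [e]
    refine h.congr_deriv ?_
    simp only [DT]
    generalize lam k μ (RR (W t)) ^ (-k) = φ
    generalize lam k μ (RR (W t)) = l
    field_simp
    ring
  · have h := hl.mul h2
    have e : (fun s => (TT k μ (W s)).2) = fun s => lam k μ (RR (W s)) * (W s).2 := rfl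
    rw [e]
    refine h.congr_deriv ?_
    simp only [DT]
    generalize lam k μ (RR (W t)) ^ (-k) = φ
    generalize lam k μ (RR (W t)) = l
    field_simp
    ring

end EQK
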