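import Pool.Agent.Lib.MP_226de1_co.K.TcZero

/-! The first zero `tc` of `X`. -/

set_option autoImplicit false

namespace EQK

open Set Filter Topology

variable {k μ r : ℝ} {V P : ℝ → ℝ × ℝ}

/-- properties of the first zero of `X` -/
structure IsTc (k μ : ℝ) (V P : ℝ → ℝ × ℝ) (tc : ℝ) : Prop where
  pos : 0 < tc
  before : ∀ s, 0 < s → s < tc → 0 < (V s).1
  zero : (V tc).1 = 0
  Ypos : ∀ s, 0 < s → s ≤ tc → 0 < (V s).2
  dom : ∀ s, 0 < s → s ≤ tc → Dm k μ (RR (V s))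
  cone : ∀ s, 0 < s → s ≤ tc → Cone μ (V s) (P s)
  der1 : ∀ s, 0 < s → s ≤ tc → HasDerivAt (fun s => (V s).1) (P s).1 s
  der2 : ∀ s, 0 < s → s ≤ tc → HasDerivAt (fun s => (V s).2) (P s).2 s
  dneg : (P tc).1 < 0
  after : ∀ s, tc < s → s ≤ μ * tc → (V s).1 < 0

/-- `tc = sInf {t > 0 | X t ≤ 0}` (positive since `X > 0` on `(0,r)`); `RC.good`, `RC.cone_all`.
`dneg`: `ω = X Y' - Y X' = -Y X' > 0` at `tc`.
`after`: if not, let `s` be the first zero of `X` after `tc` in `(tc, μ tc]` (just after `tc` `X < 0` by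
`dneg`; if `X` is not negative on `(tc, μ tc]` there is a smallest `s > tc` with `X s = 0`, `X < 0` on
`(tc, s)`), so `X'(s) ≥ 0`; but `s/μ ≤ tc` and `omg_step` gives `ω(s) = - Y(s) X'(s) > 0`. -/
theorem RC.exists_tc (h : RC k μ r V P) : ∃ tc, IsTc k μ V P tc := by
  have hμ0 : 0 < μ := lt_trans one_pos h.hμ
  obtain ⟨t1, ht1, ht1'⟩ := h.exists_nonpos
  set S : Set ℝ := {t | 0 < t ∧ (V t).1 ≤ 0} with hS
  have hSn : S.Nonempty := ⟨t1, ht1, ht1'⟩
  have hSr : ∀ t ∈ S, r ≤ t := by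
    rintro t ⟨h1, h2⟩
    by_contra hcon
    push Not at hcon
    exact absurd (h.pos1 t h1 hcon) (not_lt.2 h2)
  have hSb : BddBelow S := ⟨r, fun t ht => hSr t ht⟩
  set tc : ℝ := sInf S with htc
  have htcr : r ≤ tc := le_csInf hSn hSr
  have htc0 : 0 < tc := lt_of_lt_of_le h.hr htcr
  have hbefore : ∀ s, 0 < s → s < tc → 0 < (V s).1 := by
    intro s hs hst
    by_contra hcon
    push Not at hcon
    exact absurd (csInf_le hSb (⟨hs, hcon⟩ : s ∈ S)) (not_le.2 hst)
  have hgood := h.good hbefore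
  have hcone := h.cone_all hbefore
  obtain ⟨hX0, hY0, hd0, hD1, hD2⟩ := hgood tc htc0 le_rfl
  have hzero : (V tc).1 = 0 := by
    refine le_antisymm ?_ hX0
    by_contra hcon
    push Not at hcon
    have h1 : ∀ᶠ s in 𝓝 tc, 0 < (V s).1 := hD1.continuousAt.eventually_const_lt hcon
    obtain ⟨δ, hδ, hδ'⟩ := Metric.eventually_nhds_iff.1 h1
    have h2 : tc + δ ≤ sInf S := by
      refine le_csInf hSn fun t ht => ?_
      by_contra hcon2
      push Not at hcon2
      have h3 : tc ≤ t := csInf_le hSb ht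
      have h4 : 0 < (V t).1 := hδ' (by rw [Real.dist_eq, abs_of_nonneg (by linarith)]; linarith)
      exact absurd h4 (not_lt.2 ht.2)
    linarith
  have hdneg : (P tc).1 < 0 := by
    have h1 := (hcone tc htc0 le_rfl).2.1
    unfold omg at h1
    rw [hzero, zero_mul, zero_sub] at h1
    by_contra hcon
    push Not at hcon
    have := mul_nonneg hY0.le hcon
    linarith
  -- derivatives up to `μ tc`
  have hstep : ∀ s, 0 < s → s ≤ μ * tc → 0 < s / μ ∧ s / μ ≤ tc ∧ μ * (s / μ) = s := by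
    intro s hs hst
    refine ⟨div_pos hs hμ0, ?_, ?_⟩
    · rw [div_le_iff₀ hμ0]
      linarith
    · field_simp
  have hder : ∀ s, 0 < s → s ≤ μ * tc → HasDerivAt (fun s => (V s).1) (P s).1 s := by
    intro s hs hst
    obtain ⟨h1, h2, h3⟩ := hstep s hs hst
    obtain ⟨-, -, h4, h5, h6⟩ := hgood (s / μ) h1 h2
    have h7 := (h.deriv_step h1 h4 h5 h6).1
    rw [h3] at h7
    exact h7
  refine ⟨tc, ⟨htc0, hbefore, hzero, fun s hs hst => (hgood s hs hst).2.1,
    fun s hs hst => (hgood s hs hst).2.2.1, hcone, fun s hs hst => (hgood s hs hst).2.2.2.1,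
    fun s hs hst => (hgood s hs hst).2.2.2.2, hdneg, ?_⟩⟩
  intro s0 hs0 hs0'
  by_contra hcon
  push Not at hcon
  -- `X < 0` just after `tc`
  obtain ⟨δ, hδ, hδ'⟩ : ∃ δ : ℝ, 0 < δ ∧ ∀ s, tc < s → s < tc + δ → (V s).1 < 0 := by
    have h1 : ∀ᶠ s in 𝓝[>] tc, (V s).1 < 0 := by
      have h2 := (hasDerivAt_iff_tendsto_slope.1 hD1).eventually_lt_const hdneg
      have h3 : 𝓝[>] tc ≤ 𝓝[≠] tc := nhdsWithin_mono _ fun x hx => (ne_of_gt hx)
      filter_upwards [h3 h2, self_mem_nhdsWithin] with s h4 h5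
      have h6 : 0 < s - tc := sub_pos.2 h5
      rw [slope_def_field, hzero, sub_zero, div_lt_iff₀ h6, zero_mul] at h4
      exact h4
    obtain ⟨u, hu, hu'⟩ := mem_nhdsGT_iff_exists_Ioo_subset.1 h1
    refine ⟨u - tc, sub_pos.2 hu, fun s hs hs' => ?_⟩
    exact hu' ⟨hs, by linarith⟩
  have hne : tc + δ ≤ s0 := by
    by_contra hcon2
    push Not at hcon2
    exact absurd (hδ' s0 hs0 hcon2) (not_lt.2 hcon)
  have hcont : ContinuousOn (fun s => (V s).1) (Icc (tc + δ / 2) s0) := by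
    intro s hs
    exact (hder s (by linarith [hs.1]) (hs.2.trans hs0')).continuousAt.continuousWithinAt
  have hK : IsCompact (Icc (tc + δ / 2) s0 ∩ (fun s => (V s).1) ⁻¹' Ici 0) :=
    isCompact_Icc.of_isClosed_subset (hcont.preimage_isClosed_of_isClosed isClosed_Icc isClosed_Ici)
      inter_subset_left
  obtain ⟨s1, ⟨hs1m, hs1X⟩, hs1min⟩ := hK.exists_isLeast ⟨s0, ⟨by linarith, le_rfl⟩, hcon⟩
  have hs1tc : tc < s1 := by linarith [hs1m.1]
  have hs1pos : 0 < s1 := by linarith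
  have hs1le : s1 ≤ μ * tc := hs1m.2.trans hs0'
  have hneg : ∀ s, tc < s → s < s1 → (V s).1 < 0 := by
    intro s hs hs'
    by_contra hcon2
    push Not at hcon2
    rcases lt_or_ge s (tc + δ) with h1 | h1
    · exact absurd (hδ' s hs h1) (not_lt.2 hcon2)
    · exact absurd (hs1min ⟨⟨by linarith, by linarith [hs1m.2]⟩, hcon2⟩) (not_le.2 hs')
  have hd1 := hder s1 hs1pos hs1le
  have hX1 : (V s1).1 = 0 := by
    refine le_antisymm ?_ hs1X
    by_contra hcon2
    push Not at hcon2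
    have h1 : ∀ᶠ s in 𝓝 s1, 0 < (V s).1 := hd1.continuousAt.eventually_const_lt hcon2
    obtain ⟨η, hη, hη'⟩ := Metric.eventually_nhds_iff.1 h1
    have h2 : max (s1 - η / 2) ((tc + s1) / 2) < s1 := max_lt (by linarith) (by linarith)
    have h3 : tc < max (s1 - η / 2) ((tc + s1) / 2) := lt_max_of_lt_right (by linarith)
    have h4 := hneg _ h3 h2
    have h5 : 0 < (V (max (s1 - η / 2) ((tc + s1) / 2))).1 := by
      apply hη'
      rw [Real.dist_eq, abs_of_nonpos (by linarith)]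
      have := le_max_left (s1 - η / 2) ((tc + s1) / 2)
      linarith
    linarith
  have hP1 : 0 ≤ (P s1).1 := by
    by_contra hcon2
    push Not at hcon2
    have h2 := (hasDerivAt_iff_tendsto_slope.1 hd1).eventually_lt_const hcon2
    have h3 : 𝓝[<] s1 ≤ 𝓝[≠] s1 := nhdsWithin_mono _ fun x hx => (ne_of_lt hx)
    have h4 : ∀ᶠ s in 𝓝[<] s1, tc < s := by
      filter_upwards [Ioo_mem_nhdsLT hs1tc] with s hs
      exact hs.1
    have h2' : ∀ᶠ s in 𝓝[<] s1, slope (fun s => (V s).1) s1 s < 0 := h3 h2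
    obtain ⟨s, hs, hs', hs''⟩ := (h2'.and (h4.and self_mem_nhdsWithin)).exists
    have h5 : (V s).1 < 0 := hneg s hs' hs''
    rw [slope_def_field, hX1, sub_eq_add_neg, add_comm] at hs
    have h6 : s - s1 < 0 := sub_neg.2 hs''
    have h7 : 0 < (-0 + (V s).1) / (s - s1) := div_pos_of_neg_of_neg (by linarith) h6
    linarith
  obtain ⟨h1, h2, h3⟩ := hstep s1 hs1pos hs1le
  obtain ⟨-, hYq, hdq, -, -⟩ := hgood (s1 / μ) h1 h2
  have hcq := hcone (s1 / μ) h1 h2
  have hVs : V s1 = TT k μ (V (s1 / μ)) := by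
    conv_lhs => rw [← h3]
    exact h.step _ h1
  have hPs : P s1 = ((DT k μ (V (s1 / μ)) (P (s1 / μ))).1 / μ,
      (DT k μ (V (s1 / μ)) (P (s1 / μ))).2 / μ) := by
    conv_lhs => rw [← h3]
    exact h.stepP _ h1
  have hω := omg_step h.hμ hYq hdq hcq.1 hcq.2.1 (by rw [← hVs, hX1])
  have hω' : 0 < omg (V s1) (P s1) := by
    rw [hVs, hPs, omg_div]
    exact div_pos hω hμ0
  have hY1 : 0 < (V s1).2 := by
    rw [hVs]
    exact mul_pos (lam_pos hdq) hYq
  unfold omg at hω'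
  rw [hX1, zero_mul, zero_sub] at hω'
  have := mul_nonneg hY1.le hP1
  linarith

theorem IsTc.unique {tc tc' : ℝ} (h : IsTc k μ V P tc) (h' : IsTc k μ V P tc') : tc = tc' := by
  rcases lt_trichotomy tc tc' with hlt | heq | hgt
  · have := h'.before tc h.pos hlt
    rw [h.zero] at this
    exact absurd this (lt_irrefl _)
  · exact heq
  · have := h.before tc' h'.pos hgt
    rw [h'.zero] at this
    exact absurd this (lt_irrefl _)

end EQK
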