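import Pool.Agent.Lib.MP_226de1_co.K.LineNear
import Pool.Agent.Lib.MP_226de1_co.K.Tc

/-! The lines of a body lie on the unstable curve, and `Δ = 0`. -/

set_option autoImplicit false

namespace EQK

open Set Filter Topology

variable {k μ r : ℝ} {V P : ℝ → ℝ × ℝ} {dn dp : Bool → ℝ → ℝ}

/-- Propagation.  Claim for `(s,q)`, `q ≥ 0`, by induction on the number `n` with `q + nδ ≥ Q`:
for `q ≥ Q` take `t < r` from `near` (`t ≤ tc` since otherwise `X(tc) = 0` with `tc < r`).  Otherwise the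
claim holds for `(!s, q + dp s q)`: `V t₁ = Vx (!s) (q + dp s q)`, `t₁ ≤ tc`, so
`V (μ t₁) = TT (V t₁) = Vx s q` (`TT_Vx'`) has first coordinate `q Y ≥ 0`, so `μ t₁ ≤ tc` by
`IsTc.after` (`μ t₁ ≤ μ tc`). -/
theorem LineSys.onCurve (hL : LineSys k μ dn dp) (hR : RC k μ r V P) {tc : ℝ}
    (hT : IsTc k μ V P tc) (s : Bool) {q : ℝ} (hq : 0 ≤ q) :
    ∃ t, 0 < t ∧ t ≤ tc ∧ V t = Vx μ dp s q := by
  obtain ⟨Q, hQ, hnear⟩ := hL.near hR
  obtain ⟨δ, hδ, hδb⟩ := hL.δpos
  have hμ := hL.hμ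
  have hrt : r ≤ tc := by
    by_contra hcon
    have h1 := hR.pos1 tc hT.pos (not_le.1 hcon)
    rw [hT.zero] at h1
    exact lt_irrefl _ h1
  have key : ∀ n : ℕ, ∀ (s : Bool) (q : ℝ), 0 ≤ q → Q ≤ q + n * δ →
      ∃ t, 0 < t ∧ t ≤ tc ∧ V t = Vx μ dp s q := by
    intro n
    induction n with
    | zero =>
      intro s q _ hQq
      rw [Nat.cast_zero, zero_mul, add_zero] at hQq
      obtain ⟨t, h1, h2, h3⟩ := hnear s q hQq
      exact ⟨t, h1, (h2.trans_le hrt).le, h3⟩
    | succ n ih =>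
      intro s q hq hQq
      have hdp := hL.dp_pos s q
      obtain ⟨t, h1, h2, h3⟩ := ih (!s) (q + dp s q) (by linarith) (by
        have h4 := (hδb s q).2
        push_cast at hQq
        linarith)
      have h4 : V (μ * t) = Vx μ dp s q := by
        rw [hR.step t h1, h3, hL.TT_Vx']
      refine ⟨μ * t, by positivity, ?_, h4⟩
      by_contra hcon
      have h5 := hT.after (μ * t) (not_le.1 hcon) (mul_le_mul_of_nonneg_left h2 (by linarith))
      rw [h4] at h5
      have h6 : 0 ≤ (Vx μ dp s q).1 := by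
        show 0 ≤ q * (μ - 1) / dp s q
        exact div_nonneg (mul_nonneg hq (by linarith)) hdp.le
      linarith
  obtain ⟨n, hn⟩ := exists_nat_ge (Q / δ)
  rw [div_le_iff₀ hδ] at hn
  exact key n s q hq (by linarith)

private theorem at_zero (hL : LineSys k μ dn dp) (hR : RC k μ r V P) {tc : ℝ}
    (hT : IsTc k μ V P tc) (s : Bool) :
    RR (V tc) ^ (k / 2) = ((μ - 1) * Real.sqrt (1 + 0 ^ 2) / dp s 0) ^ k := by
  obtain ⟨t, h1, h2, h3⟩ := hL.onCurve hR hT s (le_refl (0 : ℝ))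
  have h4 : t = tc := by
    rcases h2.lt_or_eq with h | h
    · have h5 := hT.before t h1 h
      rw [h3] at h5
      have h6 : (Vx μ dp s 0).1 = 0 := by
        show 0 * (μ - 1) / dp s 0 = 0
        rw [zero_mul, zero_div]
      rw [h6] at h5
      exact absurd h5 (lt_irrefl _)
    · exact h
  have hμ := hL.hμ
  have hdp := hL.dp_pos s 0
  have h0 : 0 ≤ (μ - 1) * Real.sqrt (1 + 0 ^ 2) / dp s 0 :=
    div_nonneg (mul_nonneg (by linarith) (Real.sqrt_nonneg _)) hdp.le
  rw [← h4, h3, hL.RR_Vx, ← Real.rpow_natCast, ← Real.rpow_mul h0]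
  congr 1
  push_cast
  ring

/-- at `q = 0`: `t = tc` (the first coordinate of `Vx s 0` is `0`), so `RR (V tc) = RR (Vx μ dp s 0)`;
the same for the mirrored system (`LineSys.mirror`), i.e. with `dn` in place of `dp`; then `rel`. -/
theorem LineSys.delta_zero (hL : LineSys k μ dn dp) (hR : RC k μ r V P) {tc : ℝ}
    (hT : IsTc k μ V P tc) : 2 * RR (V tc) ^ (k / 2) - cc k μ = 0 := by
  have h1 := at_zero hL hR hT true
  have h2 := at_zero hL.mirror hR hT true
  have h3 := hL.rel true 0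
  have h4 : dn true (-0) = dn true 0 := by rw [neg_zero]
  simp only [h4] at h2
  unfold cc
  rw [← h3, ← h1, ← h2]
  ring

end EQK
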