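import Pool.Agent.Lib.MP_226de1_co.K.Basic

/-! The elementary inequality `c^(2/k) - (c/2)^(2/k) ≤ (μ-1)²` for large `μ` or large `k`. -/

set_option autoImplicit false

namespace EQK

open Set Filter Topology

/-- fixed `k`: `c^(2/k) = μ² (1 + μ^(-k))^(2/k)`, so the left side divided by `μ²` tends to
`1 - 2^(-2/k) < 1`, the right side to `1` -/
theorem neg_mu {k : ℝ} (hk : 1 ≤ k) : ∃ M : ℝ, 1 < M ∧ ∀ μ, M ≤ μ →
    cc k μ ^ (2 / k) - (cc k μ / 2) ^ (2 / k) ≤ (μ - 1) ^ 2 := by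
  have hk0 : 0 < k := by linarith
  have h2k : (0 : ℝ) < (2 : ℝ) ^ (2 / k) := Real.rpow_pos_of_pos (by norm_num) _
  have hθ : (1 - 1 / (2 : ℝ) ^ (2 / k)) < 1 := by
    have : 0 < 1 / (2 : ℝ) ^ (2 / k) := by positivity
    linarith
  -- the two limits
  have t1 : Tendsto (fun μ : ℝ => (1 - 1 / (2 : ℝ) ^ (2 / k)) * (1 + μ ^ (-k)) ^ (2 / k)) atTop
      (𝓝 ((1 - 1 / (2 : ℝ) ^ (2 / k)) * 1)) := by
    apply Tendsto.const_mul
    have h1 : Tendsto (fun μ : ℝ => 1 + μ ^ (-k)) atTop (𝓝 (1 + 0)) :=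
      (tendsto_rpow_neg_atTop hk0).const_add 1
    have h2 := h1.rpow_const (p := 2 / k) (Or.inl (by norm_num))
    simpa using h2
  have t2 : Tendsto (fun μ : ℝ => (1 - μ⁻¹) ^ 2) atTop (𝓝 ((1 - 0) ^ 2)) :=
    (tendsto_inv_atTop_zero.const_sub 1).pow 2
  have hlt : (1 - 1 / (2 : ℝ) ^ (2 / k)) * 1 < (1 - 0) ^ 2 := by
    rw [mul_one]
    simpa using hθ
  have hev := t1.eventually_lt t2 hlt
  obtain ⟨M, hM⟩ := eventually_atTop.mp hev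
  refine ⟨max M 2, lt_of_lt_of_le (by norm_num) (le_max_right _ _), fun μ hμ => ?_⟩
  have h1 := hM μ ((le_max_left _ _).trans hμ)
  have hμ2 : 2 ≤ μ := (le_max_right _ _).trans hμ
  have hμ0 : 0 < μ := by linarith
  have hcc : cc k μ = μ ^ k * (1 + μ ^ (-k)) := by
    unfold cc
    rw [mul_add, mul_one, ← Real.rpow_add hμ0, add_neg_cancel, Real.rpow_zero]
    ring
  have hb : 0 < 1 + μ ^ (-k) := by
    have := Real.rpow_pos_of_pos hμ0 (-k)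
    linarith
  have hccp : cc k μ ^ (2 / k) = μ ^ 2 * (1 + μ ^ (-k)) ^ (2 / k) := by
    rw [hcc, Real.mul_rpow (Real.rpow_nonneg hμ0.le _) hb.le, ← Real.rpow_mul hμ0.le,
      mul_div_cancel₀ _ hk0.ne', ← Real.rpow_natCast]
    norm_num
  have hcc0 : 0 ≤ cc k μ := by
    rw [hcc]
    exact mul_nonneg (Real.rpow_nonneg hμ0.le _) hb.le
  rw [Real.div_rpow hcc0 (by norm_num), hccp]
  have e1 : μ ^ 2 * (1 + μ ^ (-k)) ^ (2 / k) - μ ^ 2 * (1 + μ ^ (-k)) ^ (2 / k) / 2 ^ (2 / k)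
      = μ ^ 2 * ((1 - 1 / (2 : ℝ) ^ (2 / k)) * (1 + μ ^ (-k)) ^ (2 / k)) := by ring
  have e2 : (μ - 1) ^ 2 = μ ^ 2 * (1 - μ⁻¹) ^ 2 := by
    field_simp
  rw [e1, e2]
  exact mul_le_mul_of_nonneg_left h1.le (by positivity)

/-- fixed `μ`: `c ≤ 2 μ^k`, left side `≤ (2 μ^k)^(2/k) (1 - 2^(-2/k)) = μ² (2^(2/k) - 1) → 0` -/
theorem neg_k {μ : ℝ} (hμ : 1 < μ) : ∃ K : ℝ, 1 ≤ K ∧ ∀ k, K ≤ k →
    cc k μ ^ (2 / k) - (cc k μ / 2) ^ (2 / k) ≤ (μ - 1) ^ 2 := by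
  have hμ0 : 0 < μ := by linarith
  have t1 : Tendsto (fun k : ℝ => μ ^ 2 * ((2 : ℝ) ^ (2 / k) - 1)) atTop (𝓝 (μ ^ 2 * (1 - 1))) := by
    apply Tendsto.const_mul
    apply Tendsto.sub_const
    have h1 : Tendsto (fun k : ℝ => 2 / k) atTop (𝓝 0) := tendsto_const_nhds.div_atTop tendsto_id
    have h2 : Tendsto (fun x : ℝ => (2 : ℝ) ^ x) (𝓝 0) (𝓝 ((2 : ℝ) ^ (0 : ℝ))) :=
      (Real.continuous_const_rpow (by norm_num)).tendsto 0
    rw [Real.rpow_zero] at h2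
    exact h2.comp h1
  have hlt : μ ^ 2 * (1 - 1) < (μ - 1) ^ 2 := by
    have : 0 < (μ - 1) ^ 2 := pow_pos (by linarith) 2
    simpa using this
  have hev := t1.eventually_lt_const hlt
  obtain ⟨K, hK⟩ := eventually_atTop.mp hev
  refine ⟨max K 1, le_max_right _ _, fun k hk => ?_⟩
  have h1 := hK k ((le_max_left _ _).trans hk)
  have hk1 : 1 ≤ k := (le_max_right _ _).trans hk
  have hk0 : 0 < k := by linarith
  have hccle : cc k μ ≤ 2 * μ ^ k := by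
    unfold cc
    have := Real.one_le_rpow hμ.le hk0.le
    linarith
  have hcc0 : 0 ≤ cc k μ := by
    unfold cc
    have := Real.rpow_nonneg hμ0.le k
    linarith
  have h2k : (1 : ℝ) ≤ (2 : ℝ) ^ (2 / k) := Real.one_le_rpow (by norm_num) (by positivity)
  have h2k0 : (0 : ℝ) < (2 : ℝ) ^ (2 / k) := by linarith
  have hpow : cc k μ ^ (2 / k) ≤ 2 ^ (2 / k) * μ ^ 2 := by
    calc cc k μ ^ (2 / k) ≤ (2 * μ ^ k) ^ (2 / k) :=
          Real.rpow_le_rpow hcc0 hccle (by positivity)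
      _ = 2 ^ (2 / k) * μ ^ 2 := by
          rw [Real.mul_rpow (by norm_num) (Real.rpow_nonneg hμ0.le _), ← Real.rpow_mul hμ0.le,
            mul_div_cancel₀ _ hk0.ne']
          norm_num
  rw [Real.div_rpow hcc0 (by norm_num)]
  have e1 : cc k μ ^ (2 / k) - cc k μ ^ (2 / k) / 2 ^ (2 / k)
      = cc k μ ^ (2 / k) * (1 - 1 / 2 ^ (2 / k)) := by ring
  rw [e1]
  have h3 : 0 ≤ 1 - 1 / (2 : ℝ) ^ (2 / k) := by
    have : 1 / (2 : ℝ) ^ (2 / k) ≤ 1 := by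
      rw [div_le_one h2k0]
      exact h2k
    linarith
  have h4 := mul_le_mul_of_nonneg_right hpow h3
  have e2 : 2 ^ (2 / k) * μ ^ 2 * (1 - 1 / (2 : ℝ) ^ (2 / k)) = μ ^ 2 * ((2 : ℝ) ^ (2 / k) - 1) := by
    field_simp
  rw [e2] at h4
  linarith

end EQK
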