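import Pool.Agent.Lib.MP_226de1_co.K.Tc

/-! Estimates at the first zero. -/

set_option autoImplicit false

namespace EQK

open Set Filter Topology

variable {k μ r : ℝ} {V P : ℝ → ℝ × ℝ}

/-- `X/Y` is strictly decreasing on `(0, tc]` (derivative `-ω/Y²`) -/
theorem IsTc.anti {tc : ℝ} (h : IsTc k μ V P tc) {s s' : ℝ} (hs : 0 < s) (hss : s < s')
    (hs' : s' ≤ tc) : (V s').1 / (V s').2 < (V s).1 / (V s).2 := by
  have hder : ∀ t ∈ Icc s s', HasDerivAt (fun s => (V s).1 / (V s).2)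
      (((P t).1 * (V t).2 - (V t).1 * (P t).2) / (V t).2 ^ 2) t := by
    intro t ht
    have h0 : 0 < t := lt_of_lt_of_le hs ht.1
    have h1 : t ≤ tc := ht.2.trans hs'
    exact (h.der1 t h0 h1).div (h.der2 t h0 h1) (h.Ypos t h0 h1).ne'
  have hanti : StrictAntiOn (fun s => (V s).1 / (V s).2) (Icc s s') := by
    apply strictAntiOn_of_deriv_neg (convex_Icc s s')
    · intro t ht
      exact (hder t ht).continuousAt.continuousWithinAt
    · intro t ht
      rw [interior_Icc] at ht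
      have ht' : t ∈ Icc s s' := ⟨ht.1.le, ht.2.le⟩
      rw [(hder t ht').deriv]
      have h0 : 0 < t := lt_of_lt_of_le hs ht'.1
      have h1 : t ≤ tc := ht'.2.trans hs'
      have hω := (h.cone t h0 h1).2.1
      have hY := h.Ypos t h0 h1
      apply div_neg_of_neg_of_pos _ (by positivity)
      unfold omg at hω
      nlinarith
  exact hanti (left_mem_Icc.mpr hss.le) (right_mem_Icc.mpr hss.le) hss

/-- elementary estimate: `lam² R(tc/μ) = R(tc) + (μ-1)²` and `(lam² R)^(k/2) < c` -/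
theorem IsTc.RR_lt (hr : RC k μ r V P) {tc : ℝ} (h : IsTc k μ V P tc) :
    RR (V tc) + (μ - 1) ^ 2 < cc k μ ^ (2 / k) := by
  have hk : 0 < k := by linarith [hr.hk]
  have hμ : 0 < μ := by linarith [hr.hμ]
  have h0 : 0 < tc / μ := div_pos h.pos hμ
  have h1 : tc / μ ≤ tc := div_le_self h.pos.le hr.hμ.le
  have hd := h.dom _ h0 h1
  have hst : V tc = TT k μ (V (tc / μ)) := by
    rw [← hr.step _ h0, mul_div_cancel₀ _ hμ.ne']
  have h2 := RR_TT k μ (V (tc / μ))
  rw [← hst, h.zero, mul_zero, add_zero] at h2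
  rw [h2]
  have h3 := lam_sq_rpow hk hd
  have h4 : 0 < RR (V (tc / μ)) ^ (k / 2) := Real.rpow_pos_of_pos hd.1 _
  have h5 : (lam k μ (RR (V (tc / μ))) ^ 2 * RR (V (tc / μ))) ^ (k / 2) < cc k μ := by
    rw [h3]; linarith
  have h6 : 0 ≤ lam k μ (RR (V (tc / μ))) ^ 2 * RR (V (tc / μ)) :=
    mul_nonneg (sq_nonneg _) hd.1.le
  have h7 : lam k μ (RR (V (tc / μ))) ^ 2 * RR (V (tc / μ)) =
      ((lam k μ (RR (V (tc / μ))) ^ 2 * RR (V (tc / μ))) ^ (k / 2)) ^ (2 / k) := by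
    rw [← Real.rpow_mul h6]
    have : k / 2 * (2 / k) = 1 := by field_simp
    rw [this, Real.rpow_one]
  rw [h7]
  exact Real.rpow_lt_rpow (Real.rpow_nonneg h6 _) h5 (by positivity)

/-- `Δ < 0` if `(μ-1)² ≥ c^(2/k) - (c/2)^(2/k)` -/
theorem IsTc.neg (hr : RC k μ r V P) {tc : ℝ} (h : IsTc k μ V P tc)
    (hb : cc k μ ^ (2 / k) - (cc k μ / 2) ^ (2 / k) ≤ (μ - 1) ^ 2) :
    2 * RR (V tc) ^ (k / 2) - cc k μ < 0 := by
  have hk : 0 < k := by linarith [hr.hk]
  have hμ : 0 < μ := by linarith [hr.hμ]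
  have hc : 0 < cc k μ := by
    unfold cc
    have := Real.rpow_pos_of_pos hμ k
    linarith
  have h1 := IsTc.RR_lt hr h
  have h2 : RR (V tc) < (cc k μ / 2) ^ (2 / k) := by linarith
  have h3 : RR (V tc) ^ (k / 2) < ((cc k μ / 2) ^ (2 / k)) ^ (k / 2) :=
    Real.rpow_lt_rpow (h.dom tc h.pos le_rfl).1.le h2 (by positivity)
  have h4 : ((cc k μ / 2) ^ (2 / k)) ^ (k / 2) = cc k μ / 2 := by
    rw [← Real.rpow_mul (by positivity)]
    have : 2 / k * (k / 2) = 1 := by field_simp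
    rw [this, Real.rpow_one]
  rw [h4] at h3
  linarith

end EQK
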