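import Mathlib

/-! Finiteness of zeros on a compact interval of a function that is locally the restriction of a
complex analytic function. -/

set_option autoImplicit false

namespace EQK

open Set Filter Topology

/-- If the set of zeros is infinite it accumulates at some `x₀ ∈ [a,b]`
(`Set.Infinite.exists_accPt_of_subset_isCompact`), the local `g` vanishes identically near `x₀`
(`AnalyticAt.frequently_zero_iff_eventually_zero`), so `f = 0` on a relative neighbourhood.  The set
of `x ∈ [a,b]` such that `f = 0` on a relative neighbourhood of `x` is relatively open and closed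
(closed: again by the identity theorem for the local `g`), hence everything (`isPreconnected_Icc`). -/
theorem zeros_finite {f : ℝ → ℝ} {a b : ℝ}
    (h : ∀ x ∈ Icc a b, ∃ g : ℂ → ℂ, AnalyticAt ℂ g (x : ℂ) ∧
      ∀ᶠ y : ℝ in 𝓝 x, y ∈ Icc a b → g (y : ℂ) = ((f y : ℝ) : ℂ))
    (hne : ∃ x ∈ Icc a b, f x ≠ 0) : {x | x ∈ Icc a b ∧ f x = 0}.Finite := by
  by_contra hinf
  have hinf' : {x | x ∈ Icc a b ∧ f x = 0}.Infinite := hinf
  obtain ⟨x1, hx1, hfx1⟩ := hne
  -- the identity theorem in the subtype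
  have key : ∀ x : Icc a b, (∃ᶠ y : Icc a b in 𝓝[≠] x, f y.1 = 0) → ∀ᶠ y : Icc a b in 𝓝 x, f y.1 = 0 := by
    intro x hx
    obtain ⟨g, hg, he⟩ := h x.1 x.2
    have hc : Tendsto (fun y : Icc a b => y.1) (𝓝 x) (𝓝 x.1) := continuous_subtype_val.tendsto x
    have he' : ∀ᶠ y : Icc a b in 𝓝 x, g ((y.1 : ℝ) : ℂ) = ((f y.1 : ℝ) : ℂ) := by
      filter_upwards [hc.eventually he] with y hy using hy y.2
    have hct : Tendsto (fun y : Icc a b => ((y.1 : ℝ) : ℂ)) (𝓝 x) (𝓝 ((x.1 : ℝ) : ℂ)) :=
      (Complex.continuous_ofReal.tendsto x.1).comp hc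
    have hcn : Tendsto (fun y : Icc a b => ((y.1 : ℝ) : ℂ)) (𝓝[≠] x) (𝓝[≠] ((x.1 : ℝ) : ℂ)) := by
      refine tendsto_nhdsWithin_of_tendsto_nhds_of_eventually_within _
        (hct.mono_left nhdsWithin_le_nhds) ?_
      filter_upwards [self_mem_nhdsWithin] with y hy
      intro hyx
      exact hy (Subtype.ext (Complex.ofReal_injective hyx))
    have hfr : ∃ᶠ z in 𝓝[≠] ((x.1 : ℝ) : ℂ), g z = 0 := by
      refine hcn.frequently (p := fun z => g z = 0) ?_
      refine (hx.and_eventually (he'.filter_mono nhdsWithin_le_nhds)).mono ?_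
      rintro y ⟨hy1, hy2⟩
      rw [hy2, hy1, Complex.ofReal_zero]
    have hz := hg.frequently_zero_iff_eventually_zero.1 hfr
    filter_upwards [hct.eventually hz, he'] with y hy1 hy2
    rw [hy1] at hy2
    exact_mod_cast hy2.symm
  let U : Set (Icc a b) := {x | ∀ᶠ y : Icc a b in 𝓝 x, f y.1 = 0}
  have hUo : IsOpen U := isOpen_setOfPred_eventually_nhds
  have hUc : IsClosed U := by
    rw [← closure_subset_iff_isClosed]
    intro x hx
    by_cases hxU : x ∈ U
    · exact hxU
    · refine key x ?_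
      have h1 : ∃ᶠ y in 𝓝 x, y ∈ U := mem_closure_iff_frequently.1 hx
      have h2 : ∃ᶠ y in 𝓝[≠] x, y ∈ U := by
        rw [frequently_nhdsWithin_iff]
        refine h1.mono fun y hy => ⟨hy, ?_⟩
        intro hyx
        rw [mem_singleton_iff] at hyx
        exact hxU (hyx ▸ hy)
      exact h2.mono fun y (hy : ∀ᶠ z : Icc a b in 𝓝 y, f z.1 = 0) => hy.self_of_nhds
  have : PreconnectedSpace (Icc a b) := isPreconnected_iff_preconnectedSpace.1 isPreconnected_Icc
  have hU := isClopen_iff.1 ⟨hUc, hUo⟩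
  rcases hU with hU | hU
  · -- the accumulation point
    have hS : {x : Icc a b | f x.1 = 0}.Infinite := by
      intro hfin
      refine hinf' ((hfin.image Subtype.val).subset ?_)
      rintro x ⟨hx, hx0⟩
      exact ⟨⟨x, hx⟩, hx0, rfl⟩
    obtain ⟨x0, -, hx0⟩ := hS.exists_accPt_of_subset_isCompact isCompact_univ (subset_univ _)
    have h3 : x0 ∈ U := key x0 (accPt_iff_frequently_nhdsNE.1 hx0)
    rw [hU] at h3
    exact h3
  · have h3 : (⟨x1, hx1⟩ : Icc a b) ∈ U := by rw [hU]; exact mem_univ _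
    have h4 : ∀ᶠ z : Icc a b in 𝓝 (⟨x1, hx1⟩ : Icc a b), f z.1 = 0 := h3
    exact hfx1 h4.self_of_nhds

end EQK
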