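import Mathlib

/-! Restriction to lines. -/

set_option autoImplicit false

namespace EQK

open Set Filter Topology

/-- restriction of a complex `C¹` function of two variables to a line in the first variable -/
theorem line_fst {g : ℂ × ℂ → ℂ} {x y : ℂ} (h : ContDiffAt ℂ 1 g (x, y)) :
    AnalyticAt ℂ (fun z => g (z, y)) x := by
  have h1 : ContDiffAt ℂ 1 (fun z : ℂ => g (z, y)) x :=
    ContDiffAt.comp (f := fun z : ℂ => (z, y)) x h (contDiffAt_id.prodMk contDiffAt_const)
  rw [Complex.analyticAt_iff_eventually_differentiableAt]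
  filter_upwards [h1.eventually (by simp)] with z hz using hz.differentiableAt (by norm_num)

theorem line_snd {g : ℂ × ℂ → ℂ} {x y : ℂ} (h : ContDiffAt ℂ 1 g (x, y)) :
    AnalyticAt ℂ (fun z => g (x, z)) y := by
  have h1 : ContDiffAt ℂ 1 (fun z : ℂ => g (x, z)) y :=
    ContDiffAt.comp (f := fun z : ℂ => (x, z)) y h (contDiffAt_const.prodMk contDiffAt_id)
  rw [Complex.analyticAt_iff_eventually_differentiableAt]
  filter_upwards [h1.eventually (by simp)] with z hz using hz.differentiableAt (by norm_num)

end EQK
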