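import Pool.Agent.Lib.MP_226de1_co.K.Param3
import Pool.Agent.Lib.MP_226de1_co.K.Zeros1
import Pool.Agent.Lib.MP_226de1_co.K.Zeros2
import Pool.Agent.Lib.MP_226de1_co.K.Neg
import Pool.Agent.Lib.MP_226de1_co.K.LineCurve
import Pool.Agent.Lib.MP_226de1_co.K.TcEst

/-! Finiteness of the exceptional parameters of line systems. -/

set_option autoImplicit false

namespace EQK

open Set Filter Topology

theorem Dl_eq_zero {k μ : ℝ} {dn dp : Bool → ℝ → ℝ} (hL : LineSys k μ dn dp) : Dl k μ = 0 := by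
  obtain ⟨r, P, hR, hT⟩ := tcr_isTc hL.hk.le hL.hμ
  exact hL.delta_zero hR hT

theorem Dl_neg {k μ : ℝ} (hk : 1 ≤ k) (hμ : 1 < μ)
    (hb : cc k μ ^ (2 / k) - (cc k μ / 2) ^ (2 / k) ≤ (μ - 1) ^ 2) : Dl k μ < 0 := by
  obtain ⟨r, P, hR, hT⟩ := tcr_isTc hk hμ
  exact hT.neg hR hb

/-- for fixed `k > 1` only finitely many ratios `μ ≥ a > 1` -/
theorem finite_mu {k a : ℝ} (hk : 1 < k) (ha : 1 < a) :
    {μ : ℝ | a ≤ μ ∧ ∃ dn dp, LineSys k μ dn dp}.Finite := by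
  obtain ⟨M, hM, hneg⟩ := neg_mu hk.le
  set b := max a M with hb
  have hab : a ≤ b := le_max_left _ _
  have hfin : {x | x ∈ Icc a b ∧ Dl k x = 0}.Finite := by
    refine zeros_finite (f := fun x => Dl k x) ?_ ⟨b, ⟨hab, le_rfl⟩, ?_⟩
    · intro x hx
      obtain ⟨g, hg, hev⟩ := Dl_complex (k₀ := k) (μ₀ := x) hk.le (lt_of_lt_of_le ha hx.1)
      refine ⟨fun z => g ((k : ℂ), z), line_snd hg, ?_⟩
      have hc : Tendsto (fun y : ℝ => (k, y)) (𝓝 x) (𝓝 (k, x)) :=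
        (Continuous.prodMk continuous_const continuous_id).tendsto x
      filter_upwards [hc.eventually hev] with y hy _
      exact hy hk.le
    · have h1 := Dl_neg hk.le (lt_of_lt_of_le ha hab) (hneg b (le_max_right _ _))
      exact h1.ne
  refine hfin.subset ?_
  rintro μ ⟨h1, dn, dp, hL⟩
  have h0 := Dl_eq_zero hL
  refine ⟨⟨h1, ?_⟩, h0⟩
  by_contra hlt
  push Not at hlt
  have h2 := Dl_neg hk.le hL.hμ (hneg μ ((le_max_right _ _).trans hlt.le))
  linarith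

/-- for fixed `μ > 1` only finitely many exponents `k > 1` -/
theorem finite_k {μ : ℝ} (hμ : 1 < μ) :
    {k : ℝ | ∃ dn dp, LineSys k μ dn dp}.Finite := by
  obtain ⟨K, hK, hneg⟩ := neg_k hμ
  have hfin : {x | x ∈ Icc 1 K ∧ Dl x μ = 0}.Finite := by
    refine zeros_finite (f := fun x => Dl x μ) ?_ ⟨K, ⟨hK, le_rfl⟩, ?_⟩
    · intro x hx
      obtain ⟨g, hg, hev⟩ := Dl_complex (k₀ := x) (μ₀ := μ) hx.1 hμ
      refine ⟨fun z => g (z, (μ : ℂ)), line_fst hg, ?_⟩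
      have hc : Tendsto (fun y : ℝ => (y, μ)) (𝓝 x) (𝓝 (x, μ)) :=
        (Continuous.prodMk continuous_id continuous_const).tendsto x
      filter_upwards [hc.eventually hev] with y hy hyI
      exact hy hyI.1
    · have h1 := Dl_neg hK hμ (hneg K le_rfl)
      exact h1.ne
  refine hfin.subset ?_
  rintro k ⟨dn, dp, hL⟩
  have h0 := Dl_eq_zero hL
  refine ⟨⟨hL.hk.le, ?_⟩, h0⟩
  by_contra hlt
  push Not at hlt
  have h2 := Dl_neg hL.hk.le hL.hμ (hneg k hlt.le)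
  linarith

end EQK
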