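import Pool.Agent.Lib.MP_226de1_co.GeoGauge

/-! The equipower condition for a general exponent in terms of the gauge. -/

set_option autoImplicit false

namespace EQK

open Complex Set Filter Topology EQ2

variable {K : Set ℂ} {c : ℂ}

/-- as `EQ2.gK_equi`, with a real exponent -/
theorem gK_equi_k {k : ℝ} (hc : Convex ℝ K) (hK : IsCompact K) (hi : c ∈ interior K) {c₀ : ℝ}
    (he : ∀ x ∈ frontier K, ∀ y ∈ frontier K, x ≠ y → c ∈ segment ℝ x y →
      dist c x ^ k + dist c y ^ k = c₀) {w : ℂ} (hw : w ≠ 0) :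
    (‖w‖ / gK K c w) ^ k + (‖w‖ / gK K c (-w)) ^ k = c₀ := by
  have hw' : -w ≠ 0 := neg_ne_zero.2 hw
  have hp := gK_pos hK hi hw
  have hp' := gK_pos hK hi hw'
  have h1 := gK_mem_frontier hc hK hi hw
  have h2 := gK_mem_frontier hc hK hi hw'
  set a := gK K c w with ha
  set b := gK K c (-w) with hb
  have hne : c + ((1 / a : ℝ) : ℂ) * w ≠ c + ((1 / b : ℝ) : ℂ) * (-w) := by
    intro h
    have h3 : (((1 / a + 1 / b : ℝ)) : ℂ) * w = 0 := by
      push_cast at h ⊢
      linear_combination h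
    rcases mul_eq_zero.1 h3 with h4 | h4
    · have h5 : (1 / a + 1 / b : ℝ) = 0 := by exact_mod_cast h4
      have : 0 < 1 / a + 1 / b := by positivity
      linarith
    · exact hw h4
  have hseg : c ∈ segment ℝ (c + ((1 / a : ℝ) : ℂ) * w) (c + ((1 / b : ℝ) : ℂ) * (-w)) := by
    refine ⟨a / (a + b), b / (a + b), by positivity, by positivity, by field_simp, ?_⟩
    rw [Complex.real_smul, Complex.real_smul]
    have ha0 : (a : ℂ) ≠ 0 := by exact_mod_cast hp.ne'
    have hb0 : (b : ℂ) ≠ 0 := by exact_mod_cast hp'.ne'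
    have hab : (a : ℂ) + b ≠ 0 := by
      have : a + b ≠ 0 := by positivity
      exact_mod_cast this
    push_cast
    field_simp
    ring
  have h3 := he _ h1 _ h2 hne hseg
  have d1 : dist c (c + ((1 / a : ℝ) : ℂ) * w) = 1 / a * ‖w‖ := by
    rw [dist_eq_norm, sub_add_cancel_left, norm_neg, norm_mul, Complex.norm_real,
      Real.norm_of_nonneg (by positivity)]
  have d2 : dist c (c + ((1 / b : ℝ) : ℂ) * (-w)) = 1 / b * ‖w‖ := by
    rw [dist_eq_norm, sub_add_cancel_left, norm_neg, norm_mul, Complex.norm_real,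
      Real.norm_of_nonneg (by positivity), norm_neg]
  rw [d1, d2] at h3
  rw [← h3]
  congr 2 <;> ring

end EQK
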