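import Pool.Agent.Lib.MP_226de1_co.K.GeoPlanar
import Pool.Agent.Lib.MP_226de1_co.K.GeoSys2
import Pool.Agent.Lib.MP_226de1_co.K.Finite

/-! The final theorem (B). -/

set_option autoImplicit false

namespace EQK

open Set

theorem lineSys_of_body {k e : ℝ} (hk : 1 < k) (h : Body k e) :
    0 < e ∧ e < 1 ∧ ∃ dn dp, LineSys k ((1 + e) / (1 - e)) dn dp := by
  obtain ⟨K, a, c₁, c₂, hT, he⟩ := planar_of_body hk h
  have ha := hT.ha
  have hr := hT.r_eq.1
  have he' : e = 2 * a / (2 * a + 2 * rL K a) := by
    rw [eq_div_iff (by positivity)]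
    linarith
  have h1 : 0 < e := by rw [he']; positivity
  have h2 : e < 1 := by
    rw [he', div_lt_one (by positivity)]
    linarith
  refine ⟨h1, h2, dnK K a, dpK K a, ?_⟩
  have h3 : (1 + e) / (1 - e) = (2 * a + rL K a) / rL K a := by
    have h4 : (1 - e) * (2 * a + 2 * rL K a) = 2 * rL K a := by linarith
    have h5 : (1 + e) * (2 * a + 2 * rL K a) = 2 * (2 * a + rL K a) := by linarith
    have h6 : 1 - e = 2 * rL K a / (2 * a + 2 * rL K a) := by
      rw [eq_div_iff (by positivity)]
      exact h4
    have h7 : 1 + e = 2 * (2 * a + rL K a) / (2 * a + 2 * rL K a) := by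
      rw [eq_div_iff (by positivity)]
      exact h5
    rw [h6, h7]
    field_simp
  rw [h3]
  exact hT.lineSys

private theorem gf_inj {e e' : ℝ} (h : e < 1) (h' : e' < 1)
    (he : (1 + e) / (1 - e) = (1 + e') / (1 - e')) : e = e' := by
  rw [div_eq_div_iff (by linarith) (by linarith)] at he
  linarith

/-- (B1) and (B2) -/
theorem theoremB :
    (∀ k : ℝ, 1 < k → ∀ ε : ℝ, 0 < ε → {e : ℝ | ε ≤ e ∧ Body k e}.Finite) ∧
    (∀ e : ℝ, 0 < e → {k : ℝ | 1 < k ∧ Body k e}.Finite) := by
  constructor
  · intro k hk ε hε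
    rcases lt_or_ge ε 1 with hε1 | hε1
    · have ha : 1 < (1 + ε) / (1 - ε) := by
        rw [lt_div_iff₀ (by linarith)]
        linarith
      have hfin := finite_mu hk ha
      refine Set.Finite.of_finite_image (f := fun e : ℝ => (1 + e) / (1 - e))
        (hfin.subset ?_) ?_
      · rintro _ ⟨e, ⟨h1, h2⟩, rfl⟩
        obtain ⟨_, he1, dn, dp, hL⟩ := lineSys_of_body hk h2
        refine ⟨?_, dn, dp, hL⟩
        show (1 + ε) / (1 - ε) ≤ (1 + e) / (1 - e)
        rw [div_le_div_iff₀ (by linarith) (by linarith)]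
        nlinarith
      · intro e he e' he' hee
        exact gf_inj (lineSys_of_body hk he.2).2.1 (lineSys_of_body hk he'.2).2.1 hee
    · convert Set.finite_empty
      ext e
      simp only [Set.mem_ofPred_eq, mem_empty_iff_false, iff_false, not_and]
      intro h1 h2
      have := (lineSys_of_body hk h2).2.1
      linarith
  · intro e he
    rcases lt_or_ge e 1 with he1 | he1
    · have hμ : 1 < (1 + e) / (1 - e) := by
        rw [lt_div_iff₀ (by linarith)]
        linarith
      refine (finite_k hμ).subset ?_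
      rintro k ⟨h1, h2⟩
      exact (lineSys_of_body h1 h2).2.2
    · convert Set.finite_empty
      ext k
      simp only [Set.mem_ofPred_eq, mem_empty_iff_false, iff_false, not_and]
      intro h1 h2
      have := (lineSys_of_body h1 h2).2.1
      linarith

end EQK
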