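import Pool.Agent.Lib.MP_226de1_co.K.GeoSys
import Pool.Agent.Lib.MP_226de1_co.K.GeoEmb

/-! Reduction to the plane. -/

set_option autoImplicit false

namespace EQK

open Set EQ2

/-- a convex body in `ℝ^d` (`d ≥ 2`) with two `k`-equipower points `p ≠ q`, where `e` is the ratio of
`|pq|` to the length of the chord through `p` and `q` -/
def Body (k e : ℝ) : Prop :=
  ∃ (d : ℕ) (K : Set (EuclideanSpace ℝ (Fin d))) (p q A B : EuclideanSpace ℝ (Fin d)),
    2 ≤ d ∧ Convex ℝ K ∧ IsCompact K ∧ p ≠ q ∧ p ∈ interior K ∧ q ∈ interior K ∧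
    (∃ c : ℝ, ∀ x ∈ frontier K, ∀ y ∈ frontier K, x ≠ y → p ∈ segment ℝ x y →
      dist p x ^ k + dist p y ^ k = c) ∧
    (∃ c : ℝ, ∀ x ∈ frontier K, ∀ y ∈ frontier K, x ≠ y → q ∈ segment ℝ x y →
      dist q x ^ k + dist q y ^ k = c) ∧
    A ∈ frontier K ∧ B ∈ frontier K ∧ p ∈ segment ℝ A B ∧ q ∈ segment ℝ A B ∧
    dist p q = e * dist A B

private theorem pre_frontier {d : ℕ} {K : Set (EuclideanSpace ℝ (Fin d))} (hc : Convex ℝ K)
    (hK : IsClosed K) {φ : ℂ →ᵃ[ℝ] EuclideanSpace ℝ (Fin d)} (hφ : Isometry φ) {z w : ℂ}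
    (hz : φ z ∈ interior K) (hw : φ w ∈ frontier K) : w ∈ frontier (φ ⁻¹' K) := by
  have hwK : φ w ∈ K := hK.frontier_subset hw
  have hwi : φ w ∉ interior K := by
    rw [hK.frontier_eq] at hw
    exact hw.2
  refine ⟨subset_closure hwK, fun hi => hwi ?_⟩
  have hcont : Continuous (fun t : ℝ => (AffineMap.lineMap z w (1 + t) : ℂ)) := by
    have : (fun t : ℝ => (AffineMap.lineMap z w (1 + t) : ℂ)) =
        fun t : ℝ => (1 + t) • (w - z) + z := by
      funext t
      rw [AffineMap.lineMap_apply]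
      simp
    rw [this]
    fun_prop
  have h0 : (AffineMap.lineMap z w (1 + (0 : ℝ)) : ℂ) = w := by simp
  have hn : ∀ᶠ t : ℝ in nhds 0, (AffineMap.lineMap z w (1 + t) : ℂ) ∈ φ ⁻¹' K := by
    have := hcont.continuousAt (x := (0 : ℝ))
    apply this.eventually_mem
    rw [h0]
    exact mem_interior_iff_mem_nhds.1 hi
  obtain ⟨δ, hδ, hδ'⟩ := Metric.eventually_nhds_iff.1 hn
  have h1 := hδ' (y := δ / 2) (by
    rw [Real.dist_eq, sub_zero, abs_of_pos (by positivity)]
    linarith)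
  rw [mem_preimage, AffineMap.apply_lineMap] at h1
  have hpos : 0 < 1 + δ / 2 := by positivity
  have h2 := hc.combo_self_interior_mem_interior h1 hz (a := 1 / (1 + δ / 2))
    (b := (δ / 2) / (1 + δ / 2)) (by positivity) (by positivity) (by field_simp)
  have h3 : (1 / (1 + δ / 2)) • (AffineMap.lineMap (φ z) (φ w) (1 + δ / 2) :
      EuclideanSpace ℝ (Fin d)) + ((δ / 2) / (1 + δ / 2)) • φ z = φ w := by
    rw [AffineMap.lineMap_apply_module, smul_add, smul_smul, smul_smul]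
    rw [add_right_comm, ← add_smul]
    have e1 : 1 / (1 + δ / 2) * (1 - (1 + δ / 2)) + δ / 2 / (1 + δ / 2) = 0 := by
      field_simp
      ring
    have e2 : 1 / (1 + δ / 2) * (1 + δ / 2) = 1 := by field_simp
    rw [e1, e2, zero_smul, one_smul, zero_add]
  rw [h3] at h2
  exact h2

private theorem planar_aux {k e : ℝ} (hk : 1 < k) {d : ℕ} {K : Set (EuclideanSpace ℝ (Fin d))}
    {p q A B : EuclideanSpace ℝ (Fin d)} (hd : 2 ≤ d) (hc : Convex ℝ K) (hK : IsCompact K)
    (hpq : p ≠ q) (hp : p ∈ interior K) (hq : q ∈ interior K) {c₁ c₂ : ℝ}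
    (h₁ : ∀ x ∈ frontier K, ∀ y ∈ frontier K, x ≠ y → p ∈ segment ℝ x y →
      dist p x ^ k + dist p y ^ k = c₁)
    (h₂ : ∀ x ∈ frontier K, ∀ y ∈ frontier K, x ≠ y → q ∈ segment ℝ x y →
      dist q x ^ k + dist q y ^ k = c₂)
    (hA : A ∈ frontier K) (hB : B ∈ frontier K) {s t : ℝ} (hs : 0 ≤ s) (ht : t ≤ 1)
    (hst : s < t) (hps : AffineMap.lineMap A B s = p) (hqt : AffineMap.lineMap A B t = q)
    (he : dist p q = e * dist A B) :
    ∃ (K : Set ℂ) (a c₁ c₂ : ℝ), TwoEqui k K a c₁ c₂ ∧ 2 * a = e * (2 * a + 2 * rL K a) := by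
  obtain ⟨φ, hφ, hφp, hφq⟩ := exists_embedding hd hpq
  have hcont : Continuous φ := hφ.continuous
  have hseg : ∀ w x y : ℂ, w ∈ segment ℝ x y → φ w ∈ segment ℝ (φ x) (φ y) := by
    intro w x y hw
    rw [← image_segment]
    exact Set.mem_image_of_mem _ hw
  set a : ℝ := dist p q / 2 with ha
  have ha0 : 0 < a := half_pos (dist_pos.mpr hpq)
  have hT : TwoEqui k (φ ⁻¹' K) a c₁ c₂ := by
    refine
      { hk := hk
        ha := ha0
        hc := hc.affine_preimage φ
        hK := hφ.isClosedEmbedding.isCompact_preimage hK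
        hi₁ := ?_
        hi₂ := ?_
        he₁ := ?_
        he₂ := ?_ }
    · apply preimage_interior_subset_interior_preimage hcont
      show φ _ ∈ interior K
      rw [hφp]
      exact hp
    · apply preimage_interior_subset_interior_preimage hcont
      show φ _ ∈ interior K
      rw [hφq]
      exact hq
    · intro x hx y hy hxy hs
      have h := h₁ (φ x) (hcont.frontier_preimage_subset K hx) (φ y)
        (hcont.frontier_preimage_subset K hy) (hφ.injective.ne hxy) (by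
          have := hseg _ _ _ hs
          rwa [hφp] at this)
      rw [← hφp, hφ.dist_eq, hφ.dist_eq] at h
      exact h
    · intro x hx y hy hxy hs
      have h := h₂ (φ x) (hcont.frontier_preimage_subset K hx) (φ y)
        (hcont.frontier_preimage_subset K hy) (hφ.injective.ne hxy) (by
          have := hseg _ _ _ hs
          rwa [hφq] at this)
      rw [← hφq, hφ.dist_eq, hφ.dist_eq] at h
      exact h
  refine ⟨φ ⁻¹' K, a, c₁, c₂, hT, ?_⟩
  have hts : 0 < t - s := by linarith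
  have hts' : t - s ≠ 0 := hts.ne'
  have hintK : ∀ {x}, x ∈ frontier K → x ∉ interior K := by
    intro x hx
    rw [hK.isClosed.frontier_eq] at hx
    exact hx.2
  have hs0 : 0 < s := by
    rcases lt_or_eq_of_le hs with h | h
    · exact h
    · exfalso
      rw [← h, AffineMap.lineMap_apply_zero] at hps
      rw [hps] at hA
      exact hintK hA hp
  have ht1 : t < 1 := by
    rcases lt_or_eq_of_le ht with h | h
    · exact h
    · exfalso
      rw [h, AffineMap.lineMap_apply_one] at hqt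
      rw [hqt] at hB
      exact hintK hB hq
  -- `A` and `B` on the line `pq`
  have hA' : AffineMap.lineMap p q (-s / (t - s)) = A := by
    rw [← hps, ← hqt]
    simp only [AffineMap.lineMap_apply_module]
    match_scalars
    · field_simp
      ring
    · field_simp
      ring
  have hB' : AffineMap.lineMap p q ((1 - s) / (t - s)) = B := by
    rw [← hps, ← hqt]
    simp only [AffineMap.lineMap_apply_module]
    match_scalars
    · field_simp
      ring
    · field_simp
      ring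
  have hφA : φ (AffineMap.lineMap (((-a : ℝ)) : ℂ) ((a : ℝ) : ℂ) (-s / (t - s))) = A := by
    rw [AffineMap.apply_lineMap, hφp, hφq, hA']
  have hφB : φ (AffineMap.lineMap (((-a : ℝ)) : ℂ) ((a : ℝ) : ℂ) ((1 - s) / (t - s))) = B := by
    rw [AffineMap.apply_lineMap, hφp, hφq, hB']
  have eA : (AffineMap.lineMap (((-a : ℝ)) : ℂ) ((a : ℝ) : ℂ) (-s / (t - s)) : ℂ) =
      ((-a : ℝ) : ℂ) + ((2 * a * (s / (t - s)) : ℝ) : ℂ) * (-1) := by
    rw [AffineMap.lineMap_apply]
    simp only [vsub_eq_sub, vadd_eq_add, Complex.real_smul]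
    push_cast
    ring
  have eB : (AffineMap.lineMap (((-a : ℝ)) : ℂ) ((a : ℝ) : ℂ) ((1 - s) / (t - s)) : ℂ) =
      ((a : ℝ) : ℂ) + ((2 * a * ((1 - t) / (t - s)) : ℝ) : ℂ) * 1 := by
    rw [AffineMap.lineMap_apply]
    simp only [vsub_eq_sub, vadd_eq_add, Complex.real_smul]
    have hne : ((t : ℂ) - s) ≠ 0 := by exact_mod_cast hts'
    push_cast
    field_simp
    ring
  have hfA := pre_frontier hc hK.isClosed hφ (z := ((-a : ℝ) : ℂ)) (by rw [hφp]; exact hp)
    (w := ((-a : ℝ) : ℂ) + ((2 * a * (s / (t - s)) : ℝ) : ℂ) * (-1)) (by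
      rw [← eA, hφA]; exact hA)
  have hfB := pre_frontier hc hK.isClosed hφ (z := ((a : ℝ) : ℂ)) (by rw [hφq]; exact hq)
    (w := ((a : ℝ) : ℂ) + ((2 * a * ((1 - t) / (t - s)) : ℝ) : ℂ) * 1) (by
      rw [← eB, hφB]; exact hB)
  have hpA : 0 < 2 * a * (s / (t - s)) := by positivity
  have hpB : 0 < 2 * a * ((1 - t) / (t - s)) := by
    have : 0 < 1 - t := by linarith
    positivity
  have gA := gK_eq_of_mem hT.hc hT.hK hT.hi₁ hpA hfA
  have gB := gK_eq_of_mem hT.hc hT.hK hT.hi₂ hpB hfB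
  have hrL : rL (φ ⁻¹' K) a = 2 * a * (s / (t - s)) := by
    unfold rL
    rw [gA, one_div_one_div]
  have hrR : rR (φ ⁻¹' K) a = 2 * a * ((1 - t) / (t - s)) := by
    unfold rR
    rw [gB, one_div_one_div]
  obtain ⟨-, hLR, -, -⟩ := hT.r_eq
  have hAB : dist p q = (t - s) * dist A B := by
    rw [← hps, ← hqt, dist_lineMap_lineMap, dist_comm s t, Real.dist_eq, abs_of_pos hts]
  have h2a : 2 * a = dist p q := by rw [ha]; ring
  have hsum : 2 * a + 2 * rL (φ ⁻¹' K) a = dist A B := by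
    have e1 : 2 * a + 2 * rL (φ ⁻¹' K) a =
        2 * a + rL (φ ⁻¹' K) a + rR (φ ⁻¹' K) a := by
      rw [← hLR]; ring
    rw [e1, hrL, hrR]
    have e2 : 2 * a + 2 * a * (s / (t - s)) + 2 * a * ((1 - t) / (t - s)) =
        2 * a / (t - s) := by
      field_simp
      ring
    rw [e2, h2a, hAB]
    field_simp
  rw [hsum, h2a, he]

/-- Reduction to the plane by `exists_embedding` (compare `EQ2.twoEqui_of_body`), with the ratio:
`K' = φ⁻¹ K`, `a = dist p q / 2`.  `A`, `B` lie on the line `pq` (`p ≠ q` in `segment A B`), so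
`A = φ A'`, `B = φ B'` with `A'`, `B'` real, frontier points of `K'`
(`A' ∈ K'` as `K` is closed; points beyond `A'` are not in `K'` since `p ∈ interior K` and `A ∉ interior K`),
hence `{A', B'} = {-a - rL, a + rR}` and `dist A B = 2a + 2 rL` (`TwoEqui.r_eq`). -/
theorem planar_of_body {k e : ℝ} (hk : 1 < k) (h : Body k e) :
    ∃ (K : Set ℂ) (a c₁ c₂ : ℝ), TwoEqui k K a c₁ c₂ ∧ 2 * a = e * (2 * a + 2 * rL K a) := by
  obtain ⟨d, K, p, q, A, B, hd, hc, hK, hpq, hp, hq, ⟨c₁, h₁⟩, ⟨c₂, h₂⟩, hA, hB, hpS, hqS, he⟩ := h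
  rw [segment_eq_image_lineMap] at hpS hqS
  obtain ⟨s, ⟨hs0, hs1⟩, hs⟩ := hpS
  obtain ⟨t, ⟨ht0, ht1⟩, ht⟩ := hqS
  have hne : s ≠ t := by
    intro h
    apply hpq
    rw [← hs, ← ht, h]
  rcases lt_or_gt_of_ne hne with hlt | hgt
  · exact planar_aux hk hd hc hK hpq hp hq h₁ h₂ hA hB hs0 ht1 hlt hs ht he
  · refine planar_aux hk hd hc hK hpq hp hq h₁ h₂ hB hA (s := 1 - s) (t := 1 - t)
      (by linarith) (by linarith) (by linarith) ?_ ?_ (by rw [dist_comm B A]; exact he)
    · rw [AffineMap.lineMap_apply_one_sub, hs]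
    · rw [AffineMap.lineMap_apply_one_sub, ht]

end EQK
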