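import Pool.Agent.Lib.MP_226de1_co.K.GeoW3
import Pool.Agent.Lib.MP_226de1_co.K.LineSys

/-! From a planar body with two `k`-equipower points `∓a` to a `LineSys` (compare `EQ2.GeoSys`,
`EQ2.GeoSys2`: the proofs of `far`, `nxt`, `prv` are the same). -/

set_option autoImplicit false

namespace EQK

open Complex Set Filter Topology EQ2

/-- two `k`-equipower points `-a`, `a` of `K`, with constants `c₁`, `c₂` -/
structure TwoEqui (k : ℝ) (K : Set ℂ) (a c₁ c₂ : ℝ) : Prop where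
  hk : 1 < k
  ha : 0 < a
  hc : Convex ℝ K
  hK : IsCompact K
  hi₁ : ((-a : ℝ) : ℂ) ∈ interior K
  hi₂ : ((a : ℝ) : ℂ) ∈ interior K
  he₁ : ∀ x ∈ frontier K, ∀ y ∈ frontier K, x ≠ y → ((-a : ℝ) : ℂ) ∈ segment ℝ x y →
    dist ((-a : ℝ) : ℂ) x ^ k + dist ((-a : ℝ) : ℂ) y ^ k = c₁
  he₂ : ∀ x ∈ frontier K, ∀ y ∈ frontier K, x ≠ y → ((a : ℝ) : ℂ) ∈ segment ℝ x y →
    dist ((a : ℝ) : ℂ) x ^ k + dist ((a : ℝ) : ℂ) y ^ k = c₂

variable {k : ℝ} {K : Set ℂ} {a c₁ c₂ : ℝ}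

noncomputable def dnK (K : Set ℂ) (a : ℝ) (s : Bool) (q : ℝ) : ℝ :=
  if s then 2 * a * gK K ((-a : ℝ) : ℂ) ⟨q, 1⟩ else 2 * a * gK K ((a : ℝ) : ℂ) (-⟨q, 1⟩)

noncomputable def dpK (K : Set ℂ) (a : ℝ) (s : Bool) (q : ℝ) : ℝ :=
  if s then 2 * a * gK K ((-a : ℝ) : ℂ) (-⟨q, 1⟩) else 2 * a * gK K ((a : ℝ) : ℂ) ⟨q, 1⟩

/-- distance of the left centre to the left end of the axis chord -/
noncomputable def rL (K : Set ℂ) (a : ℝ) : ℝ := 1 / gK K ((-a : ℝ) : ℂ) (-1)
noncomputable def rR (K : Set ℂ) (a : ℝ) : ℝ := 1 / gK K ((a : ℝ) : ℂ) 1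

private theorem geoSys_key {c c' w w' : ℂ} (hc : Convex ℝ K) (hK : IsCompact K)
    (hi : c ∈ interior K) (hi' : c' ∈ interior K) (hw : w ≠ 0)
    (he : c + ((1 / gK K c w : ℝ) : ℂ) * w = c' + ((1 / gK K c w : ℝ) : ℂ) * w') :
    gK K c' w' = gK K c w := by
  have h1 := gK_mem_frontier hc hK hi hw
  have hp := gK_pos hK hi hw
  rw [he] at h1
  have h2 := gK_eq_of_mem hc hK hi' (h := 1 / gK K c w) (by positivity) h1
  rw [h2, one_div_one_div]

private theorem geoSys_ne (q : ℝ) : (⟨q, 1⟩ : ℂ) ≠ 0 := by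
  intro h
  have := congrArg Complex.im h
  simp at this

private theorem geoSys_ne' (q : ℝ) : (-⟨q, 1⟩ : ℂ) ≠ 0 := neg_ne_zero.mpr (geoSys_ne q)

private theorem geoSys_strict {x y d k : ℝ} (hk : 1 < k) (hx : 0 < x) (hxy : x < y)
    (hd : 0 < d) : (d + x) ^ k - x ^ k < (d + y) ^ k - y ^ k := by
  have hf := strictConvexOn_rpow hk
  have hD : 0 < y + d - x := by linarith
  have hxm : x ∈ Ici (0 : ℝ) := hx.le
  have hym : y + d ∈ Ici (0 : ℝ) := by
    rw [mem_Ici]; linarith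
  have hne : x ≠ y + d := by linarith
  have ht : 0 < (y - x) / (y + d - x) := div_pos (by linarith) hD
  have ht' : 0 < d / (y + d - x) := div_pos hd hD
  have hsum : (y - x) / (y + d - x) + d / (y + d - x) = 1 := by
    field_simp
    ring
  have h1 := hf.2 hxm hym hne ht ht' hsum
  have h2 := hf.2 hxm hym hne ht' ht (by rw [add_comm]; exact hsum)
  simp only [smul_eq_mul] at h1 h2
  have e1 : (y - x) / (y + d - x) * x + d / (y + d - x) * (y + d) = d + x := by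
    field_simp
    ring
  have e2 : d / (y + d - x) * x + (y - x) / (y + d - x) * (y + d) = y := by
    field_simp
    ring
  rw [e1] at h1
  rw [e2] at h2
  have e3 : (y - x) / (y + d - x) = 1 - d / (y + d - x) := by linarith
  rw [e3] at h1 h2
  have e4 : y + d = d + y := add_comm _ _
  rw [e4] at h1 h2
  nlinarith [h1, h2]

/-- ends of the axis chord seen from the other centre (as `EQ2.TwoEqui.far`) -/
theorem TwoEqui.far (h : TwoEqui k K a c₁ c₂) :
    1 / gK K ((-a : ℝ) : ℂ) 1 = 2 * a + rR K a ∧ 1 / gK K ((a : ℝ) : ℂ) (-1) = 2 * a + rL K a := by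
  have ha := h.ha
  have n1 : (1 : ℂ) ≠ 0 := one_ne_zero
  have n2 : (-1 : ℂ) ≠ 0 := neg_ne_zero.mpr one_ne_zero
  constructor
  · have h1 := gK_mem_frontier h.hc h.hK h.hi₂ n1
    have hp : 0 < rR K a := by
      have := gK_pos h.hK h.hi₂ n1
      unfold rR
      positivity
    have e : (a : ℂ) + ((1 / gK K (a : ℂ) 1 : ℝ) : ℂ) * 1 =
        ((-a : ℝ) : ℂ) + ((2 * a + rR K a : ℝ) : ℂ) * 1 := by
      unfold rR
      push_cast
      ring
    rw [e] at h1
    rw [gK_eq_of_mem h.hc h.hK h.hi₁ (by positivity) h1, one_div_one_div]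
  · have h1 := gK_mem_frontier h.hc h.hK h.hi₁ n2
    have hp : 0 < rL K a := by
      have := gK_pos h.hK h.hi₁ n2
      unfold rL
      positivity
    have e : ((-a : ℝ) : ℂ) + ((1 / gK K ((-a : ℝ) : ℂ) (-1) : ℝ) : ℂ) * (-1) =
        (a : ℂ) + ((2 * a + rL K a : ℝ) : ℂ) * (-1) := by
      unfold rL
      push_cast
      ring
    rw [e] at h1
    rw [gK_eq_of_mem h.hc h.hK h.hi₂ (by positivity) h1, one_div_one_div]

/-- `r₁^k + (2a+r₂)^k = c₁ = c₂ = r₂^k + (2a+r₁)^k` (`const_eq`), and `(2a+r)^k - r^k` is strictly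
increasing for `k > 1`, so `r₁ = r₂` -/
theorem TwoEqui.r_eq (h : TwoEqui k K a c₁ c₂) : 0 < rL K a ∧ rL K a = rR K a ∧
    c₁ = rL K a ^ k + (2 * a + rL K a) ^ k ∧ c₁ = c₂ := by
  have ha := h.ha
  obtain ⟨f1, f2⟩ := h.far
  have n1 : (1 : ℂ) ≠ 0 := one_ne_zero
  have n2 : (-1 : ℂ) ≠ 0 := neg_ne_zero.mpr one_ne_zero
  have hcc : c₁ = c₂ := const_eq h.hk h.hc h.hK h.hi₁ h.hi₂ h.he₁ h.he₂
  have e1 := gK_equi_k h.hc h.hK h.hi₁ h.he₁ n1
  have e2 := gK_equi_k h.hc h.hK h.hi₂ h.he₂ n1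
  have hp : 0 < rL K a := by
    have := gK_pos h.hK h.hi₁ n2
    unfold rL
    positivity
  have hp' : 0 < rR K a := by
    have := gK_pos h.hK h.hi₂ n1
    unfold rR
    positivity
  rw [norm_one] at e1 e2
  rw [f1] at e1
  rw [f2] at e2
  have q2 : 1 / gK K ((-a : ℝ) : ℂ) (-1) = rL K a := rfl
  have q3 : 1 / gK K ((a : ℝ) : ℂ) 1 = rR K a := rfl
  rw [q2] at e1
  rw [q3] at e2
  have hd : 0 < 2 * a := by linarith
  have h4 : rL K a = rR K a := by
    rcases lt_trichotomy (rL K a) (rR K a) with hlt | heq | hgt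
    · have := geoSys_strict h.hk hp hlt hd
      linarith
    · exact heq
    · have := geoSys_strict h.hk hp' hgt hd
      linarith
  refine ⟨hp, h4, ?_, hcc⟩
  rw [← e1, ← h4]
  ring

theorem TwoEqui.nxt (h : TwoEqui k K a c₁ c₂) (s : Bool) (q : ℝ) :
    dpK K a (!s) (q - dnK K a s q) = dnK K a s q := by
  have ha := h.ha
  cases s
  · have hp := gK_pos h.hK h.hi₂ (geoSys_ne' q)
    have hpc : ((gK K (a : ℂ) (-⟨q, 1⟩) : ℝ) : ℂ) ≠ 0 := by exact_mod_cast hp.ne'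
    simp only [dpK, dnK, Bool.not_false, if_true, Bool.false_eq_true, if_false]
    congr 1
    apply geoSys_key h.hc h.hK h.hi₂ h.hi₁ (geoSys_ne' q)
    apply Complex.ext
    · simp
      field_simp
      ring
    · simp
  · have hp := gK_pos h.hK h.hi₁ (geoSys_ne q)
    have hp' := hp
    rw [Complex.ofReal_neg] at hp'
    simp only [dpK, dnK, Bool.not_true, if_true, Bool.false_eq_true, if_false]
    congr 1
    apply geoSys_key h.hc h.hK h.hi₁ h.hi₂ (geoSys_ne q)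
    apply Complex.ext
    · simp
      field_simp
      ring
    · simp

theorem TwoEqui.prv (h : TwoEqui k K a c₁ c₂) (s : Bool) (q : ℝ) :
    dnK K a (!s) (q + dpK K a s q) = dpK K a s q := by
  have ha := h.ha
  cases s
  · have hp := gK_pos h.hK h.hi₂ (geoSys_ne q)
    simp only [dpK, dnK, Bool.not_false, if_true, Bool.false_eq_true, if_false]
    congr 1
    apply geoSys_key h.hc h.hK h.hi₂ h.hi₁ (geoSys_ne q)
    apply Complex.ext
    · simp
      field_simp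
      ring
    · simp
  · have hp := gK_pos h.hK h.hi₁ (geoSys_ne' q)
    have hp' := hp
    rw [Complex.ofReal_neg] at hp'
    simp only [dpK, dnK, Bool.not_true, if_true, Bool.false_eq_true, if_false]
    congr 1
    apply geoSys_key h.hc h.hK h.hi₁ h.hi₂ (geoSys_ne' q)
    apply Complex.ext
    · simp
      field_simp
      ring
    · simp

end EQK
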