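import Mathlib

/-! The constant `∫ |sin|^(k-2)`. -/

set_option autoImplicit false

namespace EQK

open Set Filter Topology MeasureTheory

private theorem gw_meas (k : ℝ) : Measurable (fun θ : ℝ => |Real.sin θ| ^ (k - 2)) :=
  (continuous_abs.measurable.comp Real.measurable_sin).pow_const _

private theorem gw_half {k : ℝ} (hk : 1 < k) :
    IntervalIntegrable (fun θ : ℝ => |Real.sin θ| ^ (k - 2)) volume 0 (Real.pi / 2) := by
  have hpi := Real.pi_pos
  rcases le_or_gt 2 k with h2 | h2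
  · have h1 : IntervalIntegrable (fun _ : ℝ => (1 : ℝ)) volume 0 (Real.pi / 2) :=
      intervalIntegrable_const
    refine h1.mono_fun (gw_meas k).aestronglyMeasurable ?_
    refine Filter.Eventually.of_forall fun θ => ?_
    show ‖|Real.sin θ| ^ (k - 2)‖ ≤ ‖(1 : ℝ)‖
    rw [Real.norm_of_nonneg (by positivity), norm_one]
    exact Real.rpow_le_one (abs_nonneg _) (Real.abs_sin_le_one θ) (by linarith)
  · have h1 : IntervalIntegrable (fun θ : ℝ => (2 / Real.pi) ^ (k - 2) * θ ^ (k - 2)) volume 0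
        (Real.pi / 2) :=
      (intervalIntegral.intervalIntegrable_rpow' (by linarith)).const_mul _
    refine h1.mono_fun (gw_meas k).aestronglyMeasurable ?_
    rw [Set.uIoc_of_le (by positivity)]
    filter_upwards [ae_restrict_mem measurableSet_Ioc] with θ hθ
    have h0 : 0 < θ := hθ.1
    show ‖|Real.sin θ| ^ (k - 2)‖ ≤ ‖(2 / Real.pi) ^ (k - 2) * θ ^ (k - 2)‖
    rw [Real.norm_of_nonneg (by positivity), Real.norm_of_nonneg (by positivity),
      ← Real.mul_rpow (by positivity) h0.le]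
    have h3 := Real.mul_le_sin h0.le hθ.2
    exact Real.rpow_le_rpow_of_nonpos (by positivity) (h3.trans (le_abs_self _)) (by linarith)

private theorem gw_int {k : ℝ} (hk : 1 < k) :
    IntervalIntegrable (fun θ : ℝ => |Real.sin θ| ^ (k - 2)) volume (-Real.pi) Real.pi := by
  have h1 := gw_half hk
  have h2 := h1.comp_sub_left Real.pi
  have e2 : (fun x : ℝ => |Real.sin (Real.pi - x)| ^ (k - 2)) =
      fun x => |Real.sin x| ^ (k - 2) := by
    ext x
    rw [Real.sin_pi_sub]
  rw [e2, sub_zero, show Real.pi - Real.pi / 2 = Real.pi / 2 by ring] at h2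
  have h3 := h1.trans h2.symm
  have h4 := h3.comp_sub_left 0
  have e4 : (fun x : ℝ => |Real.sin (0 - x)| ^ (k - 2)) = fun x => |Real.sin x| ^ (k - 2) := by
    ext x
    rw [zero_sub, Real.sin_neg, abs_neg]
  rw [e4, sub_zero, zero_sub] at h4
  exact h4.symm.trans h3

/-- `0 < ∫ |sin θ|^(k-2) < ∞` for `k > 1`.  Finite: near `0` compare with `|θ|^(k-2)`, `k - 2 > -1`
(`|sin θ| ≥ (2/π)|θ|` on `|θ| ≤ π/2`; for `k ≥ 2` the integrand is `≤ 1`). -/
theorem sin_lint {k : ℝ} (hk : 1 < k) :
    0 < ∫⁻ θ in Ioo (-Real.pi) Real.pi, ENNReal.ofReal (|Real.sin θ| ^ (k - 2)) ∧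
    ∫⁻ θ in Ioo (-Real.pi) Real.pi, ENNReal.ofReal (|Real.sin θ| ^ (k - 2)) < ⊤ := by
  have hpi := Real.pi_pos
  constructor
  · have hm : Measurable (fun θ : ℝ => ENNReal.ofReal (|Real.sin θ| ^ (k - 2))) :=
      ENNReal.measurable_ofReal.comp (gw_meas k)
    rw [lintegral_pos_iff_support hm]
    have hsub : Ioo 0 Real.pi ⊆
        Function.support (fun θ : ℝ => ENNReal.ofReal (|Real.sin θ| ^ (k - 2))) := by
      intro θ hθ
      rw [Function.mem_support]
      have h1 : 0 < Real.sin θ := Real.sin_pos_of_pos_of_lt_pi hθ.1 hθ.2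
      have h2 : 0 < |Real.sin θ| ^ (k - 2) := Real.rpow_pos_of_pos (abs_pos.2 h1.ne') _
      exact (ENNReal.ofReal_pos.2 h2).ne'
    refine lt_of_lt_of_le ?_ (measure_mono hsub)
    rw [Measure.restrict_apply measurableSet_Ioo, inter_eq_left.2 (Ioo_subset_Ioo (by linarith)
      le_rfl), Real.volume_Ioo]
    exact ENNReal.ofReal_pos.2 (by linarith)
  · have h1 := gw_int hk
    rw [intervalIntegrable_iff_integrableOn_Ioo_of_le (by linarith)] at h1
    exact Integrable.lintegral_lt_top h1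

end EQK
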