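import Pool.Agent.Lib.MP_226de1_co.K.GeoW1
import Pool.Agent.Lib.MP_226de1_co.K.GeoW2

/-! The power constant is determined by `∫_K |Im z|^(k-2)`. -/

set_option autoImplicit false

namespace EQK

open Complex Set Filter Topology MeasureTheory EQ2

variable {K : Set ℂ}

private theorem gw_split (f : ℝ → ENNReal) {a b c : ℝ} (hab : a < b) (hbc : b < c) :
    ∫⁻ θ in Ioo a c, f θ = (∫⁻ θ in Ioo a b, f θ) + ∫⁻ θ in Ioo b c, f θ := by
  have h1 : ∫⁻ θ in Ioo a c, f θ = ∫⁻ θ in Ioc a b ∪ Ioo b c, f θ := by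
    rw [Ioc_union_Ioo_eq_Ioo hab.le hbc]
  rw [h1, lintegral_union measurableSet_Ioo]
  · congr 1
    exact setLIntegral_congr Ioo_ae_eq_Ioc.symm
  · rw [Set.disjoint_left]
    intro θ h1 h2
    exact absurd h1.2 (not_le.2 h2.1)

private theorem gw_shift (f : ℝ → ENNReal) (a b c : ℝ) :
    ∫⁻ θ in Ioo a b, f (θ + c) = ∫⁻ θ in Ioo (a + c) (b + c), f θ := by
  rw [← lintegral_indicator measurableSet_Ioo, ← lintegral_indicator measurableSet_Ioo,
    ← lintegral_add_right_eq_self ((Ioo (a + c) (b + c)).indicator f) c]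
  refine lintegral_congr fun θ => ?_
  by_cases h : θ ∈ Ioo a b
  · have h' : θ + c ∈ Ioo (a + c) (b + c) := ⟨by linarith [h.1], by linarith [h.2]⟩
    rw [indicator_of_mem h, indicator_of_mem h']
  · have h' : θ + c ∉ Ioo (a + c) (b + c) := by
      intro h'
      exact h ⟨by linarith [h'.1], by linarith [h'.2]⟩
    rw [indicator_of_notMem h, indicator_of_notMem h']

/-- substitute `θ ↦ θ ± π` and add, `gK_equi_k` with `w = e^{iθ}` -/
theorem wlint_eq {k : ℝ} (hk : 1 < k) (hc : Convex ℝ K) (hK : IsCompact K) {x : ℝ}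
    (hi : (x : ℂ) ∈ interior K) {c₀ : ℝ}
    (he : ∀ z ∈ frontier K, ∀ y ∈ frontier K, z ≠ y → (x : ℂ) ∈ segment ℝ z y →
      dist (x : ℂ) z ^ k + dist (x : ℂ) y ^ k = c₀) :
    2 * ∫⁻ z in K, ENNReal.ofReal (|z.im| ^ (k - 2)) =
      ENNReal.ofReal (c₀ / k) *
        ∫⁻ θ in Ioo (-Real.pi) Real.pi, ENNReal.ofReal (|Real.sin θ| ^ (k - 2)) := by
  have hpi := Real.pi_pos
  have hk0 : 0 < k := by linarith
  have hgc := gK_continuous hc hi
  have hexp : ∀ θ : ℝ, Complex.exp (θ * Complex.I) ≠ 0 := fun θ => Complex.exp_ne_zero _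
  have hpos : ∀ θ : ℝ, 0 < gK K (x : ℂ) (Complex.exp (θ * Complex.I)) :=
    fun θ => gK_pos hK hi (hexp θ)
  have hpos' : ∀ θ : ℝ, 0 < gK K (x : ℂ) (-Complex.exp (θ * Complex.I)) :=
    fun θ => gK_pos hK hi (neg_ne_zero.2 (hexp θ))
  set F : ℝ → ENNReal := fun θ => ENNReal.ofReal (|Real.sin θ| ^ (k - 2) *
        ((1 / gK K (x : ℂ) (Complex.exp (θ * Complex.I))) ^ k / k)) with hF
  set F' : ℝ → ENNReal := fun θ => ENNReal.ofReal (|Real.sin θ| ^ (k - 2) *
        ((1 / gK K (x : ℂ) (-Complex.exp (θ * Complex.I))) ^ k / k)) with hF'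
  have hFm : Measurable F := by
    apply ENNReal.measurable_ofReal.comp
    apply Measurable.mul
    · exact (continuous_abs.measurable.comp Real.measurable_sin).pow_const _
    · apply Measurable.div_const
      apply Measurable.pow_const
      apply Measurable.const_div
      have h1 : Continuous (fun θ : ℝ => gK K (x : ℂ) (Complex.exp (θ * Complex.I))) :=
        hgc.comp (by fun_prop)
      exact h1.measurable
  have hsh1 : ∀ θ, F' θ = F (θ + Real.pi) := by
    intro θ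
    have h2 : Complex.exp (((θ + Real.pi : ℝ) : ℂ) * Complex.I) =
        -Complex.exp (θ * Complex.I) := by
      push_cast
      rw [add_mul, Complex.exp_add, Complex.exp_pi_mul_I]
      ring
    simp only [hF, hF', h2, Real.sin_add_pi, abs_neg]
  have hsh2 : ∀ θ, F' θ = F (θ + -Real.pi) := by
    intro θ
    have h2 : Complex.exp (((θ + -Real.pi : ℝ) : ℂ) * Complex.I) =
        -Complex.exp (θ * Complex.I) := by
      push_cast
      rw [add_mul, Complex.exp_add, neg_mul, Complex.exp_neg, Complex.exp_pi_mul_I]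
      norm_num
    have h3 : Real.sin (θ + -Real.pi) = -Real.sin θ := by
      rw [← sub_eq_add_neg, Real.sin_sub_pi]
    simp only [hF, hF', h2, h3, abs_neg]
  have hFF' : ∫⁻ θ in Ioo (-Real.pi) Real.pi, F' θ = ∫⁻ θ in Ioo (-Real.pi) Real.pi, F θ := by
    rw [gw_split F' (a := -Real.pi) (b := 0) (c := Real.pi) (by linarith) hpi,
      gw_split F (a := -Real.pi) (b := 0) (c := Real.pi) (by linarith) hpi]
    have e1 : ∫⁻ θ in Ioo (-Real.pi) 0, F' θ = ∫⁻ θ in Ioo 0 Real.pi, F θ := by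
      rw [lintegral_congr hsh1, gw_shift, neg_add_cancel, zero_add]
    have e2 : ∫⁻ θ in Ioo 0 Real.pi, F' θ = ∫⁻ θ in Ioo (-Real.pi) 0, F θ := by
      rw [lintegral_congr hsh2, gw_shift, add_neg_cancel, zero_add]
    rw [e1, e2, add_comm]
  have hsum : ∀ θ, F θ + F' θ = ENNReal.ofReal (c₀ / k) *
      ENNReal.ofReal (|Real.sin θ| ^ (k - 2)) := by
    intro θ
    have h1 := gK_equi_k hc hK hi he (hexp θ)
    have h3 : ‖Complex.exp (θ * Complex.I)‖ = 1 := Complex.norm_exp_ofReal_mul_I θ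
    rw [h3] at h1
    have h4 := hpos θ
    have h5 := hpos' θ
    have h6 : 0 ≤ c₀ / k := by
      rw [← h1]
      positivity
    simp only [hF, hF']
    rw [← ENNReal.ofReal_add (by positivity) (by positivity), ← ENNReal.ofReal_mul h6, ← h1]
    congr 1
    ring
  rw [wlint_polar hk hc hK hi]
  change 2 * ∫⁻ θ in Ioo (-Real.pi) Real.pi, F θ = _
  rw [two_mul]
  nth_rewrite 2 [← hFF']
  rw [← lintegral_add_left hFm, lintegral_congr hsum, lintegral_const_mul]
  exact ENNReal.measurable_ofReal.comp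
    ((continuous_abs.measurable.comp Real.measurable_sin).pow_const _)

private theorem gw_pos {k : ℝ} (hc : Convex ℝ K) (hK : IsCompact K) {x : ℝ}
    (hi : (x : ℂ) ∈ interior K) {c₀ : ℝ}
    (he : ∀ z ∈ frontier K, ∀ y ∈ frontier K, z ≠ y → (x : ℂ) ∈ segment ℝ z y →
      dist (x : ℂ) z ^ k + dist (x : ℂ) y ^ k = c₀) : 0 < c₀ := by
  have h1 := gK_equi_k hc hK hi he (w := 1) one_ne_zero
  have h2 : 0 < gK K (x : ℂ) 1 := gK_pos hK hi one_ne_zero
  have h3 : 0 < gK K (x : ℂ) (-1) := gK_pos hK hi (neg_ne_zero.2 one_ne_zero)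
  rw [norm_one] at h1
  rw [← h1]
  positivity

/-- the two constants agree (`c₀ > 0` by `gK_equi_k`, `gK_pos`) -/
theorem const_eq {k : ℝ} (hk : 1 < k) (hc : Convex ℝ K) (hK : IsCompact K) {x₁ x₂ : ℝ}
    (h₁ : (x₁ : ℂ) ∈ interior K) (h₂ : (x₂ : ℂ) ∈ interior K) {c₁ c₂ : ℝ}
    (he₁ : ∀ z ∈ frontier K, ∀ y ∈ frontier K, z ≠ y → (x₁ : ℂ) ∈ segment ℝ z y →
      dist (x₁ : ℂ) z ^ k + dist (x₁ : ℂ) y ^ k = c₁)
    (he₂ : ∀ z ∈ frontier K, ∀ y ∈ frontier K, z ≠ y → (x₂ : ℂ) ∈ segment ℝ z y →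
      dist (x₂ : ℂ) z ^ k + dist (x₂ : ℂ) y ^ k = c₂) : c₁ = c₂ := by
  have hk0 : 0 < k := by linarith
  have e1 := wlint_eq hk hc hK h₁ he₁
  have e2 := wlint_eq hk hc hK h₂ he₂
  obtain ⟨s0, s1⟩ := sin_lint hk
  rw [e1] at e2
  have h3 := (ENNReal.mul_left_inj s0.ne' s1.ne).1 e2
  have p1 := gw_pos hc hK h₁ he₁
  have p2 := gw_pos hc hK h₂ he₂
  have h4 := (ENNReal.ofReal_eq_ofReal_iff (by positivity) (by positivity)).1 h3
  field_simp at h4
  exact h4

end EQK
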