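import Mathlib

/-! The implicit function theorem in the form used. -/

set_option autoImplicit false

namespace EQK

open Set Filter Topology

/-- complex `C¹` implicit function theorem for `f (k, μ, t) = 0` (inverse function theorem for
`(k, μ, t) ↦ (k, μ, f (k, μ, t))`, `ContDiffAt.to_localInverse` or `HasStrictFDerivAt`). -/
theorem implicit_C1 {f : ℂ × ℂ × ℂ → ℂ} {k₀ μ₀ t₀ : ℂ} (hf : ContDiffAt ℂ 1 f (k₀, μ₀, t₀))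
    (h0 : f (k₀, μ₀, t₀) = 0) (hd : deriv (fun t => f (k₀, μ₀, t)) t₀ ≠ 0) :
    ∃ τ : ℂ × ℂ → ℂ, ContDiffAt ℂ 1 τ (k₀, μ₀) ∧ τ (k₀, μ₀) = t₀ ∧
      (∀ᶠ p in 𝓝 (k₀, μ₀), f (p.1, p.2, τ p) = 0) ∧
      (∀ᶠ x : ℂ × ℂ × ℂ in 𝓝 (k₀, μ₀, t₀), f x = 0 → x.2.2 = τ (x.1, x.2.1)) := by
  obtain ⟨L, hL⟩ : ∃ L : ℂ × ℂ × ℂ →L[ℂ] ℂ, HasFDerivAt f L (k₀, μ₀, t₀) :=
    ⟨_, (hf.differentiableAt (by norm_num)).hasFDerivAt⟩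
  have hc : deriv (fun t => f (k₀, μ₀, t)) t₀ = L (0, 0, 1) := by
    have h1 : HasDerivAt (fun t : ℂ => (k₀, μ₀, t)) (0, 0, 1) t₀ :=
      (hasDerivAt_const t₀ k₀).prodMk ((hasDerivAt_const t₀ μ₀).prodMk (hasDerivAt_id t₀))
    exact (hL.comp_hasDerivAt t₀ h1).deriv
  rw [hc] at hd
  have hadd : ∀ a b t : ℂ, L (a, b, t) = L (a, b, 0) + t * L (0, 0, 1) := by
    intro a b t
    have e : ((a, b, t) : ℂ × ℂ × ℂ) = (a, b, 0) + t • (0, 0, 1) := by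
      ext <;> simp
    rw [e, map_add, map_smul, smul_eq_mul]
  -- the linear map
  let f1 : ℂ × ℂ × ℂ →L[ℂ] ℂ × ℂ × ℂ :=
    (ContinuousLinearMap.fst ℂ ℂ (ℂ × ℂ)).prod
      (((ContinuousLinearMap.fst ℂ ℂ ℂ).comp (ContinuousLinearMap.snd ℂ ℂ (ℂ × ℂ))).prod L)
  let g0 : ℂ × ℂ × ℂ →L[ℂ] ℂ × ℂ × ℂ :=
    (ContinuousLinearMap.fst ℂ ℂ (ℂ × ℂ)).prod
      (((ContinuousLinearMap.fst ℂ ℂ ℂ).comp (ContinuousLinearMap.snd ℂ ℂ (ℂ × ℂ))).prod 0)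
  let f2 : ℂ × ℂ × ℂ →L[ℂ] ℂ × ℂ × ℂ :=
    (ContinuousLinearMap.fst ℂ ℂ (ℂ × ℂ)).prod
      (((ContinuousLinearMap.fst ℂ ℂ ℂ).comp (ContinuousLinearMap.snd ℂ ℂ (ℂ × ℂ))).prod
        ((L (0, 0, 1))⁻¹ • (((ContinuousLinearMap.snd ℂ ℂ ℂ).comp (ContinuousLinearMap.snd ℂ ℂ (ℂ × ℂ))) - L.comp g0)))
  have hf1 : ∀ a b t : ℂ, f1 (a, b, t) = (a, b, L (a, b, t)) := fun a b t => rfl
  have hf2 : ∀ a b t : ℂ, f2 (a, b, t) = (a, b, (L (0, 0, 1))⁻¹ * (t - L (a, b, 0))) := fun a b t => rfl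
  let e : (ℂ × ℂ × ℂ) ≃L[ℂ] (ℂ × ℂ × ℂ) := ContinuousLinearEquiv.equivOfInverse f1 f2
    (by
      rintro ⟨a, b, t⟩
      rw [hf1, hf2, hadd a b t]
      ext
      · rfl
      · rfl
      · show (L (0, 0, 1))⁻¹ * (L (a, b, 0) + t * L (0, 0, 1) - L (a, b, 0)) = t
        field_simp
        ring)
    (by
      rintro ⟨a, b, t⟩
      rw [hf2, hf1, hadd a b]
      ext
      · rfl
      · rfl
      · show L (a, b, 0) + (L (0, 0, 1))⁻¹ * (t - L (a, b, 0)) * L (0, 0, 1) = t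
        field_simp
        ring)
  let F : ℂ × ℂ × ℂ → ℂ × ℂ × ℂ := fun x => (x.1, x.2.1, f x)
  have hFd : HasFDerivAt F (e : ℂ × ℂ × ℂ →L[ℂ] ℂ × ℂ × ℂ) (k₀, μ₀, t₀) := by
    have h1 : HasFDerivAt (fun x : ℂ × ℂ × ℂ => x.1) (ContinuousLinearMap.fst ℂ ℂ (ℂ × ℂ)) (k₀, μ₀, t₀) :=
      hasFDerivAt_fst
    have h2 : HasFDerivAt (fun x : ℂ × ℂ × ℂ => x.2.1)
        ((ContinuousLinearMap.fst ℂ ℂ ℂ).comp (ContinuousLinearMap.snd ℂ ℂ (ℂ × ℂ))) (k₀, μ₀, t₀) :=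
      hasFDerivAt_fst.comp (k₀, μ₀, t₀) hasFDerivAt_snd
    exact h1.prodMk (h2.prodMk hL)
  have hFc : ContDiffAt ℂ 1 F (k₀, μ₀, t₀) :=
    contDiffAt_fst.prodMk ((contDiffAt_fst.comp (k₀, μ₀, t₀) contDiffAt_snd).prodMk hf)
  have hF0 : F (k₀, μ₀, t₀) = (k₀, μ₀, 0) := by
    show ((k₀, μ₀, f (k₀, μ₀, t₀)) : ℂ × ℂ × ℂ) = _
    rw [h0]
  let G := hFc.localInverse hFd (by norm_num)
  have hGc : ContDiffAt ℂ 1 G (F (k₀, μ₀, t₀)) := hFc.to_localInverse hFd (by norm_num)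
  have hG0 : G (F (k₀, μ₀, t₀)) = (k₀, μ₀, t₀) := hFc.localInverse_apply_image hFd (by norm_num)
  have hst : HasStrictFDerivAt F (e : ℂ × ℂ × ℂ →L[ℂ] ℂ × ℂ × ℂ) (k₀, μ₀, t₀) := hFc.hasStrictFDerivAt' hFd (by norm_num)
  have hGF : ∀ᶠ x in 𝓝 (k₀, μ₀, t₀), G (F x) = x := hst.eventually_left_inverse
  have hFG : ∀ᶠ y in 𝓝 (F (k₀, μ₀, t₀)), F (G y) = y := hst.eventually_right_inverse
  rw [hF0] at hGc hFG hG0
  have hin : ContDiffAt ℂ 1 (fun p : ℂ × ℂ => (p.1, p.2, (0 : ℂ))) (k₀, μ₀) :=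
    contDiffAt_fst.prodMk (contDiffAt_snd.prodMk contDiffAt_const)
  refine ⟨fun p => (G (p.1, p.2, 0)).2.2, ?_, ?_, ?_, ?_⟩
  · have h1 : ContDiffAt ℂ 1 (fun p : ℂ × ℂ => G (p.1, p.2, 0)) (k₀, μ₀) :=
      ContDiffAt.comp (f := fun p : ℂ × ℂ => (p.1, p.2, (0 : ℂ))) (k₀, μ₀) hGc hin
    exact h1.snd.snd
  · show (G (k₀, μ₀, 0)).2.2 = t₀
    rw [hG0]
  · have h1 : Tendsto (fun p : ℂ × ℂ => (p.1, p.2, (0 : ℂ))) (𝓝 (k₀, μ₀)) (𝓝 (k₀, μ₀, 0)) := hin.continuousAt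
    filter_upwards [h1.eventually hFG] with p hp
    have e1 : (G (p.1, p.2, 0)).1 = p.1 := congrArg Prod.fst hp
    have e2 : (G (p.1, p.2, 0)).2.1 = p.2 := congrArg (fun x : ℂ × ℂ × ℂ => x.2.1) hp
    have e3 : f (G (p.1, p.2, 0)) = 0 := congrArg (fun x : ℂ × ℂ × ℂ => x.2.2) hp
    have e4 : (p.1, p.2, (G (p.1, p.2, 0)).2.2) = G (p.1, p.2, 0) := by
      ext
      · exact e1.symm
      · exact e2.symm
      · rfl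
    show f (p.1, p.2, (G (p.1, p.2, 0)).2.2) = 0
    rw [e4]
    exact e3
  · filter_upwards [hGF] with x hx hfx
    have e1 : F x = (x.1, x.2.1, 0) := by
      show (x.1, x.2.1, f x) = _
      rw [hfx]
    rw [e1] at hx
    show x.2.2 = (G (x.1, x.2.1, 0)).2.2
    rw [hx]

end EQK
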