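import Pool.Agent.Lib.MP_226de1_co.K.LocEst1

/-! Abstract iteration: `T^n (cos (t/μ^n), sin (t/μ^n))` converges geometrically for small `t`. -/

set_option autoImplicit false

namespace EQK

open Complex Set Filter Topology

/-- admissible constants -/
structure Cst (ε κ m₁ m₂ L : ℝ) : Prop where
  hε : 0 < ε
  hε1 : ε < 1
  hκ0 : 0 ≤ κ
  hm₁ : 1 < m₁
  hκ : κ < m₁ ^ 2
  hm₁₂ : m₁ < m₂
  hm₂ : m₂ < m₁ ^ 3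
  hL : 0 < L

/-- local model of the step at the saddle -/
structure LM (μ : ℂ) (T : ℂ × ℂ → ℂ × ℂ) (ε κ m₁ m₂ L : ℝ) : Prop where
  μ1 : m₁ < ‖μ‖
  μ2 : ‖μ‖ < m₂
  fix : T (1, 0) = (1, 0)
  t1 : ∀ V W, Bl ε V → Bl ε W → ‖(T V).1 - (T W).1‖ ≤
    κ * ‖V.1 - W.1‖ + L * ((‖V.2‖ + ‖W.2‖) * ‖V.2 - W.2‖)
  t2 : ∀ V W, Bl ε V → Bl ε W → ‖(T V).2 - (T W).2‖ ≤ m₂ * ‖V.2 - W.2‖ +
    L * ‖W.2‖ * (‖V.1 - W.1‖ + (‖V.2‖ + ‖W.2‖) * ‖V.2 - W.2‖)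
  t3 : ∀ V, Bl ε V → ‖(T V).2 - μ * V.2‖ ≤ L * ‖V.2‖ * (‖V.1 - 1‖ + ‖V.2‖ ^ 2)

/-- approximants of the unstable curve, starting with the unit circle -/
noncomputable def uu (μ : ℂ) (T : ℂ × ℂ → ℂ × ℂ) : ℕ → ℂ → ℂ × ℂ
  | 0, t => (cos t, sin t)
  | n + 1, t => T (uu μ T n (t / μ))

end EQK
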