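import Pool.Agent.Lib.MP_226de1_co.K.Iter0

/-! Bounds for the approximants. -/

set_option autoImplicit false

namespace EQK

open Complex Set Filter Topology

private theorem it1_cos {t : ℂ} (ht : ‖t‖ ≤ 1) : ‖cos t - 1‖ ≤ ‖t‖ ^ 2 := by
  have h1 : cos t - 1 = ((exp (t * I) - 1 - t * I) + (exp (-t * I) - 1 - (-t * I))) / 2 := by
    rw [Complex.cos]
    ring
  have h2 : ‖t * I‖ = ‖t‖ := by simp
  have h3 : ‖-t * I‖ = ‖t‖ := by simp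
  have h4 := norm_exp_sub_one_sub_id_le (x := t * I) (by rw [h2]; exact ht)
  have h5 := norm_exp_sub_one_sub_id_le (x := -t * I) (by rw [h3]; exact ht)
  rw [h2] at h4
  rw [h3] at h5
  rw [h1, norm_div]
  have h6 := norm_add_le (exp (t * I) - 1 - t * I) (exp (-t * I) - 1 - (-t * I))
  have h7 : ‖(2 : ℂ)‖ = 2 := by simp
  rw [h7, div_le_iff₀ (by norm_num)]
  linarith

private theorem it1_sin {t : ℂ} (ht : ‖t‖ ≤ 1) : ‖sin t - t‖ ≤ ‖t‖ ^ 3 := by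
  have h2 : ‖t * I‖ = ‖t‖ := by simp
  have h3 : ‖-t * I‖ = ‖t‖ := by simp
  have h4 := exp_bound (x := t * I) (by rw [h2]; exact ht) (n := 3) (by norm_num)
  have h5 := exp_bound (x := -t * I) (by rw [h3]; exact ht) (n := 3) (by norm_num)
  rw [h2] at h4
  rw [h3] at h5
  have h1 : sin t - t = ((exp (-t * I) - ∑ m ∈ Finset.range 3, (-t * I) ^ m / (m.factorial : ℂ)) -
      (exp (t * I) - ∑ m ∈ Finset.range 3, (t * I) ^ m / (m.factorial : ℂ))) * I / 2 := by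
    rw [Complex.sin]
    simp only [Finset.sum_range_succ, Finset.sum_range_zero, Nat.factorial]
    have hI : I ^ 2 = -1 := I_sq
    push_cast
    ring_nf
    rw [hI]
    ring
  rw [h1, norm_div, norm_mul, norm_I, mul_one]
  have h6 := norm_sub_le (exp (-t * I) - ∑ m ∈ Finset.range 3, (-t * I) ^ m / (m.factorial : ℂ))
    (exp (t * I) - ∑ m ∈ Finset.range 3, (t * I) ^ m / (m.factorial : ℂ))
  have h7 : ‖(2 : ℂ)‖ = 2 := by simp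
  rw [h7, div_le_iff₀ (by norm_num)]
  have h8 : ((Nat.succ 3 : ℕ) : ℝ) * (((Nat.factorial 3 : ℕ) : ℝ) * ((3 : ℕ) : ℝ))⁻¹ ≤ 1 := by
    norm_num [Nat.factorial]
  have h9 : (0 : ℝ) ≤ ‖t‖ ^ 3 := by positivity
  have h10 := mul_le_mul_of_nonneg_left h8 h9
  rw [mul_one] at h10
  linarith

/-- Bounds.  `A₁ ≥ max 1 (4L/(m₁²-κ))`, `A₂ ≥ max 1 (2L(A₁+4)/(m₁³-m₂))`, `r` small (depending on the
constants and on `r₀`).  Induction on `n`, with `t' = t/μ`, `‖t'‖ ≤ ‖t‖/m₁`: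
`‖T₁(u) - 1‖ ≤ κ A₁‖t'‖² + L ‖u₂‖² ≤ (κ A₁ + 4L) m₁^(-2) ‖t‖²`,
`‖T₂(u) - t‖ ≤ L‖u₂‖(‖u₁-1‖+‖u₂‖²) + ‖μ‖ ‖u₂ - t'‖ ≤ (2L(A₁+4) + m₂ A₂) m₁^(-3) ‖t‖³`. -/
theorem iter_bound {ε κ m₁ m₂ L : ℝ} (hc : Cst ε κ m₁ m₂ L) {r₀ : ℝ} (hr₀ : 0 < r₀) :
    ∃ r A : ℝ, 0 < r ∧ r ≤ r₀ ∧ r ≤ 1 ∧ 0 < A ∧ A * r ^ 2 ≤ 1 ∧
    ∀ μ T, LM μ T ε κ m₁ m₂ L → ∀ (n : ℕ) (t : ℂ), ‖t‖ ≤ r →
      Bl ε (uu μ T n t) ∧ ‖(uu μ T n t).1 - 1‖ ≤ A * ‖t‖ ^ 2 ∧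
      ‖(uu μ T n t).2 - t‖ ≤ A * ‖t‖ ^ 3 := by
  obtain ⟨hε, hε1, hκ0, hm₁, hκ, hm₁₂, hm₂, hL⟩ := hc
  set A₁ : ℝ := max 1 (4 * L / (m₁ ^ 2 - κ)) with hA₁
  set A₂ : ℝ := max 1 (2 * L * (A₁ + 4) / (m₁ ^ 3 - m₂)) with hA₂
  set A : ℝ := max A₁ A₂ with hA
  have h1A₁ : 1 ≤ A₁ := le_max_left _ _
  have h1A₂ : 1 ≤ A₂ := le_max_left _ _
  have hA₁A : A₁ ≤ A := le_max_left _ _
  have hA₂A : A₂ ≤ A := le_max_right _ _
  have h1A : 1 ≤ A := h1A₁.trans hA₁A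
  have hd1 : 0 < m₁ ^ 2 - κ := sub_pos.2 hκ
  have hd2 : 0 < m₁ ^ 3 - m₂ := sub_pos.2 hm₂
  have e1 : κ * A₁ + 4 * L ≤ A₁ * m₁ ^ 2 := by
    have h := le_max_right 1 (4 * L / (m₁ ^ 2 - κ))
    rw [← hA₁, div_le_iff₀ hd1] at h
    linarith
  have e2 : 2 * L * (A₁ + 4) + m₂ * A₂ ≤ A₂ * m₁ ^ 3 := by
    have h := le_max_right 1 (2 * L * (A₁ + 4) / (m₁ ^ 3 - m₂))
    rw [← hA₂, div_le_iff₀ hd2] at h
    linarith
  set r : ℝ := min r₀ (ε / (2 * A)) with hr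
  have hA0 : 0 < A := by linarith
  have hr0 : 0 < r := lt_min hr₀ (by positivity)
  have hrA : A * r ≤ ε / 2 := by
    have h : r ≤ ε / (2 * A) := min_le_right _ _
    calc A * r ≤ A * (ε / (2 * A)) := mul_le_mul_of_nonneg_left h hA0.le
      _ = ε / 2 := by field_simp
  have hrε : r ≤ ε / 2 := by nlinarith
  have hr1 : r ≤ 1 := by linarith
  have hAr2 : A * r ^ 2 ≤ ε / 2 := by
    calc A * r ^ 2 = (A * r) * r := by ring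
      _ ≤ (A * r) * 1 := mul_le_mul_of_nonneg_left hr1 (by positivity)
      _ ≤ ε / 2 := by linarith
  have hBl : ∀ (u : ℂ × ℂ) (t : ℂ), ‖t‖ ≤ r → ‖u.1 - 1‖ ≤ A₁ * ‖t‖ ^ 2 →
      ‖u.2 - t‖ ≤ A₂ * ‖t‖ ^ 3 → Bl ε u ∧ ‖u.2‖ ≤ 2 * ‖t‖ := by
    intro u t ht h1 h2
    have ht0 := norm_nonneg t
    have ht2 : ‖t‖ ^ 2 ≤ r ^ 2 := pow_le_pow_left₀ ht0 ht 2
    have h3 : A₁ * ‖t‖ ^ 2 ≤ A * r ^ 2 := by
      calc A₁ * ‖t‖ ^ 2 ≤ A * ‖t‖ ^ 2 := mul_le_mul_of_nonneg_right hA₁A (by positivity)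
        _ ≤ A * r ^ 2 := mul_le_mul_of_nonneg_left ht2 hA0.le
    have h4 : A₂ * ‖t‖ ^ 2 ≤ A * r ^ 2 := by
      calc A₂ * ‖t‖ ^ 2 ≤ A * ‖t‖ ^ 2 := mul_le_mul_of_nonneg_right hA₂A (by positivity)
        _ ≤ A * r ^ 2 := mul_le_mul_of_nonneg_left ht2 hA0.le
    have h5 : A₂ * ‖t‖ ^ 3 ≤ ‖t‖ := by
      calc A₂ * ‖t‖ ^ 3 = (A₂ * ‖t‖ ^ 2) * ‖t‖ := by ring
        _ ≤ 1 * ‖t‖ := mul_le_mul_of_nonneg_right (by linarith) ht0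
        _ = ‖t‖ := one_mul _
    have h6 : ‖u.2‖ ≤ 2 * ‖t‖ := by
      have h7 : u.2 = (u.2 - t) + t := by ring
      have h8 := norm_add_le (u.2 - t) t
      rw [← h7] at h8
      linarith
    exact ⟨⟨by linarith, by linarith⟩, h6⟩
  refine ⟨r, A, hr0, min_le_left _ _, hr1, hA0, by linarith, ?_⟩
  intro μ T hT
  have hμ1 := hT.μ1
  have hμ0 : 0 < ‖μ‖ := by linarith
  have hμne : μ ≠ 0 := norm_pos_iff.1 hμ0
  have key : ∀ (n : ℕ) (t : ℂ), ‖t‖ ≤ r → ‖(uu μ T n t).1 - 1‖ ≤ A₁ * ‖t‖ ^ 2 ∧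
      ‖(uu μ T n t).2 - t‖ ≤ A₂ * ‖t‖ ^ 3 := by
    intro n
    induction n with
    | zero =>
      intro t ht
      have ht1 : ‖t‖ ≤ 1 := ht.trans hr1
      have h1 := it1_cos ht1
      have h2 := it1_sin ht1
      refine ⟨?_, ?_⟩
      · show ‖cos t - 1‖ ≤ _
        nlinarith [sq_nonneg ‖t‖]
      · show ‖sin t - t‖ ≤ _
        nlinarith [pow_nonneg (norm_nonneg t) 3]
    | succ n ih =>
      intro t ht
      have hn' : ‖t / μ‖ = ‖t‖ / ‖μ‖ := norm_div _ _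
      have ht0 := norm_nonneg t
      have hle : ‖t / μ‖ * m₁ ≤ ‖t‖ := by
        rw [hn']
        calc ‖t‖ / ‖μ‖ * m₁ ≤ ‖t‖ / ‖μ‖ * ‖μ‖ :=
              mul_le_mul_of_nonneg_left hμ1.le (by positivity)
          _ = ‖t‖ := by field_simp
      have ht'0 := norm_nonneg (t / μ)
      have ht' : ‖t / μ‖ ≤ r := by nlinarith
      obtain ⟨h1, h2⟩ := ih (t / μ) ht'
      obtain ⟨hB, h3⟩ := hBl _ _ ht' h1 h2
      set u := uu μ T n (t / μ) with hu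
      have hB1 : Bl ε ((1 : ℂ), (0 : ℂ)) := by
        constructor
        · simp [hε.le]
        · simp [hε.le]
      have h4 := hT.t1 u (1, 0) hB hB1
      rw [hT.fix] at h4
      simp only [sub_zero, norm_zero, add_zero] at h4
      have h5 := hT.t3 u hB
      have hq2 : ‖t / μ‖ ^ 2 * m₁ ^ 2 ≤ ‖t‖ ^ 2 := by
        rw [← mul_pow]
        exact pow_le_pow_left₀ (by positivity) hle 2
      have hq3 : ‖t / μ‖ ^ 3 * m₁ ^ 3 ≤ ‖t‖ ^ 3 := by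
        rw [← mul_pow]
        exact pow_le_pow_left₀ (by positivity) hle 3
      have hu2 := norm_nonneg u.2
      have hu22 : ‖u.2‖ * ‖u.2‖ ≤ 4 * ‖t / μ‖ ^ 2 := by nlinarith
      show ‖(T u).1 - 1‖ ≤ A₁ * ‖t‖ ^ 2 ∧ ‖(T u).2 - t‖ ≤ A₂ * ‖t‖ ^ 3
      constructor
      · calc ‖(T u).1 - 1‖ ≤ κ * ‖u.1 - 1‖ + L * (‖u.2‖ * ‖u.2‖) := h4
          _ ≤ κ * (A₁ * ‖t / μ‖ ^ 2) + L * (4 * ‖t / μ‖ ^ 2) :=
              add_le_add (mul_le_mul_of_nonneg_left h1 hκ0)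
                (mul_le_mul_of_nonneg_left hu22 hL.le)
          _ = (κ * A₁ + 4 * L) * ‖t / μ‖ ^ 2 := by ring
          _ ≤ (A₁ * m₁ ^ 2) * ‖t / μ‖ ^ 2 := mul_le_mul_of_nonneg_right e1 (by positivity)
          _ = A₁ * (‖t / μ‖ ^ 2 * m₁ ^ 2) := by ring
          _ ≤ A₁ * ‖t‖ ^ 2 := mul_le_mul_of_nonneg_left hq2 (by linarith)
      · have h6 : (T u).2 - t = ((T u).2 - μ * u.2) + μ * (u.2 - t / μ) := by
          field_simp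
          ring
        have h7 : ‖(T u).2 - μ * u.2‖ ≤ 2 * L * (A₁ + 4) * ‖t / μ‖ ^ 3 := by
          calc ‖(T u).2 - μ * u.2‖ ≤ L * ‖u.2‖ * (‖u.1 - 1‖ + ‖u.2‖ ^ 2) := h5
            _ ≤ L * (2 * ‖t / μ‖) * (A₁ * ‖t / μ‖ ^ 2 + 4 * ‖t / μ‖ ^ 2) := by
                apply mul_le_mul
                · exact mul_le_mul_of_nonneg_left h3 hL.le
                · rw [sq ‖u.2‖]
                  exact add_le_add h1 hu22
                · positivity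
                · positivity
            _ = 2 * L * (A₁ + 4) * ‖t / μ‖ ^ 3 := by ring
        have h8 : ‖μ * (u.2 - t / μ)‖ ≤ m₂ * A₂ * ‖t / μ‖ ^ 3 := by
          rw [norm_mul]
          calc ‖μ‖ * ‖u.2 - t / μ‖ ≤ m₂ * (A₂ * ‖t / μ‖ ^ 3) := by
                apply mul_le_mul hT.μ2.le h2 (norm_nonneg _)
                linarith
            _ = m₂ * A₂ * ‖t / μ‖ ^ 3 := by ring
        rw [h6]
        calc ‖((T u).2 - μ * u.2) + μ * (u.2 - t / μ)‖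
            ≤ ‖(T u).2 - μ * u.2‖ + ‖μ * (u.2 - t / μ)‖ := norm_add_le _ _
          _ ≤ 2 * L * (A₁ + 4) * ‖t / μ‖ ^ 3 + m₂ * A₂ * ‖t / μ‖ ^ 3 := add_le_add h7 h8
          _ = (2 * L * (A₁ + 4) + m₂ * A₂) * ‖t / μ‖ ^ 3 := by ring
          _ ≤ (A₂ * m₁ ^ 3) * ‖t / μ‖ ^ 3 := mul_le_mul_of_nonneg_right e2 (by positivity)
          _ = A₂ * (‖t / μ‖ ^ 3 * m₁ ^ 3) := by ring
          _ ≤ A₂ * ‖t‖ ^ 3 := mul_le_mul_of_nonneg_left hq3 (by linarith)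
  intro n t ht
  obtain ⟨h1, h2⟩ := key n t ht
  refine ⟨(hBl _ _ ht h1 h2).1, h1.trans ?_, h2.trans ?_⟩
  · exact mul_le_mul_of_nonneg_right hA₁A (by positivity)
  · exact mul_le_mul_of_nonneg_right hA₂A (by positivity)

end EQK
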