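import Pool.Agent.Lib.MP_226de1_co.K.Iter1

/-! Geometric convergence of the approximants. -/

set_option autoImplicit false

namespace EQK

open Complex Set Filter Topology

/-- Cauchy estimate.  With `D₁, D₂` bounds of the differences divided by `‖t‖²`, `‖t‖³` and `M` large,
`r` small: `M D₁ + D₂` is multiplied by some `q < 1` in each step
(`D₁' ≤ (κ D₁ + 4L r² D₂)/m₁²`, `D₂' ≤ (m₂ D₂ + 2L D₁ + 8 L r² D₂)/m₁³`). -/
theorem iter_cauchy {ε κ m₁ m₂ L : ℝ} (hc : Cst ε κ m₁ m₂ L) {r₀ : ℝ} (hr₀ : 0 < r₀) :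
    ∃ r K q : ℝ, 0 < r ∧ r ≤ r₀ ∧ 0 < K ∧ 0 < q ∧ q < 1 ∧
    ∀ μ T, LM μ T ε κ m₁ m₂ L → ∀ (n : ℕ) (t : ℂ), ‖t‖ ≤ r →
      ‖(uu μ T (n + 1) t).1 - (uu μ T n t).1‖ ≤ K * q ^ n ∧
      ‖(uu μ T (n + 1) t).2 - (uu μ T n t).2‖ ≤ K * q ^ n := by
  obtain ⟨r₁, A, hr₁, hr₁', hr₁1, hA, hAr, hb⟩ := iter_bound hc hr₀
  obtain ⟨hε, hε1, hκ0, hm₁, hκ, hm₁₂, hm₂, hL⟩ := hc
  have hm₁0 : 0 < m₁ := by linarith
  have hm₂0 : 0 < m₂ := by linarith
  have hm2 : (1 : ℝ) ≤ m₁ ^ 2 := one_le_pow₀ hm₁.le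
  have hm3 : (1 : ℝ) ≤ m₁ ^ 3 := one_le_pow₀ hm₁.le
  set a : ℝ := κ / m₁ ^ 2 with ha
  set b : ℝ := m₂ / m₁ ^ 3 with hbd
  have ha0 : 0 ≤ a := by positivity
  have ha1 : a < 1 := (div_lt_one (by positivity)).2 hκ
  have hb0 : 0 < b := by positivity
  have hb1 : b < 1 := (div_lt_one (by positivity)).2 hm₂
  set mx : ℝ := max a b with hmx
  have hmx1 : mx < 1 := max_lt ha1 hb1
  have hamx : a ≤ mx := le_max_left _ _
  have hbmx : b ≤ mx := le_max_right _ _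
  set g : ℝ := (1 - mx) / 2 with hg
  have hg0 : 0 < g := by rw [hg]; linarith
  set q : ℝ := (1 + mx) / 2 with hq
  have hag : a + g ≤ q := by rw [hg, hq]; linarith
  have hbg : b + g ≤ q := by rw [hg, hq]; linarith
  have hq0 : 0 < q := by linarith
  have hq1 : q < 1 := by rw [hq]; linarith
  set M : ℝ := max 1 (2 * L / g) with hM
  have hM1 : 1 ≤ M := le_max_left _ _
  have hM2 : 2 * L ≤ g * M := by
    have h := le_max_right 1 (2 * L / g)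
    rw [← hM, div_le_iff₀ hg0] at h
    linarith
  set C : ℝ := 4 * L * M + 8 * L with hC
  have hC0 : 0 < C := by rw [hC]; positivity
  set r : ℝ := min r₁ (g / C) with hr
  have hr0 : 0 < r := lt_min hr₁ (by positivity)
  have hrr₁ : r ≤ r₁ := min_le_left _ _
  have hr1 : r ≤ 1 := hrr₁.trans hr₁1
  have hCr : C * r ^ 2 ≤ g := by
    have h : r ≤ g / C := min_le_right _ _
    calc C * r ^ 2 = C * r * r := by ring
      _ ≤ C * r * 1 := mul_le_mul_of_nonneg_left hr1 (by positivity)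
      _ = C * r := mul_one _
      _ ≤ C * (g / C) := mul_le_mul_of_nonneg_left h hC0.le
      _ = g := by field_simp
  refine ⟨r, 2 * A * M + 2 * A, q, hr0, hrr₁.trans hr₁', by positivity, hq0, hq1, ?_⟩
  intro μ T hT
  have hμ1 := hT.μ1
  have hμ0 : 0 < ‖μ‖ := by linarith
  have hμne : μ ≠ 0 := norm_pos_iff.1 hμ0
  have hu2 : ∀ (n : ℕ) (t : ℂ), ‖t‖ ≤ r → ‖(uu μ T n t).2‖ ≤ 2 * ‖t‖ := by
    intro n t ht
    obtain ⟨-, -, h3⟩ := hb μ T hT n t (ht.trans hrr₁)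
    have ht0 := norm_nonneg t
    have h4 : A * ‖t‖ ^ 3 ≤ ‖t‖ := by
      have h5 : A * ‖t‖ ^ 2 ≤ 1 := by
        calc A * ‖t‖ ^ 2 ≤ A * r₁ ^ 2 :=
              mul_le_mul_of_nonneg_left (pow_le_pow_left₀ ht0 (ht.trans hrr₁) 2) hA.le
          _ ≤ 1 := hAr
      calc A * ‖t‖ ^ 3 = (A * ‖t‖ ^ 2) * ‖t‖ := by ring
        _ ≤ 1 * ‖t‖ := mul_le_mul_of_nonneg_right h5 ht0
        _ = ‖t‖ := one_mul _
    have h7 : (uu μ T n t).2 = ((uu μ T n t).2 - t) + t := by ring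
    have h8 := norm_add_le ((uu μ T n t).2 - t) t
    rw [← h7] at h8
    linarith
  have key : ∀ n : ℕ, ∃ D₁ D₂ : ℝ, 0 ≤ D₁ ∧ 0 ≤ D₂ ∧
      M * D₁ + D₂ ≤ (2 * A * M + 2 * A) * q ^ n ∧ ∀ t : ℂ, ‖t‖ ≤ r →
      ‖(uu μ T (n + 1) t).1 - (uu μ T n t).1‖ ≤ D₁ * ‖t‖ ^ 2 ∧
      ‖(uu μ T (n + 1) t).2 - (uu μ T n t).2‖ ≤ D₂ * ‖t‖ ^ 3 := by
    intro n
    induction n with
    | zero =>
      refine ⟨2 * A, 2 * A, by positivity, by positivity, ?_, ?_⟩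
      · rw [pow_zero]
        linarith
      · intro t ht
        obtain ⟨-, h1, h2⟩ := hb μ T hT 0 t (ht.trans hrr₁)
        obtain ⟨-, h3, h4⟩ := hb μ T hT (0 + 1) t (ht.trans hrr₁)
        constructor
        · have e : (uu μ T (0 + 1) t).1 - (uu μ T 0 t).1 =
              ((uu μ T (0 + 1) t).1 - 1) - ((uu μ T 0 t).1 - 1) := by ring
          rw [e]
          refine (norm_sub_le _ _).trans ?_
          linarith
        · have e : (uu μ T (0 + 1) t).2 - (uu μ T 0 t).2 =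
              ((uu μ T (0 + 1) t).2 - t) - ((uu μ T 0 t).2 - t) := by ring
          rw [e]
          refine (norm_sub_le _ _).trans ?_
          linarith
    | succ n ih =>
      obtain ⟨D₁, D₂, hD₁, hD₂, hD, hd⟩ := ih
      refine ⟨(κ * D₁ + 4 * L * r ^ 2 * D₂) / m₁ ^ 2,
        (m₂ * D₂ + 2 * L * D₁ + 8 * L * r ^ 2 * D₂) / m₁ ^ 3, by positivity, by positivity,
        ?_, ?_⟩
      · have e1 : (κ * D₁ + 4 * L * r ^ 2 * D₂) / m₁ ^ 2 ≤ a * D₁ + 4 * L * r ^ 2 * D₂ := by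
          rw [ha, add_div]
          have h1 : 4 * L * r ^ 2 * D₂ / m₁ ^ 2 ≤ 4 * L * r ^ 2 * D₂ :=
            div_le_self (by positivity) hm2
          have h2 : κ * D₁ / m₁ ^ 2 = κ / m₁ ^ 2 * D₁ := by ring
          linarith
        have e2 : (m₂ * D₂ + 2 * L * D₁ + 8 * L * r ^ 2 * D₂) / m₁ ^ 3 ≤
            b * D₂ + 2 * L * D₁ + 8 * L * r ^ 2 * D₂ := by
          rw [hbd, add_div, add_div]
          have h1 : 8 * L * r ^ 2 * D₂ / m₁ ^ 3 ≤ 8 * L * r ^ 2 * D₂ :=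
            div_le_self (by positivity) hm3
          have h2 : m₂ * D₂ / m₁ ^ 3 = m₂ / m₁ ^ 3 * D₂ := by ring
          have h3 : 2 * L * D₁ / m₁ ^ 3 ≤ 2 * L * D₁ := div_le_self (by positivity) hm3
          linarith
        have e3 : (a * M + 2 * L) * D₁ ≤ q * M * D₁ := by
          apply mul_le_mul_of_nonneg_right _ hD₁
          nlinarith
        have e4 : (b + C * r ^ 2) * D₂ ≤ q * D₂ :=
          mul_le_mul_of_nonneg_right (by linarith) hD₂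
        calc M * ((κ * D₁ + 4 * L * r ^ 2 * D₂) / m₁ ^ 2) +
              (m₂ * D₂ + 2 * L * D₁ + 8 * L * r ^ 2 * D₂) / m₁ ^ 3
            ≤ M * (a * D₁ + 4 * L * r ^ 2 * D₂) +
              (b * D₂ + 2 * L * D₁ + 8 * L * r ^ 2 * D₂) :=
              add_le_add (mul_le_mul_of_nonneg_left e1 (by linarith)) e2
          _ = (a * M + 2 * L) * D₁ + (b + C * r ^ 2) * D₂ := by
              rw [hC]
              ring
          _ ≤ q * M * D₁ + q * D₂ := add_le_add e3 e4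
          _ = q * (M * D₁ + D₂) := by ring
          _ ≤ q * ((2 * A * M + 2 * A) * q ^ n) := mul_le_mul_of_nonneg_left hD hq0.le
          _ = (2 * A * M + 2 * A) * q ^ (n + 1) := by ring
      · intro t ht
        have hn' : ‖t / μ‖ = ‖t‖ / ‖μ‖ := norm_div _ _
        have ht0 := norm_nonneg t
        have hle : ‖t / μ‖ * m₁ ≤ ‖t‖ := by
          rw [hn']
          calc ‖t‖ / ‖μ‖ * m₁ ≤ ‖t‖ / ‖μ‖ * ‖μ‖ :=
                mul_le_mul_of_nonneg_left hμ1.le (by positivity)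
            _ = ‖t‖ := by field_simp
        have ht'0 := norm_nonneg (t / μ)
        have ht' : ‖t / μ‖ ≤ r := by nlinarith
        obtain ⟨h1, h2⟩ := hd (t / μ) ht'
        have hV := (hb μ T hT (n + 1) (t / μ) (ht'.trans hrr₁)).1
        have hW := (hb μ T hT n (t / μ) (ht'.trans hrr₁)).1
        have hV2 := hu2 (n + 1) (t / μ) ht'
        have hW2 := hu2 n (t / μ) ht'
        set V := uu μ T (n + 1) (t / μ) with hVd
        set W := uu μ T n (t / μ) with hWd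
        have h3 := hT.t1 V W hV hW
        have h4 := hT.t2 V W hV hW
        have hq2 : ‖t / μ‖ ^ 2 * m₁ ^ 2 ≤ ‖t‖ ^ 2 := by
          rw [← mul_pow]
          exact pow_le_pow_left₀ (by positivity) hle 2
        have hq3 : ‖t / μ‖ ^ 3 * m₁ ^ 3 ≤ ‖t‖ ^ 3 := by
          rw [← mul_pow]
          exact pow_le_pow_left₀ (by positivity) hle 3
        have hr2 : ‖t / μ‖ ^ 2 ≤ r ^ 2 := pow_le_pow_left₀ ht'0 ht' 2
        have h5 : (‖V.2‖ + ‖W.2‖) * ‖V.2 - W.2‖ ≤ 4 * r ^ 2 * D₂ * ‖t / μ‖ ^ 2 := by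
          calc (‖V.2‖ + ‖W.2‖) * ‖V.2 - W.2‖ ≤ (4 * ‖t / μ‖) * (D₂ * ‖t / μ‖ ^ 3) := by
                apply mul_le_mul _ h2 (norm_nonneg _) (by positivity)
                linarith
            _ = (4 * D₂ * ‖t / μ‖ ^ 2) * ‖t / μ‖ ^ 2 := by ring
            _ ≤ (4 * D₂ * ‖t / μ‖ ^ 2) * r ^ 2 := mul_le_mul_of_nonneg_left hr2 (by positivity)
            _ = 4 * r ^ 2 * D₂ * ‖t / μ‖ ^ 2 := by ring
        show ‖(T V).1 - (T W).1‖ ≤ _ ∧ ‖(T V).2 - (T W).2‖ ≤ _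
        constructor
        · calc ‖(T V).1 - (T W).1‖
              ≤ κ * ‖V.1 - W.1‖ + L * ((‖V.2‖ + ‖W.2‖) * ‖V.2 - W.2‖) := h3
            _ ≤ κ * (D₁ * ‖t / μ‖ ^ 2) + L * (4 * r ^ 2 * D₂ * ‖t / μ‖ ^ 2) :=
                add_le_add (mul_le_mul_of_nonneg_left h1 hκ0)
                  (mul_le_mul_of_nonneg_left h5 hL.le)
            _ = (κ * D₁ + 4 * L * r ^ 2 * D₂) / m₁ ^ 2 * (‖t / μ‖ ^ 2 * m₁ ^ 2) := by
                field_simp
            _ ≤ (κ * D₁ + 4 * L * r ^ 2 * D₂) / m₁ ^ 2 * ‖t‖ ^ 2 :=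
                mul_le_mul_of_nonneg_left hq2 (by positivity)
        · have h6 : L * ‖W.2‖ * (‖V.1 - W.1‖ + (‖V.2‖ + ‖W.2‖) * ‖V.2 - W.2‖) ≤
              L * (2 * ‖t / μ‖) * (D₁ * ‖t / μ‖ ^ 2 + 4 * r ^ 2 * D₂ * ‖t / μ‖ ^ 2) := by
            apply mul_le_mul
            · exact mul_le_mul_of_nonneg_left hW2 hL.le
            · exact add_le_add h1 h5
            · positivity
            · positivity
          calc ‖(T V).2 - (T W).2‖ ≤ m₂ * ‖V.2 - W.2‖ +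
                L * ‖W.2‖ * (‖V.1 - W.1‖ + (‖V.2‖ + ‖W.2‖) * ‖V.2 - W.2‖) := h4
            _ ≤ m₂ * (D₂ * ‖t / μ‖ ^ 3) +
                L * (2 * ‖t / μ‖) * (D₁ * ‖t / μ‖ ^ 2 + 4 * r ^ 2 * D₂ * ‖t / μ‖ ^ 2) :=
                add_le_add (mul_le_mul_of_nonneg_left h2 hm₂0.le) h6
            _ = (m₂ * D₂ + 2 * L * D₁ + 8 * L * r ^ 2 * D₂) / m₁ ^ 3 *
                (‖t / μ‖ ^ 3 * m₁ ^ 3) := by
                field_simp
                ring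
            _ ≤ (m₂ * D₂ + 2 * L * D₁ + 8 * L * r ^ 2 * D₂) / m₁ ^ 3 * ‖t‖ ^ 3 :=
                mul_le_mul_of_nonneg_left hq3 (by positivity)
  intro n t ht
  obtain ⟨D₁, D₂, hD₁, hD₂, hD, hd⟩ := key n
  obtain ⟨h1, h2⟩ := hd t ht
  have ht0 := norm_nonneg t
  have ht1 : ‖t‖ ≤ 1 := ht.trans hr1
  have ht2 : ‖t‖ ^ 2 ≤ 1 := pow_le_one₀ ht0 ht1
  have ht3 : ‖t‖ ^ 3 ≤ 1 := pow_le_one₀ ht0 ht1
  have h5 : D₁ ≤ M * D₁ := by nlinarith
  constructor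
  · calc _ ≤ D₁ * ‖t‖ ^ 2 := h1
      _ ≤ D₁ * 1 := mul_le_mul_of_nonneg_left ht2 hD₁
      _ ≤ (2 * A * M + 2 * A) * q ^ n := by linarith
  · calc _ ≤ D₂ * ‖t‖ ^ 3 := h2
      _ ≤ D₂ * 1 := mul_le_mul_of_nonneg_left ht3 hD₂
      _ ≤ (2 * A * M + 2 * A) * q ^ n := by linarith

end EQK
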