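import Pool.Agent.Lib.MP_226de1_co.K.Basic

/-! Complex version of `lam` and of the step. -/

set_option autoImplicit false

namespace EQK

open Complex Set Filter Topology

noncomputable section

def bas (k μ R : ℂ) : ℂ := (1 + exp (k * log μ)) * exp (-(k / 2) * log R) - 1

def lamC (k μ R : ℂ) : ℂ := exp (log (bas k μ R) / k)

/-- domain of analyticity -/
def OK (k μ R : ℂ) : Prop :=
  k ≠ 0 ∧ μ ∈ slitPlane ∧ R ∈ slitPlane ∧ bas k μ R ∈ slitPlane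

def RRc (V : ℂ × ℂ) : ℂ := V.1 ^ 2 + V.2 ^ 2

def TC (k μ : ℂ) (V : ℂ × ℂ) : ℂ × ℂ :=
  (lamC k μ (RRc V) * V.1 - (μ - 1), lamC k μ (RRc V) * V.2)

/-- embedding of real points -/
def up (V : ℝ × ℝ) : ℂ × ℂ := ((V.1 : ℂ), (V.2 : ℂ))

/-- real part of a point -/
def dn2 (V : ℂ × ℂ) : ℝ × ℝ := (V.1.re, V.2.re)

theorem dn2_up (V : ℝ × ℝ) : dn2 (up V) = V := rfl

theorem RRc_up (V : ℝ × ℝ) : RRc (up V) = ((RR V : ℝ) : ℂ) := by
  unfold RRc up RR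
  push_cast
  ring

private theorem LamC1_bas {k μ R : ℂ} (hμ : μ ∈ slitPlane) (hR : R ∈ slitPlane) :
    ContDiffAt ℂ 1 (fun p : ℂ × ℂ × ℂ => bas p.1 p.2.1 p.2.2) (k, μ, R) := by
  have h1 : ContDiffAt ℂ 1 (fun p : ℂ × ℂ × ℂ => p.1) (k, μ, R) := contDiffAt_fst
  have h2 : ContDiffAt ℂ 1 (fun p : ℂ × ℂ × ℂ => p.2.1) (k, μ, R) :=
    contDiffAt_fst.comp _ contDiffAt_snd
  have h3 : ContDiffAt ℂ 1 (fun p : ℂ × ℂ × ℂ => p.2.2) (k, μ, R) :=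
    contDiffAt_snd.comp _ contDiffAt_snd
  have h4 : ContDiffAt ℂ 1 (fun p : ℂ × ℂ × ℂ => log p.2.1) (k, μ, R) :=
    ContDiffAt.comp (k, μ, R) (g := log) (contDiffAt_log hμ) h2
  have h5 : ContDiffAt ℂ 1 (fun p : ℂ × ℂ × ℂ => log p.2.2) (k, μ, R) :=
    ContDiffAt.comp (k, μ, R) (g := log) (contDiffAt_log hR) h3
  have h6 : ContDiffAt ℂ 1 (fun p : ℂ × ℂ × ℂ => 1 + exp (p.1 * log p.2.1)) (k, μ, R) :=
    contDiffAt_const.add (h1.mul h4).cexp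
  have h7 : ContDiffAt ℂ 1 (fun p : ℂ × ℂ × ℂ => exp (-(p.1 / 2) * log p.2.2)) (k, μ, R) :=
    ((h1.div_const 2).neg.mul h5).cexp
  exact (h6.mul h7).sub contDiffAt_const

theorem OK_isOpen : IsOpen {p : ℂ × ℂ × ℂ | OK p.1 p.2.1 p.2.2} := by
  rw [isOpen_iff_mem_nhds]
  rintro ⟨k, μ, R⟩ ⟨hk, hμ, hR, hb⟩
  have h1 : ∀ᶠ p : ℂ × ℂ × ℂ in 𝓝 (k, μ, R), p.1 ≠ 0 :=
    continuous_fst.continuousAt.eventually_ne hk
  have h2 : ∀ᶠ p : ℂ × ℂ × ℂ in 𝓝 (k, μ, R), p.2.1 ∈ slitPlane :=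
    (continuous_fst.comp continuous_snd).continuousAt.eventually_mem
      (isOpen_slitPlane.mem_nhds hμ)
  have h3 : ∀ᶠ p : ℂ × ℂ × ℂ in 𝓝 (k, μ, R), p.2.2 ∈ slitPlane :=
    (continuous_snd.comp continuous_snd).continuousAt.eventually_mem
      (isOpen_slitPlane.mem_nhds hR)
  have h4 : ∀ᶠ p : ℂ × ℂ × ℂ in 𝓝 (k, μ, R), bas p.1 p.2.1 p.2.2 ∈ slitPlane :=
    (LamC1_bas (k := k) hμ hR).continuousAt.eventually_mem (isOpen_slitPlane.mem_nhds hb)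
  filter_upwards [h1, h2, h3, h4] with p a1 a2 a3 a4
  exact ⟨a1, a2, a3, a4⟩

theorem lamC_contDiffAt {k μ R : ℂ} (h : OK k μ R) :
    ContDiffAt ℂ 1 (fun p : ℂ × ℂ × ℂ => lamC p.1 p.2.1 p.2.2) (k, μ, R) := by
  obtain ⟨hk, hμ, hR, hb⟩ := h
  have h1 : ContDiffAt ℂ 1 (fun p : ℂ × ℂ × ℂ => p.1) (k, μ, R) := contDiffAt_fst
  have h2 : ContDiffAt ℂ 1 (fun p : ℂ × ℂ × ℂ => log (bas p.1 p.2.1 p.2.2)) (k, μ, R) :=
    ContDiffAt.comp (k, μ, R) (g := log) (contDiffAt_log hb) (LamC1_bas hμ hR)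
  exact (h2.div h1 hk).cexp

/-- `bas` has `R`-derivative `-(k/(2R)) (bas + 1)` -/
theorem lamC_hasDerivAt {k μ R : ℂ} (h : OK k μ R) :
    HasDerivAt (fun R => lamC k μ R)
      (-(lamC k μ R * (bas k μ R + 1) / (2 * R * bas k μ R))) R := by
  obtain ⟨hk, hμ, hR, hb⟩ := h
  have hR0 : R ≠ 0 := slitPlane_ne_zero hR
  have hb0 : bas k μ R ≠ 0 := slitPlane_ne_zero hb
  have h1 : HasDerivAt (fun R => exp (-(k / 2) * log R))
      (exp (-(k / 2) * log R) * (-(k / 2) * R⁻¹)) R :=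
    ((hasDerivAt_log hR).const_mul (-(k / 2))).cexp
  have h2 : HasDerivAt (fun R => bas k μ R)
      ((1 + exp (k * log μ)) * (exp (-(k / 2) * log R) * (-(k / 2) * R⁻¹))) R :=
    (h1.const_mul (1 + exp (k * log μ))).sub_const 1
  have h3 : HasDerivAt (fun R => log (bas k μ R))
      (((1 + exp (k * log μ)) * (exp (-(k / 2) * log R) * (-(k / 2) * R⁻¹))) / bas k μ R) R :=
    h2.clog hb
  have h4 := (h3.div_const k).cexp
  have h5 : bas k μ R + 1 = (1 + exp (k * log μ)) * exp (-(k / 2) * log R) := by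
    unfold bas
    ring
  have h6 : exp (log (bas k μ R) / k) = lamC k μ R := rfl
  refine h4.congr_deriv ?_
  rw [h5, h6]
  field_simp

end

end EQK
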