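import Pool.Agent.Lib.MP_226de1_co.K.LamC1

/-! `lamC` at real points. -/

set_option autoImplicit false

namespace EQK

open Complex Set Filter Topology

theorem bas_ofReal {k μ R : ℝ} (hμ : 1 < μ) (hR : 0 < R) :
    bas k μ R = ((cc k μ * R ^ (-(k / 2)) - 1 : ℝ) : ℂ) := by
  have hμ0 : 0 < μ := by linarith
  unfold bas cc
  rw [← Complex.ofReal_log hμ0.le, ← Complex.ofReal_log hR.le, Real.rpow_def_of_pos hμ0,
    Real.rpow_def_of_pos hR]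
  push_cast
  rw [mul_comm (k : ℂ) (Real.log μ : ℂ), mul_comm (-((k : ℂ) / 2)) (Real.log R : ℂ)]

theorem OK_ofReal {k μ R : ℝ} (hk : 0 < k) (hμ : 1 < μ) (hd : Dm k μ R) : OK k μ R := by
  refine ⟨by exact_mod_cast hk.ne', ?_, ?_, ?_⟩
  · rw [Complex.ofReal_mem_slitPlane]; linarith
  · rw [Complex.ofReal_mem_slitPlane]; exact hd.1
  · rw [bas_ofReal hμ hd.1, Complex.ofReal_mem_slitPlane]; exact bas_pos hd

theorem lamC_ofReal {k μ R : ℝ} (hμ : 1 < μ) (hd : Dm k μ R) :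
    lamC k μ R = ((lam k μ R : ℝ) : ℂ) := by
  have hb := bas_pos hd
  unfold lamC lam
  rw [bas_ofReal hμ hd.1, ← Complex.ofReal_log hb.le, Real.rpow_def_of_pos hb]
  push_cast
  congr 1
  ring

theorem TC_ofReal {k μ : ℝ} (hμ : 1 < μ) {V : ℝ × ℝ} (hd : Dm k μ (RR V)) :
    TC k μ (up V) = up (TT k μ V) := by
  unfold TC TT
  rw [RRc_up, lamC_ofReal hμ hd]
  unfold up
  ext <;> simp

/-- `lamC k μ 1 = μ` near real points: `bas k μ 1 = exp (k log μ)`, and `|Im (k log μ)| < π` -/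
theorem lamC_one {k₀ μ₀ : ℝ} (hk : 0 < k₀) (hμ : 1 < μ₀) :
    ∀ᶠ p : ℂ × ℂ in 𝓝 ((k₀ : ℂ), (μ₀ : ℂ)), lamC p.1 p.2 1 = p.2 := by
  have hμ0 : 0 < μ₀ := by linarith
  have h1 : ∀ᶠ p : ℂ × ℂ in 𝓝 ((k₀ : ℂ), (μ₀ : ℂ)), p.1 ≠ 0 := by
    apply (continuous_fst.continuousAt (x := ((k₀ : ℂ), (μ₀ : ℂ)))).eventually_ne
    simpa using hk.ne'
  have h2 : ∀ᶠ p : ℂ × ℂ in 𝓝 ((k₀ : ℂ), (μ₀ : ℂ)), p.2 ≠ 0 := by
    apply (continuous_snd.continuousAt (x := ((k₀ : ℂ), (μ₀ : ℂ)))).eventually_ne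
    simpa using hμ0.ne'
  have hc : ContinuousAt (fun p : ℂ × ℂ => (p.1 * log p.2).im) ((k₀ : ℂ), (μ₀ : ℂ)) := by
    have hs : ((k₀ : ℂ), (μ₀ : ℂ)).2 ∈ slitPlane := by
      simpa [Complex.ofReal_mem_slitPlane] using hμ0
    apply Complex.continuous_im.continuousAt.comp
    exact continuousAt_fst.mul ((continuousAt_clog hs).comp continuousAt_snd)
  have h0 : (fun p : ℂ × ℂ => (p.1 * log p.2).im) ((k₀ : ℂ), (μ₀ : ℂ)) = 0 := by
    show ((k₀ : ℂ) * log (μ₀ : ℂ)).im = 0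
    rw [← Complex.ofReal_log hμ0.le, ← Complex.ofReal_mul, Complex.ofReal_im]
  have h3 : ∀ᶠ p : ℂ × ℂ in 𝓝 ((k₀ : ℂ), (μ₀ : ℂ)), -Real.pi < (p.1 * log p.2).im := by
    apply hc.eventually (lt_mem_nhds _)
    rw [h0]; linarith [Real.pi_pos]
  have h4 : ∀ᶠ p : ℂ × ℂ in 𝓝 ((k₀ : ℂ), (μ₀ : ℂ)), (p.1 * log p.2).im < Real.pi := by
    apply hc.eventually (gt_mem_nhds _)
    rw [h0]; exact Real.pi_pos
  filter_upwards [h1, h2, h3, h4] with p p1 p2 p3 p4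
  unfold lamC bas
  rw [Complex.log_one, mul_zero, Complex.exp_zero, mul_one, add_sub_cancel_left,
    Complex.log_exp p3 p4.le, mul_div_cancel_left₀ _ p1, Complex.exp_log p2]

end EQK
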