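import Mathlib

/-! A uniform limit of complex `C¹` maps on an open set is complex `C¹`, and derivatives converge. -/

set_option autoImplicit false

namespace EQK

open Set Filter Topology

/-- Cauchy estimate along complex lines: if the ball `ball x ρ` is in `U` and `‖h y‖ ≤ C` on it
then `‖fderiv ℂ h x‖ ≤ C/ρ'` for `ρ' < ρ` (apply `Complex.norm_deriv_le_of_forall_mem_sphere_norm_le`
to `z ↦ h (x + z v)`, `‖v‖ = 1`). -/
theorem norm_fderiv_le {E F : Type*} [NormedAddCommGroup E] [NormedSpace ℂ E]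
    [NormedAddCommGroup F] [NormedSpace ℂ F] [CompleteSpace F] {h : E → F} {x : E} {ρ C : ℝ}
    (hρ : 0 < ρ) (hd : DifferentiableOn ℂ h (Metric.ball x (2 * ρ)))
    (hb : ∀ y ∈ Metric.ball x (2 * ρ), ‖h y‖ ≤ C) : ‖fderiv ℂ h x‖ ≤ C / ρ := by
  have hx : x ∈ Metric.ball x (2 * ρ) := Metric.mem_ball_self (by linarith)
  have hC : 0 ≤ C := (norm_nonneg _).trans (hb x hx)
  refine ContinuousLinearMap.opNorm_le_bound _ (div_nonneg hC hρ.le) fun v => ?_
  rcases eq_or_ne v 0 with rfl | hv
  · simp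
  have hv0 : 0 < ‖v‖ := norm_pos_iff.2 hv
  have hR : 0 < ρ / ‖v‖ := div_pos hρ hv0
  have hmem : ∀ z ∈ Metric.closedBall (0 : ℂ) (ρ / ‖v‖), x + z • v ∈ Metric.ball x (2 * ρ) := by
    intro z hz
    rw [mem_closedBall_zero_iff, le_div_iff₀ hv0] at hz
    rw [Metric.mem_ball, dist_eq_norm, add_sub_cancel_left, norm_smul]
    linarith
  have hdiff : ∀ z ∈ Metric.closedBall (0 : ℂ) (ρ / ‖v‖),
      HasDerivAt (fun z : ℂ => h (x + z • v)) (fderiv ℂ h (x + z • v) v) z := by
    intro z hz
    have h1 : HasFDerivAt h (fderiv ℂ h (x + z • v)) (x + z • v) :=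
      (hd.differentiableAt (Metric.isOpen_ball.mem_nhds (hmem z hz))).hasFDerivAt
    have h2 : HasDerivAt (fun z : ℂ => x + z • v) v z := by
      have := ((hasDerivAt_id z).smul_const v).const_add x
      simpa using this
    exact h1.comp_hasDerivAt z h2
  have key := Complex.norm_deriv_le_of_forall_mem_sphere_norm_le (c := (0 : ℂ))
    (f := fun z : ℂ => h (x + z • v)) (C := C) hR ?_ ?_
  · have h0 := (hdiff 0 (Metric.mem_closedBall_self hR.le)).deriv
    rw [h0] at key
    simp only [zero_smul, add_zero] at key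
    calc ‖fderiv ℂ h x v‖ ≤ C / (ρ / ‖v‖) := key
      _ = C / ρ * ‖v‖ := by field_simp
  · refine DifferentiableOn.diffContOnCl fun z hz => ?_
    rw [closure_ball _ hR.ne'] at hz
    exact (hdiff z hz).differentiableAt.differentiableWithinAt
  · intro z hz
    exact hb _ (hmem z (Metric.sphere_subset_closedBall hz))

/-- `fderiv (f n)` is locally uniformly Cauchy by `norm_fderiv_le`; use
`hasFDerivAt_of_tendstoLocallyUniformlyOn` and `TendstoLocallyUniformlyOn.continuousOn`. -/
theorem limC1 {E F : Type*} [NormedAddCommGroup E] [NormedSpace ℂ E]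
    [NormedAddCommGroup F] [NormedSpace ℂ F] [CompleteSpace F] {U : Set E} (hU : IsOpen U)
    {f : ℕ → E → F} {g : E → F} (hf : ∀ n, ContDiffOn ℂ 1 (f n) U)
    (hlim : TendstoUniformlyOn f g atTop U) :
    ContDiffOn ℂ 1 g U ∧
      ∀ x ∈ U, Tendsto (fun n => fderiv ℂ (f n) x) atTop (𝓝 (fderiv ℂ g x)) := by
  have hdf : ∀ n, DifferentiableOn ℂ (f n) U := fun n => (hf n).differentiableOn (by norm_num)
  have hcd : ∀ n, ContinuousOn (fun x => fderiv ℂ (f n) x) U := fun n =>
    (hf n).continuousOn_fderiv_of_isOpen hU (by norm_num)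
  -- local uniform Cauchy
  have hloc : ∀ x ∈ U, ∃ ρ > 0, Metric.ball x (2 * ρ) ⊆ U ∧
      UniformCauchySeqOn (fun n y => fderiv ℂ (f n) y) atTop (Metric.ball x (2 * ρ)) := by
    intro x hx
    obtain ⟨r, hr, hrU⟩ := Metric.isOpen_iff.1 hU x hx
    refine ⟨r / 4, by positivity, (Metric.ball_subset_ball (by linarith)).trans hrU, ?_⟩
    rw [Metric.uniformCauchySeqOn_iff]
    intro ε hε
    have hu := Metric.uniformCauchySeqOn_iff.1 hlim.uniformCauchySeqOn (ε * (r / 4) / 2)
      (by positivity)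
    obtain ⟨N, hN⟩ := hu
    refine ⟨N, fun m hm n hn y hy => ?_⟩
    have hyU : Metric.ball y (2 * (r / 4)) ⊆ U := by
      refine Subset.trans ?_ hrU
      intro z hz
      rw [Metric.mem_ball] at hz hy ⊢
      linarith [dist_triangle z y x]
    have hyU' : y ∈ U := hyU (Metric.mem_ball_self (by positivity))
    have h1 := norm_fderiv_le (h := fun z => f m z - f n z) (x := y) (ρ := r / 4)
      (C := ε * (r / 4) / 2) (by positivity)
      (((hdf m).sub (hdf n)).mono hyU) (fun z hz => by
        have := (hN m hm n hn z (hyU hz)).le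
        rwa [dist_eq_norm] at this)
    have h2 : fderiv ℂ (fun z => f m z - f n z) y = fderiv ℂ (f m) y - fderiv ℂ (f n) y :=
      fderiv_sub ((hdf m).differentiableAt (hU.mem_nhds hyU'))
        ((hdf n).differentiableAt (hU.mem_nhds hyU'))
    rw [dist_eq_norm, ← h2]
    refine lt_of_le_of_lt h1 ?_
    rw [div_lt_iff₀ (by positivity)]
    nlinarith
  -- pointwise limit
  have hpt : ∀ x, ∃ L : E →L[ℂ] F, x ∈ U → Tendsto (fun n => fderiv ℂ (f n) x) atTop (𝓝 L) := by
    intro x
    by_cases hx : x ∈ U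
    · obtain ⟨ρ, hρ, -, hc⟩ := hloc x hx
      have hcau : CauchySeq (fun n => fderiv ℂ (f n) x) := by
        rw [Metric.cauchySeq_iff]
        intro ε hε
        obtain ⟨N, hN⟩ := Metric.uniformCauchySeqOn_iff.1 hc ε hε
        exact ⟨N, fun m hm n hn => hN m hm n hn x (Metric.mem_ball_self (by positivity))⟩
      obtain ⟨L, hL⟩ := cauchySeq_tendsto_of_complete hcau
      exact ⟨L, fun _ => hL⟩
    · exact ⟨0, fun h => absurd h hx⟩
  choose g' hg' using hpt
  have hunif : TendstoLocallyUniformlyOn (fun n y => fderiv ℂ (f n) y) g' atTop U := by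
    intro u hu x hx
    obtain ⟨ρ, hρ, hsub, hc⟩ := hloc x hx
    have hpt' := hc.tendstoUniformlyOn_of_tendsto (f := g') fun y hy => hg' y (hsub hy)
    refine ⟨Metric.ball x (2 * ρ), mem_nhdsWithin_of_mem_nhds
      (Metric.ball_mem_nhds x (by positivity)), ?_⟩
    exact hpt' u hu
  have hder : ∀ x ∈ U, HasFDerivAt g (g' x) x := fun x hx =>
    hasFDerivAt_of_tendstoLocallyUniformlyOn hU hunif
      (fun n y hy => ((hdf n).differentiableAt (hU.mem_nhds hy)).hasFDerivAt)
      (fun y hy => hlim.tendsto_at hy) hx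
  have hg'c : ContinuousOn g' U :=
    hunif.continuousOn (Eventually.frequently (Eventually.of_forall fun n => hcd n))
  refine ⟨?_, fun x hx => ?_⟩
  · have h0 : ContDiffOn ℂ (0 + 1) g U := by
      rw [contDiffOn_succ_iff_fderiv_of_isOpen hU]
      refine ⟨fun x hx => (hder x hx).differentiableAt.differentiableWithinAt, by simp, ?_⟩
      rw [contDiffOn_zero]
      exact hg'c.congr fun x hx => (hder x hx).fderiv
    simpa using h0
  · rw [(hder x hx).fderiv]
    exact hg' x hx

end EQK
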