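import Pool.Agent.Lib.MP_226de1_co.K.Cone

/-! The real unstable curve: structure, domain, differentiability. -/

set_option autoImplicit false

namespace EQK

open Set Filter Topology

/-- `V` is the unstable curve of the fixed point `(1, 0)`, `P` its velocity.  On `(0, r)` everything is
known; `step` and `stepP` hold for all `t > 0` (`TT`, `DT` are total functions). -/
structure RC (k μ r : ℝ) (V P : ℝ → ℝ × ℝ) : Prop where
  hk : 1 ≤ k
  hμ : 1 < μ
  hr : 0 < r
  step : ∀ t, 0 < t → V (μ * t) = TT k μ (V t)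
  stepP : ∀ t, 0 < t → P (μ * t) = ((DT k μ (V t) (P t)).1 / μ, (DT k μ (V t) (P t)).2 / μ)
  pos1 : ∀ t, 0 < t → t < r → 0 < (V t).1
  pos2 : ∀ t, 0 < t → t < r → 0 < (V t).2
  dom : ∀ t, 0 < t → t < r → Dm k μ (RR (V t))
  cone : ∀ t, 0 < t → t < r → Cone μ (V t) (P t)
  der1 : ∀ t, 0 < t → t < r → HasDerivAt (fun s => (V s).1) (P t).1 t
  der2 : ∀ t, 0 < t → t < r → HasDerivAt (fun s => (V s).2) (P t).2 t
  lim1 : Tendsto (fun t => (V t).1) (𝓝[>] 0) (𝓝 1)
  lim2 : Tendsto (fun t => (V t).2) (𝓝[>] 0) (𝓝 0)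

variable {k μ r : ℝ} {V P : ℝ → ℝ × ℝ}

private theorem RC_deriv_step (h : RC k μ r V P) {t : ℝ} (ht : 0 < t) (hd : Dm k μ (RR (V t)))
    (h1 : HasDerivAt (fun s => (V s).1) (P t).1 t)
    (h2 : HasDerivAt (fun s => (V s).2) (P t).2 t) :
    HasDerivAt (fun s => (V s).1) (P (μ * t)).1 (μ * t) ∧
    HasDerivAt (fun s => (V s).2) (P (μ * t)).2 (μ * t) := by
  have hμ0 : 0 < μ := lt_trans one_pos h.hμ
  have hk0 : 0 < k := lt_of_lt_of_le one_pos h.hk
  obtain ⟨a1, a2⟩ := hasDerivAt_TT hk0 (W := V) (P := P t) hd h1 h2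
  have hdiv : μ * t / μ = t := by field_simp
  have hc : HasDerivAt (fun u : ℝ => u / μ) (1 / μ) (μ * t) := (hasDerivAt_id _).div_const μ
  have hev : ∀ᶠ u in 𝓝 (μ * t), V u = TT k μ (V (u / μ)) := by
    have : ∀ᶠ u in 𝓝 (μ * t), 0 < u := lt_mem_nhds (by positivity)
    filter_upwards [this] with u hu
    rw [← h.step (u / μ) (by positivity)]
    congr 1
    field_simp
  have b1 : HasDerivAt (fun u => (TT k μ (V (u / μ))).1) ((DT k μ (V t) (P t)).1 * (1 / μ))
      (μ * t) := by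
    have a1' : HasDerivAt (fun s => (TT k μ (V s)).1) (DT k μ (V t) (P t)).1 (μ * t / μ) := by
      rw [hdiv]
      exact a1
    exact HasDerivAt.comp (μ * t) a1' hc
  have b2 : HasDerivAt (fun u => (TT k μ (V (u / μ))).2) ((DT k μ (V t) (P t)).2 * (1 / μ))
      (μ * t) := by
    have a2' : HasDerivAt (fun s => (TT k μ (V s)).2) (DT k μ (V t) (P t)).2 (μ * t / μ) := by
      rw [hdiv]
      exact a2
    exact HasDerivAt.comp (μ * t) a2' hc
  rw [h.stepP t ht]
  constructor
  · show HasDerivAt _ ((DT k μ (V t) (P t)).1 / μ) _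
    rw [div_eq_mul_one_div]
    refine b1.congr_of_eventuallyEq ?_
    filter_upwards [hev] with u hu
    rw [hu]
  · show HasDerivAt _ ((DT k μ (V t) (P t)).2 / μ) _
    rw [div_eq_mul_one_div]
    refine b2.congr_of_eventuallyEq ?_
    filter_upwards [hev] with u hu
    rw [hu]

/-- If `X > 0` on `(0,t)` then on `(0,t]`: `X ≥ 0` (continuity), `Y > 0`, the point is in the domain
(`Dm_TT`) and `V` is differentiable with derivative `P` (`hasDerivAt_TT`, chain rule for `s ↦ s/μ`).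
Induction on `n` with `s < r μ^n`; the predecessor of `s ≤ t` is `s/μ < t`. -/
theorem RC.good (h : RC k μ r V P) {t : ℝ} (hX : ∀ s, 0 < s → s < t → 0 < (V s).1) :
    ∀ s, 0 < s → s ≤ t → 0 ≤ (V s).1 ∧ 0 < (V s).2 ∧ Dm k μ (RR (V s)) ∧
      HasDerivAt (fun s => (V s).1) (P s).1 s ∧ HasDerivAt (fun s => (V s).2) (P s).2 s := by
  have hμ0 : 0 < μ := lt_trans one_pos h.hμ
  have hk0 : 0 < k := lt_of_lt_of_le one_pos h.hk
  have key : ∀ n : ℕ, ∀ s, 0 < s → s ≤ t → s < r * μ ^ n →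
      0 ≤ (V s).1 ∧ 0 < (V s).2 ∧ Dm k μ (RR (V s)) ∧
      HasDerivAt (fun s => (V s).1) (P s).1 s ∧ HasDerivAt (fun s => (V s).2) (P s).2 s := by
    intro n
    induction n with
    | zero =>
      intro s hs hst hsr
      rw [pow_zero, mul_one] at hsr
      exact ⟨(h.pos1 s hs hsr).le, h.pos2 s hs hsr, h.dom s hs hsr, h.der1 s hs hsr,
        h.der2 s hs hsr⟩
    | succ n ih =>
      intro s hs hst hsr
      have hs' : 0 < s / μ := by positivity
      have hlt : s / μ < s := div_lt_self hs h.hμ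
      have hsr' : s / μ < r * μ ^ n := by
        rw [div_lt_iff₀ hμ0]
        calc s < r * μ ^ (n + 1) := hsr
          _ = r * μ ^ n * μ := by ring
      obtain ⟨g1, g2, g3, g4, g5⟩ := ih (s / μ) hs' (hlt.le.trans hst) hsr'
      have hmul : μ * (s / μ) = s := by field_simp
      obtain ⟨d1, d2⟩ := RC_deriv_step h hs' g3 g4 g5
      have hV := h.step (s / μ) hs'
      rw [hmul] at d1 d2 hV
      have hX0 : 0 ≤ (V s).1 := by
        rcases hst.lt_or_eq with hlt' | heq
        · exact (hX s hs hlt').le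
        · have hc : Tendsto (fun u => (V u).1) (𝓝[<] s) (𝓝 (V s).1) :=
            d1.continuousAt.tendsto.mono_left nhdsWithin_le_nhds
          refine ge_of_tendsto hc ?_
          have h0 : ∀ᶠ u in 𝓝[<] s, 0 < u := by
            apply eventually_nhdsWithin_of_eventually_nhds
            exact lt_mem_nhds hs
          filter_upwards [h0, self_mem_nhdsWithin] with u hu hus
          have hus : u < s := hus
          exact (hX u hu (lt_of_lt_of_le hus hst)).le
      have hY0 : 0 < (V s).2 := by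
        rw [hV]
        exact mul_pos (lam_pos g3) g2
      refine ⟨hX0, hY0, ?_, d1, d2⟩
      rw [hV] at hX0 ⊢
      exact Dm_TT hk0 h.hμ g3 g2 hX0
  intro s hs hst
  obtain ⟨n, hn⟩ := pow_unbounded_of_one_lt (s / r) h.hμ
  refine key n s hs hst ?_
  rw [div_lt_iff₀ h.hr] at hn
  linarith

/-- one step beyond: differentiability at `μ t` for `t` in the domain -/
theorem RC.deriv_step (h : RC k μ r V P) {t : ℝ} (ht : 0 < t) (hd : Dm k μ (RR (V t)))
    (h1 : HasDerivAt (fun s => (V s).1) (P t).1 t)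
    (h2 : HasDerivAt (fun s => (V s).2) (P t).2 t) :
    HasDerivAt (fun s => (V s).1) (P (μ * t)).1 (μ * t) ∧
    HasDerivAt (fun s => (V s).2) (P (μ * t)).2 (μ * t) :=
  RC_deriv_step h ht hd h1 h2

end EQK
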