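import Pool.Agent.Lib.MP_226de1_co.K.LineSys
import Pool.Agent.Lib.MP_226de1_co.K.NSreal
import Pool.Agent.Lib.MP_226de1_co.K.Shadow3
import Pool.Agent.Lib.MP_226de1_co.K.RC

/-! Near the end the lines of a body lie on the unstable curve. -/

set_option autoImplicit false

namespace EQK

open Set Filter Topology

variable {k μ r : ℝ} {V P : ℝ → ℝ × ℝ} {dn dp : Bool → ℝ → ℝ}

/-- near the end: `NS.shadow` with `NS_TT` applied to the curve `V` on `(0, r₀]`, `r₀ < r` small, and to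
the backward orbit `B j = Vx (s j) (q j)`, `s 0 = s`, `q 0 = q`, `s (j+1) = !s j`,
`q (j+1) = q j + dp (s j) (q j) ≥ q j + δ` (`TT_Vx'`), which tends to `(1,0)` and stays in the small box
for `q ≥ Q` by `Vx_tendsto` (for both values of `s`). -/
theorem LineSys.near (hL : LineSys k μ dn dp) (hR : RC k μ r V P) :
    ∃ Q : ℝ, 0 < Q ∧ ∀ s q, Q ≤ q → ∃ t, 0 < t ∧ t < r ∧ V t = Vx μ dp s q := by
  obtain ⟨ε, κ, L, θ, hNS, -⟩ := NS_TT hL.hk hL.hμ
  have hr := hR.hr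
  have hμ := hL.hμ
  -- the curve near the saddle
  have hlim : Tendsto V (𝓝[>] 0) (𝓝 (1, 0)) := hR.lim1.prodMk_nhds hR.lim2
  have hev : ∀ᶠ t in 𝓝[>] (0 : ℝ), Bx ε (V t) := by
    have h1 : ∀ᶠ x in 𝓝 (1 : ℝ), |x - 1| ≤ ε := by
      have : Metric.closedBall (1 : ℝ) ε ∈ 𝓝 (1 : ℝ) := Metric.closedBall_mem_nhds _ hNS.hε
      filter_upwards [this] with x hx
      rwa [Metric.mem_closedBall, Real.dist_eq] at hx
    have h2 : ∀ᶠ x in 𝓝 (0 : ℝ), |x| ≤ ε := by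
      have : Metric.closedBall (0 : ℝ) ε ∈ 𝓝 (0 : ℝ) := Metric.closedBall_mem_nhds _ hNS.hε
      filter_upwards [this] with x hx
      rwa [Metric.mem_closedBall, Real.dist_eq, sub_zero] at hx
    filter_upwards [hR.lim1.eventually h1, hR.lim2.eventually h2] with t ht1 ht2
    exact ⟨ht1, ht2⟩
  obtain ⟨r₁, hr₁, hr₁b⟩ := mem_nhdsGT_iff_exists_Ioo_subset.1 hev
  rw [mem_Ioi] at hr₁
  obtain ⟨r₀, hr₀, hr₀m⟩ : ∃ r₀, 0 < r₀ ∧ r₀ < min r r₁ := ⟨min r r₁ / 2, by positivity, by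
    have : 0 < min r r₁ := lt_min hr hr₁
    linarith⟩
  have hr₀r : r₀ < r := hr₀m.trans_le (min_le_left _ _)
  have hr₀1 : r₀ < r₁ := hr₀m.trans_le (min_le_right _ _)
  obtain ⟨ε', hε', H⟩ := hNS.shadow (μ := μ) (r := r₀) (W := V) hμ hr₀ (by
      intro t ht
      have h1 := (hR.der1 t ht.1 (ht.2.trans_lt hr₀r)).continuousAt
      have h2 := (hR.der2 t ht.1 (ht.2.trans_lt hr₀r)).continuousAt
      exact (h1.prodMk h2).continuousWithinAt) hlim (by
      intro t ht ht'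
      exact ⟨hr₁b ⟨ht, ht'.trans_lt hr₀1⟩, hR.pos2 t ht (ht'.trans_lt hr₀r)⟩) (fun t ht _ => hR.step t ht)
  -- neighbourhoods of the saddle
  have hU : ∀ U ∈ 𝓝 ((1 : ℝ), (0 : ℝ)), ∃ Q : ℝ, ∀ s q, Q ≤ q → Vx μ dp s q ∈ U := by
    intro U hU
    obtain ⟨Q1, hQ1⟩ := (Filter.eventually_atTop).1 ((hL.Vx_tendsto true).eventually hU)
    obtain ⟨Q2, hQ2⟩ := (Filter.eventually_atTop).1 ((hL.Vx_tendsto false).eventually hU)
    refine ⟨max Q1 Q2, fun s q hq => ?_⟩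
    cases s with
    | true => exact hQ1 q ((le_max_left _ _).trans hq)
    | false => exact hQ2 q ((le_max_right _ _).trans hq)
  obtain ⟨Q, hQ⟩ := hU {W | Bx ε' W} (by
    have : Metric.closedBall (1 : ℝ) ε' ×ˢ Metric.closedBall (0 : ℝ) ε' ∈ 𝓝 ((1 : ℝ), (0 : ℝ)) :=
      prod_mem_nhds (Metric.closedBall_mem_nhds _ hε') (Metric.closedBall_mem_nhds _ hε')
    filter_upwards [this] with W hW
    obtain ⟨h1, h2⟩ := hW
    rw [Metric.mem_closedBall, Real.dist_eq] at h1 h2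
    rw [sub_zero] at h2
    exact ⟨h1, h2⟩)
  obtain ⟨δ, hδ, hδb⟩ := hL.δpos
  refine ⟨max Q 1, lt_max_of_lt_right one_pos, fun s q hq => ?_⟩
  have hqQ : Q ≤ q := (le_max_left _ _).trans hq
  -- the backward orbit
  let f : Bool × ℝ → Bool × ℝ := fun x => (!x.1, x.2 + dp x.1 x.2)
  let a : ℕ → Bool × ℝ := fun j => f^[j] (s, q)
  have ha : ∀ j, a (j + 1) = (!(a j).1, (a j).2 + dp (a j).1 (a j).2) := fun j =>
    Function.iterate_succ_apply' f j (s, q)
  have hge : ∀ j : ℕ, q + j * δ ≤ (a j).2 := by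
    intro j
    induction j with
    | zero =>
      show q + ((0 : ℕ) : ℝ) * δ ≤ q
      simp
    | succ j ih =>
      rw [ha j]
      have h1 := (hδb (a j).1 (a j).2).2
      push_cast
      linarith
  have hgeQ : ∀ j : ℕ, Q ≤ (a j).2 := by
    intro j
    have h1 := hge j
    have h2 : 0 ≤ (j : ℝ) * δ := by positivity
    linarith
  obtain ⟨t, h1, h2, h3⟩ := H (fun j => Vx μ dp (a j).1 (a j).2) (by
      intro j
      simp only [ha j]
      exact hL.TT_Vx' _ _) (by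
      intro j
      refine ⟨hQ _ _ (hgeQ j), ?_⟩
      show 0 < (μ - 1) / dp (a j).1 (a j).2
      exact div_pos (by linarith) (hL.dp_pos _ _)) (by
      intro U hUm
      obtain ⟨Q', hQ'⟩ := hU U hUm
      obtain ⟨n, hn⟩ := exists_nat_ge ((Q' - q) / δ)
      rw [div_le_iff₀ hδ] at hn
      rw [mem_map, mem_atTop_sets]
      refine ⟨n, fun j hj => hQ' _ _ ?_⟩
      have h1 := hge j
      have h2 : (n : ℝ) * δ ≤ j * δ := mul_le_mul_of_nonneg_right (by exact_mod_cast hj) hδ.le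
      linarith)
  exact ⟨t, h1, h2.trans_lt hr₀r, h3⟩

end EQK
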