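import Pool.Agent.Lib.MP_226de1_co.K.LamC2

/-! Estimates for the complex step near the saddle, locally uniform in the parameters. -/

set_option autoImplicit false

namespace EQK

open Complex Set Filter Topology

/-- complex box around the saddle -/
def Bl (ε : ℝ) (V : ℂ × ℂ) : Prop := ‖V.1 - 1‖ ≤ ε ∧ ‖V.2‖ ≤ ε

private theorem Dm_one {k₀ μ₀ : ℝ} (hμ : 1 < μ₀) : Dm k₀ μ₀ 1 := by
  refine ⟨one_pos, ?_⟩
  rw [Real.one_rpow]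
  unfold cc
  have : 0 < μ₀ ^ k₀ := Real.rpow_pos_of_pos (by linarith) _
  linarith

private theorem bas_cont {k μ R : ℂ} (h : OK k μ R) :
    ContinuousAt (fun p : ℂ × ℂ × ℂ => bas p.1 p.2.1 p.2.2) (k, μ, R) := by
  unfold bas
  have h1 : ContinuousAt (fun p : ℂ × ℂ × ℂ => log p.2.1) (k, μ, R) := by
    have hc : ContinuousAt (fun p : ℂ × ℂ × ℂ => p.2.1) (k, μ, R) := by fun_prop
    exact hc.clog h.2.1
  have h2 : ContinuousAt (fun p : ℂ × ℂ × ℂ => log p.2.2) (k, μ, R) := by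
    have hc : ContinuousAt (fun p : ℂ × ℂ × ℂ => p.2.2) (k, μ, R) := by fun_prop
    exact hc.clog h.2.2.1
  have h3 : ContinuousAt (fun p : ℂ × ℂ × ℂ => p.1) (k, μ, R) := by fun_prop
  have h4 : ContinuousAt (fun p : ℂ × ℂ × ℂ => exp (p.1 * log p.2.1)) (k, μ, R) :=
    (h3.mul h1).cexp
  have h5 : ContinuousAt (fun p : ℂ × ℂ × ℂ => exp (-(p.1 / 2) * log p.2.2)) (k, μ, R) :=
    (((h3.div_const 2).neg).mul h2).cexp
  exact ((continuousAt_const.add h4).mul h5).sub continuousAt_const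

/-- continuity of `lamC` and of its `R`-derivative at `(k₀, μ₀, 1)`:  values `μ₀` and
`-(μ₀ + μ₀^(1-k₀))/2` (`bas = μ₀^k₀`).  So for given `η > 0` there is `ε` such that for parameters
within `ε` and `‖R - 1‖ ≤ 4ε`: `OK`, `‖lamC - μ₀‖ < η` and
`‖derivative + (μ₀ + μ₀^(1-k₀))/2‖ < η`. -/
theorem lamC_near {k₀ μ₀ : ℝ} (hk : 0 < k₀) (hμ : 1 < μ₀) {η : ℝ} (hη : 0 < η) :
    ∃ ε : ℝ, 0 < ε ∧ ε < 1 ∧ ∀ k μ R : ℂ, ‖k - k₀‖ ≤ ε → ‖μ - μ₀‖ ≤ ε → ‖R - 1‖ ≤ 4 * ε →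
      OK k μ R ∧ ‖lamC k μ R - μ₀‖ < η ∧ lamC k μ 1 = μ ∧
      ‖-(lamC k μ R * (bas k μ R + 1) / (2 * R * bas k μ R))
        - (((-(μ₀ + μ₀ ^ (1 - k₀)) / 2 : ℝ)) : ℂ)‖ < η := by
  have hμ0 : 0 < μ₀ := by linarith
  have hd := Dm_one (k₀ := k₀) hμ
  have hok : OK k₀ μ₀ (1 : ℂ) := by
    have := OK_ofReal hk hμ hd
    simpa using this
  have hb : bas k₀ μ₀ (1 : ℂ) = ((μ₀ ^ k₀ : ℝ) : ℂ) := by
    have := bas_ofReal (k := k₀) hμ (R := 1) one_pos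
    rw [Real.one_rpow] at this
    unfold cc at this
    rw [ofReal_one] at this
    rw [this]
    congr 1
    ring
  have hl : lamC k₀ μ₀ (1 : ℂ) = ((μ₀ : ℝ) : ℂ) := by
    have := lamC_ofReal (k := k₀) hμ hd
    rw [ofReal_one] at this
    rw [this]
    congr 1
    unfold lam cc
    rw [Real.one_rpow, mul_one, add_sub_cancel_left, ← Real.rpow_mul hμ0.le,
      mul_one_div_cancel hk.ne', Real.rpow_one]
  have hc := (lamC_contDiffAt hok).continuousAt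
  have hcb := bas_cont hok
  have hbne : bas k₀ μ₀ (1 : ℂ) ≠ 0 := slitPlane_ne_zero hok.2.2.2
  have hR : ContinuousAt (fun p : ℂ × ℂ × ℂ => p.2.2) ((k₀ : ℂ), (μ₀ : ℂ), (1 : ℂ)) := by
    fun_prop
  have hF : ContinuousAt (fun p : ℂ × ℂ × ℂ =>
      -(lamC p.1 p.2.1 p.2.2 * (bas p.1 p.2.1 p.2.2 + 1) / (2 * p.2.2 * bas p.1 p.2.1 p.2.2)))
      ((k₀ : ℂ), (μ₀ : ℂ), (1 : ℂ)) := by
    refine ContinuousAt.neg ?_
    refine ContinuousAt.div (hc.mul (hcb.add continuousAt_const))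
      ((continuousAt_const.mul hR).mul hcb) ?_
    simp only [mul_one]
    exact mul_ne_zero two_ne_zero hbne
  have hFv : -(lamC k₀ μ₀ (1 : ℂ) * (bas k₀ μ₀ (1 : ℂ) + 1) / (2 * (1 : ℂ) * bas k₀ μ₀ (1 : ℂ)))
      = (((-(μ₀ + μ₀ ^ (1 - k₀)) / 2 : ℝ)) : ℂ) := by
    have hp : 0 < μ₀ ^ k₀ := Real.rpow_pos_of_pos hμ0 _
    have h1k : μ₀ ^ (1 - k₀) = μ₀ / μ₀ ^ k₀ := by
      rw [Real.rpow_sub hμ0, Real.rpow_one]
    rw [hl, hb, h1k]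
    generalize μ₀ ^ k₀ = q at hp
    have hq : (q : ℂ) ≠ 0 := by exact_mod_cast hp.ne'
    push_cast
    field_simp
  have e1 : ∀ᶠ p : ℂ × ℂ × ℂ in 𝓝 ((k₀ : ℂ), (μ₀ : ℂ), (1 : ℂ)), OK p.1 p.2.1 p.2.2 :=
    OK_isOpen.mem_nhds hok
  have e2 : ∀ᶠ p : ℂ × ℂ × ℂ in 𝓝 ((k₀ : ℂ), (μ₀ : ℂ), (1 : ℂ)),
      ‖lamC p.1 p.2.1 p.2.2 - μ₀‖ < η := by
    have := Metric.tendsto_nhds.1 hc η hη
    filter_upwards [this] with p hp
    rw [dist_eq_norm] at hp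
    rwa [hl] at hp
  have e3 : ∀ᶠ p : ℂ × ℂ × ℂ in 𝓝 ((k₀ : ℂ), (μ₀ : ℂ), (1 : ℂ)),
      ‖-(lamC p.1 p.2.1 p.2.2 * (bas p.1 p.2.1 p.2.2 + 1) / (2 * p.2.2 * bas p.1 p.2.1 p.2.2))
        - (((-(μ₀ + μ₀ ^ (1 - k₀)) / 2 : ℝ)) : ℂ)‖ < η := by
    have := Metric.tendsto_nhds.1 hF η hη
    filter_upwards [this] with p hp
    rw [dist_eq_norm] at hp
    rwa [hFv] at hp
  have e4 : ∀ᶠ p : ℂ × ℂ × ℂ in 𝓝 ((k₀ : ℂ), (μ₀ : ℂ), (1 : ℂ)), lamC p.1 p.2.1 1 = p.2.1 := by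
    have ht : Tendsto (fun p : ℂ × ℂ × ℂ => (p.1, p.2.1)) (𝓝 ((k₀ : ℂ), (μ₀ : ℂ), (1 : ℂ)))
        (𝓝 ((k₀ : ℂ), (μ₀ : ℂ))) := by
      have : Continuous (fun p : ℂ × ℂ × ℂ => (p.1, p.2.1)) := by fun_prop
      exact this.tendsto ((k₀ : ℂ), (μ₀ : ℂ), (1 : ℂ))
    exact ht.eventually (lamC_one hk hμ)
  obtain ⟨δ, hδ, h⟩ := Metric.eventually_nhds_iff.1 (e1.and (e2.and (e3.and e4)))
  refine ⟨min (δ / 8) (1 / 2), lt_min (by positivity) (by norm_num),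
    (min_le_right _ _).trans_lt (by norm_num), ?_⟩
  intro k μ R h1 h2 h3
  have hm : min (δ / 8) (1 / 2) ≤ δ / 8 := min_le_left _ _
  have hdist : dist ((k, μ, R) : ℂ × ℂ × ℂ) ((k₀ : ℂ), (μ₀ : ℂ), (1 : ℂ)) < δ := by
    rw [Prod.dist_eq, Prod.dist_eq, dist_eq_norm, dist_eq_norm, dist_eq_norm]
    refine max_lt ?_ (max_lt ?_ ?_)
    · exact (h1.trans hm).trans_lt (by linarith)
    · exact (h2.trans hm).trans_lt (by linarith)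
    · refine h3.trans_lt ?_
      linarith
  obtain ⟨a1, a2, a3, a4⟩ := h hdist
  exact ⟨a1, a2, a4, a3⟩

end EQK
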