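import Pool.Agent.Lib.MP_226de1_co.K.LocEst1

/-! Estimates for the complex step near the saddle. -/

set_option autoImplicit false

namespace EQK

open Complex Set Filter Topology

private theorem RRc_near {ε : ℝ} (hε : ε < 1) {V : ℂ × ℂ} (h : Bl ε V) :
    ‖RRc V - 1‖ ≤ 4 * ε := by
  obtain ⟨h1, h2⟩ := h
  have hε0 : 0 ≤ ε := (norm_nonneg _).trans h1
  have e : RRc V - 1 = (V.1 - 1) * ((V.1 - 1) + 2) + V.2 ^ 2 := by
    unfold RRc; ring
  rw [e]
  have h3 : ‖(V.1 - 1) + 2‖ ≤ 3 := by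
    refine (norm_add_le _ _).trans ?_
    rw [RCLike.norm_ofNat]
    linarith
  have h4 : ‖(V.1 - 1) * ((V.1 - 1) + 2)‖ ≤ ε * 3 := by
    rw [norm_mul]
    exact mul_le_mul h1 h3 (norm_nonneg _) hε0
  have h5 : ‖V.2 ^ 2‖ ≤ ε := by
    rw [norm_pow]
    nlinarith [norm_nonneg V.2]
  linarith [norm_add_le ((V.1 - 1) * ((V.1 - 1) + 2)) (V.2 ^ 2)]

private theorem RRc_sub_le {ε : ℝ} (hε : ε < 1) {V W : ℂ × ℂ} (hV : Bl ε V) (hW : Bl ε W) :
    ‖RRc V - RRc W‖ ≤ 4 * ‖V.1 - W.1‖ + (‖V.2‖ + ‖W.2‖) * ‖V.2 - W.2‖ := by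
  have e : RRc V - RRc W = (V.1 - W.1) * ((V.1 - 1) + (W.1 - 1) + 2)
      + (V.2 + W.2) * (V.2 - W.2) := by
    unfold RRc; ring
  have hV1 := hV.1
  have hW1 := hW.1
  have h1 : ‖(V.1 - 1) + (W.1 - 1) + 2‖ ≤ 4 := by
    refine (norm_add_le _ _).trans ?_
    have := norm_add_le (V.1 - 1) (W.1 - 1)
    rw [RCLike.norm_ofNat]
    linarith
  rw [e]
  refine (norm_add_le _ _).trans (add_le_add ?_ ?_)
  · rw [norm_mul, mul_comm]
    exact mul_le_mul_of_nonneg_right h1 (norm_nonneg _)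
  · rw [norm_mul]
    exact mul_le_mul_of_nonneg_right (norm_add_le _ _) (norm_nonneg _)

/-- The estimates.  `‖RRc V - 1‖ ≤ 4ε` on the box (`ε < 1`); discs are convex, so `lamC` is Lipschitz
in `R` (`Convex.norm_image_sub_le_of_norm_hasDerivWithin_le`), with
`‖RRc V - RRc W‖ ≤ 4 ‖V.1-W.1‖ + (‖V.2‖+‖W.2‖) ‖V.2-W.2‖`.  For the last estimate change first `V.1` at
fixed `V.2`: `d/dX (lamC (X²+Y²) X) = lamC + 2X² lamC'` is near
`μ₀ - (μ₀ + μ₀^(1-k₀)) = -μ₀^(1-k₀)`, of modulus `< κ`. -/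
theorem loc_est {k₀ μ₀ κ m₁ m₂ : ℝ} (hk : 0 < k₀) (hμ : 1 < μ₀) (hκ : μ₀ ^ (1 - k₀) < κ)
    (hm₁ : m₁ < μ₀) (hm₂ : μ₀ < m₂) : ∃ ε L : ℝ, 0 < ε ∧ ε < 1 ∧ 0 < L ∧
    ∀ k μ : ℂ, ‖k - k₀‖ ≤ ε → ‖μ - μ₀‖ ≤ ε →
      (m₁ < ‖μ‖ ∧ ‖μ‖ < m₂ ∧ lamC k μ 1 = μ) ∧
      ∀ V W : ℂ × ℂ, Bl ε V → Bl ε W →
        OK k μ (RRc V) ∧ (m₁ < ‖lamC k μ (RRc V)‖ ∧ ‖lamC k μ (RRc V)‖ < m₂) ∧
        ‖lamC k μ (RRc V) - lamC k μ (RRc W)‖ ≤
          L * (‖V.1 - W.1‖ + (‖V.2‖ + ‖W.2‖) * ‖V.2 - W.2‖) ∧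
        ‖(TC k μ V).1 - (TC k μ W).1‖ ≤
          κ * ‖V.1 - W.1‖ + L * ((‖V.2‖ + ‖W.2‖) * ‖V.2 - W.2‖) := by
  have hμ0 : 0 < μ₀ := by linarith
  set c₁ : ℝ := μ₀ ^ (1 - k₀) with hc₁
  have hc₁0 : 0 < c₁ := Real.rpow_pos_of_pos hμ0 _
  set D₀ : ℝ := -(μ₀ + c₁) / 2 with hD₀
  set M : ℝ := (μ₀ + c₁) / 2 + 1 with hM
  have hM0 : 1 < M := by rw [hM]; linarith
  -- η
  set η : ℝ := min (min ((μ₀ - m₁) / 2) ((m₂ - μ₀) / 2)) (min ((κ - c₁) / 6) 1) with hη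
  have hη0 : 0 < η := by
    refine lt_min (lt_min ?_ ?_) (lt_min ?_ one_pos) <;> linarith
  have hη1 : η ≤ (μ₀ - m₁) / 2 := (min_le_left _ _).trans (min_le_left _ _)
  have hη2 : η ≤ (m₂ - μ₀) / 2 := (min_le_left _ _).trans (min_le_right _ _)
  have hη3 : η ≤ (κ - c₁) / 6 := (min_le_right _ _).trans (min_le_left _ _)
  have hη4 : η ≤ 1 := (min_le_right _ _).trans (min_le_right _ _)
  obtain ⟨ε₁, hε₁, hε₁1, hnear⟩ := lamC_near hk hμ hη0
  set ε : ℝ := min ε₁ (min η ((κ - c₁) / (12 * M))) with hε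
  have hε0 : 0 < ε := by
    refine lt_min hε₁ (lt_min hη0 ?_)
    apply div_pos <;> linarith
  have hεa : ε ≤ ε₁ := min_le_left _ _
  have hεb : ε ≤ η := (min_le_right _ _).trans (min_le_left _ _)
  have hεc : ε ≤ (κ - c₁) / (12 * M) := (min_le_right _ _).trans (min_le_right _ _)
  have hε1 : ε < 1 := hεa.trans_lt hε₁1
  have hεM : ε * M ≤ (κ - c₁) / 12 := by
    have h := mul_le_mul_of_nonneg_right hεc (by linarith : (0 : ℝ) ≤ M)
    have h2 : (κ - c₁) / (12 * M) * M = (κ - c₁) / 12 := by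
      have : M ≠ 0 := by linarith
      field_simp
    rwa [h2] at h
  refine ⟨ε, 4 * M, hε0, hε1, by linarith, ?_⟩
  intro k μ hk' hμ'
  have key : ∀ R : ℂ, ‖R - 1‖ ≤ 4 * ε → OK k μ R ∧ ‖lamC k μ R - μ₀‖ < η ∧ lamC k μ 1 = μ ∧
      ‖-(lamC k μ R * (bas k μ R + 1) / (2 * R * bas k μ R)) - (D₀ : ℂ)‖ < η := by
    intro R hR
    exact hnear k μ R (hk'.trans hεa) (hμ'.trans hεa) (hR.trans (by linarith))
  -- bounds for numbers near `μ₀`
  have nb : ∀ z : ℂ, ‖z - μ₀‖ ≤ η → m₁ < ‖z‖ ∧ ‖z‖ < m₂ := by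
    intro z hz
    have hn : ‖(μ₀ : ℂ)‖ = μ₀ := by
      rw [norm_real, Real.norm_of_nonneg hμ0.le]
    constructor
    · have : ‖(μ₀ : ℂ)‖ ≤ ‖z - μ₀‖ + ‖z‖ := by
        have h := norm_sub_le z (z - μ₀)
        rw [sub_sub_cancel] at h
        linarith
      rw [hn] at this
      linarith
    · have : ‖z‖ ≤ ‖z - μ₀‖ + ‖(μ₀ : ℂ)‖ := by
        have h := norm_add_le (z - μ₀) (μ₀ : ℂ)
        rwa [sub_add_cancel] at h
      rw [hn] at this
      linarith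
  have hDn : ∀ R : ℂ, ‖R - 1‖ ≤ 4 * ε →
      ‖-(lamC k μ R * (bas k μ R + 1) / (2 * R * bas k μ R))‖ ≤ M := by
    intro R hR
    have h1 := (key R hR).2.2.2
    have h2 : ‖(D₀ : ℂ)‖ = (μ₀ + c₁) / 2 := by
      rw [norm_real, Real.norm_eq_abs, hD₀, abs_of_neg (by linarith)]
      ring
    have h3 := norm_add_le (-(lamC k μ R * (bas k μ R + 1) / (2 * R * bas k μ R)) - (D₀ : ℂ))
      (D₀ : ℂ)
    rw [sub_add_cancel, h2] at h3
    rw [hM]
    linarith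
  have hball : ∀ R : ℂ, R ∈ Metric.closedBall (1 : ℂ) (4 * ε) ↔ ‖R - 1‖ ≤ 4 * ε := by
    intro R
    rw [Metric.mem_closedBall, dist_eq_norm]
  have hLip : ∀ R R' : ℂ, ‖R - 1‖ ≤ 4 * ε → ‖R' - 1‖ ≤ 4 * ε →
      ‖lamC k μ R - lamC k μ R'‖ ≤ M * ‖R - R'‖ := by
    intro R R' hR hR'
    refine Convex.norm_image_sub_le_of_norm_hasDerivWithin_le (𝕜 := ℂ)
      (s := Metric.closedBall (1 : ℂ) (4 * ε))
      (f' := fun R => -(lamC k μ R * (bas k μ R + 1) / (2 * R * bas k μ R)))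
      (fun x hx => ((lamC_hasDerivAt (key x ((hball x).1 hx)).1).hasDerivWithinAt))
      (fun x hx => hDn x ((hball x).1 hx)) (convex_closedBall _ _)
      ((hball R').2 hR') ((hball R).2 hR)
  refine ⟨?_, ?_⟩
  · obtain ⟨a, b⟩ := nb μ (hμ'.trans hεb)
    exact ⟨a, b, (key 1 (by simp only [sub_self, norm_zero]; linarith)).2.2.1⟩
  · intro V W hV hW
    have hRV := RRc_near hε1 hV
    have hRW := RRc_near hε1 hW
    have h0 := RRc_sub_le hε1 hV hW
    have hn1 : 0 ≤ ‖V.1 - W.1‖ := norm_nonneg _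
    have hn2 : 0 ≤ (‖V.2‖ + ‖W.2‖) * ‖V.2 - W.2‖ := by positivity
    refine ⟨(key _ hRV).1, nb _ (key _ hRV).2.1.le, ?_, ?_⟩
    · refine (hLip _ _ hRV hRW).trans ?_
      have := mul_le_mul_of_nonneg_left h0 (by linarith : (0 : ℝ) ≤ M)
      refine this.trans ?_
      nlinarith
    · -- intermediate point
      have hU : Bl ε (W.1, V.2) := ⟨hW.1, hV.2⟩
      have hRU := RRc_near hε1 hU
      -- first part
      have p1 : ‖lamC k μ (RRc V) * V.1 - lamC k μ (RRc (W.1, V.2)) * W.1‖ ≤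
          κ * ‖V.1 - W.1‖ := by
        set g : ℂ → ℂ := fun X => lamC k μ (X ^ 2 + V.2 ^ 2) * X with hg
        have hball1 : ∀ X : ℂ, X ∈ Metric.closedBall (1 : ℂ) ε ↔ ‖X - 1‖ ≤ ε := by
          intro X
          rw [Metric.mem_closedBall, dist_eq_norm]
        have hgV : lamC k μ (RRc V) * V.1 = g V.1 := rfl
        have hgW : lamC k μ (RRc (W.1, V.2)) * W.1 = g W.1 := rfl
        rw [hgV, hgW]
        refine Convex.norm_image_sub_le_of_norm_hasDerivWithin_le (𝕜 := ℂ)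
          (s := Metric.closedBall (1 : ℂ) ε)
          (f' := fun X => -(lamC k μ (X ^ 2 + V.2 ^ 2) * (bas k μ (X ^ 2 + V.2 ^ 2) + 1)
            / (2 * (X ^ 2 + V.2 ^ 2) * bas k μ (X ^ 2 + V.2 ^ 2))) * (2 * X) * X
              + lamC k μ (X ^ 2 + V.2 ^ 2) * 1)
          ?_ ?_ (convex_closedBall _ _)
          ((hball1 W.1).2 hW.1) ((hball1 V.1).2 hV.1)
        · intro X hX
          have hX' : Bl ε (X, V.2) := ⟨(hball1 X).1 hX, hV.2⟩
          have hR := RRc_near hε1 hX'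
          have h1 : HasDerivAt (fun X : ℂ => X ^ 2 + V.2 ^ 2) (2 * X) X := by
            have := (hasDerivAt_pow 2 X).add_const (V.2 ^ 2)
            simpa using this
          have h2 := (lamC_hasDerivAt (key _ hR).1).comp X h1
          have h3 := h2.mul (hasDerivAt_id X)
          exact h3.hasDerivWithinAt
        · intro X hX
          have hX' : Bl ε (X, V.2) := ⟨(hball1 X).1 hX, hV.2⟩
          have hR := RRc_near hε1 hX'
          have hkey := key _ hR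
          have hDM := hDn _ hR
          have hRR : RRc (X, V.2) = X ^ 2 + V.2 ^ 2 := rfl
          rw [hRR] at hkey hDM
          obtain ⟨-, a2, -, a4⟩ := hkey
          set lm : ℂ := lamC k μ (X ^ 2 + V.2 ^ 2) with hlm
          set D : ℂ := -(lm * (bas k μ (X ^ 2 + V.2 ^ 2) + 1)
            / (2 * (X ^ 2 + V.2 ^ 2) * bas k μ (X ^ 2 + V.2 ^ 2))) with hD
          have e : D * (2 * X) * X + lm * 1 = (-(c₁ : ℂ)) + ((lm - μ₀) + 2 * (D - D₀)
              + 2 * ((X - 1) * ((X - 1) + 2)) * D) := by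
            have : (D₀ : ℂ) = -(μ₀ + c₁) / 2 := by rw [hD₀]; push_cast; ring
            rw [this]
            ring
          change ‖D * (2 * X) * X + lm * 1‖ ≤ κ
          rw [e]
          have hX1 : ‖X - 1‖ ≤ ε := hX'.1
          have b1 : ‖-(c₁ : ℂ)‖ = c₁ := by
            rw [norm_neg, norm_real, Real.norm_of_nonneg hc₁0.le]
          have b2 : ‖2 * (D - D₀)‖ ≤ 2 * η := by
            rw [norm_mul, RCLike.norm_ofNat]
            linarith
          have b3 : ‖(X - 1) + 2‖ ≤ 3 := by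
            refine (norm_add_le _ _).trans ?_
            rw [RCLike.norm_ofNat]
            linarith
          have b4 : ‖2 * ((X - 1) * ((X - 1) + 2)) * D‖ ≤ 6 * (ε * M) := by
            rw [norm_mul, norm_mul, norm_mul, RCLike.norm_ofNat]
            have c1 : ‖X - 1‖ * ‖(X - 1) + 2‖ ≤ ε * 3 :=
              mul_le_mul hX1 b3 (norm_nonneg _) hε0.le
            have c2 : (‖X - 1‖ * ‖(X - 1) + 2‖) * ‖D‖ ≤ (ε * 3) * M :=
              mul_le_mul c1 hDM (norm_nonneg _) (by positivity)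
            nlinarith
          have n1 := norm_add_le (-(c₁ : ℂ)) ((lm - μ₀) + 2 * (D - D₀)
              + 2 * ((X - 1) * ((X - 1) + 2)) * D)
          have n2 := norm_add_le ((lm - μ₀) + 2 * (D - D₀))
            (2 * ((X - 1) * ((X - 1) + 2)) * D)
          have n3 := norm_add_le (lm - μ₀) (2 * (D - D₀))
          linarith
      -- second part
      have p2 : ‖lamC k μ (RRc (W.1, V.2)) * W.1 - lamC k μ (RRc W) * W.1‖ ≤
          4 * M * ((‖V.2‖ + ‖W.2‖) * ‖V.2 - W.2‖) := by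
        rw [← sub_mul, norm_mul]
        have q1 := hLip _ _ hRU hRW
        have q2 := RRc_sub_le hε1 hU hW
        simp only [sub_self, norm_zero, mul_zero, zero_add] at q2
        have q3 : ‖W.1‖ ≤ 2 := by
          have := norm_add_le (W.1 - 1) 1
          rw [sub_add_cancel, norm_one] at this
          have := hW.1
          linarith
        have q4 : ‖lamC k μ (RRc (W.1, V.2)) - lamC k μ (RRc W)‖ ≤
            M * ((‖V.2‖ + ‖W.2‖) * ‖V.2 - W.2‖) :=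
          q1.trans (mul_le_mul_of_nonneg_left q2 (by linarith))
        have q5 := mul_le_mul q4 q3 (norm_nonneg _) (by positivity)
        refine q5.trans ?_
        have : 0 ≤ M * ((‖V.2‖ + ‖W.2‖) * ‖V.2 - W.2‖) := by positivity
        linarith
      have e : (TC k μ V).1 - (TC k μ W).1 =
          (lamC k μ (RRc V) * V.1 - lamC k μ (RRc (W.1, V.2)) * W.1)
          + (lamC k μ (RRc (W.1, V.2)) * W.1 - lamC k μ (RRc W) * W.1) := by
        unfold TC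
        ring
      rw [e]
      exact (norm_add_le _ _).trans (add_le_add p1 p2)

end EQK
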