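import Pool.Agent.Lib.MP_226de1_co.K.RC

/-! The monotonicity lemma. -/

set_option autoImplicit false

namespace EQK

open Set Filter Topology

variable {k μ r : ℝ} {V P : ℝ → ℝ × ℝ}

/-- strict cone step along the curve: if the cone condition holds at `s/μ`, `X(s) ≥ 0` and
`R(s/μ) ≤ R(s)`, then `1 < lam (R (s/μ))` (as `lam² R(s/μ) = R(s) + 2(μ-1)X(s) + (μ-1)²`, `RR_TT`)
and `rho > 0`, `Cone` at `s` (`cone_step`, `Cone.smul`, `RC.step`, `RC.stepP`). -/
theorem RC.cone_next (h : RC k μ r V P) {s : ℝ} (hs : 0 < s) (hX0 : 0 < (V (s / μ)).1)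
    (hY : 0 < (V (s / μ)).2) (hd : Dm k μ (RR (V (s / μ)))) (hX : 0 ≤ (V s).1)
    (hR : RR (V (s / μ)) ≤ RR (V s) + (μ - 1) ^ 2) (hc : Cone μ (V (s / μ)) (P (s / μ))) :
    0 < rho (V s) (P s) ∧ Cone μ (V s) (P s) := by
  have hμ := h.hμ
  have hμ0 : 0 < μ := by linarith
  have hs' : 0 < s / μ := div_pos hs hμ0
  have hsμ : μ * (s / μ) = s := by field_simp
  have hV : V s = TT k μ (V (s / μ)) := by
    have := h.step (s / μ) hs'
    rwa [hsμ] at this
  have hP : P s = ((DT k μ (V (s / μ)) (P (s / μ))).1 / μ,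
      (DT k μ (V (s / μ)) (P (s / μ))).2 / μ) := by
    have := h.stepP (s / μ) hs'
    rwa [hsμ] at this
  have hlaw := RR_TT k μ (V (s / μ))
  rw [← hV] at hlaw
  have hl : 1 ≤ lam k μ (RR (V (s / μ))) := by
    apply one_le_lam hd
    rw [← hlaw]
    nlinarith [mul_nonneg (by linarith : (0:ℝ) ≤ μ - 1) hX]
  have hX' : 0 ≤ (TT k μ (V (s / μ))).1 := by rw [← hV]; exact hX
  obtain ⟨h1, h2⟩ := cone_step h.hk hμ hX0 hY hd hl hX' hc
  refine ⟨?_, ?_⟩
  · rw [hP, rho_div, hV]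
    exact div_pos h1 hμ0
  · rw [hP, hV]
    exact h2.smul hμ0

private theorem hasDerivAt_RR {V P : ℝ → ℝ × ℝ} {s : ℝ}
    (h1 : HasDerivAt (fun s => (V s).1) (P s).1 s)
    (h2 : HasDerivAt (fun s => (V s).2) (P s).2 s) :
    HasDerivAt (fun s => RR (V s)) (2 * rho (V s) (P s)) s := by
  have := (h1.pow 2).add (h2.pow 2)
  refine (this.congr_deriv ?_).congr_of_eventuallyEq (Eventually.of_forall fun x => ?_)
  · simp only [rho]
    push_cast
    ring
  · simp [RR]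

private theorem RR_mono_aux (h : RC k μ r V P) {t : ℝ} (hX : ∀ s, 0 < s → s < t → 0 < (V s).1)
    {x : ℝ} (hx : x ≤ t) (hc : ∀ y, 0 < y → y < x → Cone μ (V y) (P y)) :
    MonotoneOn (fun s => RR (V s)) (Ioc 0 x) := by
  have hg := h.good hX
  have hder : ∀ y, 0 < y → y ≤ t → HasDerivAt (fun s => RR (V s)) (2 * rho (V y) (P y)) y := by
    intro y hy hyt
    obtain ⟨_, _, _, h1, h2⟩ := hg y hy hyt
    exact hasDerivAt_RR h1 h2
  apply monotoneOn_of_deriv_nonneg (convex_Ioc 0 x)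
  · intro y hy
    exact (hder y hy.1 (hy.2.trans hx)).continuousAt.continuousWithinAt
  · intro y hy
    rw [interior_Ioc] at hy
    exact (hder y hy.1 (hy.2.le.trans hx)).differentiableAt.differentiableWithinAt
  · intro y hy
    rw [interior_Ioc] at hy
    rw [(hder y hy.1 (hy.2.le.trans hx)).deriv]
    have := (hc y hy.1 hy.2).1
    linarith

/-- Monotonicity lemma: if `X > 0` on `(0,t)` then the cone condition holds on `(0,t]` and `RR ∘ V` is
monotone there.  Continuous induction (`IsClosed.Icc_subset_of_forall_exists_gt` on `[r/2, t]`) for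
the statement `∀ y ∈ (0,x], Cone μ (V y) (P y)`: if it holds on `(0,x]` then `RR ∘ V` (derivative
`2 rho ≥ 0`) is monotone on `(0,x]`, so `R(x/μ) ≤ R(x) < R(x) + (μ-1)²`; by continuity
`R(y/μ) ≤ R(y) + (μ-1)²` for `y` slightly larger than `x`, and `RC.cone_next` applies (`y/μ < x`).
The set of `x` with the statement is closed: at a limit `x` of such points use again
`R(x/μ) ≤ R(x)` (continuity) and `RC.cone_next`. -/
theorem RC.cone_all (h : RC k μ r V P) {t : ℝ} (hX : ∀ s, 0 < s → s < t → 0 < (V s).1) :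
    ∀ s, 0 < s → s ≤ t → Cone μ (V s) (P s) := by
  have hμ := h.hμ
  have hμ0 : 0 < μ := by linarith
  have hr := h.hr
  by_contra hcon
  push_neg at hcon
  obtain ⟨s0, hs0, hs0t, hs0c⟩ := hcon
  set B : Set ℝ := {s | 0 < s ∧ s ≤ t ∧ ¬ Cone μ (V s) (P s)} with hB
  have hs0B : s0 ∈ B := ⟨hs0, hs0t, hs0c⟩
  have hBr : ∀ s ∈ B, r ≤ s := by
    intro s hs
    by_contra hlt
    exact hs.2.2 (h.cone s hs.1 (not_le.mp hlt))
  have hbdd : BddBelow B := ⟨r, hBr⟩
  set x0 := sInf B with hx0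
  have hx0r : r ≤ x0 := le_csInf ⟨s0, hs0B⟩ hBr
  have hx0pos : 0 < x0 := lt_of_lt_of_le hr hx0r
  have hx0t : x0 ≤ t := (csInf_le hbdd hs0B).trans hs0t
  have hbelow : ∀ y, 0 < y → y < x0 → Cone μ (V y) (P y) := by
    intro y hy hyx
    by_contra hn
    exact absurd (csInf_le hbdd (show y ∈ B from ⟨hy, (hyx.le.trans hx0t), hn⟩)) (not_le.mpr hyx)
  have hmono := RR_mono_aux h hX hx0t hbelow
  have hdiv : x0 / μ < x0 := div_lt_self hx0pos hμ
  have hdivpos : 0 < x0 / μ := div_pos hx0pos hμ0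
  have hR0 : RR (V (x0 / μ)) ≤ RR (V x0) :=
    hmono ⟨hdivpos, hdiv.le⟩ ⟨hx0pos, le_rfl⟩ hdiv.le
  have hg := h.good hX
  have hder : ∀ y, 0 < y → y ≤ t → HasDerivAt (fun s => RR (V s)) (2 * rho (V y) (P y)) y := by
    intro y hy hyt
    obtain ⟨_, _, _, h1, h2⟩ := hg y hy hyt
    exact hasDerivAt_RR h1 h2
  have hc1 : ContinuousAt (fun s => RR (V s)) x0 := (hder x0 hx0pos hx0t).continuousAt
  have hc2 : ContinuousAt (fun s => RR (V (s / μ))) x0 := by
    have h2 : ContinuousAt (fun s => RR (V s)) (x0 / μ) :=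
      (hder (x0 / μ) hdivpos (hdiv.le.trans hx0t)).continuousAt
    exact ContinuousAt.comp (f := fun s : ℝ => s / μ) (g := fun s => RR (V s)) h2
      (continuousAt_id.div_const μ)
  have hc3 : ContinuousAt (fun s => RR (V s) + (μ - 1) ^ 2 - RR (V (s / μ))) x0 :=
    (hc1.add continuousAt_const).sub hc2
  have hpos : 0 < RR (V x0) + (μ - 1) ^ 2 - RR (V (x0 / μ)) := by
    have : 0 < (μ - 1) ^ 2 := by
      have : 0 < μ - 1 := by linarith
      positivity
    linarith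
  have hev : ∀ᶠ y in 𝓝 x0, 0 < RR (V y) + (μ - 1) ^ 2 - RR (V (y / μ)) :=
    hc3.eventually (lt_mem_nhds hpos)
  have hev2 : ∀ᶠ y in 𝓝 x0, y / μ < x0 := by
    have : ContinuousAt (fun y : ℝ => y / μ) x0 := continuousAt_id.div_const μ
    exact this.eventually (gt_mem_nhds hdiv)
  obtain ⟨δ, hδ, hδB⟩ := Metric.eventually_nhds_iff.mp (hev.and hev2)
  have hlow : x0 + δ ≤ sInf B := by
    apply le_csInf ⟨s0, hs0B⟩
    intro s hs
    by_contra hlt
    rw [not_le] at hlt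
    have hsx : x0 ≤ s := csInf_le hbdd hs
    have hdist : dist s x0 < δ := by
      rw [Real.dist_eq, abs_of_nonneg (by linarith)]
      linarith
    obtain ⟨e1, e2⟩ := hδB hdist
    have hspos : 0 < s := hs.1
    have hsd : 0 < s / μ := div_pos hspos hμ0
    obtain ⟨_, g2, g3, _, _⟩ := hg (s / μ) hsd (e2.le.trans hx0t)
    obtain ⟨k1, _, _, _, _⟩ := hg s hspos hs.2.1
    have hXs : 0 < (V (s / μ)).1 := hX _ hsd (lt_of_lt_of_le e2 hx0t)
    exact hs.2.2 (h.cone_next hspos hXs g2 g3 k1 (by linarith) (hbelow _ hsd e2)).2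
  rw [← hx0] at hlow
  linarith

theorem RC.RR_mono (h : RC k μ r V P) {t : ℝ} (hX : ∀ s, 0 < s → s < t → 0 < (V s).1) :
    ∀ s s', 0 < s → s ≤ s' → s' ≤ t → RR (V s) ≤ RR (V s') := by
  intro s s' hs hss hst
  have hmono := RR_mono_aux h hX hst
    (fun y hy hyx => h.cone_all hX y hy (hyx.le.trans hst))
  exact hmono ⟨hs, hss⟩ ⟨lt_of_lt_of_le hs hss, le_rfl⟩ hss

end EQK
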