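import Pool.Agent.Lib.MP_226de1_co.K.Vr

/-! Dependence of the curve on the parameters. -/

set_option autoImplicit false

namespace EQK

open Set Filter Topology

private theorem Par1_RRc : ContDiff ℂ 1 RRc := by
  have h : RRc = fun V : ℂ × ℂ => V.1 ^ 2 + V.2 ^ 2 := by
    funext V
    rfl
  rw [h]
  exact (contDiff_fst.pow 2).add (contDiff_snd.pow 2)

/-- the complex step is `C¹` in the parameters and the point -/
private theorem Par1_step {F : ℂ × ℂ × ℂ → ℂ × ℂ} {x : ℂ × ℂ × ℂ} (hF : ContDiffAt ℂ 1 F x)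
    (h : OK x.1 x.2.1 (RRc (F x))) :
    ContDiffAt ℂ 1 (fun p : ℂ × ℂ × ℂ => TC p.1 p.2.1 (F p)) x := by
  have h1 : ContDiffAt ℂ 1 (fun p : ℂ × ℂ × ℂ => p.1) x := contDiffAt_fst
  have h2 : ContDiffAt ℂ 1 (fun p : ℂ × ℂ × ℂ => p.2.1) x :=
    contDiffAt_fst.comp _ contDiffAt_snd
  have h3 : ContDiffAt ℂ 1 (fun p : ℂ × ℂ × ℂ => RRc (F p)) x :=
    ContDiffAt.comp x (g := RRc) Par1_RRc.contDiffAt hF
  have h4 : ContDiffAt ℂ 1 (fun p : ℂ × ℂ × ℂ => (p.1, p.2.1, RRc (F p))) x :=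
    h1.prodMk (h2.prodMk h3)
  have h5 : ContDiffAt ℂ 1 (fun p : ℂ × ℂ × ℂ => lamC p.1 p.2.1 (RRc (F p))) x :=
    ContDiffAt.comp x (g := fun p : ℂ × ℂ × ℂ => lamC p.1 p.2.1 p.2.2)
      (f := fun p : ℂ × ℂ × ℂ => (p.1, p.2.1, RRc (F p))) (lamC_contDiffAt h) h4
  have h6 : ContDiffAt ℂ 1 (fun p : ℂ × ℂ × ℂ => (F p).1) x :=
    ContDiffAt.comp x (g := fun V : ℂ × ℂ => V.1) contDiffAt_fst hF
  have h7 : ContDiffAt ℂ 1 (fun p : ℂ × ℂ × ℂ => (F p).2) x :=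
    ContDiffAt.comp x (g := fun V : ℂ × ℂ => V.2) contDiffAt_snd hF
  have h8 : ContDiffAt ℂ 1 (fun p : ℂ × ℂ × ℂ => (lamC p.1 p.2.1 (RRc (F p)) * (F p).1
      - (p.2.1 - 1), lamC p.1 p.2.1 (RRc (F p)) * (F p).2)) x :=
    ((h5.mul h6).sub (h2.sub contDiffAt_const)).prodMk (h5.mul h7)
  have h9 : (fun p : ℂ × ℂ × ℂ => TC p.1 p.2.1 (F p)) = fun p : ℂ × ℂ × ℂ =>
      (lamC p.1 p.2.1 (RRc (F p)) * (F p).1 - (p.2.1 - 1),
        lamC p.1 p.2.1 (RRc (F p)) * (F p).2) := by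
    funext p
    rfl
  rw [h9]
  exact h8

/-- the domain is open -/
private theorem Par1_Dm {g : ℝ × ℝ × ℝ → ℝ × ℝ} {x : ℝ × ℝ × ℝ} (hg : ContinuousAt g x)
    (hk : 0 < x.1) (hμ : 1 < x.2.1) (h : Dm x.1 x.2.1 (RR (g x))) :
    ∀ᶠ p in 𝓝 x, Dm p.1 p.2.1 (RR (g p)) := by
  have h0 : ContinuousAt (fun p => RR (g p)) x := by
    have h1 : Continuous RR := by
      have h : RR = fun V : ℝ × ℝ => V.1 ^ 2 + V.2 ^ 2 := by
        funext V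
        rfl
      rw [h]
      fun_prop
    exact ContinuousAt.comp (g := RR) h1.continuousAt hg
  have hk' : ContinuousAt (fun p : ℝ × ℝ × ℝ => p.1) x := continuousAt_fst
  have hμ' : ContinuousAt (fun p : ℝ × ℝ × ℝ => p.2.1) x :=
    (continuous_fst.comp continuous_snd).continuousAt
  have h1 : ContinuousAt (fun p => RR (g p) ^ (p.1 / 2)) x :=
    h0.rpow (hk'.div_const 2) (Or.inl h.1.ne')
  have h2 : ContinuousAt (fun p : ℝ × ℝ × ℝ => cc p.1 p.2.1) x := by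
    have h3 : ContinuousAt (fun p : ℝ × ℝ × ℝ => 1 + p.2.1 ^ p.1) x :=
      continuousAt_const.add (hμ'.rpow hk' (Or.inl (by positivity)))
    exact h3
  have h4 := h0.eventually_const_lt h.1
  have h5 : ∀ᶠ p in 𝓝 x, RR (g p) ^ (p.1 / 2) < cc p.1 p.2.1 := h1.eventually_lt h2 h.2
  filter_upwards [h4, h5] with p hp hp'
  exact ⟨hp, hp'⟩

/-- embedding of the real parameters -/
private noncomputable def Par1_emb (p : ℝ × ℝ × ℝ) : ℂ × ℂ × ℂ := ((p.1 : ℂ), (p.2.1 : ℂ), (p.2.2 : ℂ))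

private theorem Par1_emb_cont : Continuous Par1_emb := by
  have h : Par1_emb = fun p : ℝ × ℝ × ℝ => ((p.1 : ℂ), (p.2.1 : ℂ), (p.2.2 : ℂ)) := by
    funext p
    rfl
  rw [h]
  exact (Complex.continuous_ofReal.comp continuous_fst).prodMk
    ((Complex.continuous_ofReal.comp (continuous_fst.comp continuous_snd)).prodMk
      (Complex.continuous_ofReal.comp (continuous_snd.comp continuous_snd)))

private theorem Par1_dn2 : Continuous dn2 := by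
  have h : dn2 = fun V : ℂ × ℂ => (V.1.re, V.2.re) := by
    funext V
    rfl
  rw [h]
  exact (Complex.continuous_re.comp continuous_fst).prodMk
    (Complex.continuous_re.comp continuous_snd)

/-- complex iterates -/
private noncomputable def Par1_G (N j : ℕ) (p : ℂ × ℂ × ℂ) : ℂ × ℂ :=
  (TC p.1 p.2.1)^[j] (VC p.1 p.2.1 (p.2.2 / p.2.1 ^ N))

/-- real iterates -/
private noncomputable def Par1_g (N j : ℕ) (p : ℝ × ℝ × ℝ) : ℝ × ℝ :=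
  (TT p.1 p.2.1)^[j] (vr p.1 p.2.1 (p.2.2 / p.2.1 ^ N))

private theorem Par1_G_succ (N j : ℕ) (p : ℂ × ℂ × ℂ) :
    Par1_G N (j + 1) p = TC p.1 p.2.1 (Par1_G N j p) :=
  Function.iterate_succ_apply' _ _ _

private theorem Par1_g_succ (N j : ℕ) (p : ℝ × ℝ × ℝ) :
    Par1_g N (j + 1) p = TT p.1 p.2.1 (Par1_g N j p) :=
  Function.iterate_succ_apply' _ _ _

private theorem Par1_main {k₀ μ₀ t₀ : ℝ} (hk : 0 < k₀) (hμ : 1 < μ₀) (ht : 0 < t₀)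
    (hdom : ∀ s, 0 < s → s < t₀ → Dm k₀ μ₀ (RR (Vr k₀ μ₀ s))) :
    ∃ N : ℕ, ∀ j, j ≤ N → ContDiffAt ℂ 1 (Par1_G N j) (Par1_emb (k₀, μ₀, t₀)) ∧
      Par1_G N j (Par1_emb (k₀, μ₀, t₀)) = up (Vr k₀ μ₀ (t₀ / μ₀ ^ (N - j))) ∧
      (∀ᶠ p : ℝ × ℝ × ℝ in 𝓝 (k₀, μ₀, t₀), Par1_G N j (Par1_emb p) = up (Par1_g N j p)) ∧
      ∀ᶠ p : ℝ × ℝ × ℝ in 𝓝 (k₀, μ₀, t₀), Par1_g N N p = Vr p.1 p.2.1 p.2.2 := by
  obtain ⟨ε₁, r₁, hε₁, hr₁, hVr⟩ := Vr_eq hk hμ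
  obtain ⟨ε₂, r₂, A, hε₂, hr₂, -, -, -, hC, hrl⟩ := real_loc hk hμ
  have hμ0 : 0 < μ₀ := by linarith
  have hrp : 0 < min r₁ r₂ := lt_min hr₁ hr₂
  obtain ⟨N, hN⟩ : ∃ N : ℕ, t₀ < min r₁ r₂ * μ₀ ^ N := by
    obtain ⟨N, hN⟩ := pow_unbounded_of_one_lt (t₀ / min r₁ r₂) hμ
    refine ⟨N, ?_⟩
    rwa [div_lt_iff₀ hrp, mul_comm] at hN
  have hμN : 0 < μ₀ ^ N := pow_pos hμ0 N
  have hN1 : t₀ < r₁ * μ₀ ^ N :=
    hN.trans_le (mul_le_mul_of_nonneg_right (min_le_left _ _) hμN.le)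
  have hN2 : t₀ / μ₀ ^ N < r₂ := by
    rw [div_lt_iff₀ hμN]
    exact hN.trans_le (mul_le_mul_of_nonneg_right (min_le_right _ _) hμN.le)
  have hN2' : t₀ / μ₀ ^ N < r₁ := by
    rw [div_lt_iff₀ hμN]
    exact hN1
  have hNpos : 0 < t₀ / μ₀ ^ N := by positivity
  have ck : ContinuousAt (fun p : ℝ × ℝ × ℝ => p.1) (k₀, μ₀, t₀) := continuousAt_fst
  have cμ : ContinuousAt (fun p : ℝ × ℝ × ℝ => p.2.1) (k₀, μ₀, t₀) :=
    (continuous_fst.comp continuous_snd).continuousAt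
  have ct : ContinuousAt (fun p : ℝ × ℝ × ℝ => p.2.2) (k₀, μ₀, t₀) :=
    (continuous_snd.comp continuous_snd).continuousAt
  have ek : ∀ η : ℝ, 0 < η → ∀ᶠ p : ℝ × ℝ × ℝ in 𝓝 (k₀, μ₀, t₀), |p.1 - k₀| < η := by
    intro η hη
    have h := (ck.sub_const k₀).abs.eventually_lt_const (show |k₀ - k₀| < η by simpa using hη)
    exact h
  have eμ : ∀ η : ℝ, 0 < η → ∀ᶠ p : ℝ × ℝ × ℝ in 𝓝 (k₀, μ₀, t₀), |p.2.1 - μ₀| < η := by
    intro η hη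
    have h := (cμ.sub_const μ₀).abs.eventually_lt_const (show |μ₀ - μ₀| < η by simpa using hη)
    exact h
  have e1 : ∀ᶠ p : ℝ × ℝ × ℝ in 𝓝 (k₀, μ₀, t₀), 1 < p.2.1 := cμ.eventually_const_lt hμ
  have et : ∀ᶠ p : ℝ × ℝ × ℝ in 𝓝 (k₀, μ₀, t₀), |p.2.2| < r₁ * p.2.1 ^ N := by
    have h1 : ContinuousAt (fun p : ℝ × ℝ × ℝ => |p.2.2|) (k₀, μ₀, t₀) := ct.abs
    have h2 : ContinuousAt (fun p : ℝ × ℝ × ℝ => r₁ * p.2.1 ^ N) (k₀, μ₀, t₀) :=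
      continuousAt_const.mul (cμ.pow N)
    refine h1.eventually_lt h2 ?_
    show |t₀| < r₁ * μ₀ ^ N
    rwa [abs_of_pos ht]
  have et2 : ∀ᶠ p : ℝ × ℝ × ℝ in 𝓝 (k₀, μ₀, t₀), |p.2.2 / p.2.1 ^ N| < r₂ := by
    have h1 : ContinuousAt (fun p : ℝ × ℝ × ℝ => |p.2.2 / p.2.1 ^ N|) (k₀, μ₀, t₀) :=
      (ct.div (cμ.pow N) hμN.ne').abs
    refine h1.eventually_lt_const ?_
    show |t₀ / μ₀ ^ N| < r₂
    rwa [abs_of_pos hNpos]
  have elast : ∀ᶠ p : ℝ × ℝ × ℝ in 𝓝 (k₀, μ₀, t₀), Par1_g N N p = Vr p.1 p.2.1 p.2.2 := by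
    filter_upwards [ek ε₁ hε₁, eμ ε₁ hε₁, et] with p h1 h2 h3
    exact (hVr p.1 p.2.1 p.2.2 N h1 h2 h3).symm
  refine ⟨N, fun j => ?_⟩
  induction j with
  | zero =>
    intro _
    have hbase := hrl k₀ μ₀ (t₀ / μ₀ ^ N) (by simpa using hε₂) (by simpa using hε₂)
      (by rwa [abs_of_pos hNpos])
    have hcast : (t₀ : ℂ) / (μ₀ : ℂ) ^ N = ((t₀ / μ₀ ^ N : ℝ) : ℂ) := by push_cast; rfl
    refine ⟨?_, ?_, ?_, elast⟩
    · have hmem : ((k₀ : ℂ), (μ₀ : ℂ), (t₀ : ℂ) / (μ₀ : ℂ) ^ N) ∈ Bp k₀ μ₀ ε₂ r₂ := by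
        refine ⟨?_, ?_, ?_⟩
        · show ‖(k₀ : ℂ) - k₀‖ < ε₂
          simpa using hε₂
        · show ‖(μ₀ : ℂ) - μ₀‖ < ε₂
          simpa using hε₂
        · show ‖(t₀ : ℂ) / (μ₀ : ℂ) ^ N‖ < r₂
          rw [hcast, Complex.norm_real, Real.norm_of_nonneg hNpos.le]
          exact hN2
      have h1 : ContDiffAt ℂ 1 (fun p : ℂ × ℂ × ℂ => VC p.1 p.2.1 p.2.2)
          ((k₀ : ℂ), (μ₀ : ℂ), (t₀ : ℂ) / (μ₀ : ℂ) ^ N) :=
        hC.contDiffAt ((Bp_isOpen k₀ μ₀ ε₂ r₂).mem_nhds hmem)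
      have h2 : ContDiffAt ℂ 1 (fun p : ℂ × ℂ × ℂ => p.1) (Par1_emb (k₀, μ₀, t₀)) :=
        contDiffAt_fst
      have h3 : ContDiffAt ℂ 1 (fun p : ℂ × ℂ × ℂ => p.2.1) (Par1_emb (k₀, μ₀, t₀)) :=
        contDiffAt_fst.comp _ contDiffAt_snd
      have h4 : ContDiffAt ℂ 1 (fun p : ℂ × ℂ × ℂ => p.2.2) (Par1_emb (k₀, μ₀, t₀)) :=
        contDiffAt_snd.comp _ contDiffAt_snd
      have h5 : ContDiffAt ℂ 1 (fun p : ℂ × ℂ × ℂ => p.2.2 / p.2.1 ^ N)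
          (Par1_emb (k₀, μ₀, t₀)) := by
        refine h4.div (h3.pow N) ?_
        show (μ₀ : ℂ) ^ N ≠ 0
        exact pow_ne_zero _ (Complex.ofReal_ne_zero.2 hμ0.ne')
      exact ContDiffAt.comp (Par1_emb (k₀, μ₀, t₀))
        (g := fun p : ℂ × ℂ × ℂ => VC p.1 p.2.1 p.2.2)
        (f := fun p : ℂ × ℂ × ℂ => (p.1, p.2.1, p.2.2 / p.2.1 ^ N)) h1 (h2.prodMk (h3.prodMk h5))
    · have h1 : Vr k₀ μ₀ (t₀ / μ₀ ^ N) = vr k₀ μ₀ (t₀ / μ₀ ^ N) := by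
        have h2 := hVr k₀ μ₀ (t₀ / μ₀ ^ N) 0 (by simpa using hε₁) (by simpa using hε₁)
          (by rw [abs_of_pos hNpos]; simpa using hN2')
        rw [h2]
        simp [VN]
      rw [Nat.sub_zero, h1]
      show VC (k₀ : ℂ) (μ₀ : ℂ) ((t₀ : ℂ) / (μ₀ : ℂ) ^ N) = up (vr k₀ μ₀ (t₀ / μ₀ ^ N))
      rw [hcast]
      exact hbase.2.2.1
    · filter_upwards [ek ε₂ hε₂, eμ ε₂ hε₂, et2] with p h1 h2 h3
      show VC (p.1 : ℂ) (p.2.1 : ℂ) ((p.2.2 : ℂ) / (p.2.1 : ℂ) ^ N) =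
        up (vr p.1 p.2.1 (p.2.2 / p.2.1 ^ N))
      have hcast' : (p.2.2 : ℂ) / (p.2.1 : ℂ) ^ N = ((p.2.2 / p.2.1 ^ N : ℝ) : ℂ) := by
        push_cast; rfl
      rw [hcast']
      exact (hrl p.1 p.2.1 (p.2.2 / p.2.1 ^ N) h1 h2 h3).2.2.1
  | succ j ih =>
    intro hj
    obtain ⟨h1, h2, h3, -⟩ := ih (by omega)
    obtain ⟨m, hm⟩ : ∃ m, N - j = m + 1 := ⟨N - j - 1, by omega⟩
    have hm' : N - (j + 1) = m := by omega
    have hs0 : 0 < t₀ / μ₀ ^ (m + 1) := by positivity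
    have hs1 : t₀ / μ₀ ^ (m + 1) < t₀ :=
      div_lt_self ht (one_lt_pow₀ hμ (Nat.succ_ne_zero m))
    have hD := hdom _ hs0 hs1
    rw [hm] at h2
    have hOK : OK (k₀ : ℂ) (μ₀ : ℂ) (RRc (Par1_G N j (Par1_emb (k₀, μ₀, t₀)))) := by
      rw [h2, RRc_up]
      exact OK_ofReal hk hμ hD
    refine ⟨?_, ?_, ?_, elast⟩
    · have h4 : Par1_G N (j + 1) = fun p : ℂ × ℂ × ℂ => TC p.1 p.2.1 (Par1_G N j p) := by
        funext p
        exact Par1_G_succ N j p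
      rw [h4]
      exact Par1_step h1 hOK
    · rw [Par1_G_succ, h2, hm']
      show TC (k₀ : ℂ) (μ₀ : ℂ) (up (Vr k₀ μ₀ (t₀ / μ₀ ^ (m + 1)))) = up (Vr k₀ μ₀ (t₀ / μ₀ ^ m))
      rw [TC_ofReal hμ hD, ← Vr_step hk hμ]
      congr 2
      field_simp
      ring
    · have hcg : ContinuousAt (Par1_g N j) (k₀, μ₀, t₀) := by
        have h5 : ContinuousAt (fun p => Par1_G N j (Par1_emb p)) (k₀, μ₀, t₀) :=
          ContinuousAt.comp (g := Par1_G N j) h1.continuousAt Par1_emb_cont.continuousAt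
        have h6 : ContinuousAt (fun p => dn2 (Par1_G N j (Par1_emb p))) (k₀, μ₀, t₀) :=
          ContinuousAt.comp (g := dn2) Par1_dn2.continuousAt h5
        refine h6.congr ?_
        filter_upwards [h3] with p hp
        rw [hp, dn2_up]
      have hval : Par1_g N j (k₀, μ₀, t₀) = Vr k₀ μ₀ (t₀ / μ₀ ^ (m + 1)) := by
        have h5 := h3.self_of_nhds
        rw [h2] at h5
        have h6 := congrArg dn2 h5
        rw [dn2_up, dn2_up] at h6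
        exact h6.symm
      have hDm := Par1_Dm hcg (x := (k₀, μ₀, t₀)) hk hμ (by
        show Dm k₀ μ₀ (RR (Par1_g N j (k₀, μ₀, t₀)))
        rw [hval]
        exact hD)
      filter_upwards [h3, hDm, e1] with p hp hp2 hp3
      rw [Par1_G_succ, hp, Par1_g_succ]
      exact TC_ofReal hp3 hp2

/-- Near a point `(k₀, μ₀, t₀)` such that the curve stays in the domain on `(0, t₀)` the global curve is
the restriction of a complex `C¹` map: `G p = (TC p.1 p.2.1)^[N] (VC p.1 p.2.1 (p.2.2 / p.2.1^N))`,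
`N` with `t₀ < r μ₀^N`; the base orbit `V (t₀/μ₀^j)`, `1 ≤ j ≤ N`, is in the domain (`OK_ofReal`), so the
composition is `C¹` at the base point (`lamC_contDiffAt`), and for nearby real points it is `up` of
the real iteration (`TC_ofReal`; `Dm` is an open condition), which is `Vr` by `Vr_eq`. -/
theorem Vr_complex {k₀ μ₀ t₀ : ℝ} (hk : 0 < k₀) (hμ : 1 < μ₀) (ht : 0 < t₀)
    (hdom : ∀ s, 0 < s → s < t₀ → Dm k₀ μ₀ (RR (Vr k₀ μ₀ s))) :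
    ∃ G : ℂ × ℂ × ℂ → ℂ × ℂ, ContDiffAt ℂ 1 G ((k₀ : ℂ), (μ₀ : ℂ), (t₀ : ℂ)) ∧
      ∀ᶠ p : ℝ × ℝ × ℝ in 𝓝 (k₀, μ₀, t₀),
        G ((p.1 : ℂ), (p.2.1 : ℂ), (p.2.2 : ℂ)) = up (Vr p.1 p.2.1 p.2.2) := by
  obtain ⟨N, hN⟩ := Par1_main hk hμ ht hdom
  obtain ⟨h1, -, h3, h4⟩ := hN N le_rfl
  refine ⟨Par1_G N N, h1, ?_⟩
  filter_upwards [h3, h4] with p hp hp'
  rw [hp'] at hp
  exact hp

/-- hence `Vr` is continuous there -/
theorem Vr_continuousAt {k₀ μ₀ t₀ : ℝ} (hk : 0 < k₀) (hμ : 1 < μ₀) (ht : 0 < t₀)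
    (hdom : ∀ s, 0 < s → s < t₀ → Dm k₀ μ₀ (RR (Vr k₀ μ₀ s))) :
    ContinuousAt (fun p : ℝ × ℝ × ℝ => Vr p.1 p.2.1 p.2.2) (k₀, μ₀, t₀) := by
  obtain ⟨G, hG, hGe⟩ := Vr_complex hk hμ ht hdom
  have h5 : ContinuousAt (fun p => G (Par1_emb p)) (k₀, μ₀, t₀) :=
    ContinuousAt.comp (g := G) hG.continuousAt Par1_emb_cont.continuousAt
  have h6 : ContinuousAt (fun p => dn2 (G (Par1_emb p))) (k₀, μ₀, t₀) :=
    ContinuousAt.comp (g := dn2) Par1_dn2.continuousAt h5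
  refine h6.congr ?_
  filter_upwards [hGe] with p hp
  have h7 : G (Par1_emb p) = up (Vr p.1 p.2.1 p.2.2) := hp
  rw [h7, dn2_up]

end EQK
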