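import Pool.Agent.Lib.MP_226de1_co.K.RealLoc

/-! The global real curve. -/

set_option autoImplicit false

namespace EQK

open Set Filter Topology

noncomputable section

def VN (N : ℕ) (k μ t : ℝ) : ℝ × ℝ := (TT k μ)^[N] (vr k μ (t / μ ^ N))

/-- `VN N k μ t` is eventually constant in `N` -/
def Vr (k μ t : ℝ) : ℝ × ℝ := limUnder atTop (fun N => VN N k μ t)

/-- if the local step holds at all scales below `N`, the limit is `VN N` -/
private theorem Vr_eq_aux {k μ t r : ℝ} {N : ℕ} (hr : 0 < r) (hμ : 1 < μ)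
    (hstep : ∀ s : ℝ, |s| < r → TT k μ (vr k μ (s / μ)) = vr k μ s) (ht : |t| < r * μ ^ N) :
    Vr k μ t = VN N k μ t := by
  have hμ0 : (0 : ℝ) < μ := by linarith
  have hM : ∀ M : ℕ, N ≤ M → VN M k μ t = VN N k μ t := by
    intro M hM
    induction M, hM using Nat.le_induction with
    | base => rfl
    | succ M hM ih =>
      rw [← ih, VN, VN, Function.iterate_succ_apply]
      have h1 : |t / μ ^ M| < r := by
        rw [abs_div, abs_of_pos (pow_pos hμ0 M), div_lt_iff₀ (pow_pos hμ0 M)]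
        refine ht.trans_le (mul_le_mul_of_nonneg_left ?_ hr.le)
        exact pow_le_pow_right₀ hμ.le hM
      have h2 : t / μ ^ (M + 1) = t / μ ^ M / μ := by
        rw [pow_succ, div_div]
      rw [h2, hstep _ h1]
  refine Tendsto.limUnder_eq ?_
  refine tendsto_const_nhds.congr' ?_
  filter_upwards [eventually_ge_atTop N] with M hM'
  exact (hM M hM').symm

/-- for `|t| < r μ^N` the value is `VN N`, locally uniformly in the parameters
(`VN (M+1) = VN M` as soon as `|t| / μ^M < r`, `real_loc`) -/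
theorem Vr_eq {k₀ μ₀ : ℝ} (hk : 0 < k₀) (hμ : 1 < μ₀) : ∃ ε r : ℝ, 0 < ε ∧ 0 < r ∧
    ∀ (k μ t : ℝ) (N : ℕ), |k - k₀| < ε → |μ - μ₀| < ε → |t| < r * μ ^ N →
      Vr k μ t = VN N k μ t := by
  obtain ⟨ε, r, A, hε, hr, hr1, hA, hAr, -, hall⟩ := real_loc hk hμ
  refine ⟨ε, r, hε, hr, ?_⟩
  intro k μ t N hk' hμ' ht
  have hμ1 : 1 < μ := (hall k μ 0 hk' hμ' (by simpa using hr)).2.1
  exact Vr_eq_aux hr hμ1 (fun s hs => (hall k μ s hk' hμ' hs).2.2.2.2.2.1) ht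

theorem Vr_step {k μ : ℝ} (hk : 0 < k) (hμ : 1 < μ) (t : ℝ) :
    Vr k μ (μ * t) = TT k μ (Vr k μ t) := by
  obtain ⟨ε, r, hε, hr, hall⟩ := Vr_eq hk hμ
  have hμ0 : (0 : ℝ) < μ := by linarith
  have e1 : |k - k| < ε := by simpa using hε
  have e2 : |μ - μ| < ε := by simpa using hε
  obtain ⟨N, hN⟩ := pow_unbounded_of_one_lt (|t| / r) hμ
  have hN' : |t| < r * μ ^ N := by
    rw [div_lt_iff₀ hr] at hN
    linarith
  have hN2 : |μ * t| < r * μ ^ (N + 1) := by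
    rw [abs_mul, abs_of_pos hμ0, pow_succ]
    calc μ * |t| < μ * (r * μ ^ N) := mul_lt_mul_of_pos_left hN' hμ0
      _ = r * (μ ^ N * μ) := by ring
  rw [hall k μ t N e1 e2 hN', hall k μ (μ * t) (N + 1) e1 e2 hN2, VN, VN,
    Function.iterate_succ_apply']
  have h2 : μ * t / μ ^ (N + 1) = t / μ ^ N := by
    rw [pow_succ]
    field_simp
  rw [h2]

theorem Vr_zero {k μ : ℝ} (hk : 0 < k) (hμ : 1 < μ) : Vr k μ 0 = (1, 0) := by
  obtain ⟨ε, r, A, hε, hr, hr1, hA, hAr, -, hall⟩ := real_loc hk hμ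
  have e1 : |k - k| < ε := by simpa using hε
  have e2 : |μ - μ| < ε := by simpa using hε
  have h0 := hall k μ 0 e1 e2 (by simpa using hr)
  have h1 : Vr k μ 0 = VN 0 k μ 0 := by
    refine Vr_eq_aux hr hμ (fun s hs => (hall k μ s e1 e2 hs).2.2.2.2.2.1) ?_
    simpa using hr
  have h2 : VN 0 k μ 0 = vr k μ 0 := by
    simp [VN]
  rw [h1, h2]
  have h3 := h0.2.2.2.2.2.2.1
  have h4 := h0.2.2.2.2.2.2.2.1
  have h5 : |(vr k μ 0).1 - 1| ≤ 0 := by simpa using h3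
  have h6 : |(vr k μ 0).2 - 0| ≤ 0 := by simpa using h4
  have h7 := abs_nonpos_iff.1 h5
  have h8 := abs_nonpos_iff.1 h6
  refine Prod.ext ?_ ?_
  · change (vr k μ 0).1 = 1
    linarith
  · change (vr k μ 0).2 = 0
    linarith

/-- local facts for the global curve: `Vr = vr` near `0` -/
theorem Vr_loc {k₀ μ₀ : ℝ} (hk : 0 < k₀) (hμ : 1 < μ₀) : ∃ ε r A : ℝ, 0 < ε ∧ 0 < r ∧ r < 1 ∧
    0 < A ∧ A * r ^ 2 < 1 ∧
    ∀ k μ t : ℝ, |k - k₀| < ε → |μ - μ₀| < ε → |t| < r →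
      Vr k μ t = vr k μ t ∧ |(Vr k μ t).1 - 1| ≤ A * t ^ 2 ∧ |(Vr k μ t).2 - t| ≤ A * |t| ^ 3 := by
  obtain ⟨ε, r, A, hε, hr, hr1, hA, hAr, -, hall⟩ := real_loc hk hμ
  refine ⟨ε, r, A, hε, hr, hr1, hA, hAr, ?_⟩
  intro k μ t hk' hμ' ht
  obtain ⟨h1, h2, h3, h4, h5, h6, h7, h8, h9⟩ := hall k μ t hk' hμ' ht
  have e1 : Vr k μ t = VN 0 k μ t := by
    refine Vr_eq_aux hr h2 (fun s hs => (hall k μ s hk' hμ' hs).2.2.2.2.2.1) ?_
    simpa using ht
  have e2 : VN 0 k μ t = vr k μ t := by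
    simp [VN]
  have e3 : Vr k μ t = vr k μ t := e1.trans e2
  refine ⟨e3, ?_, ?_⟩
  · rw [e3]
    exact h7
  · rw [e3]
    exact h8

end

end EQK
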