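import Pool.Agent.Lib.MP_226de1_co.K.RCex2
import Pool.Agent.Lib.MP_226de1_co.K.Vr
import Pool.Agent.Lib.MP_226de1_co.K.Tc

/-! The curve `Vr` is an `RC`. -/

set_option autoImplicit false

namespace EQK

open Set Filter Topology

/-- iterated velocities, starting from `P` at `t / μ ^ n` -/
private noncomputable def rcx3PN (k μ : ℝ) (P : ℝ → ℝ × ℝ) : ℕ → ℝ → ℝ × ℝ
  | 0, t => P t
  | n + 1, t => ((DT k μ (Vr k μ (t / μ)) (rcx3PN k μ P n (t / μ))).1 / μ,
      (DT k μ (Vr k μ (t / μ)) (rcx3PN k μ P n (t / μ))).2 / μ)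

private theorem rcx3_deriv {k μ : ℝ} (hk : 0 < k) (hμ : 1 < μ) {P : ℝ × ℝ} {t : ℝ}
    (hd : Dm k μ (RR (Vr k μ (t / μ))))
    (h1 : HasDerivAt (fun s => (Vr k μ s).1) P.1 (t / μ))
    (h2 : HasDerivAt (fun s => (Vr k μ s).2) P.2 (t / μ)) :
    HasDerivAt (fun s => (Vr k μ s).1) ((DT k μ (Vr k μ (t / μ)) P).1 / μ) t ∧
    HasDerivAt (fun s => (Vr k μ s).2) ((DT k μ (Vr k μ (t / μ)) P).2 / μ) t := by
  have hμ0 : μ ≠ 0 := by linarith
  obtain ⟨d1, d2⟩ := hasDerivAt_TT (μ := μ) hk (W := fun s => Vr k μ s) hd h1 h2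
  have hdiv : HasDerivAt (fun s : ℝ => s / μ) (1 / μ) t := (hasDerivAt_id t).div_const μ
  have hfun : ∀ s, Vr k μ s = TT k μ (Vr k μ (s / μ)) := by
    intro s
    rw [← Vr_step hk hμ]
    congr 1
    field_simp
  constructor
  · have := HasDerivAt.comp t (h₂ := fun s => (TT k μ (Vr k μ s)).1) (h := fun s => s / μ) d1 hdiv
    have e : (fun s => (Vr k μ s).1) = (fun s => (TT k μ (Vr k μ s)).1) ∘ fun s => s / μ := by
      funext s
      simp only [Function.comp]
      rw [← hfun s]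
    rw [e]
    refine this.congr_deriv ?_
    rw [mul_one_div]
  · have := HasDerivAt.comp t (h₂ := fun s => (TT k μ (Vr k μ s)).2) (h := fun s => s / μ) d2 hdiv
    have e : (fun s => (Vr k μ s).2) = (fun s => (TT k μ (Vr k μ s)).2) ∘ fun s => s / μ := by
      funext s
      simp only [Function.comp]
      rw [← hfun s]
    rw [e]
    refine this.congr_deriv ?_
    rw [mul_one_div]

/-- existence of the global structure.  `P` on `(0,r)` from `vr_cone`; it satisfies
`P (μ t) = DT (V t) (P t) / μ` for `μ t < r` by uniqueness of derivatives (`hasDerivAt_TT`); for `t ≥ r`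
define `P t` by iterating this formula from `t/μ^N < r` (independent of `N`). -/
theorem exists_RC {k μ : ℝ} (hk : 1 ≤ k) (hμ : 1 < μ) :
    ∃ (r : ℝ) (P : ℝ → ℝ × ℝ), RC k μ r (Vr k μ) P := by
  have hk0 : 0 < k := by linarith
  have hμ0 : 0 < μ := by linarith
  obtain ⟨r₁, P₀, hr₁, hc⟩ := vr_cone hk hμ
  obtain ⟨ε, r₂, A, hε, hr₂, hr₂', hA, hA', hl⟩ := Vr_loc hk0 hμ
  have hloc : ∀ t, |t| < r₂ → Vr k μ t = vr k μ t ∧ |(Vr k μ t).1 - 1| ≤ A * t ^ 2 ∧
      |(Vr k μ t).2 - t| ≤ A * |t| ^ 3 := fun t ht =>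
    hl k μ t (by rw [sub_self, abs_zero]; exact hε) (by rw [sub_self, abs_zero]; exact hε) ht
  set r : ℝ := min r₁ r₂ with hrd
  have hr : 0 < r := lt_min hr₁ hr₂
  have hbase : ∀ t, 0 < t → t < r → 0 < (Vr k μ t).1 ∧ 0 < (Vr k μ t).2 ∧
      Dm k μ (RR (Vr k μ t)) ∧ Cone μ (Vr k μ t) (P₀ t) ∧
      HasDerivAt (fun s => (Vr k μ s).1) (P₀ t).1 t ∧
      HasDerivAt (fun s => (Vr k μ s).2) (P₀ t).2 t := by
    intro t ht htr
    have ht1 : t < r₁ := htr.trans_le (min_le_left _ _)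
    have ht2 : |t| < r₂ := by rw [abs_of_pos ht]; exact htr.trans_le (min_le_right _ _)
    obtain ⟨c1, c2, c3, c4, c5, c6⟩ := hc t ht ht1
    have hev : ∀ᶠ s in 𝓝 t, Vr k μ s = vr k μ s := by
      have : ∀ᶠ s in 𝓝 t, |s| < r₂ := continuous_abs.continuousAt.eventually (gt_mem_nhds ht2)
      filter_upwards [this] with s hs
      exact (hloc s hs).1
    rw [(hloc t ht2).1]
    refine ⟨c1, c2, c3, c4, c5.congr_of_eventuallyEq ?_, c6.congr_of_eventuallyEq ?_⟩
    · filter_upwards [hev] with s hs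
      rw [hs]
    · filter_upwards [hev] with s hs
      rw [hs]
  have hdivlt : ∀ t, 0 < t → t / μ < t := fun t ht => div_lt_self ht hμ
  -- one step near `0`
  have hone : ∀ t, 0 < t → t < r → rcx3PN k μ P₀ 1 t = P₀ t := by
    intro t ht htr
    have ht' : 0 < t / μ := div_pos ht hμ0
    have htr' : t / μ < r := (hdivlt t ht).trans htr
    obtain ⟨-, -, b3, -, b5, b6⟩ := hbase (t / μ) ht' htr'
    obtain ⟨-, -, -, -, c5, c6⟩ := hbase t ht htr
    obtain ⟨d1, d2⟩ := rcx3_deriv hk0 hμ b3 b5 b6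
    exact Prod.ext (d1.unique c5) (d2.unique c6)
  have hstab : ∀ n t, 0 < t → t / μ ^ n < r →
      rcx3PN k μ P₀ (n + 1) t = rcx3PN k μ P₀ n t := by
    intro n
    induction n with
    | zero =>
      intro t ht htr
      rw [pow_zero, div_one] at htr
      exact hone t ht htr
    | succ n ih =>
      intro t ht htr
      have h1 : t / μ / μ ^ n < r := by
        rw [div_div, ← pow_succ']
        exact htr
      have h2 := ih (t / μ) (div_pos ht hμ0) h1
      show ((DT k μ (Vr k μ (t / μ)) (rcx3PN k μ P₀ (n + 1) (t / μ))).1 / μ,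
        (DT k μ (Vr k μ (t / μ)) (rcx3PN k μ P₀ (n + 1) (t / μ))).2 / μ) = _
      rw [h2]
      rfl
  have hstab' : ∀ n j t, 0 < t → t / μ ^ n < r →
      rcx3PN k μ P₀ (n + j) t = rcx3PN k μ P₀ n t := by
    intro n j t ht htr
    induction j with
    | zero => rfl
    | succ j ih =>
      rw [← add_assoc, hstab (n + j) t ht ?_, ih]
      refine lt_of_le_of_lt ?_ htr
      apply div_le_div_of_nonneg_left ht.le (pow_pos hμ0 n)
      exact pow_le_pow_right₀ hμ.le (Nat.le_add_right n j)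
  have hval : ∀ n n' t, 0 < t → t / μ ^ n < r → t / μ ^ n' < r →
      rcx3PN k μ P₀ n t = rcx3PN k μ P₀ n' t := by
    intro n n' t ht h1 h2
    rcases le_total n n' with h | h
    · obtain ⟨j, rfl⟩ := Nat.exists_eq_add_of_le h
      exact (hstab' n j t ht h1).symm
    · obtain ⟨j, rfl⟩ := Nat.exists_eq_add_of_le h
      exact hstab' n' j t ht h2
  have hex : ∀ t : ℝ, ∃ n : ℕ, t / μ ^ n < r := by
    intro t
    obtain ⟨n, hn⟩ := pow_unbounded_of_one_lt (t / r) hμ
    refine ⟨n, ?_⟩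
    rw [div_lt_iff₀ (pow_pos hμ0 n), mul_comm, ← div_lt_iff₀ hr]
    exact hn
  choose Nf hNf using hex
  set P : ℝ → ℝ × ℝ := fun t => rcx3PN k μ P₀ (Nf t) t with hP
  have hPv : ∀ n t, 0 < t → t / μ ^ n < r → P t = rcx3PN k μ P₀ n t := fun n t ht h =>
    hval _ _ t ht (hNf t) h
  have hP0 : ∀ t, 0 < t → t < r → P t = P₀ t := by
    intro t ht htr
    rw [hPv 0 t ht (by rw [pow_zero, div_one]; exact htr)]
    rfl
  refine ⟨r, P, ?_⟩
  have hlim0 : ∀ᶠ t : ℝ in 𝓝[>] 0, |t| < r₂ := by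
    have h1 : ∀ᶠ t : ℝ in 𝓝 0, |t| < r₂ := by
      have : Tendsto (fun t : ℝ => |t|) (𝓝 0) (𝓝 |0|) := continuous_abs.continuousAt
      rw [abs_zero] at this
      exact this.eventually (gt_mem_nhds hr₂)
    exact h1.filter_mono nhdsWithin_le_nhds
  exact
    { hk := hk
      hμ := hμ
      hr := hr
      step := fun t _ => Vr_step hk0 hμ t
      stepP := by
        intro t ht
        obtain ⟨n, hn⟩ : ∃ n : ℕ, t / μ ^ n < r := ⟨Nf t, hNf t⟩
        have e1 : μ * t / μ ^ (n + 1) = t / μ ^ n := by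
          rw [pow_succ']
          field_simp
        have e2 : μ * t / μ = t := by field_simp
        rw [hPv (n + 1) (μ * t) (mul_pos hμ0 ht) (by rw [e1]; exact hn), hPv n t ht hn]
        show ((DT k μ (Vr k μ (μ * t / μ)) (rcx3PN k μ P₀ n (μ * t / μ))).1 / μ,
          (DT k μ (Vr k μ (μ * t / μ)) (rcx3PN k μ P₀ n (μ * t / μ))).2 / μ) = _
        rw [e2]
      pos1 := fun t ht htr => (hbase t ht htr).1
      pos2 := fun t ht htr => (hbase t ht htr).2.1
      dom := fun t ht htr => (hbase t ht htr).2.2.1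
      cone := fun t ht htr => by
        rw [hP0 t ht htr]
        exact (hbase t ht htr).2.2.2.1
      der1 := fun t ht htr => by
        rw [hP0 t ht htr]
        exact (hbase t ht htr).2.2.2.2.1
      der2 := fun t ht htr => by
        rw [hP0 t ht htr]
        exact (hbase t ht htr).2.2.2.2.2
      lim1 := by
        rw [tendsto_iff_norm_sub_tendsto_zero]
        have h1 : Tendsto (fun t : ℝ => A * t ^ 2) (𝓝[>] 0) (𝓝 0) := by
          have : Tendsto (fun t : ℝ => A * t ^ 2) (𝓝 0) (𝓝 (A * 0 ^ 2)) :=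
            (continuous_const.mul (continuous_pow 2)).tendsto 0
          rw [zero_pow two_ne_zero, mul_zero] at this
          exact this.mono_left nhdsWithin_le_nhds
        refine squeeze_zero' (Eventually.of_forall fun t => norm_nonneg _) ?_ h1
        filter_upwards [hlim0] with t ht
        exact (hloc t ht).2.1
      lim2 := by
        have h1 : Tendsto (fun t : ℝ => A * |t| ^ 3 + |t|) (𝓝[>] 0) (𝓝 0) := by
          have : Tendsto (fun t : ℝ => A * |t| ^ 3 + |t|) (𝓝 0) (𝓝 (A * |0| ^ 3 + |0|)) :=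
            ((continuous_const.mul (continuous_abs.pow 3)).add continuous_abs).tendsto 0
          rw [abs_zero, zero_pow three_ne_zero, mul_zero, add_zero] at this
          exact this.mono_left nhdsWithin_le_nhds
        rw [tendsto_zero_iff_norm_tendsto_zero]
        refine squeeze_zero' (Eventually.of_forall fun t => norm_nonneg _) ?_ h1
        filter_upwards [hlim0] with t ht
        have h2 := (hloc t ht).2.2
        have h3 := abs_add_le ((Vr k μ t).2 - t) t
        rw [sub_add_cancel] at h3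
        rw [Real.norm_eq_abs]
        linarith }

/-- the first zero of the first coordinate -/
noncomputable def tcr (k μ : ℝ) : ℝ := sInf {t : ℝ | 0 < t ∧ (Vr k μ t).1 ≤ 0}

/-- `tcr` is the `tc` of `RC.exists_tc` -/
theorem tcr_isTc {k μ : ℝ} (hk : 1 ≤ k) (hμ : 1 < μ) :
    ∃ (r : ℝ) (P : ℝ → ℝ × ℝ), RC k μ r (Vr k μ) P ∧ IsTc k μ (Vr k μ) P (tcr k μ) := by
  obtain ⟨r, P, h⟩ := exists_RC hk hμ
  obtain ⟨tc, htc⟩ := h.exists_tc
  have hl : IsLeast {t : ℝ | 0 < t ∧ (Vr k μ t).1 ≤ 0} tc := by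
    refine ⟨⟨htc.pos, htc.zero.le⟩, ?_⟩
    rintro s ⟨hs, hs'⟩
    by_contra hlt
    exact absurd (htc.before s hs (not_le.1 hlt)) (not_lt.2 hs')
  have e : tcr k μ = tc := hl.csInf_eq
  rw [e]
  exact ⟨r, P, h, htc⟩

/-- the function `Δ` -/
noncomputable def Dl (k μ : ℝ) : ℝ := 2 * RR (Vr k μ (tcr k μ)) ^ (k / 2) - cc k μ

end EQK
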