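import Pool.Agent.Lib.MP_226de1_co.K.Param1
import Pool.Agent.Lib.MP_226de1_co.K.RCex3

/-! Continuity of `tc`. -/

set_option autoImplicit false

namespace EQK

open Set Filter Topology

/-- the domain is open -/
private theorem Dm_eventually {k μ R₀ : ℝ} (hk : 0 < k) (hd : Dm k μ R₀) :
    ∀ᶠ R in 𝓝 R₀, Dm k μ R := by
  have h1 : ∀ᶠ R in 𝓝 R₀, 0 < R := lt_mem_nhds hd.1
  have h2 : ∀ᶠ R in 𝓝 R₀, R ^ (k / 2) < cc k μ := by
    have hc : ContinuousAt (fun R : ℝ => R ^ (k / 2)) R₀ :=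
      Real.continuousAt_rpow_const R₀ (k / 2) (Or.inr (by positivity))
    exact hc.eventually (gt_mem_nhds hd.2)
  filter_upwards [h1, h2] with R a b
  exact ⟨a, b⟩

/-- reordering of the variables -/
private theorem cont3 (a b c : ℝ) :
    Tendsto (fun z : (ℝ × ℝ) × ℝ => (z.1.1, z.1.2, z.2)) (𝓝 ((a, b), c)) (𝓝 (a, b, c)) := by
  have h : Continuous (fun z : (ℝ × ℝ) × ℝ => (z.1.1, z.1.2, z.2)) := by fun_prop
  exact h.tendsto ((a, b), c)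

/-- continuity of `tc`.  Let `η > 0` be small, `t₀ = tcr k₀ μ₀`.  `X > 0` on `(0, t₀-η]` for parameters
near `(k₀, μ₀)`: near `t = 0` by `Vr_loc`, on a compact rest by continuity (`Vr_continuousAt`) and
compactness; `X (t₀+η) < 0` for `(k₀, μ₀)` (`IsTc.after`) and hence nearby (`Vr_continuousAt` at `t₀+η`,
`η` small: `Dm` on `(0, t₀+η)` by continuity of `V`); so `tcr ∈ [t₀-η, t₀+η]`. -/
theorem tcr_tendsto {k₀ μ₀ : ℝ} (hk : 1 ≤ k₀) (hμ : 1 < μ₀) :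
    Tendsto (fun p : ℝ × ℝ => tcr p.1 p.2) (𝓝[{p : ℝ × ℝ | 1 ≤ p.1}] (k₀, μ₀))
      (𝓝 (tcr k₀ μ₀)) := by
  obtain ⟨r₀, P₀, hRC, hT⟩ := tcr_isTc hk hμ
  have hk0 : 0 < k₀ := by linarith
  set t₀ := tcr k₀ μ₀ with ht₀
  have htp : 0 < t₀ := hT.pos
  -- continuity of R at t₀
  have hc1 : ContinuousAt (fun s => (Vr k₀ μ₀ s).1) t₀ := (hT.der1 t₀ htp le_rfl).continuousAt
  have hc2 : ContinuousAt (fun s => (Vr k₀ μ₀ s).2) t₀ := (hT.der2 t₀ htp le_rfl).continuousAt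
  have hcR : ContinuousAt (fun s => RR (Vr k₀ μ₀ s)) t₀ := by
    unfold RR
    exact (hc1.pow 2).add (hc2.pow 2)
  have hDm : ∀ᶠ s in 𝓝 t₀, Dm k₀ μ₀ (RR (Vr k₀ μ₀ s)) :=
    hcR.eventually (Dm_eventually hk0 (hT.dom t₀ htp le_rfl))
  obtain ⟨δ, hδ, hδD⟩ := Metric.eventually_nhds_iff.1 hDm
  rw [Metric.tendsto_nhds]
  intro ε hε
  -- choice of η
  obtain ⟨η, hη, hηε, hηt, hημ, hηδ⟩ : ∃ η : ℝ, 0 < η ∧ η < ε ∧ η < t₀ ∧ η ≤ (μ₀ - 1) * t₀ ∧ η < δ := by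
    refine ⟨min (min (ε / 2) (t₀ / 2)) (min ((μ₀ - 1) * t₀) (δ / 2)), ?_, ?_, ?_, ?_, ?_⟩
    · have : 0 < (μ₀ - 1) * t₀ := mul_pos (by linarith) htp
      refine lt_min (lt_min (by positivity) (by positivity)) (lt_min this (by positivity))
    · exact lt_of_le_of_lt ((min_le_left _ _).trans (min_le_left _ _)) (by linarith)
    · exact lt_of_le_of_lt ((min_le_left _ _).trans (min_le_right _ _)) (by linarith)
    · exact (min_le_right _ _).trans (min_le_left _ _)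
    · exact lt_of_le_of_lt ((min_le_right _ _).trans (min_le_right _ _)) (by linarith)
  -- upper side
  have hup : ∀ᶠ p : ℝ × ℝ in 𝓝 (k₀, μ₀), (Vr p.1 p.2 (t₀ + η)).1 < 0 := by
    have hcont := Vr_continuousAt (k₀ := k₀) (μ₀ := μ₀) (t₀ := t₀ + η) hk0 hμ (by linarith)
      (fun s hs hs' => by
        rcases le_or_gt s t₀ with h | h
        · exact hT.dom s hs h
        · refine hδD ?_
          rw [Real.dist_eq, abs_of_pos (by linarith)]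
          linarith)
    have hneg : (Vr k₀ μ₀ (t₀ + η)).1 < 0 := hT.after _ (by linarith) (by nlinarith)
    have hmap : ContinuousAt (fun p : ℝ × ℝ => (p.1, p.2, t₀ + η)) (k₀, μ₀) := by fun_prop
    have h2 : ContinuousAt (fun p : ℝ × ℝ => Vr p.1 p.2 (t₀ + η)) (k₀, μ₀) :=
      ContinuousAt.comp (f := fun p : ℝ × ℝ => (p.1, p.2, t₀ + η))
        (g := fun p : ℝ × ℝ × ℝ => Vr p.1 p.2.1 p.2.2) hcont hmap
    have h3 : ContinuousAt (fun p : ℝ × ℝ => (Vr p.1 p.2 (t₀ + η)).1) (k₀, μ₀) := h2.fst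
    exact h3.eventually (gt_mem_nhds hneg)
  -- lower side
  obtain ⟨ε₁, r₁, A, hε₁, hr₁, hr₁1, hA, hAr, hloc⟩ := Vr_loc hk0 hμ
  have hlow : ∀ᶠ p : ℝ × ℝ in 𝓝 (k₀, μ₀), ∀ s ∈ Icc (r₁ / 2) (t₀ - η), 0 < (Vr p.1 p.2 s).1 := by
    apply isCompact_Icc.eventually_forall_of_forall_eventually
    intro s hs
    have hs0 : 0 < s := by have := hs.1; linarith
    have hcont := Vr_continuousAt (k₀ := k₀) (μ₀ := μ₀) (t₀ := s) hk0 hμ hs0
      (fun s' hs' hs'' => hT.dom s' hs' (by have := hs.2; linarith))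
    have hpos : 0 < (Vr k₀ μ₀ s).1 := hT.before s hs0 (by have := hs.2; linarith)
    have h3 : ContinuousAt (fun p : ℝ × ℝ × ℝ => (Vr p.1 p.2.1 p.2.2).1) (k₀, μ₀, s) := hcont.fst
    have h4 := h3.eventually (lt_mem_nhds hpos)
    exact (cont3 k₀ μ₀ s).eventually h4
  have hnear : ∀ᶠ p : ℝ × ℝ in 𝓝 (k₀, μ₀), |p.1 - k₀| < ε₁ ∧ |p.2 - μ₀| < ε₁ ∧ 1 < p.2 := by
    have a : ∀ᶠ p : ℝ × ℝ in 𝓝 (k₀, μ₀), |p.1 - k₀| < ε₁ := by
      have hc : ContinuousAt (fun p : ℝ × ℝ => |p.1 - k₀|) (k₀, μ₀) := by fun_prop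
      exact hc.eventually (gt_mem_nhds (by simpa using hε₁))
    have b : ∀ᶠ p : ℝ × ℝ in 𝓝 (k₀, μ₀), |p.2 - μ₀| < ε₁ := by
      have hc : ContinuousAt (fun p : ℝ × ℝ => |p.2 - μ₀|) (k₀, μ₀) := by fun_prop
      exact hc.eventually (gt_mem_nhds (by simpa using hε₁))
    have c : ∀ᶠ p : ℝ × ℝ in 𝓝 (k₀, μ₀), 1 < p.2 := by
      have hc : ContinuousAt (fun p : ℝ × ℝ => p.2) (k₀, μ₀) := by fun_prop
      exact hc.eventually (lt_mem_nhds hμ)
    filter_upwards [a, b, c] with p h1 h2 h3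
    exact ⟨h1, h2, h3⟩
  filter_upwards [mem_nhdsWithin_of_mem_nhds hup, mem_nhdsWithin_of_mem_nhds hlow,
    mem_nhdsWithin_of_mem_nhds hnear, self_mem_nhdsWithin] with p h1 h2 h3 h4
  obtain ⟨h3a, h3b, h3c⟩ := h3
  obtain ⟨r', P', -, hT'⟩ := tcr_isTc (k := p.1) (μ := p.2) h4 h3c
  have hpos' := hT'.pos
  have hz := hT'.zero
  have hlo : t₀ - η < tcr p.1 p.2 := by
    by_contra hcon
    push Not at hcon
    rcases lt_or_ge (tcr p.1 p.2) r₁ with h | h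
    · have hl := (hloc p.1 p.2 (tcr p.1 p.2) h3a h3b (by rw [abs_of_pos hpos']; exact h)).2.1
      rw [hz] at hl
      have e1 : |(0:ℝ) - 1| = 1 := by norm_num
      rw [e1] at hl
      have e2 : tcr p.1 p.2 ^ 2 ≤ r₁ ^ 2 := pow_le_pow_left₀ hpos'.le h.le 2
      have e3 : A * tcr p.1 p.2 ^ 2 ≤ A * r₁ ^ 2 := mul_le_mul_of_nonneg_left e2 hA.le
      linarith
    · have := h2 (tcr p.1 p.2) ⟨by linarith, hcon⟩
      rw [hz] at this
      exact lt_irrefl _ this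
  have hhi : tcr p.1 p.2 ≤ t₀ + η := by
    by_contra hcon
    push Not at hcon
    have := hT'.before (t₀ + η) (by linarith) hcon
    exact lt_asymm this h1
  rw [Real.dist_eq, abs_lt]
  constructor <;> linarith

end EQK
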