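import Pool.Agent.Lib.MP_226de1_co.K.Param2
import Pool.Agent.Lib.MP_226de1_co.K.Implicit

/-! Analyticity of `Δ`. -/

set_option autoImplicit false

namespace EQK

open Set Filter Topology

private theorem param3_rpow {R a : ℝ} (hR : 0 < R) :
    Complex.exp ((a : ℂ) * Complex.log (R : ℂ)) = ((R ^ a : ℝ) : ℂ) := by
  rw [Real.rpow_def_of_pos hR, ← Complex.ofReal_log hR.le]
  push_cast
  rw [mul_comm]

/-- analyticity of `Δ`: `τ` from `implicit_C1` applied to the first coordinate of `G` of `Vr_complex`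
at `t₀ = tcr k₀ μ₀` (complex derivative in `t` = real derivative `(P t₀).1 < 0`), `tcr = τ` at nearby
real parameters with `1 ≤ k` by `tcr_tendsto` and uniqueness; then
`g p = 2 exp ((p.1/2) log (RRc (G (p.1, p.2, τ p)))) - (1 + exp (p.1 log p.2))`. -/
theorem Dl_complex {k₀ μ₀ : ℝ} (hk : 1 ≤ k₀) (hμ : 1 < μ₀) :
    ∃ g : ℂ × ℂ → ℂ, ContDiffAt ℂ 1 g ((k₀ : ℂ), (μ₀ : ℂ)) ∧
      ∀ᶠ p : ℝ × ℝ in 𝓝 (k₀, μ₀), 1 ≤ p.1 →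
        g ((p.1 : ℂ), (p.2 : ℂ)) = ((Dl p.1 p.2 : ℝ) : ℂ) := by
  obtain ⟨r, P, hRC, hTc⟩ := tcr_isTc hk hμ
  set t₀ : ℝ := tcr k₀ μ₀ with ht₀
  have hk0 : 0 < k₀ := by linarith
  have hμ0 : 0 < μ₀ := by linarith
  obtain ⟨G, hG, hGr⟩ := Vr_complex hk0 hμ hTc.pos (fun s hs hs' => hTc.dom s hs hs'.le)
  set f : ℂ × ℂ × ℂ → ℂ := fun p => (G p).1 with hf
  have hfc : ContDiffAt ℂ 1 f ((k₀ : ℂ), (μ₀ : ℂ), (t₀ : ℂ)) := hG.fst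
  have hG0 : G ((k₀ : ℂ), (μ₀ : ℂ), (t₀ : ℂ)) = up (Vr k₀ μ₀ t₀) := hGr.self_of_nhds
  have h0 : f ((k₀ : ℂ), (μ₀ : ℂ), (t₀ : ℂ)) = 0 := by
    show (G ((k₀ : ℂ), (μ₀ : ℂ), (t₀ : ℂ))).1 = 0
    rw [hG0]
    show (((Vr k₀ μ₀ t₀).1 : ℝ) : ℂ) = 0
    rw [hTc.zero, Complex.ofReal_zero]
  have hd : deriv (fun t => f ((k₀ : ℂ), (μ₀ : ℂ), t)) (t₀ : ℂ) ≠ 0 := by
    have d1 : DifferentiableAt ℂ (fun t : ℂ => f ((k₀ : ℂ), (μ₀ : ℂ), t)) (t₀ : ℂ) := by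
      have e1 : DifferentiableAt ℂ f ((k₀ : ℂ), (μ₀ : ℂ), (t₀ : ℂ)) :=
        hfc.differentiableAt one_ne_zero
      have e2 : DifferentiableAt ℂ (fun t : ℂ => ((k₀ : ℂ), (μ₀ : ℂ), t)) (t₀ : ℂ) :=
        (differentiableAt_const _).prodMk ((differentiableAt_const _).prodMk differentiableAt_id)
      exact DifferentiableAt.comp (t₀ : ℂ) (g := f)
        (f := fun t : ℂ => ((k₀ : ℂ), (μ₀ : ℂ), t)) e1 e2
    have d2 := d1.hasDerivAt.comp_ofReal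
    have d3 := (hTc.der1 t₀ hTc.pos le_rfl).ofReal_comp
    have hev : (fun y : ℝ => f ((k₀ : ℂ), (μ₀ : ℂ), (y : ℂ))) =ᶠ[𝓝 t₀]
        fun y : ℝ => (((Vr k₀ μ₀ y).1 : ℝ) : ℂ) := by
      have hc : Tendsto (fun y : ℝ => (k₀, μ₀, y)) (𝓝 t₀) (𝓝 (k₀, μ₀, t₀)) :=
        (Continuous.prodMk continuous_const
          (Continuous.prodMk continuous_const continuous_id)).tendsto t₀
      filter_upwards [hc.eventually hGr] with y hy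
      show (G ((k₀ : ℂ), (μ₀ : ℂ), (y : ℂ))).1 = _
      rw [hy]
      rfl
    have d4 := d3.congr_of_eventuallyEq hev
    rw [d2.unique d4]
    exact Complex.ofReal_ne_zero.2 hTc.dneg.ne
  obtain ⟨τ, hτ, hτ0, hτz, hτu⟩ := implicit_C1 hfc h0 hd
  have hR0 : 0 < RR (Vr k₀ μ₀ t₀) := (hTc.dom t₀ hTc.pos le_rfl).1
  refine ⟨fun p => 2 * Complex.exp ((p.1 / 2) * Complex.log (RRc (G (p.1, p.2, τ p)))) -
    (1 + Complex.exp (p.1 * Complex.log p.2)), ?_, ?_⟩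
  · have c1 : ContDiffAt ℂ 1 (fun p : ℂ × ℂ => (p.1, p.2, τ p)) ((k₀ : ℂ), (μ₀ : ℂ)) :=
      contDiffAt_fst.prodMk (contDiffAt_snd.prodMk hτ)
    have c2 : ContDiffAt ℂ 1 (fun p : ℂ × ℂ => G (p.1, p.2, τ p)) ((k₀ : ℂ), (μ₀ : ℂ)) := by
      refine ContDiffAt.comp ((k₀ : ℂ), (μ₀ : ℂ)) (g := G) ?_ c1
      rw [hτ0]
      exact hG
    have c3 : ContDiffAt ℂ 1 (fun p : ℂ × ℂ => RRc (G (p.1, p.2, τ p))) ((k₀ : ℂ), (μ₀ : ℂ)) := by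
      unfold RRc
      exact (c2.fst.pow 2).add (c2.snd.pow 2)
    have c4 : ContDiffAt ℂ 1 (fun p : ℂ × ℂ => Complex.log (RRc (G (p.1, p.2, τ p))))
        ((k₀ : ℂ), (μ₀ : ℂ)) := by
      refine ContDiffAt.comp ((k₀ : ℂ), (μ₀ : ℂ)) (g := Complex.log) (Complex.contDiffAt_log ?_) c3
      rw [hτ0, hG0, RRc_up]
      exact Complex.ofReal_mem_slitPlane.2 hR0
    have c5 : ContDiffAt ℂ 1 (fun p : ℂ × ℂ => Complex.log p.2) ((k₀ : ℂ), (μ₀ : ℂ)) := by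
      refine ContDiffAt.comp ((k₀ : ℂ), (μ₀ : ℂ)) (g := Complex.log) (Complex.contDiffAt_log ?_)
        contDiffAt_snd
      exact Complex.ofReal_mem_slitPlane.2 hμ0
    have c6 : ContDiffAt ℂ 1 (fun p : ℂ × ℂ => p.1 / 2) ((k₀ : ℂ), (μ₀ : ℂ)) :=
      contDiffAt_fst.div_const 2
    exact (contDiffAt_const.mul (c6.mul c4).cexp).sub
      (contDiffAt_const.add (contDiffAt_fst.mul c5).cexp)
  · refine (eventually_nhdsWithin_iff (s := {p : ℝ × ℝ | 1 ≤ p.1})).1 ?_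
    have htc := tcr_tendsto hk hμ
    have hid : Tendsto (fun p : ℝ × ℝ => p) (𝓝[{p : ℝ × ℝ | 1 ≤ p.1}] (k₀, μ₀)) (𝓝 (k₀, μ₀)) :=
      tendsto_id.mono_left nhdsWithin_le_nhds
    have hf1 : Tendsto (fun p : ℝ × ℝ => p.1) (𝓝[{p : ℝ × ℝ | 1 ≤ p.1}] (k₀, μ₀)) (𝓝 k₀) :=
      (continuous_fst.tendsto (k₀, μ₀)).comp hid
    have hf2 : Tendsto (fun p : ℝ × ℝ => p.2) (𝓝[{p : ℝ × ℝ | 1 ≤ p.1}] (k₀, μ₀)) (𝓝 μ₀) :=
      (continuous_snd.tendsto (k₀, μ₀)).comp hid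
    have h3 : Tendsto (fun p : ℝ × ℝ => (p.1, p.2, tcr p.1 p.2))
        (𝓝[{p : ℝ × ℝ | 1 ≤ p.1}] (k₀, μ₀)) (𝓝 (k₀, μ₀, t₀)) :=
      hf1.prodMk_nhds (hf2.prodMk_nhds htc)
    have h3c : Tendsto (fun p : ℝ × ℝ => ((p.1 : ℂ), (p.2 : ℂ), ((tcr p.1 p.2 : ℝ) : ℂ)))
        (𝓝[{p : ℝ × ℝ | 1 ≤ p.1}] (k₀, μ₀)) (𝓝 ((k₀ : ℂ), (μ₀ : ℂ), (t₀ : ℂ))) :=
      ((Complex.continuous_ofReal.tendsto k₀).comp hf1).prodMk_nhds
        (((Complex.continuous_ofReal.tendsto μ₀).comp hf2).prodMk_nhds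
          ((Complex.continuous_ofReal.tendsto t₀).comp htc))
    have hμev : ∀ᶠ p : ℝ × ℝ in 𝓝[{p : ℝ × ℝ | 1 ≤ p.1}] (k₀, μ₀), 1 < p.2 :=
      hf2.eventually (lt_mem_nhds hμ)
    filter_upwards [h3.eventually hGr, h3c.eventually hτu, hμev, self_mem_nhdsWithin]
      with p hp1 hp2 hp3 hp4
    obtain ⟨r', P', hRC', hTc'⟩ := tcr_isTc hp4 hp3
    have hR' : 0 < RR (Vr p.1 p.2 (tcr p.1 p.2)) := (hTc'.dom _ hTc'.pos le_rfl).1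
    have hτp : ((tcr p.1 p.2 : ℝ) : ℂ) = τ ((p.1 : ℂ), (p.2 : ℂ)) := by
      apply hp2
      show (G ((p.1 : ℂ), (p.2 : ℂ), ((tcr p.1 p.2 : ℝ) : ℂ))).1 = 0
      rw [hp1]
      show (((Vr p.1 p.2 (tcr p.1 p.2)).1 : ℝ) : ℂ) = 0
      rw [hTc'.zero, Complex.ofReal_zero]
    show 2 * Complex.exp (((p.1 : ℂ) / 2) *
        Complex.log (RRc (G ((p.1 : ℂ), (p.2 : ℂ), τ ((p.1 : ℂ), (p.2 : ℂ)))))) -
      (1 + Complex.exp ((p.1 : ℂ) * Complex.log (p.2 : ℂ))) = _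
    rw [← hτp, hp1, RRc_up]
    have e1 : ((p.1 : ℂ) / 2) = ((p.1 / 2 : ℝ) : ℂ) := by push_cast; ring
    rw [e1, param3_rpow hR', param3_rpow (by linarith)]
    unfold Dl cc
    push_cast
    ring

end EQK
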