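import Pool.Agent.Lib.MP_226de1_co.K.RealLoc

/-! Cone condition for the approximants. -/

set_option autoImplicit false

namespace EQK

open Set Filter Topology

/-- the cone condition for the approximants, by induction on `n` with `cone_step`, `Cone.smul`
(the circle has `rho = 0`, `omg = 1`); differentiability by `hasDerivAt_TT` and the chain rule -/
theorem ur_cone {k μ : ℝ} (hk : 1 ≤ k) (hμ : 1 < μ) : ∃ r : ℝ, 0 < r ∧ ∀ (n : ℕ) (t : ℝ), 0 < t →
    t < r → 0 < (ur k μ n t).1 ∧ 0 < (ur k μ n t).2 ∧ Dm k μ (RR (ur k μ n t)) ∧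
      Cone μ (ur k μ n t) (urP k μ n t) ∧
      HasDerivAt (fun s => (ur k μ n s).1) (urP k μ n t).1 t ∧
      HasDerivAt (fun s => (ur k μ n s).2) (urP k μ n t).2 t := by
  have hk0 : 0 < k := by linarith
  have hμ0 : 0 < μ := by linarith
  obtain ⟨ε, r, A, hε, hr, hr1, hA, hAr, -, hall⟩ := real_loc hk0 hμ
  have e1 : |k - k| < ε := by simpa using hε
  have e2 : |μ - μ| < ε := by simpa using hε
  have hpos : ∀ (n : ℕ) (t : ℝ), 0 < t → t < r →
      0 < (ur k μ n t).1 ∧ 0 < (ur k μ n t).2 ∧ Dm k μ (RR (ur k μ n t)) ∧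
        1 ≤ lam k μ (RR (ur k μ n t)) := by
    intro n t ht htr
    have habs : |t| < r := by rwa [abs_of_pos ht]
    obtain ⟨-, -, -, -, -, -, -, -, hn⟩ := hall k μ t e1 e2 habs
    obtain ⟨-, h1, h2, h3, h4⟩ := hn n
    rw [abs_of_pos ht] at h4
    have h5 : A * t ^ 2 < 1 := by
      have : A * t ^ 2 ≤ A * r ^ 2 :=
        mul_le_mul_of_nonneg_left (pow_le_pow_left₀ ht.le htr.le 2) hA.le
      linarith
    have h6 := (abs_le.1 h3).1
    have h7 := (abs_le.1 h4).1
    refine ⟨by linarith, ?_, h1, h2⟩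
    have h8 : A * t ^ 3 = (A * t ^ 2) * t := by ring
    nlinarith
  refine ⟨r, hr, ?_⟩
  intro n
  induction n with
  | zero =>
    intro t ht htr
    obtain ⟨h1, h2, h3, -⟩ := hpos 0 t ht htr
    refine ⟨h1, h2, h3, ⟨?_, ?_, ?_⟩, ?_, ?_⟩
    · refine le_of_eq ?_
      simp only [rho, ur, urP]
      ring
    · have : omg (ur k μ 0 t) (urP k μ 0 t) = 1 := by
        simp only [omg, ur, urP]
        have := Real.sin_sq_add_cos_sq t
        nlinarith
      rw [this]
      exact one_pos
    · have e3 : omg (ur k μ 0 t) (urP k μ 0 t) = 1 := by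
        simp only [omg, ur, urP]
        have := Real.sin_sq_add_cos_sq t
        nlinarith
      have e4 : rho (ur k μ 0 t) (urP k μ 0 t) = 0 := by
        simp only [rho, ur, urP]
        ring
      rw [e3, e4, zero_mul, mul_one]
      exact mul_nonneg (by linarith) h2.le
    · exact Real.hasDerivAt_cos t
    · exact Real.hasDerivAt_sin t
  | succ n ih =>
    intro t ht htr
    obtain ⟨h1, h2, h3, -⟩ := hpos (n + 1) t ht htr
    have ht' : 0 < t / μ := div_pos ht hμ0
    have htr' : t / μ < r := by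
      rw [div_lt_iff₀ hμ0]
      nlinarith
    obtain ⟨a1, a2, a3, a4⟩ := hpos n (t / μ) ht' htr'
    obtain ⟨-, -, -, b4, b5, b6⟩ := ih (t / μ) ht' htr'
    have hX : 0 ≤ (TT k μ (ur k μ n (t / μ))).1 := h1.le
    have hc := (cone_step hk hμ a1 a2 a3 a4 hX b4).2
    refine ⟨h1, h2, h3, Cone.smul hμ0 hc, ?_, ?_⟩
    · have hd := (hasDerivAt_TT hk0 (W := fun y => ur k μ n y) (t := t / μ) a3 b5 b6).1
      have hs : HasDerivAt (fun s : ℝ => s / μ) (1 / μ) t := (hasDerivAt_id t).div_const μ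
      have hcomp := HasDerivAt.comp (h₂ := fun y => (TT k μ (ur k μ n y)).1) t hd hs
      have e : (urP k μ (n + 1) t).1 =
          (DT k μ (ur k μ n (t / μ)) (urP k μ n (t / μ))).1 * (1 / μ) := by
        simp only [urP]
        ring
      rw [e]
      exact hcomp
    · have hd := (hasDerivAt_TT hk0 (W := fun y => ur k μ n y) (t := t / μ) a3 b5 b6).2
      have hs : HasDerivAt (fun s : ℝ => s / μ) (1 / μ) t := (hasDerivAt_id t).div_const μ
      have hcomp := HasDerivAt.comp (h₂ := fun y => (TT k μ (ur k μ n y)).2) t hd hs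
      have e : (urP k μ (n + 1) t).2 =
          (DT k μ (ur k μ n (t / μ)) (urP k μ n (t / μ))).2 * (1 / μ) := by
        simp only [urP]
        ring
      rw [e]
      exact hcomp

end EQK
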