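import Pool.Agent.Lib.MP_226de1_co.K.RCex1

/-! Cone condition for the local curve. -/

set_option autoImplicit false

namespace EQK

open Set Filter Topology

private theorem rcex2_slice {F : ℂ → ℂ → ℂ → ℂ × ℂ} {k μ ε r : ℝ} (hε : 0 < ε)
    (hF : ContDiffOn ℂ 1 (fun p : ℂ × ℂ × ℂ => F p.1 p.2.1 p.2.2) (Bp k μ ε r)) :
    DifferentiableOn ℂ (fun z => (F k μ z).1) (Metric.ball 0 r) ∧
    DifferentiableOn ℂ (fun z => (F k μ z).2) (Metric.ball 0 r) := by
  have hd : DifferentiableOn ℂ (fun p : ℂ × ℂ × ℂ => F p.1 p.2.1 p.2.2) (Bp k μ ε r) :=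
    hF.differentiableOn one_ne_zero
  have hj : Differentiable ℂ (fun z : ℂ => ((k : ℂ), ((μ : ℂ), z))) :=
    (differentiable_const _).prodMk ((differentiable_const _).prodMk differentiable_id)
  have hmaps : MapsTo (fun z : ℂ => ((k : ℂ), ((μ : ℂ), z))) (Metric.ball 0 r)
      (Bp k μ ε r) := by
    intro z hz
    rw [mem_ball_zero_iff] at hz
    refine ⟨?_, ?_, hz⟩
    · simpa using hε
    · simpa using hε
  have h := hd.comp hj.differentiableOn hmaps
  exact ⟨h.fst, h.snd⟩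

private theorem rcex2_littleO {f : ℂ → ℂ} {c : ℂ} {A r : ℝ} (hr : 0 < r) (hA : 0 < A)
    (h0 : f 0 = c) {d : ℂ} (h : ∀ z : ℂ, ‖z‖ < r → ‖f z - c - z * d‖ ≤ A * ‖z‖ ^ 2) :
    deriv f 0 = d := by
  refine HasDerivAt.deriv ?_
  rw [hasDerivAt_iff_isLittleO, Asymptotics.isLittleO_iff]
  intro e he
  have hm : 0 < min r (e / A) := lt_min hr (div_pos he hA)
  filter_upwards [Metric.ball_mem_nhds (0 : ℂ) hm] with z hz
  rw [mem_ball_zero_iff] at hz
  have hz1 : ‖z‖ < r := hz.trans_le (min_le_left _ _)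
  have hz2 : ‖z‖ < e / A := hz.trans_le (min_le_right _ _)
  have h1 := h z hz1
  rw [h0, sub_zero, smul_eq_mul]
  refine h1.trans ?_
  rw [lt_div_iff₀ hA] at hz2
  have := norm_nonneg z
  nlinarith

/-- For small `t > 0` the local curve is differentiable and its velocity `P` is the limit of the
velocities of the approximants (`VC_loc`: convergence of the complex derivatives; real derivative
= real part of the complex derivative, `HasDerivAt.real_of_complex`), so it satisfies the weak cone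
conditions; `omg > 0` since `P → (0,1)` as `t → 0` (`VC` is `C¹` at `(k, μ, 0)` and
`‖V.1 - 1‖ ≤ A t²`, `‖V.2 - t‖ ≤ A |t|³`). -/
theorem vr_cone {k μ : ℝ} (hk : 1 ≤ k) (hμ : 1 < μ) : ∃ r : ℝ, ∃ P : ℝ → ℝ × ℝ, 0 < r ∧ ∀ t : ℝ,
    0 < t → t < r → 0 < (vr k μ t).1 ∧ 0 < (vr k μ t).2 ∧ Dm k μ (RR (vr k μ t)) ∧
      Cone μ (vr k μ t) (P t) ∧
      HasDerivAt (fun s => (vr k μ s).1) (P t).1 t ∧
      HasDerivAt (fun s => (vr k μ s).2) (P t).2 t := by
  have hk0 : 0 < k := by linarith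
  have hμ0 : 0 < μ := by linarith
  obtain ⟨ε₁, r₁, A₁, hε₁, hr₁, hr₁1, hA₁, hAr₁, hcd, hV⟩ := VC_loc hk0 hμ
  obtain ⟨ε₂, r₂, hε₂, hr₂, hU⟩ := UC_contDiffOn hk0 hμ
  obtain ⟨ε, r₃, A, hε, hr₃, hr31, hA, hAr, -, hall⟩ := real_loc hk0 hμ
  obtain ⟨r₄, hr₄, hcone⟩ := ur_cone hk hμ
  have e1 : |k - k| < ε := by simpa using hε
  have e2 : |μ - μ| < ε := by simpa using hε
  have c1 : ‖(k : ℂ) - (k : ℂ)‖ < ε₁ := by simpa using hε₁
  have c2 : ‖(μ : ℂ) - (μ : ℂ)‖ < ε₁ := by simpa using hε₁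
  obtain ⟨dV1, dV2⟩ := rcex2_slice hε₁ hcd
  have hUd : ∀ n : ℕ, DifferentiableOn ℂ (fun z => (UC n k μ z).1) (Metric.ball 0 r₂) ∧
    DifferentiableOn ℂ (fun z => (UC n k μ z).2) (Metric.ball 0 r₂) :=
    fun n => rcex2_slice hε₂ (hU n).1
  -- derivatives at zero
  have hV0 := hV k μ 0 c1 c2 (by simpa using hr₁)
  have z1 : (VC k μ 0).1 = 1 := by
    have h := hV0.2.2.2.2.1
    simp only [norm_zero] at h
    have h' : ‖(VC k μ 0).1 - 1‖ ≤ 0 := by simpa using h
    exact sub_eq_zero.1 (norm_le_zero_iff.1 h')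
  have z2 : (VC k μ 0).2 = 0 := by
    have h := hV0.2.2.2.2.2.1
    have h' : ‖(VC k μ 0).2 - 0‖ ≤ 0 := by simpa using h
    exact sub_eq_zero.1 (norm_le_zero_iff.1 h')
  have D1 : deriv (fun z : ℂ => (VC k μ z).1) 0 = 0 := by
    refine rcex2_littleO (c := 1) hr₁ hA₁ z1 ?_
    intro z hz
    rw [mul_zero, sub_zero]
    exact (hV k μ z c1 c2 hz).2.2.2.2.1
  have D2 : deriv (fun z : ℂ => (VC k μ z).2) 0 = 1 := by
    refine rcex2_littleO (c := 0) hr₁ hA₁ z2 ?_
    intro z hz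
    rw [mul_one, sub_zero]
    have h := (hV k μ z c1 c2 hz).2.2.2.2.2.1
    refine h.trans ?_
    have h1 : ‖z‖ < 1 := hz.trans hr₁1
    have h2 := norm_nonneg z
    have h3 : ‖z‖ ^ 3 ≤ ‖z‖ ^ 2 := pow_le_pow_of_le_one h2 h1.le (by norm_num)
    exact mul_le_mul_of_nonneg_left h3 hA₁.le
  have hb : Metric.ball (0 : ℂ) r₁ ∈ 𝓝 (0 : ℂ) := Metric.ball_mem_nhds _ hr₁
  have C1 : ContinuousAt (deriv (fun z : ℂ => (VC k μ z).1)) 0 :=
    (dV1.analyticAt hb).deriv.continuousAt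
  have C2 : ContinuousAt (deriv (fun z : ℂ => (VC k μ z).2)) 0 :=
    (dV2.analyticAt hb).deriv.continuousAt
  have C3 : ContinuousAt (fun z : ℂ => (VC k μ z).1) 0 := (dV1.analyticAt hb).continuousAt
  have C4 : ContinuousAt (fun z : ℂ => (VC k μ z).2) 0 := (dV2.analyticAt hb).continuousAt
  let P : ℝ → ℝ × ℝ := fun t => ((deriv (fun z : ℂ => (VC k μ z).1) (t : ℂ)).re,
    (deriv (fun z : ℂ => (VC k μ z).2) (t : ℂ)).re)
  have hω : ∃ r₅ : ℝ, 0 < r₅ ∧ ∀ t : ℝ, |t| < r₅ → 0 < omg (vr k μ t) (P t) := by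
    have hcast : ContinuousAt (fun t : ℝ => (t : ℂ)) 0 := Complex.continuous_ofReal.continuousAt
    have hc0 : ((0 : ℝ) : ℂ) = 0 := Complex.ofReal_zero
    have k1 : ContinuousAt (fun t : ℝ => (deriv (fun z : ℂ => (VC k μ z).1) (t : ℂ)).re) 0 := by
      refine Complex.continuous_re.continuousAt.comp ?_
      exact ContinuousAt.comp (f := fun t : ℝ => (t : ℂ)) (by rw [hc0]; exact C1) hcast
    have k2 : ContinuousAt (fun t : ℝ => (deriv (fun z : ℂ => (VC k μ z).2) (t : ℂ)).re) 0 := by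
      refine Complex.continuous_re.continuousAt.comp ?_
      exact ContinuousAt.comp (f := fun t : ℝ => (t : ℂ)) (by rw [hc0]; exact C2) hcast
    have k3 : ContinuousAt (fun t : ℝ => (VC k μ t).1.re) 0 := by
      refine Complex.continuous_re.continuousAt.comp ?_
      exact ContinuousAt.comp (f := fun t : ℝ => (t : ℂ)) (g := fun z : ℂ => (VC k μ z).1)
        (by rw [hc0]; exact C3) hcast
    have k4 : ContinuousAt (fun t : ℝ => (VC k μ t).2.re) 0 := by
      refine Complex.continuous_re.continuousAt.comp ?_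
      exact ContinuousAt.comp (f := fun t : ℝ => (t : ℂ)) (g := fun z : ℂ => (VC k μ z).2)
        (by rw [hc0]; exact C4) hcast
    have k5 : ContinuousAt (fun t : ℝ => omg (vr k μ t) (P t)) 0 := (k3.mul k2).sub (k4.mul k1)
    have k6 : omg (vr k μ 0) (P 0) = 1 := by
      simp only [omg, vr, dn2, P, Complex.ofReal_zero, z1, z2, D1, D2]
      simp
    have k7 : ∀ᶠ t in 𝓝 (0 : ℝ), 0 < omg (vr k μ t) (P t) := by
      refine k5.eventually_const_lt ?_
      change 0 < omg (vr k μ 0) (P 0)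
      rw [k6]
      exact one_pos
    obtain ⟨r₅, hr₅, h5⟩ := Metric.eventually_nhds_iff.1 k7
    refine ⟨r₅, hr₅, fun t ht => h5 ?_⟩
    rw [Real.dist_eq, sub_zero]
    exact ht
  obtain ⟨r₅, hr₅, hω⟩ := hω
  have hm : 0 < min (min r₁ r₂) (min (min r₃ r₄) r₅) :=
    lt_min (lt_min hr₁ hr₂) (lt_min (lt_min hr₃ hr₄) hr₅)
  refine ⟨min (min r₁ r₂) (min (min r₃ r₄) r₅), P, hm, ?_⟩
  intro t ht htr
  have t1 : t < r₁ := htr.trans_le ((min_le_left _ _).trans (min_le_left _ _))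
  have t2 : t < r₂ := htr.trans_le ((min_le_left _ _).trans (min_le_right _ _))
  have t3 : t < r₃ := htr.trans_le ((min_le_right _ _).trans ((min_le_left _ _).trans
    (min_le_left _ _)))
  have t4 : t < r₄ := htr.trans_le ((min_le_right _ _).trans ((min_le_left _ _).trans
    (min_le_right _ _)))
  have t5 : t < r₅ := htr.trans_le ((min_le_right _ _).trans (min_le_right _ _))
  have habs : |t| < r₃ := by rwa [abs_of_pos ht]
  have hnt : ‖(t : ℂ)‖ < r₁ := by
    rw [Complex.norm_real, Real.norm_eq_abs, abs_of_pos ht]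
    exact t1
  have hnt2 : ‖(t : ℂ)‖ < r₂ := by
    rw [Complex.norm_real, Real.norm_eq_abs, abs_of_pos ht]
    exact t2
  obtain ⟨-, -, hup, hD, -, -, b1, b2, -⟩ := hall k μ t e1 e2 habs
  rw [abs_of_pos ht] at b2
  have h5 : A * t ^ 2 < 1 := by
    have : A * t ^ 2 ≤ A * r₃ ^ 2 :=
      mul_le_mul_of_nonneg_left (pow_le_pow_left₀ ht.le t3.le 2) hA.le
    linarith
  have h6 := (abs_le.1 b1).1
  have h7 := (abs_le.1 b2).1
  have p1 : 0 < (vr k μ t).1 := by linarith
  have p2 : 0 < (vr k μ t).2 := by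
    have h8 : A * t ^ 3 = (A * t ^ 2) * t := by ring
    nlinarith
  -- derivatives of the limit curve
  have d1 : HasDerivAt (fun s => (vr k μ s).1) (P t).1 t := by
    have h := (dV1.differentiableAt (Metric.isOpen_ball.mem_nhds
      (by rw [mem_ball_zero_iff]; exact hnt))).hasDerivAt
    exact h.real_of_complex
  have d2 : HasDerivAt (fun s => (vr k μ s).2) (P t).2 t := by
    have h := (dV2.differentiableAt (Metric.isOpen_ball.mem_nhds
      (by rw [mem_ball_zero_iff]; exact hnt))).hasDerivAt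
    exact h.real_of_complex
  -- velocities of the approximants
  have hev : ∀ n : ℕ, ∀ᶠ s : ℝ in 𝓝 t, UC n k μ (s : ℂ) = up (ur k μ n s) := by
    intro n
    have h1 : ∀ᶠ s : ℝ in 𝓝 t, |s| < r₃ := continuous_abs.continuousAt.eventually_lt_const habs
    filter_upwards [h1] with s hs
    obtain ⟨-, -, -, -, -, -, -, -, hn⟩ := hall k μ s e1 e2 hs
    exact (hn n).1
  have hP1 : ∀ n : ℕ, (urP k μ n t).1 = (deriv (fun z : ℂ => (UC n k μ z).1) (t : ℂ)).re := by
    intro n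
    have h := ((hUd n).1.differentiableAt (Metric.isOpen_ball.mem_nhds
      (by rw [mem_ball_zero_iff]; exact hnt2))).hasDerivAt
    have h1 := h.real_of_complex
    have h2 : HasDerivAt (fun s => (ur k μ n s).1)
        (deriv (fun z : ℂ => (UC n k μ z).1) (t : ℂ)).re t := by
      refine h1.congr_of_eventuallyEq ?_
      filter_upwards [hev n] with s hs
      rw [hs]
      rfl
    exact ((hcone n t ht t4).2.2.2.2.1).unique h2
  have hP2 : ∀ n : ℕ, (urP k μ n t).2 = (deriv (fun z : ℂ => (UC n k μ z).2) (t : ℂ)).re := by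
    intro n
    have h := ((hUd n).2.differentiableAt (Metric.isOpen_ball.mem_nhds
      (by rw [mem_ball_zero_iff]; exact hnt2))).hasDerivAt
    have h1 := h.real_of_complex
    have h2 : HasDerivAt (fun s => (ur k μ n s).2)
        (deriv (fun z : ℂ => (UC n k μ z).2) (t : ℂ)).re t := by
      refine h1.congr_of_eventuallyEq ?_
      filter_upwards [hev n] with s hs
      rw [hs]
      rfl
    exact ((hcone n t ht t4).2.2.2.2.2).unique h2
  obtain ⟨-, -, -, -, -, -, -, l0, l1, l2⟩ := hV k μ t c1 c2 hnt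
  have L1 : Tendsto (fun n => (ur k μ n t).1) atTop (𝓝 (vr k μ t).1) := by
    have h : Tendsto (fun n => (UC n k μ t).1.re) atTop (𝓝 (VC k μ t).1.re) :=
      (Complex.continuous_re.tendsto _).comp ((continuous_fst.tendsto _).comp l0)
    refine h.congr fun n => ?_
    rw [(hev n).self_of_nhds]
    rfl
  have L2 : Tendsto (fun n => (ur k μ n t).2) atTop (𝓝 (vr k μ t).2) := by
    have h : Tendsto (fun n => (UC n k μ t).2.re) atTop (𝓝 (VC k μ t).2.re) :=
      (Complex.continuous_re.tendsto _).comp ((continuous_snd.tendsto _).comp l0)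
    refine h.congr fun n => ?_
    rw [(hev n).self_of_nhds]
    rfl
  have L3 : Tendsto (fun n => (urP k μ n t).1) atTop (𝓝 (P t).1) := by
    refine ((Complex.continuous_re.tendsto _).comp l1).congr fun n => ?_
    exact (hP1 n).symm
  have L4 : Tendsto (fun n => (urP k μ n t).2) atTop (𝓝 (P t).2) := by
    refine ((Complex.continuous_re.tendsto _).comp l2).congr fun n => ?_
    exact (hP2 n).symm
  have Lρ : Tendsto (fun n => rho (ur k μ n t) (urP k μ n t)) atTop
      (𝓝 (rho (vr k μ t) (P t))) := (L1.mul L3).add (L2.mul L4)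
  have Lω : Tendsto (fun n => omg (ur k μ n t) (urP k μ n t)) atTop
      (𝓝 (omg (vr k μ t) (P t))) := (L1.mul L4).sub (L2.mul L3)
  have LR : Tendsto (fun n => RR (ur k μ n t)) atTop (𝓝 (RR (vr k μ t))) :=
    (L1.pow 2).add (L2.pow 2)
  refine ⟨p1, p2, hD, ⟨?_, ?_, ?_⟩, d1, d2⟩
  · exact ge_of_tendsto' Lρ fun n => (hcone n t ht t4).2.2.2.1.1
  · exact hω t (by rwa [abs_of_pos ht])
  · refine le_of_tendsto_of_tendsto' (Lρ.mul (LR.add (L1.const_mul (μ - 1))))
      ((L2.const_mul (μ - 1)).mul Lω) fun n => ?_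
    exact (hcone n t ht t4).2.2.2.1.2.2

end EQK
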