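import Pool.Agent.Lib.MP_226de1_co.K.VC3
import Pool.Agent.Lib.MP_226de1_co.K.Cone

/-! The unstable curve near the saddle at real parameters. -/

set_option autoImplicit false

namespace EQK

open Set Filter Topology

noncomputable section

/-- real approximants -/
def ur (k μ : ℝ) : ℕ → ℝ → ℝ × ℝ
  | 0, t => (Real.cos t, Real.sin t)
  | n + 1, t => TT k μ (ur k μ n (t / μ))

/-- their velocities -/
def urP (k μ : ℝ) : ℕ → ℝ → ℝ × ℝ
  | 0, t => (-Real.sin t, Real.cos t)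
  | n + 1, t => ((DT k μ (ur k μ n (t / μ)) (urP k μ n (t / μ))).1 / μ,
      (DT k μ (ur k μ n (t / μ)) (urP k μ n (t / μ))).2 / μ)

/-- real local curve -/
def vr (k μ t : ℝ) : ℝ × ℝ := dn2 (VC k μ t)

/-- elementary estimate of the distance to the unit circle -/
private theorem RL_R {A t X Y : ℝ} (hA : 0 < A) (hAt : A * t ^ 2 ≤ 1) (h1 : |X - 1| ≤ A * t ^ 2)
    (h2 : |Y - t| ≤ A * |t| ^ 3) : |RR (X, Y) - 1| ≤ (3 * A + 4) * t ^ 2 := by
  have ht : 0 ≤ t ^ 2 := sq_nonneg t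
  have hX : |X + 1| ≤ 3 := by
    have h3 : X + 1 = (X - 1) + 2 := by ring
    rw [h3]
    refine (abs_add_le _ _).trans ?_
    rw [abs_of_pos (two_pos : (0 : ℝ) < 2)]
    linarith
  have hY : |Y| ≤ 2 * |t| := by
    have h3 : Y = (Y - t) + t := by ring
    rw [h3]
    refine (abs_add_le _ _).trans ?_
    have h4 : A * |t| ^ 3 ≤ |t| := by
      have h5 : A * |t| ^ 3 = (A * t ^ 2) * |t| := by
        rw [← sq_abs t]
        ring
      rw [h5]
      exact mul_le_of_le_one_left (abs_nonneg t) hAt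
    linarith
  have e1 : RR (X, Y) - 1 = (X - 1) * (X + 1) + Y ^ 2 := by
    unfold RR
    ring
  rw [e1]
  refine (abs_add_le _ _).trans ?_
  have h5 : |(X - 1) * (X + 1)| ≤ A * t ^ 2 * 3 := by
    rw [abs_mul]
    exact mul_le_mul h1 hX (abs_nonneg _) (by positivity)
  have h6 : |Y ^ 2| ≤ 4 * t ^ 2 := by
    rw [abs_pow, ← sq_abs t]
    have h7 := pow_le_pow_left₀ (abs_nonneg Y) hY 2
    calc |Y| ^ 2 ≤ (2 * |t|) ^ 2 := h7
      _ = 4 * |t| ^ 2 := by ring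
  linarith

/-- the box in which the points are in the domain and `1 ≤ lam` -/
private theorem RL_box {k₀ μ₀ : ℝ} (hk : 0 < k₀) (hμ : 1 < μ₀) : ∃ δ : ℝ, 0 < δ ∧ δ < 1 ∧ δ < k₀ ∧ δ < μ₀ - 1 ∧
    ∀ k μ R : ℝ, |k - k₀| < δ → |μ - μ₀| < δ → |R - 1| < δ → 0 < R ∧ 2 * R ^ (k / 2) < cc k μ := by
  have hc : ContinuousAt (fun p : ℝ × ℝ × ℝ => 1 + p.2.1 ^ p.1 - 2 * p.2.2 ^ (p.1 / 2)) (k₀, μ₀, 1) := by
    refine ContinuousAt.sub (ContinuousAt.add continuousAt_const ?_) (ContinuousAt.mul continuousAt_const ?_)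
    · refine ContinuousAt.rpow (by fun_prop) (by fun_prop) (Or.inl ?_)
      show μ₀ ≠ 0
      linarith
    · refine ContinuousAt.rpow (by fun_prop) (by fun_prop) (Or.inl ?_)
      show (1 : ℝ) ≠ 0
      exact one_ne_zero
  have h0 : (0 : ℝ) < 1 + μ₀ ^ k₀ - 2 * 1 ^ (k₀ / 2) := by
    rw [Real.one_rpow]
    have := Real.one_lt_rpow hμ hk
    linarith
  have hev := hc.eventually (lt_mem_nhds (show (0 : ℝ) < (fun p : ℝ × ℝ × ℝ => 1 + p.2.1 ^ p.1 - 2 * p.2.2 ^ (p.1 / 2)) (k₀, μ₀, 1) from h0))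
  rw [Metric.eventually_nhds_iff] at hev
  obtain ⟨δ, hδ, H⟩ := hev
  refine ⟨min δ (min (1 / 2) (min (k₀ / 2) ((μ₀ - 1) / 2))), ?_, ?_, ?_, ?_, ?_⟩
  · refine lt_min hδ (lt_min (by norm_num) (lt_min (by linarith) (by linarith)))
  · refine lt_of_le_of_lt (min_le_right _ _) (lt_of_le_of_lt (min_le_left _ _) (by norm_num))
  · refine lt_of_le_of_lt (min_le_right _ _) (lt_of_le_of_lt (min_le_right _ _) ?_)
    exact lt_of_le_of_lt (min_le_left _ _) (by linarith)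
  · refine lt_of_le_of_lt (min_le_right _ _) (lt_of_le_of_lt (min_le_right _ _) ?_)
    exact lt_of_le_of_lt (min_le_right _ _) (by linarith)
  · intro k μ R h1 h2 h3
    have h3' : |R - 1| < 1 / 2 := h3.trans_le ((min_le_right _ _).trans (min_le_left _ _))
    refine ⟨by linarith [(abs_lt.1 h3').1], ?_⟩
    have h4 := H (y := (k, μ, R)) (by
      rw [Prod.dist_eq, Prod.dist_eq, Real.dist_eq, Real.dist_eq, Real.dist_eq]
      exact max_lt (h1.trans_le (min_le_left _ _))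
        (max_lt (h2.trans_le (min_le_left _ _)) (h3.trans_le (min_le_left _ _))))
    unfold cc
    simp only at h4
    linarith

private theorem RL_Dm {k μ R : ℝ} (hk : 0 < k) (hR : 0 < R) (h : 2 * R ^ (k / 2) < cc k μ) :
    Dm k μ R ∧ 1 ≤ lam k μ R := by
  have hp : 0 < R ^ (k / 2) := Real.rpow_pos_of_pos hR _
  have hd : Dm k μ R := ⟨hR, by linarith⟩
  refine ⟨hd, one_le_lam hd ?_⟩
  have h1 := lam_sq_rpow hk hd
  have h2 : R ^ (k / 2) ≤ (lam k μ R ^ 2 * R) ^ (k / 2) := by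
    rw [h1]
    linarith
  exact (Real.rpow_le_rpow_iff hR.le (mul_nonneg (sq_nonneg _) hR.le) (by linarith)).1 h2

/-- Real version of `VC_loc` on a possibly smaller box: for `(k, μ, R)` near `(k₀, μ₀, 1)`,
`R^(k/2) < 1 + μ^k`, and `2 R^(k/2) ≤ 1 + μ^k`; `UC n = up (ur n)` by induction (`TC_ofReal`), the limit of
real points is real. -/
theorem real_loc {k₀ μ₀ : ℝ} (hk : 0 < k₀) (hμ : 1 < μ₀) : ∃ ε r A : ℝ, 0 < ε ∧ 0 < r ∧ r < 1 ∧
    0 < A ∧ A * r ^ 2 < 1 ∧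
    ContDiffOn ℂ 1 (fun p : ℂ × ℂ × ℂ => VC p.1 p.2.1 p.2.2) (Bp k₀ μ₀ ε r) ∧
    ∀ k μ t : ℝ, |k - k₀| < ε → |μ - μ₀| < ε → |t| < r → 0 < k ∧ 1 < μ ∧
      VC k μ t = up (vr k μ t) ∧ Dm k μ (RR (vr k μ t)) ∧ 1 ≤ lam k μ (RR (vr k μ t)) ∧
      TT k μ (vr k μ (t / μ)) = vr k μ t ∧
      |(vr k μ t).1 - 1| ≤ A * t ^ 2 ∧ |(vr k μ t).2 - t| ≤ A * |t| ^ 3 ∧
      ∀ n, UC n k μ t = up (ur k μ n t) ∧ Dm k μ (RR (ur k μ n t)) ∧
        1 ≤ lam k μ (RR (ur k μ n t)) ∧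
        |(ur k μ n t).1 - 1| ≤ A * t ^ 2 ∧ |(ur k μ n t).2 - t| ≤ A * |t| ^ 3 := by
  obtain ⟨ε₀, r₀, A, hε₀, hr₀, hr₀1, hA, hAr, hCD, H⟩ := VC_loc hk hμ
  obtain ⟨δ, hδ, hδ1, hδk, hδμ, HB⟩ := RL_box hk hμ
  have h5 : 0 < 3 * A + 5 := by linarith
  set r : ℝ := min r₀ (δ / (3 * A + 5)) with hr
  have hr0 : 0 < r := lt_min hr₀ (div_pos hδ h5)
  have hrr₀ : r ≤ r₀ := min_le_left _ _
  have hr1 : r < 1 := hrr₀.trans_lt hr₀1
  have hrδ : (3 * A + 5) * r ≤ δ := by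
    have h6 : r ≤ δ / (3 * A + 5) := min_le_right _ _
    rw [le_div_iff₀ h5] at h6
    linarith
  have hr2 : (3 * A + 4) * r ^ 2 < δ := by
    have h6 : r ^ 2 ≤ r := by nlinarith
    have h7 : (3 * A + 4) * r ^ 2 ≤ (3 * A + 4) * r := mul_le_mul_of_nonneg_left h6 (by linarith)
    linarith
  have hAr2 : A * r ^ 2 < 1 := by
    have h6 : 0 ≤ r ^ 2 := sq_nonneg r
    have h7 : A * r ^ 2 ≤ (3 * A + 4) * r ^ 2 := mul_le_mul_of_nonneg_right (by linarith) h6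
    linarith
  refine ⟨min ε₀ δ, r, A, lt_min hε₀ hδ, hr0, hr1, hA, hAr2, ?_, ?_⟩
  · refine hCD.mono ?_
    rintro p ⟨h1, h2, h3⟩
    exact ⟨h1.trans_le (min_le_left _ _), h2.trans_le (min_le_left _ _), h3.trans_le hrr₀⟩
  intro k μ t h1 h2 ht
  have hk0 : 0 < k := by
    have := (abs_lt.1 (h1.trans_le (min_le_right _ _))).1
    linarith
  have hμ1 : 1 < μ := by
    have := (abs_lt.1 (h2.trans_le (min_le_right _ _))).1
    linarith
  have hμ0 : 0 < μ := by linarith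
  have hn : ∀ x y : ℝ, ‖(x : ℂ) - (y : ℂ)‖ = |x - y| := by
    intro x y
    rw [← Complex.ofReal_sub, Complex.norm_real, Real.norm_eq_abs]
  have hT : ∀ s : ℝ, |s| < r → _ := fun s hs => H (k : ℂ) (μ : ℂ) (s : ℂ)
    (by rw [hn]; exact h1.trans_le (min_le_left _ _)) (by rw [hn]; exact h2.trans_le (min_le_left _ _))
    (by rw [Complex.norm_real, Real.norm_eq_abs]; exact hs.trans_le hrr₀)
  have hdiv : ∀ s : ℝ, |s| < r → |s / μ| < r := by
    intro s hs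
    rw [abs_div, abs_of_pos hμ0]
    exact (div_le_self (abs_nonneg s) hμ1.le).trans_lt hs
  have hcast : ∀ s : ℝ, ((s / μ : ℝ) : ℂ) = (s : ℂ) / (μ : ℂ) := fun s => by push_cast; rfl
  -- points with the bounds are in the domain
  have key : ∀ (s : ℝ) (V : ℝ × ℝ), |s| < r → |V.1 - 1| ≤ A * s ^ 2 → |V.2 - s| ≤ A * |s| ^ 3 →
      Dm k μ (RR V) ∧ 1 ≤ lam k μ (RR V) := by
    intro s V hs e1 e2
    have hs2 : s ^ 2 ≤ r ^ 2 := by
      rw [← sq_abs s]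
      exact pow_le_pow_left₀ (abs_nonneg s) hs.le 2
    have e3 : A * s ^ 2 ≤ 1 := (mul_le_mul_of_nonneg_left hs2 hA.le).trans hAr2.le
    have e4 := RL_R hA e3 e1 e2
    have e5 : |RR V - 1| < δ := by
      refine lt_of_le_of_lt e4 (lt_of_le_of_lt ?_ hr2)
      exact mul_le_mul_of_nonneg_left hs2 (by linarith)
    obtain ⟨e6, e7⟩ := HB k μ (RR V) (h1.trans_le (min_le_right _ _)) (h2.trans_le (min_le_right _ _)) e5
    exact RL_Dm hk0 e6 e7
  have hnormsq : ∀ s : ℝ, ‖(s : ℂ)‖ ^ 2 = s ^ 2 := by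
    intro s
    rw [Complex.norm_real, Real.norm_eq_abs, sq_abs]
  -- bounds for real points
  have hbd : ∀ (s : ℝ) (V : ℝ × ℝ), ‖(up V).1 - 1‖ ≤ A * ‖(s : ℂ)‖ ^ 2 → ‖(up V).2 - (s : ℂ)‖ ≤ A * ‖(s : ℂ)‖ ^ 3 →
      |V.1 - 1| ≤ A * s ^ 2 ∧ |V.2 - s| ≤ A * |s| ^ 3 := by
    intro s V e1 e2
    rw [hnormsq] at e1
    rw [Complex.norm_real, Real.norm_eq_abs] at e2
    have e3 : (up V).1 - 1 = ((V.1 : ℝ) : ℂ) - ((1 : ℝ) : ℂ) := by
      show ((V.1 : ℝ) : ℂ) - 1 = _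
      rw [Complex.ofReal_one]
    have e4 : (up V).2 - (s : ℂ) = ((V.2 : ℝ) : ℂ) - (s : ℂ) := rfl
    rw [e3, hn] at e1
    rw [e4, hn] at e2
    exact ⟨e1, e2⟩
  have hU : ∀ n : ℕ, ∀ s : ℝ, |s| < r → UC n k μ s = up (ur k μ n s) := by
    intro n
    induction n with
    | zero =>
      intro s _
      show (Complex.cos (s : ℂ), Complex.sin (s : ℂ)) = (((Real.cos s : ℝ) : ℂ), ((Real.sin s : ℝ) : ℂ))
      rw [Complex.ofReal_cos, Complex.ofReal_sin]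
    | succ n ih =>
      intro s hs
      have e1 : UC (n + 1) k μ s = TC k μ (UC n k μ ((s : ℂ) / (μ : ℂ))) := rfl
      have e2 : ur k μ (n + 1) s = TT k μ (ur k μ n (s / μ)) := rfl
      have hs' := hdiv s hs
      obtain ⟨-, -, -, -, -, -, hb, -, -, -⟩ := hT (s / μ) hs'
      have hb' := hb n
      rw [ih (s / μ) hs'] at hb'
      obtain ⟨b1, b2⟩ := hbd (s / μ) _ hb'.1 hb'.2
      rw [e1, e2, ← hcast, ih (s / μ) hs', TC_ofReal hμ1 (key (s / μ) _ hs' b1 b2).1]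
  have hV : ∀ s : ℝ, |s| < r → VC k μ s = up (vr k μ s) := by
    intro s hs
    obtain ⟨-, -, -, -, -, -, -, hlim, -, -⟩ := hT s hs
    have e1 : Tendsto (fun n => (UC n k μ s).1.im) atTop (𝓝 (VC k μ s).1.im) :=
      ((Complex.continuous_im.comp continuous_fst).tendsto _).comp hlim
    have e2 : Tendsto (fun n => (UC n k μ s).2.im) atTop (𝓝 (VC k μ s).2.im) :=
      ((Complex.continuous_im.comp continuous_snd).tendsto _).comp hlim
    have e3 : (fun n => (UC n k μ s).1.im) = fun _ => (0 : ℝ) := by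
      funext n
      rw [hU n s hs]
      exact Complex.ofReal_im _
    have e4 : (fun n => (UC n k μ s).2.im) = fun _ => (0 : ℝ) := by
      funext n
      rw [hU n s hs]
      exact Complex.ofReal_im _
    rw [e3] at e1
    rw [e4] at e2
    have e5 := tendsto_nhds_unique e1 tendsto_const_nhds
    have e6 := tendsto_nhds_unique e2 tendsto_const_nhds
    refine Prod.ext ?_ ?_
    · show (VC k μ s).1 = (((VC k μ s).1.re : ℝ) : ℂ)
      apply Complex.ext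
      · rw [Complex.ofReal_re]
      · rw [Complex.ofReal_im, e5]
    · show (VC k μ s).2 = (((VC k μ s).2.re : ℝ) : ℂ)
      apply Complex.ext
      · rw [Complex.ofReal_re]
      · rw [Complex.ofReal_im, e6]
  obtain ⟨-, -, -, hfe, hb1, hb2, hbn, -, -, -⟩ := hT t ht
  rw [hV t ht] at hb1 hb2
  obtain ⟨c1, c2⟩ := hbd t _ hb1 hb2
  have hk1 := key t _ ht c1 c2
  have ht' := hdiv t ht
  obtain ⟨-, -, -, -, hb1', hb2', -, -, -, -⟩ := hT (t / μ) ht'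
  rw [hV (t / μ) ht'] at hb1' hb2'
  obtain ⟨c1', c2'⟩ := hbd (t / μ) _ hb1' hb2'
  have hk2 := key (t / μ) _ ht' c1' c2'
  refine ⟨hk0, hμ1, hV t ht, hk1.1, hk1.2, ?_, c1, c2, ?_⟩
  · rw [← hcast, hV (t / μ) ht', TC_ofReal hμ1 hk2.1, hV t ht] at hfe
    exact congrArg dn2 hfe
  · intro n
    have hb' := hbn n
    rw [hU n t ht] at hb'
    obtain ⟨b1, b2⟩ := hbd t _ hb'.1 hb'.2
    have hk3 := key t _ ht b1 b2
    exact ⟨hU n t ht, hk3.1, hk3.2, b1, b2⟩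

end

end EQK
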