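import Pool.Agent.Lib.MP_226de1_co.K.Basic

/-! Uniqueness of the unstable curve: a backward orbit converging to the saddle lies on the curve. -/

set_option autoImplicit false

namespace EQK

open Set Filter Topology

/-- box around the saddle -/
def Bx (ε : ℝ) (V : ℝ × ℝ) : Prop := |V.1 - 1| ≤ ε ∧ |V.2| ≤ ε

/-- the map near the saddle: contraction in the first direction -/
structure NS (T : ℝ × ℝ → ℝ × ℝ) (lf : ℝ × ℝ → ℝ) (ε κ L θ : ℝ) : Prop where
  hε : 0 < ε
  hκ0 : 0 ≤ κ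
  hκ : κ < 1
  hL : 0 ≤ L
  hθ : 1 < θ
  T1 : ∀ V W, Bx ε V → Bx ε W →
    |(T V).1 - (T W).1| ≤ κ * |V.1 - W.1| + L * ((|V.2| + |W.2|) * |V.2 - W.2|)
  T2 : ∀ V, Bx ε V → (T V).2 = lf V * V.2
  lf1 : ∀ V, Bx ε V → θ ≤ lf V
  lf2 : ∀ V W, Bx ε V → Bx ε W → |lf V - lf W| ≤ L * (|V.1 - W.1| + |V.2 - W.2|)

variable {T : ℝ × ℝ → ℝ × ℝ} {lf : ℝ × ℝ → ℝ} {ε κ L θ : ℝ}

private theorem sh1_exp {s : ℝ} (hs : |s| ≤ 1) : |Real.exp s - 1| ≤ 2 * |s| := by
  have := Real.abs_exp_sub_one_le hs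
  exact this

private theorem sh1_log {x y : ℝ} (hx : 1 ≤ x) (hy : 1 ≤ y) :
    |Real.log x - Real.log y| ≤ |x - y| := by
  have key : ∀ p q : ℝ, 1 ≤ p → 1 ≤ q → Real.log p - Real.log q ≤ |p - q| := by
    intro p q hp hq
    have hp0 : 0 < p := by linarith
    have hq0 : 0 < q := by linarith
    rw [← Real.log_div hp0.ne' hq0.ne']
    have h1 := Real.log_le_sub_one_of_pos (div_pos hp0 hq0)
    have h2 : p / q - 1 = (p - q) / q := by field_simp
    rw [h2] at h1
    refine h1.trans ?_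
    rw [div_le_iff₀ hq0]
    calc p - q ≤ |p - q| := le_abs_self _
      _ ≤ |p - q| * q := le_mul_of_one_le_right (abs_nonneg _) hq
  rw [abs_le]
  constructor
  · have := key y x hy hx
    rw [abs_sub_comm] at this
    linarith
  · exact key x y hx hy

/-- One step of the comparison.  For `V, W` in the box with positive second coordinates let
`a = |V.1 - W.1|`, `b = |log (V.2 / W.2)|` and `S = b + M a` with `M = 4 L / (1 - κ)`.
If `b ≤ 1` then `|V.2 - W.2| ≤ 3 b min`, `≤ 3 b V.2` (as `|e^b - 1| ≤ 3b/... `), so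
`a' ≤ κ a + L (V.2 + W.2) · 3 b V.2`, `b' ≤ b + |log lf V - log lf W| ≤ b + L (a + 3 b V.2)`
(`lf ≥ 1`), hence `S' ≤ S (1 + K V.2)` with a constant `K` depending on `ε κ L` only. -/
theorem NS.step (h : NS T lf ε κ L θ) : ∃ M K : ℝ, 0 < M ∧ 0 < K ∧ ∀ V W : ℝ × ℝ,
    Bx ε V → Bx ε W → 0 < V.2 → 0 < W.2 → |Real.log (V.2 / W.2)| ≤ 1 →
      |Real.log ((T V).2 / (T W).2)| + M * |(T V).1 - (T W).1| ≤
        (1 + K * V.2) * (|Real.log (V.2 / W.2)| + M * |V.1 - W.1|) := by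
  have hκ1 : 0 < 1 - κ := by linarith [h.hκ]
  have hL := h.hL
  have hε := h.hε
  set M : ℝ := (4 * L + 1) / (1 - κ) with hM
  have hM0 : 0 < M := by rw [hM]; positivity
  have hMκ : M * (1 - κ) = 4 * L + 1 := by rw [hM]; field_simp
  refine ⟨M, 2 * L + 8 * M * L * ε + 1, hM0, by positivity, ?_⟩
  intro V W hV hW hv hw hb
  have hvε : V.2 ≤ ε := (le_abs_self _).trans hV.2
  set b := |Real.log (V.2 / W.2)| with hbdef
  set a := |V.1 - W.1| with hadef
  have ha0 : 0 ≤ a := abs_nonneg _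
  have hb0 : 0 ≤ b := abs_nonneg _
  -- W.2 = V.2 * exp (-s)
  have hWe : W.2 = V.2 * Real.exp (-Real.log (V.2 / W.2)) := by
    rw [Real.exp_neg, Real.exp_log (div_pos hv hw)]
    field_simp
  have hdiff : |V.2 - W.2| ≤ 2 * V.2 * b := by
    have h1 : V.2 - W.2 = -(V.2 * (Real.exp (-Real.log (V.2 / W.2)) - 1)) := by
      linear_combination (-1 : ℝ) * hWe
    rw [h1, abs_neg, abs_mul, abs_of_pos hv]
    have h2 := sh1_exp (s := -Real.log (V.2 / W.2)) (by rw [abs_neg]; exact hb)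
    rw [abs_neg] at h2
    calc V.2 * |Real.exp (-Real.log (V.2 / W.2)) - 1| ≤ V.2 * (2 * b) :=
          mul_le_mul_of_nonneg_left h2 hv.le
      _ = 2 * V.2 * b := by ring
  have hWle : W.2 ≤ 3 * V.2 := by
    have h1 : W.2 - V.2 ≤ 2 * V.2 * b := (le_abs_self _).trans (by rw [abs_sub_comm]; exact hdiff)
    nlinarith [mul_nonneg hv.le (sub_nonneg.mpr hb)]
  have hA : |(T V).1 - (T W).1| ≤ κ * a + 8 * L * ε * V.2 * b := by
    refine (h.T1 V W hV hW).trans ?_
    rw [abs_of_pos hv, abs_of_pos hw]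
    have h1 : (V.2 + W.2) * |V.2 - W.2| ≤ (4 * V.2) * (2 * V.2 * b) :=
      mul_le_mul (by linarith) hdiff (abs_nonneg _) (by linarith)
    have h2 : (4 * V.2) * (2 * V.2 * b) ≤ 8 * ε * V.2 * b := by
      have : V.2 * (V.2 * b) ≤ ε * (V.2 * b) :=
        mul_le_mul_of_nonneg_right hvε (mul_nonneg hv.le hb0)
      nlinarith
    have h3 := mul_le_mul_of_nonneg_left (h1.trans h2) hL
    calc κ * a + L * ((V.2 + W.2) * |V.2 - W.2|) ≤ κ * a + L * (8 * ε * V.2 * b) := by linarith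
      _ = κ * a + 8 * L * ε * V.2 * b := by ring
  have hlV := h.lf1 V hV
  have hlW := h.lf1 W hW
  have hθ := h.hθ
  have hB : |Real.log ((T V).2 / (T W).2)| ≤ b + L * a + 2 * L * V.2 * b := by
    rw [h.T2 V hV, h.T2 W hW]
    have hlV0 : 0 < lf V := by linarith
    have hlW0 : 0 < lf W := by linarith
    have h1 : Real.log (lf V * V.2 / (lf W * W.2)) =
        (Real.log (lf V) - Real.log (lf W)) + Real.log (V.2 / W.2) := by
      rw [← Real.log_div hlV0.ne' hlW0.ne', ← Real.log_mul (div_pos hlV0 hlW0).ne'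
        (div_pos hv hw).ne', div_mul_div_comm]
    rw [h1]
    refine (abs_add_le _ _).trans ?_
    have h2 := sh1_log (x := lf V) (y := lf W) (by linarith) (by linarith)
    have h3 := h.lf2 V W hV hW
    have h4 : L * (|V.1 - W.1| + |V.2 - W.2|) ≤ L * (a + 2 * V.2 * b) :=
      mul_le_mul_of_nonneg_left (by linarith) hL
    calc |Real.log (lf V) - Real.log (lf W)| + |Real.log (V.2 / W.2)| ≤
          L * (a + 2 * V.2 * b) + b := by linarith
      _ = b + L * a + 2 * L * V.2 * b := by ring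
  have hMA := mul_le_mul_of_nonneg_left hA hM0.le
  have h5 : 0 ≤ V.2 * b := mul_nonneg hv.le hb0
  have h6 : 0 ≤ V.2 * (M * a) := by positivity
  have h7 : 0 ≤ (2 * L + 8 * M * L * ε + 1) * (V.2 * (M * a)) := by positivity
  have h8 : (L + M * κ) * a ≤ M * a := by
    refine mul_le_mul_of_nonneg_right ?_ ha0
    nlinarith
  calc |Real.log ((T V).2 / (T W).2)| + M * |(T V).1 - (T W).1|
      ≤ (b + L * a + 2 * L * V.2 * b) + M * (κ * a + 8 * L * ε * V.2 * b) := by linarith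
    _ = b + (2 * L + 8 * M * L * ε) * (V.2 * b) + (L + M * κ) * a := by ring
    _ ≤ b + (2 * L + 8 * M * L * ε + 1) * (V.2 * b) + M * a +
        (2 * L + 8 * M * L * ε + 1) * (V.2 * (M * a)) := by linarith
    _ = (1 + (2 * L + 8 * M * L * ε + 1) * V.2) * (b + M * a) := by ring

end EQK
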