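import Pool.Agent.Lib.MP_226de1_co.K.Shadow1

/-! Comparison of two orbits near the saddle. -/

set_option autoImplicit false

namespace EQK

open Set Filter Topology

variable {T : ℝ × ℝ → ℝ × ℝ} {lf : ℝ × ℝ → ℝ} {ε κ L θ : ℝ}

private theorem sh2_diff {v w : ℝ} (hv : 0 < v) (hw : 0 < w) (hb : |Real.log (v / w)| ≤ 1) :
    |v - w| ≤ 2 * v * |Real.log (v / w)| ∧ w ≤ 3 * v := by
  have hWe : w = v * Real.exp (-Real.log (v / w)) := by
    rw [Real.exp_neg, Real.exp_log (div_pos hv hw)]
    field_simp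
  have hdiff : |v - w| ≤ 2 * v * |Real.log (v / w)| := by
    have h1 : v - w = -(v * (Real.exp (-Real.log (v / w)) - 1)) := by
      linear_combination (-1 : ℝ) * hWe
    rw [h1, abs_neg, abs_mul, abs_of_pos hv]
    have h2 := Real.abs_exp_sub_one_le (x := -Real.log (v / w)) (by rw [abs_neg]; exact hb)
    rw [abs_neg] at h2
    calc v * |Real.exp (-Real.log (v / w)) - 1| ≤ v * (2 * |Real.log (v / w)|) :=
          mul_le_mul_of_nonneg_left h2 hv.le
      _ = 2 * v * |Real.log (v / w)| := by ring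
  refine ⟨hdiff, ?_⟩
  have h1 : w - v ≤ 2 * v * |Real.log (v / w)| :=
    (le_abs_self _).trans (by rw [abs_sub_comm]; exact hdiff)
  nlinarith [mul_nonneg hv.le (sub_nonneg.mpr hb)]

/-- Comparison of two orbits of length `n` in the box: `B j` (`T (B (j+1)) = B j`, `B 0` the last
point) with second coordinates `≥` growing by the factor `θ`, so that `∑ (B j).2 ≤ (B 0).2 θ/(θ-1)`,
and `W` another orbit with `(W n).2 = (B n).2`; if the initial difference is small the orbit of `W`
stays in the box and ends near `B 0`.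
Precisely: there are `ε' > 0` and `C` such that if `B 0, …, B n` lie in the box of size `ε'`, have
positive second coordinates, and `W₀` lies in the box of size `ε`, `(W₀).2 = (B n).2`,
`C |W₀.1 - (B n).1| ≤ ε'` then all `T^[j] W₀`, `j ≤ n`, lie in the box of size `ε`, have positive
second coordinate `≤ 3 ε'` and `|(T^[n] W₀).1 - (B 0).1| ≤ C |W₀.1 - (B n).1|`,
`|(T^[n] W₀).2 - (B 0).2| ≤ C |W₀.1 - (B n).1|`. -/
theorem NS.compare (h : NS T lf ε κ L θ) : ∃ ε' C : ℝ, 0 < ε' ∧ 3 * ε' ≤ ε ∧ 0 < C ∧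
    ∀ (n : ℕ) (B : ℕ → ℝ × ℝ) (W₀ : ℝ × ℝ), (∀ j < n, T (B (j + 1)) = B j) →
      (∀ j ≤ n, Bx ε' (B j) ∧ 0 < (B j).2) → Bx ε W₀ → W₀.2 = (B n).2 →
      C * |W₀.1 - (B n).1| ≤ ε' →
      (∀ j ≤ n, Bx ε (T^[j] W₀) ∧ 0 < (T^[j] W₀).2 ∧ (T^[j] W₀).2 ≤ 3 * ε') ∧
      |(T^[n] W₀).1 - (B 0).1| ≤ C * |W₀.1 - (B n).1| ∧
      |(T^[n] W₀).2 - (B 0).2| ≤ C * |W₀.1 - (B n).1| := by
  obtain ⟨M, K, hM, hK, hstep⟩ := h.step
  have hε := h.hε
  have hθ := h.hθ
  have hθ1 : 0 < θ - 1 := by linarith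
  set P : ℝ := Real.exp (K * ε / (θ - 1)) with hP
  have hP1 : 1 ≤ P := Real.one_le_exp (by positivity)
  have hP0 : 0 < P := by linarith
  refine ⟨ε / 3, P * (1 + 2 * M * ε), by positivity, by linarith, by positivity, ?_⟩
  intro n B W₀ hT hB hW₀ hW₀2 hC
  set d := |W₀.1 - (B n).1| with hd
  have hd0 : 0 ≤ d := abs_nonneg _
  have hPd : P * d ≤ ε / 3 := by
    have h1 : 0 ≤ P * (2 * M * ε) * d := by positivity
    calc P * d ≤ P * d + P * (2 * M * ε) * d := by linarith
      _ = P * (1 + 2 * M * ε) * d := by ring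
      _ ≤ ε / 3 := hC
  have hPMd1 : P * (M * d) ≤ 1 := by
    have h1 : 2 * ε * (P * (M * d)) ≤ ε / 3 := by
      calc 2 * ε * (P * (M * d)) ≤ P * d + 2 * ε * (P * (M * d)) := by
            have : 0 ≤ P * d := by positivity
            linarith
        _ = P * (1 + 2 * M * ε) * d := by ring
        _ ≤ ε / 3 := hC
    have h2 : ε * (2 * (P * (M * d))) ≤ ε * (1 / 3) := by linarith
    have h3 := le_of_mul_le_mul_left h2 hε
    have h4 : 0 ≤ P * (M * d) := by positivity
    linarith
  -- consequences of a bound on the distance function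
  have hcons : ∀ (V W : ℝ × ℝ), Bx (ε / 3) V → 0 < V.2 → 0 < W.2 →
      |Real.log (V.2 / W.2)| + M * |V.1 - W.1| ≤ P * (M * d) →
      |Real.log (V.2 / W.2)| ≤ 1 ∧ |V.1 - W.1| ≤ P * d ∧ Bx ε W ∧ W.2 ≤ 3 * (ε / 3) ∧
        |V.2 - W.2| ≤ P * (1 + 2 * M * ε) * d := by
    intro V W hV hV2 hW2 hS
    have h1 : 0 ≤ M * |V.1 - W.1| := by positivity
    have h2 : 0 ≤ |Real.log (V.2 / W.2)| := abs_nonneg _
    have hl : |Real.log (V.2 / W.2)| ≤ P * (M * d) := by linarith
    have hl1 : |Real.log (V.2 / W.2)| ≤ 1 := hl.trans hPMd1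
    have ha : |V.1 - W.1| ≤ P * d := by
      have h3 : M * |V.1 - W.1| ≤ M * (P * d) := by
        calc M * |V.1 - W.1| ≤ P * (M * d) := by linarith
          _ = M * (P * d) := by ring
      exact le_of_mul_le_mul_left h3 hM
    obtain ⟨h4, h5⟩ := sh2_diff hV2 hW2 hl1
    have hVε : V.2 ≤ ε / 3 := (le_abs_self _).trans hV.2
    refine ⟨hl1, ha, ⟨?_, ?_⟩, by linarith, ?_⟩
    · calc |W.1 - 1| = |(W.1 - V.1) + (V.1 - 1)| := by ring_nf
        _ ≤ |W.1 - V.1| + |V.1 - 1| := abs_add_le _ _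
        _ ≤ ε / 3 + ε / 3 := by
            refine add_le_add ?_ hV.1
            rw [abs_sub_comm]
            exact ha.trans hPd
        _ ≤ ε := by linarith
    · rw [abs_of_pos hW2]; linarith
    · refine h4.trans ?_
      calc 2 * V.2 * |Real.log (V.2 / W.2)| ≤ 2 * ε * (P * (M * d)) := by
            refine mul_le_mul (by linarith) hl h2 (by positivity)
        _ ≤ P * d + 2 * ε * (P * (M * d)) := by
            have : 0 ≤ P * d := by positivity
            linarith
        _ = P * (1 + 2 * M * ε) * d := by ring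
  -- the main induction
  have hmain : ∀ j ≤ n, 0 < (T^[j] W₀).2 ∧
      |Real.log ((B (n - j)).2 / (T^[j] W₀).2)| + M * |(B (n - j)).1 - (T^[j] W₀).1| ≤
        Real.exp (K * (B (n - j)).2 / (θ - 1)) * (M * d) := by
    intro j
    induction j with
    | zero =>
      intro _
      have hBn := (hB n le_rfl).2
      rw [Nat.sub_zero, Function.iterate_zero, id]
      refine ⟨by rw [hW₀2]; exact hBn, ?_⟩
      rw [hW₀2, div_self hBn.ne', Real.log_one, abs_zero, zero_add, abs_sub_comm, ← hd]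
      have h1 : 1 ≤ Real.exp (K * (B n).2 / (θ - 1)) := Real.one_le_exp (by positivity)
      exact le_mul_of_one_le_left (by positivity) h1
    | succ j ih =>
      intro hj
      have hjn : j < n := by omega
      obtain ⟨hw, hS⟩ := ih hjn.le
      set V := B (n - j) with hV
      set W := T^[j] W₀ with hW
      obtain ⟨hVb, hV2⟩ := hB (n - j) (by omega)
      have hVε : V.2 ≤ ε := by
        have := (le_abs_self _).trans hVb.2
        linarith
      have hS' : |Real.log (V.2 / W.2)| + M * |V.1 - W.1| ≤ P * (M * d) := by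
        refine hS.trans (mul_le_mul_of_nonneg_right ?_ (by positivity))
        rw [hP]
        refine Real.exp_le_exp.mpr ?_
        gcongr
      obtain ⟨hl1, -, hWb, -, -⟩ := hcons V W hVb hV2 hw hS'
      have hVb' : Bx ε V := ⟨hVb.1.trans (by linarith), hVb.2.trans (by linarith)⟩
      have hstp := hstep V W hVb' hWb hV2 hw hl1
      have hTV : T V = B (n - (j + 1)) := by
        have h1 := hT (n - (j + 1)) (by omega)
        have h2 : n - (j + 1) + 1 = n - j := by omega
        rw [h2] at h1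
        exact h1
      have hTW : T W = T^[j + 1] W₀ := by rw [Function.iterate_succ_apply']
      rw [hTV, hTW] at hstp
      refine ⟨?_, hstp.trans ?_⟩
      · rw [← hTW, h.T2 W hWb]
        exact mul_pos (by linarith [h.lf1 W hWb]) hw
      · have hv' : θ * V.2 ≤ (B (n - (j + 1))).2 := by
          rw [← hTV, h.T2 V hVb']
          exact mul_le_mul_of_nonneg_right (h.lf1 V hVb') hV2.le
        have h1 : 1 + K * V.2 ≤ Real.exp (K * V.2) := by
          have := Real.add_one_le_exp (K * V.2)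
          linarith
        calc (1 + K * V.2) * (|Real.log (V.2 / W.2)| + M * |V.1 - W.1|)
            ≤ Real.exp (K * V.2) * (Real.exp (K * V.2 / (θ - 1)) * (M * d)) :=
              mul_le_mul h1 hS (by positivity) (Real.exp_pos _).le
          _ = Real.exp (K * V.2 + K * V.2 / (θ - 1)) * (M * d) := by
              rw [Real.exp_add]; ring
          _ ≤ Real.exp (K * (B (n - (j + 1))).2 / (θ - 1)) * (M * d) := by
              refine mul_le_mul_of_nonneg_right (Real.exp_le_exp.mpr ?_) (by positivity)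
              have h2 : K * V.2 + K * V.2 / (θ - 1) = K * (θ * V.2) / (θ - 1) := by
                field_simp
                ring
              rw [h2]
              gcongr
  have hmain' : ∀ j ≤ n, 0 < (T^[j] W₀).2 ∧
      |Real.log ((B (n - j)).2 / (T^[j] W₀).2)| + M * |(B (n - j)).1 - (T^[j] W₀).1| ≤
        P * (M * d) := by
    intro j hj
    obtain ⟨h1, h2⟩ := hmain j hj
    refine ⟨h1, h2.trans (mul_le_mul_of_nonneg_right ?_ (by positivity))⟩
    rw [hP]
    have h3 : (B (n - j)).2 ≤ ε := by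
      have := (le_abs_self _).trans (hB (n - j) (by omega)).1.2
      linarith
    refine Real.exp_le_exp.mpr ?_
    gcongr
  refine ⟨fun j hj => ?_, ?_, ?_⟩
  · obtain ⟨h1, h2⟩ := hmain' j hj
    obtain ⟨hVb, hV2⟩ := hB (n - j) (by omega)
    obtain ⟨-, -, h3, h4, -⟩ := hcons _ _ hVb hV2 h1 h2
    exact ⟨h3, h1, h4⟩
  · obtain ⟨h1, h2⟩ := hmain' n le_rfl
    rw [Nat.sub_self] at h2
    obtain ⟨hVb, hV2⟩ := hB 0 (by omega)
    obtain ⟨-, h3, -, -, -⟩ := hcons _ _ hVb hV2 h1 h2
    rw [abs_sub_comm]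
    refine h3.trans ?_
    have : 0 ≤ P * (2 * M * ε) * d := by positivity
    calc P * d ≤ P * d + P * (2 * M * ε) * d := by linarith
      _ = P * (1 + 2 * M * ε) * d := by ring
  · obtain ⟨h1, h2⟩ := hmain' n le_rfl
    rw [Nat.sub_self] at h2
    obtain ⟨hVb, hV2⟩ := hB 0 (by omega)
    obtain ⟨-, -, -, -, h3⟩ := hcons _ _ hVb hV2 h1 h2
    rw [abs_sub_comm]
    exact h3

end EQK
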