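import Pool.Agent.Lib.MP_226de1_co.K.Mono

/-! `X` has a zero. -/

set_option autoImplicit false

namespace EQK

open Set Filter Topology

variable {k μ r : ℝ} {V P : ℝ → ℝ × ℝ}

private theorem Dm_bound (hk : 0 < k) {R : ℝ} (hd : Dm k μ R) : R ≤ cc k μ ^ (2 / k) := by
  obtain ⟨h0, h1⟩ := hd
  have e : (R ^ (k / 2)) ^ (2 / k) = R := by
    rw [← Real.rpow_mul h0.le]
    have : k / 2 * (2 / k) = 1 := by
      field_simp
    rw [this, Real.rpow_one]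
  rw [← e]
  exact Real.rpow_le_rpow (Real.rpow_nonneg h0.le _) h1.le (by positivity)

/-- `X` cannot stay positive.  Otherwise `RR ∘ V` is monotone on `(0,∞)` and bounded (`Dm`:
`R^(k/2) < c`).  Fix `t₀ > 0`, `V n = V (t₀ μ^n)`, `R n ≤ R (n+1)`, `X (n+1) = lam X n - (μ-1)`,
`Y (n+1) = lam Y n`, `lam² R n = R (n+1) + 2(μ-1)X (n+1) + (μ-1)² ≥ R n + (μ-1)²`, so
`lam² ≥ 1 + (μ-1)²/B` for a bound `B` of `R`, hence `Y n` grows geometrically, but `Y² ≤ R ≤ B`. -/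
theorem RC.exists_nonpos (h : RC k μ r V P) : ∃ t, 0 < t ∧ (V t).1 ≤ 0 := by
  by_contra hcon
  push Not at hcon
  have hk : 0 < k := lt_of_lt_of_le one_pos h.hk
  have hμ := h.hμ
  have hμ0 : 0 < μ := by linarith
  have hgood : ∀ s, 0 < s → 0 < (V s).2 ∧ Dm k μ (RR (V s)) := by
    intro s hs
    obtain ⟨_, h2, h3, _, _⟩ := h.good (t := s) (fun x hx _ => hcon x hx) s hs le_rfl
    exact ⟨h2, h3⟩
  set B : ℝ := cc k μ ^ (2 / k) with hB
  have hRB : ∀ s, 0 < s → RR (V s) ≤ B := fun s hs => Dm_bound hk (hgood s hs).2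
  have hBpos : 0 < B := lt_of_lt_of_le (hgood 1 one_pos).2.1 (hRB 1 one_pos)
  have hq : 1 < 1 + (μ - 1) ^ 2 / B := by
    have : 0 < (μ - 1) ^ 2 / B := div_pos (pow_pos (by linarith) 2) hBpos
    linarith
  have hstep : ∀ s, 0 < s →
      (1 + (μ - 1) ^ 2 / B) * (V s).2 ^ 2 ≤ (V (μ * s)).2 ^ 2 := by
    intro s hs
    have hs' : 0 < μ * s := mul_pos hμ0 hs
    have hmono : RR (V s) ≤ RR (V (μ * s)) :=
      h.RR_mono (t := μ * s) (fun x hx _ => hcon x hx) s (μ * s) hs (by nlinarith) le_rfl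
    have h1 := RR_TT k μ (V s)
    rw [← h.step s hs] at h1
    have hX := hcon (μ * s) hs'
    have hR0 : 0 < RR (V s) := (hgood s hs).2.1
    have h2 : RR (V s) + (μ - 1) ^ 2 ≤ lam k μ (RR (V s)) ^ 2 * RR (V s) := by
      rw [← h1]
      have : 0 ≤ 2 * (μ - 1) * (V (μ * s)).1 := by
        have : 0 < μ - 1 := by linarith
        positivity
      linarith
    have h3 : (1 + (μ - 1) ^ 2 / B) * RR (V s) ≤ RR (V s) + (μ - 1) ^ 2 := by
      have h4 : (μ - 1) ^ 2 / B * RR (V s) ≤ (μ - 1) ^ 2 := by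
        calc (μ - 1) ^ 2 / B * RR (V s) ≤ (μ - 1) ^ 2 / B * B :=
              mul_le_mul_of_nonneg_left (hRB s hs) (by positivity)
          _ = (μ - 1) ^ 2 := by field_simp
      linarith
    have h5 : 1 + (μ - 1) ^ 2 / B ≤ lam k μ (RR (V s)) ^ 2 :=
      le_of_mul_le_mul_right (h3.trans h2) hR0
    have h6 : (V (μ * s)).2 = lam k μ (RR (V s)) * (V s).2 := by
      rw [h.step s hs]
      rfl
    rw [h6, mul_pow]
    exact mul_le_mul_of_nonneg_right h5 (sq_nonneg _)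
  have hpow : ∀ n : ℕ, (1 + (μ - 1) ^ 2 / B) ^ n * (V 1).2 ^ 2 ≤ (V (μ ^ n)).2 ^ 2 := by
    intro n
    induction n with
    | zero => simp
    | succ n ih =>
      have hs := hstep (μ ^ n) (by positivity)
      rw [← pow_succ'] at hs
      calc (1 + (μ - 1) ^ 2 / B) ^ (n + 1) * (V 1).2 ^ 2
          = (1 + (μ - 1) ^ 2 / B) * ((1 + (μ - 1) ^ 2 / B) ^ n * (V 1).2 ^ 2) := by ring
        _ ≤ (1 + (μ - 1) ^ 2 / B) * (V (μ ^ n)).2 ^ 2 :=
            mul_le_mul_of_nonneg_left ih (by linarith)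
        _ ≤ _ := hs
  have hY1 : 0 < (V 1).2 ^ 2 := pow_pos (hgood 1 one_pos).1 2
  obtain ⟨n, hn⟩ := pow_unbounded_of_one_lt (B / (V 1).2 ^ 2) hq
  have h7 : B < (1 + (μ - 1) ^ 2 / B) ^ n * (V 1).2 ^ 2 := (div_lt_iff₀ hY1).1 hn
  have h8 : (V (μ ^ n)).2 ^ 2 ≤ RR (V (μ ^ n)) := by
    unfold RR
    nlinarith [sq_nonneg (V (μ ^ n)).1]
  have h9 := hRB (μ ^ n) (by positivity)
  have h10 := hpow n
  linarith

end EQK
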