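import Pool.Agent.Lib.MP_226de1_co.K.Iter0

/-! The unstable curve near the saddle, with complex parameters. -/

set_option autoImplicit false

namespace EQK

open Complex Set Filter Topology

noncomputable section

def UC (n : ℕ) (k μ t : ℂ) : ℂ × ℂ := uu μ (TC k μ) n t

def VC (k μ t : ℂ) : ℂ × ℂ := limUnder atTop (fun n => UC n k μ t)

/-- parameter box -/
def Bp (k₀ μ₀ ε r : ℝ) : Set (ℂ × ℂ × ℂ) :=
  {p | ‖p.1 - (k₀ : ℂ)‖ < ε ∧ ‖p.2.1 - (μ₀ : ℂ)‖ < ε ∧ ‖p.2.2‖ < r}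

end

end EQK
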