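import Pool.Agent.Lib.MP_226de1_co.K.VC0
import Pool.Agent.Lib.MP_226de1_co.K.LocEst2

/-! The complex step is a local model. -/

set_option autoImplicit false

namespace EQK

open Complex Set Filter Topology

theorem Bp_isOpen (k₀ μ₀ ε r : ℝ) : IsOpen (Bp k₀ μ₀ ε r) := by
  have h1 : IsOpen {p : ℂ × ℂ × ℂ | ‖p.1 - (k₀ : ℂ)‖ < ε} :=
    isOpen_lt (continuous_fst.sub continuous_const).norm continuous_const
  have h2 : IsOpen {p : ℂ × ℂ × ℂ | ‖p.2.1 - (μ₀ : ℂ)‖ < ε} :=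
    isOpen_lt ((continuous_fst.comp continuous_snd).sub continuous_const).norm continuous_const
  have h3 : IsOpen {p : ℂ × ℂ × ℂ | ‖p.2.2‖ < r} :=
    isOpen_lt (continuous_snd.comp continuous_snd).norm continuous_const
  exact h1.inter (h2.inter h3)

/-- `LM` from `loc_est`, with `m₁, m₂, κ` close to `μ₀, μ₀, μ₀^(1-k₀)` (`μ₀^(1-k₀) < μ₀²`, and
`m₂ < m₁³`) -/
theorem LM_TC {k₀ μ₀ : ℝ} (hk : 0 < k₀) (hμ : 1 < μ₀) : ∃ ε κ m₁ m₂ L : ℝ,
    Cst ε κ m₁ m₂ L ∧ ∀ k μ : ℂ, ‖k - k₀‖ ≤ ε → ‖μ - μ₀‖ ≤ ε →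
      LM μ (TC k μ) ε κ m₁ m₂ L ∧ ∀ V, Bl ε V → OK k μ (RRc V) := by
  have hμ0 : 0 < μ₀ := by linarith
  have h1 : μ₀ ^ (1 - k₀) < μ₀ ^ 2 := by
    rw [← Real.rpow_natCast μ₀ 2]
    apply Real.rpow_lt_rpow_of_exponent_lt hμ
    push_cast
    linarith
  have h2 : μ₀ < μ₀ ^ 3 := by nlinarith
  have h3 : ∀ᶠ m : ℝ in 𝓝[<] μ₀, 1 < m ∧ μ₀ ^ (1 - k₀) < m ^ 2 ∧ μ₀ < m ^ 3 ∧ m < μ₀ := by
    have a1 : ∀ᶠ m : ℝ in 𝓝[<] μ₀, 1 < m :=
      nhdsWithin_le_nhds (eventually_gt_nhds hμ)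
    have a2 : ∀ᶠ m : ℝ in 𝓝[<] μ₀, μ₀ ^ (1 - k₀) < m ^ 2 := by
      apply nhdsWithin_le_nhds
      exact (continuous_pow 2).continuousAt.eventually (eventually_gt_nhds h1)
    have a3 : ∀ᶠ m : ℝ in 𝓝[<] μ₀, μ₀ < m ^ 3 := by
      apply nhdsWithin_le_nhds
      exact (continuous_pow 3).continuousAt.eventually (eventually_gt_nhds h2)
    filter_upwards [a1, a2, a3, self_mem_nhdsWithin] with m b1 b2 b3 b4
    exact ⟨b1, b2, b3, b4⟩
  obtain ⟨m₁, hm1, hm2, hm3, hm4⟩ := h3.exists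
  obtain ⟨κ, hκ1, hκ2⟩ := exists_between hm2
  obtain ⟨m₂, hm₂1, hm₂2⟩ := exists_between hm3
  obtain ⟨ε, L, hε, hε1, hL, h⟩ := loc_est hk hμ hκ1 hm4 hm₂1
  refine ⟨ε, κ, m₁, m₂, L, ?_, ?_⟩
  · exact
      { hε := hε
        hε1 := hε1
        hκ0 := (Real.rpow_nonneg hμ0.le _).trans hκ1.le
        hm₁ := hm1
        hκ := hκ2
        hm₁₂ := hm4.trans hm₂1
        hm₂ := hm₂2
        hL := hL }
  · intro k μ hkk hμμ
    obtain ⟨⟨e1, e2, e3⟩, e4⟩ := h k μ hkk hμμ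
    have hR : RRc ((1 : ℂ), (0 : ℂ)) = 1 := by
      unfold RRc
      norm_num
    have hB : Bl ε ((1 : ℂ), (0 : ℂ)) := by
      unfold Bl
      simp [hε.le]
    refine ⟨?_, fun V hV => (e4 V V hV hV).1⟩
    exact
      { μ1 := e1
        μ2 := e2
        fix := by
          unfold TC
          rw [hR, e3]
          ext <;> simp
        t1 := fun V W hV hW => (e4 V W hV hW).2.2.2
        t2 := fun V W hV hW => by
          obtain ⟨-, ⟨-, f2⟩, f3, -⟩ := e4 V W hV hW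
          show ‖lamC k μ (RRc V) * V.2 - lamC k μ (RRc W) * W.2‖ ≤ _
          have f4 : lamC k μ (RRc V) * V.2 - lamC k μ (RRc W) * W.2 =
            lamC k μ (RRc V) * (V.2 - W.2) + (lamC k μ (RRc V) - lamC k μ (RRc W)) * W.2 := by
            ring
          rw [f4]
          refine (norm_add_le _ _).trans ?_
          rw [norm_mul, norm_mul]
          have f5 := mul_le_mul_of_nonneg_right f2.le (norm_nonneg (V.2 - W.2))
          have f6 := mul_le_mul_of_nonneg_right f3 (norm_nonneg W.2)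
          have f7 : L * (‖V.1 - W.1‖ + (‖V.2‖ + ‖W.2‖) * ‖V.2 - W.2‖) * ‖W.2‖ =
            L * ‖W.2‖ * (‖V.1 - W.1‖ + (‖V.2‖ + ‖W.2‖) * ‖V.2 - W.2‖) := by ring
          linarith
        t3 := fun V hV => by
          obtain ⟨-, -, f3, -⟩ := e4 V (1, 0) hV hB
          rw [hR, e3] at f3
          simp only [norm_zero, add_zero, sub_zero] at f3
          show ‖lamC k μ (RRc V) * V.2 - μ * V.2‖ ≤ _
          rw [← sub_mul, norm_mul]
          have f6 := mul_le_mul_of_nonneg_right f3 (norm_nonneg V.2)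
          have f7 : L * (‖V.1 - 1‖ + ‖V.2‖ * ‖V.2‖) * ‖V.2‖ =
            L * ‖V.2‖ * (‖V.1 - 1‖ + ‖V.2‖ ^ 2) := by ring
          linarith }

end EQK
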