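import Pool.Agent.Lib.MP_226de1_co.K.VC1
import Pool.Agent.Lib.MP_226de1_co.K.Iter1

/-! The approximants are `C¹`. -/

set_option autoImplicit false

namespace EQK

open Complex Set Filter Topology

/-- each approximant is `C¹` in `(k, μ, t)` (induction, `lamC_contDiffAt`), in the parameter box -/
theorem UC_contDiffOn {k₀ μ₀ : ℝ} (hk : 0 < k₀) (hμ : 1 < μ₀) : ∃ ε r : ℝ, 0 < ε ∧ 0 < r ∧
    ∀ n : ℕ, ContDiffOn ℂ 1 (fun p : ℂ × ℂ × ℂ => UC n p.1 p.2.1 p.2.2) (Bp k₀ μ₀ ε r) ∧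
      ∀ k μ t : ℂ, ‖k - k₀‖ < ε → ‖μ - μ₀‖ < ε → ‖t‖ < r → OK k μ (RRc (UC n k μ t)) := by
  obtain ⟨ε, κ, m₁, m₂, L, hc, H⟩ := LM_TC hk hμ
  obtain ⟨r, A, hr, -, -, -, -, HB⟩ := iter_bound hc one_pos
  have hOK : ∀ n : ℕ, ∀ k μ t : ℂ, ‖k - k₀‖ < ε → ‖μ - μ₀‖ < ε → ‖t‖ < r →
      OK k μ (RRc (UC n k μ t)) := by
    intro n k μ t h1 h2 h3
    obtain ⟨hLM, hO⟩ := H k μ h1.le h2.le
    exact hO _ (HB μ (TC k μ) hLM n t h3.le).1
  have key : ∀ n : ℕ, ∀ p ∈ Bp k₀ μ₀ ε r,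
      ContDiffAt ℂ 1 (fun p : ℂ × ℂ × ℂ => UC n p.1 p.2.1 p.2.2) p := by
    intro n
    induction n with
    | zero =>
      intro p _
      have h : ContDiff ℂ 1 (fun p : ℂ × ℂ × ℂ => (Complex.cos p.2.2, Complex.sin p.2.2)) :=
        (Complex.contDiff_cos.comp (contDiff_snd.comp contDiff_snd)).prodMk
          (Complex.contDiff_sin.comp (contDiff_snd.comp contDiff_snd))
      exact h.contDiffAt
    | succ n ih =>
      intro p hp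
      obtain ⟨h1, h2, h3⟩ := hp
      obtain ⟨hLM, -⟩ := H p.1 p.2.1 h1.le h2.le
      have hm : 1 < ‖p.2.1‖ := hc.hm₁.trans hLM.μ1
      have hμ0 : p.2.1 ≠ 0 := norm_pos_iff.1 (zero_lt_one.trans hm)
      have hq3 : ‖p.2.2 / p.2.1‖ < r := by
        rw [norm_div]
        exact (div_le_self (norm_nonneg _) hm.le).trans_lt h3
      let g : ℂ × ℂ × ℂ → ℂ × ℂ × ℂ := fun p => (p.1, p.2.1, p.2.2 / p.2.1)
      have hg : ContDiffAt ℂ 1 g p := by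
        refine contDiffAt_fst.prodMk ((contDiffAt_snd.fst).prodMk ?_)
        exact (contDiffAt_snd.snd).div (contDiffAt_snd.fst) hμ0
      have hu : ContDiffAt ℂ 1 (fun p : ℂ × ℂ × ℂ => UC n p.1 p.2.1 (p.2.2 / p.2.1)) p :=
        ContDiffAt.comp (g := fun p : ℂ × ℂ × ℂ => UC n p.1 p.2.1 p.2.2) (f := g) p
          (ih (g p) ⟨h1, h2, hq3⟩) hg
      have hR : ContDiffAt ℂ 1
          (fun p : ℂ × ℂ × ℂ => (p.1, p.2.1, RRc (UC n p.1 p.2.1 (p.2.2 / p.2.1)))) p := by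
        refine contDiffAt_fst.prodMk ((contDiffAt_snd.fst).prodMk ?_)
        exact (hu.fst.pow 2).add (hu.snd.pow 2)
      have hl : ContDiffAt ℂ 1
          (fun p : ℂ × ℂ × ℂ => lamC p.1 p.2.1 (RRc (UC n p.1 p.2.1 (p.2.2 / p.2.1)))) p :=
        ContDiffAt.comp (g := fun p : ℂ × ℂ × ℂ => lamC p.1 p.2.1 p.2.2)
          (f := fun p : ℂ × ℂ × ℂ => (p.1, p.2.1, RRc (UC n p.1 p.2.1 (p.2.2 / p.2.1)))) p
          (lamC_contDiffAt (hOK n p.1 p.2.1 (p.2.2 / p.2.1) h1 h2 hq3)) hR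
      exact ((hl.mul hu.fst).sub (contDiffAt_snd.fst.sub contDiffAt_const)).prodMk
        (hl.mul hu.snd)
  exact ⟨ε, r, hc.hε, hr, fun n => ⟨fun p hp => (key n p hp).contDiffWithinAt, hOK n⟩⟩

end EQK
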