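import Pool.Agent.Lib.MP_226de1_co.K.VC2
import Pool.Agent.Lib.MP_226de1_co.K.Iter2
import Pool.Agent.Lib.MP_226de1_co.K.LimC1

/-! The unstable curve near the saddle, with complex parameters. -/

set_option autoImplicit false

namespace EQK

open Complex Set Filter Topology

private theorem VC3_aux0 : Continuous RRc := by
    unfold RRc
    fun_prop

private theorem VC3_aux1 {k μ : ℂ} {R : ℂ} (h : OK k μ R) :
    ContinuousAt (lamC k μ) R := by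
  have h1 : ContinuousAt (fun p : ℂ × ℂ × ℂ => lamC p.1 p.2.1 p.2.2) (k, μ, R) :=
    (lamC_contDiffAt h).continuousAt
  have h2 : ContinuousAt (fun W : ℂ => (k, μ, W)) R := by fun_prop
  exact ContinuousAt.comp (f := fun W : ℂ => (k, μ, W)) h1 h2

private theorem VC3_TC_cont {k μ : ℂ} {V : ℂ × ℂ} (h : OK k μ (RRc V)) :
    ContinuousAt (TC k μ) V := by
  have h3 : ContinuousAt (fun W : ℂ × ℂ => lamC k μ (RRc W)) V :=
    ContinuousAt.comp (g := lamC k μ) (VC3_aux1 h) VC3_aux0.continuousAt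
  have h5 : ContinuousAt (fun W : ℂ × ℂ => lamC k μ (RRc W) * W.1 - (μ - 1)) V :=
    (h3.mul continuousAt_fst).sub continuousAt_const
  have h6 : ContinuousAt (fun W : ℂ × ℂ => lamC k μ (RRc W) * W.2) V :=
    h3.mul continuousAt_snd
  have h7 := h5.prodMk h6
  have h8 : TC k μ = fun W : ℂ × ℂ => (lamC k μ (RRc W) * W.1 - (μ - 1), lamC k μ (RRc W) * W.2) := by
    funext W
    rfl
  rw [h8]
  exact h7

private theorem VC3_deriv {F : ℂ × ℂ × ℂ → ℂ × ℂ} {k μ t : ℂ}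
    (h : DifferentiableAt ℂ F (k, μ, t)) :
    deriv (fun s => (F (k, μ, s)).1) t = (fderiv ℂ F (k, μ, t) (0, 0, 1)).1 ∧
      deriv (fun s => (F (k, μ, s)).2) t = (fderiv ℂ F (k, μ, t) (0, 0, 1)).2 := by
  have h1 : HasDerivAt (fun s : ℂ => ((k, μ, s) : ℂ × ℂ × ℂ)) (0, 0, 1) t :=
    (hasDerivAt_const t k).prodMk ((hasDerivAt_const t μ).prodMk (hasDerivAt_id t))
  have h2 : HasDerivAt (fun s => F (k, μ, s)) (fderiv ℂ F (k, μ, t) (0, 0, 1)) t :=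
    h.hasFDerivAt.comp_hasDerivAt t h1
  constructor
  · have h3 : HasDerivAt (fun s => (F (k, μ, s)).1) (fderiv ℂ F (k, μ, t) (0, 0, 1)).1 t :=
      (ContinuousLinearMap.fst ℂ ℂ ℂ).hasFDerivAt.comp_hasDerivAt t h2
    exact h3.deriv
  · have h3 : HasDerivAt (fun s => (F (k, μ, s)).2) (fderiv ℂ F (k, μ, t) (0, 0, 1)).2 t :=
      (ContinuousLinearMap.snd ℂ ℂ ℂ).hasFDerivAt.comp_hasDerivAt t h2
    exact h3.deriv

/-- Local theorem on the unstable curve: `iter_bound`, `iter_cauchy`, `limC1`.  The functional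
equation: `TC (UC n (t/μ)) = UC (n+1) t`, `TC` is continuous at `VC k μ (t/μ)` (`OK` there since
the limit is in the box `Bl ε`). -/
theorem VC_loc {k₀ μ₀ : ℝ} (hk : 0 < k₀) (hμ : 1 < μ₀) : ∃ ε r A : ℝ, 0 < ε ∧ 0 < r ∧ r < 1 ∧
    0 < A ∧ A * r ^ 2 ≤ 1 ∧
    ContDiffOn ℂ 1 (fun p : ℂ × ℂ × ℂ => VC p.1 p.2.1 p.2.2) (Bp k₀ μ₀ ε r) ∧
    ∀ k μ t : ℂ, ‖k - k₀‖ < ε → ‖μ - μ₀‖ < ε → ‖t‖ < r →
      1 < ‖μ‖ ∧ (∀ n, OK k μ (RRc (UC n k μ t))) ∧ OK k μ (RRc (VC k μ t)) ∧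
      TC k μ (VC k μ (t / μ)) = VC k μ t ∧
      ‖(VC k μ t).1 - 1‖ ≤ A * ‖t‖ ^ 2 ∧ ‖(VC k μ t).2 - t‖ ≤ A * ‖t‖ ^ 3 ∧
      (∀ n, ‖(UC n k μ t).1 - 1‖ ≤ A * ‖t‖ ^ 2 ∧ ‖(UC n k μ t).2 - t‖ ≤ A * ‖t‖ ^ 3) ∧
      Tendsto (fun n => UC n k μ t) atTop (𝓝 (VC k μ t)) ∧
      Tendsto (fun n => deriv (fun s => (UC n k μ s).1) t) atTop
        (𝓝 (deriv (fun s => (VC k μ s).1) t)) ∧
      Tendsto (fun n => deriv (fun s => (UC n k μ s).2) t) atTop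
        (𝓝 (deriv (fun s => (VC k μ s).2) t)) := by
  obtain ⟨ε₁, κ, m₁, m₂, L, hc, hLM⟩ := LM_TC hk hμ
  obtain ⟨ε₂, r₂, hε₂, hr₂, hUC⟩ := UC_contDiffOn hk hμ
  obtain ⟨r₃, A, hr₃, -, hr₃1, hA, hAr, hbd⟩ := iter_bound hc one_pos
  obtain ⟨r₄, K, q, hr₄, -, hK, hq, hq1, hca⟩ := iter_cauchy hc one_pos
  set ε : ℝ := min ε₁ ε₂ with hε
  set r : ℝ := min (min r₂ r₃) (min r₄ (1 / 2)) with hr
  have hεpos : 0 < ε := lt_min hc.hε hε₂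
  have hrpos : 0 < r := lt_min (lt_min hr₂ hr₃) (lt_min hr₄ (by norm_num))
  have hε1 : ε ≤ ε₁ := min_le_left _ _
  have hε2 : ε ≤ ε₂ := min_le_right _ _
  have hr2 : r ≤ r₂ := (min_le_left _ _).trans (min_le_left _ _)
  have hr3 : r ≤ r₃ := (min_le_left _ _).trans (min_le_right _ _)
  have hr4 : r ≤ r₄ := (min_le_right _ _).trans (min_le_left _ _)
  have hr5 : r ≤ 1 / 2 := (min_le_right _ _).trans (min_le_right _ _)
  -- convergence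
  have hgeo : ∀ k μ t : ℂ, ‖k - k₀‖ < ε → ‖μ - μ₀‖ < ε → ‖t‖ < r →
      ∀ n, dist (UC n k μ t) (UC (n + 1) k μ t) ≤ K * q ^ n := by
    intro k μ t h1 h2 h3 n
    obtain ⟨h4, h5⟩ := hca μ (TC k μ) (hLM k μ (h1.le.trans hε1) (h2.le.trans hε1)).1 n t
      (h3.le.trans hr4)
    rw [dist_comm, dist_eq_norm]
    exact max_le h4 h5
  have hlim : ∀ k μ t : ℂ, ‖k - k₀‖ < ε → ‖μ - μ₀‖ < ε → ‖t‖ < r →
      Tendsto (fun n => UC n k μ t) atTop (𝓝 (VC k μ t)) := by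
    intro k μ t h1 h2 h3
    exact (cauchySeq_of_le_geometric q K hq1 (hgeo k μ t h1 h2 h3)).tendsto_limUnder
  have hdist : ∀ k μ t : ℂ, ‖k - k₀‖ < ε → ‖μ - μ₀‖ < ε → ‖t‖ < r →
      ∀ n, dist (UC n k μ t) (VC k μ t) ≤ K * q ^ n / (1 - q) := by
    intro k μ t h1 h2 h3 n
    exact dist_le_of_le_geometric_of_tendsto q K hq1 (hgeo k μ t h1 h2 h3) (hlim k μ t h1 h2 h3) n
  have hunif : TendstoUniformlyOn (fun (n : ℕ) (p : ℂ × ℂ × ℂ) => UC n p.1 p.2.1 p.2.2)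
      (fun p : ℂ × ℂ × ℂ => VC p.1 p.2.1 p.2.2) atTop (Bp k₀ μ₀ ε r) := by
    rw [Metric.tendstoUniformlyOn_iff]
    intro η hη
    have h1 : Tendsto (fun n : ℕ => K * q ^ n / (1 - q)) atTop (𝓝 0) := by
      have h2 := (tendsto_pow_atTop_nhds_zero_of_lt_one hq.le hq1).const_mul K
      have h3 := h2.div_const (1 - q)
      simpa using h3
    filter_upwards [h1.eventually_lt_const hη] with n hn p hp
    rw [dist_comm]
    exact (hdist p.1 p.2.1 p.2.2 hp.1 hp.2.1 hp.2.2 n).trans_lt hn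
  have hsub : Bp k₀ μ₀ ε r ⊆ Bp k₀ μ₀ ε₂ r₂ := fun p hp =>
    ⟨hp.1.trans_le hε2, hp.2.1.trans_le hε2, hp.2.2.trans_le hr2⟩
  have hCn : ∀ n : ℕ, ContDiffOn ℂ 1 (fun p : ℂ × ℂ × ℂ => UC n p.1 p.2.1 p.2.2)
      (Bp k₀ μ₀ ε r) := fun n => (hUC n).1.mono hsub
  have hop := Bp_isOpen k₀ μ₀ ε r
  obtain ⟨hC, hfd⟩ := limC1 hop hCn hunif
  refine ⟨ε, r, A, hεpos, hrpos, by linarith, hA, ?_, hC, ?_⟩
  · refine le_trans ?_ hAr
    exact mul_le_mul_of_nonneg_left (pow_le_pow_left₀ hrpos.le hr3 2) hA.le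
  intro k μ t h1 h2 h3
  obtain ⟨hlm, hok⟩ := hLM k μ (h1.le.trans hε1) (h2.le.trans hε1)
  have hμ1 : 1 < ‖μ‖ := hc.hm₁.trans hlm.μ1
  have hB : ∀ (n : ℕ) (s : ℂ), ‖s‖ < r → Bl ε₁ (UC n k μ s) ∧
      ‖(UC n k μ s).1 - 1‖ ≤ A * ‖s‖ ^ 2 ∧ ‖(UC n k μ s).2 - s‖ ≤ A * ‖s‖ ^ 3 :=
    fun n s hs => hbd μ (TC k μ) hlm n s (hs.le.trans hr3)
  have hBV : ∀ s : ℂ, ‖s‖ < r → Bl ε₁ (VC k μ s) ∧
      ‖(VC k μ s).1 - 1‖ ≤ A * ‖s‖ ^ 2 ∧ ‖(VC k μ s).2 - s‖ ≤ A * ‖s‖ ^ 3 := by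
    intro s hs
    have hl := hlim k μ s h1 h2 hs
    have hl1 : Tendsto (fun n => (UC n k μ s).1) atTop (𝓝 (VC k μ s).1) :=
      (continuous_fst.tendsto _).comp hl
    have hl2 : Tendsto (fun n => (UC n k μ s).2) atTop (𝓝 (VC k μ s).2) :=
      (continuous_snd.tendsto _).comp hl
    refine ⟨⟨?_, ?_⟩, ?_, ?_⟩
    · exact le_of_tendsto' (hl1.sub_const 1).norm fun n => (hB n s hs).1.1
    · exact le_of_tendsto' hl2.norm fun n => (hB n s hs).1.2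
    · exact le_of_tendsto' (hl1.sub_const 1).norm fun n => (hB n s hs).2.1
    · exact le_of_tendsto' (hl2.sub_const s).norm fun n => (hB n s hs).2.2
  have htμ : ‖t / μ‖ < r := by
    rw [norm_div]
    refine lt_of_le_of_lt ?_ h3
    exact div_le_self (norm_nonneg _) hμ1.le
  have hmem : (k, μ, t) ∈ Bp k₀ μ₀ ε r := ⟨h1, h2, h3⟩
  have hfdx := hfd (k, μ, t) hmem
  have hev : Tendsto (fun n : ℕ => fderiv ℂ (fun p : ℂ × ℂ × ℂ => UC n p.1 p.2.1 p.2.2)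
      (k, μ, t) (0, 0, 1)) atTop
      (𝓝 (fderiv ℂ (fun p : ℂ × ℂ × ℂ => VC p.1 p.2.1 p.2.2) (k, μ, t) (0, 0, 1))) := by
    have hcont : Continuous fun T : (ℂ × ℂ × ℂ) →L[ℂ] ℂ × ℂ => T ((0, 0, 1) : ℂ × ℂ × ℂ) := by
      fun_prop
    exact (hcont.tendsto _).comp hfdx
  have hdn : ∀ n : ℕ, DifferentiableAt ℂ (fun p : ℂ × ℂ × ℂ => UC n p.1 p.2.1 p.2.2)
      (k, μ, t) := fun n =>
    ((hCn n).differentiableOn one_ne_zero).differentiableAt (hop.mem_nhds hmem)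
  have hdV : DifferentiableAt ℂ (fun p : ℂ × ℂ × ℂ => VC p.1 p.2.1 p.2.2) (k, μ, t) :=
    (hC.differentiableOn one_ne_zero).differentiableAt (hop.mem_nhds hmem)
  refine ⟨hμ1, fun n => hok _ (hB n t h3).1, hok _ (hBV t h3).1, ?_, (hBV t h3).2.1,
    (hBV t h3).2.2, fun n => (hB n t h3).2, hlim k μ t h1 h2 h3, ?_, ?_⟩
  · have hcont := VC3_TC_cont (hok _ (hBV (t / μ) htμ).1)
    have hl1 : Tendsto (fun n => TC k μ (UC n k μ (t / μ))) atTop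
        (𝓝 (TC k μ (VC k μ (t / μ)))) :=
      Tendsto.comp (g := TC k μ) hcont (hlim k μ (t / μ) h1 h2 htμ)
    have hl2 : Tendsto (fun n => UC (n + 1) k μ t) atTop (𝓝 (VC k μ t)) :=
      (hlim k μ t h1 h2 h3).comp (tendsto_add_atTop_nat 1)
    exact tendsto_nhds_unique hl1 hl2
  · have e1 : (fun n => deriv (fun s => (UC n k μ s).1) t) = fun n : ℕ =>
        (fderiv ℂ (fun p : ℂ × ℂ × ℂ => UC n p.1 p.2.1 p.2.2) (k, μ, t) (0, 0, 1)).1 := by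
      funext n
      exact (VC3_deriv (hdn n)).1
    have e2 : deriv (fun s => (VC k μ s).1) t =
        (fderiv ℂ (fun p : ℂ × ℂ × ℂ => VC p.1 p.2.1 p.2.2) (k, μ, t) (0, 0, 1)).1 :=
      (VC3_deriv hdV).1
    rw [e1, e2]
    exact (continuous_fst.tendsto _).comp hev
  · have e1 : (fun n => deriv (fun s => (UC n k μ s).2) t) = fun n : ℕ =>
        (fderiv ℂ (fun p : ℂ × ℂ × ℂ => UC n p.1 p.2.1 p.2.2) (k, μ, t) (0, 0, 1)).2 := by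
      funext n
      exact (VC3_deriv (hdn n)).2
    have e2 : deriv (fun s => (VC k μ s).2) t =
        (fderiv ℂ (fun p : ℂ × ℂ × ℂ => VC p.1 p.2.1 p.2.2) (k, μ, t) (0, 0, 1)).2 :=
      (VC3_deriv hdV).2
    rw [e1, e2]
    exact (continuous_snd.tendsto _).comp hev

end EQK
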